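import Pool.Agent.U21.TL.Tet
import Pool.Agent.TH563.UV.Defs
import Pool.Agent.W737.AR.Gmt

/-!
# Angle structures: quadratic bounds of the volume under fillings
-/

set_option autoImplicit false
set_option linter.unusedVariables false

namespace Pool.Agent.U21.TL

open Finset Filter Topology
open Pool.Agent.TH563.UV
open Pool.Agent.W719.AR (Fl Gap)
open Pool.Agent.W737.AR (Lf)
open scoped Real

/-! ### One edge -/

/-- squared distance -/
noncomputable def nrm (x y : Fl) : ℝ :=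
  (y.a - x.a) ^ 2 + (y.b - x.b) ^ 2 + (y.c - x.c) ^ 2 +
    ((y.a' - x.a') ^ 2 + (y.b' - x.b') ^ 2 + (y.c' - x.c') ^ 2)

lemma nrm_nonneg (x y : Fl) : 0 ≤ nrm x y := by unfold nrm; positivity

theorem fl_q (x : Fl) (hx : x.Pos) : ∃ c : ℝ, 0 < c ∧ ∀ y : Fl, y.Pos →
    y.vol ≤ x.vol - Lf x y - c * nrm x y := by
  obtain ⟨h1, h2, h3, h4, h5, h6, h7, h8⟩ := hx
  obtain ⟨c1, hc1, k1⟩ := tet_q h1 h2 h3 h4
  obtain ⟨c2, hc2, k2⟩ := tet_q h5 h6 h7 h8
  refine ⟨min c1 c2, lt_min hc1 hc2, fun y hy => ?_⟩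
  obtain ⟨g1, g2, g3, g4, g5, g6, g7, g8⟩ := hy
  have e1 := k1 y.a y.b y.c g1.le g2.le g3.le g4
  have e2 := k2 y.a' y.b' y.c' g5.le g6.le g7.le g8
  have e3 : min c1 c2 * ((y.a - x.a) ^ 2 + (y.b - x.b) ^ 2 + (y.c - x.c) ^ 2) ≤
      c1 * ((y.a - x.a) ^ 2 + (y.b - x.b) ^ 2 + (y.c - x.c) ^ 2) :=
    mul_le_mul_of_nonneg_right (min_le_left _ _) (by positivity)
  have e4 : min c1 c2 * ((y.a' - x.a') ^ 2 + (y.b' - x.b') ^ 2 + (y.c' - x.c') ^ 2) ≤
      c2 * ((y.a' - x.a') ^ 2 + (y.b' - x.b') ^ 2 + (y.c' - x.c') ^ 2) :=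
    mul_le_mul_of_nonneg_right (min_le_right _ _) (by positivity)
  unfold Fl.vol Lf nrm
  rw [mul_add]
  linarith

/-- the deformation of the angles at the end of an edge: the rotation angle of a half twist changes
by `h` at this end, by `k` at the other end -/
noncomputable def addF (f : Fl) (h k : ℝ) : Fl :=
  ⟨f.a + (h / 8 + k / 8), f.b + h / 2, f.c + (-(5 * h / 8) - k / 8),
    f.a' + (3 * h / 8 - k / 8), f.b' + (h / 8 + k / 8), f.c' + (-(h / 2))⟩

lemma addF_tw (f : Fl) (h k : ℝ) : (addF f h k).tw = f.tw + h := by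
  unfold Fl.tw addF
  ring

lemma addF_cr (f : Fl) (h k : ℝ) : (addF f h k).cr = f.cr := by
  unfold Fl.cr addF
  ring

theorem fl_pert (f : Fl) (hf : f.Pos) : ∃ ε C : ℝ, 0 < ε ∧ 0 < C ∧ ∀ h k : ℝ, |h| ≤ ε → |k| ≤ ε →
    (addF f h k).Pos ∧ f.vol - Lf f (addF f h k) - C * (h ^ 2 + k ^ 2) ≤ (addF f h k).vol := by
  obtain ⟨h1, h2, h3, h4, h5, h6, h7, h8⟩ := hf
  obtain ⟨e1, C1, p1, q1, r1⟩ := lob_low h1 (by linarith)
  obtain ⟨e2, C2, p2, q2, r2⟩ := lob_low h2 (by linarith)
  obtain ⟨e3, C3, p3, q3, r3⟩ := lob_low h3 (by linarith)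
  obtain ⟨e4, C4, p4, q4, r4⟩ := lob_low h5 (by linarith)
  obtain ⟨e5, C5, p5, q5, r5⟩ := lob_low h6 (by linarith)
  obtain ⟨e6, C6, p6, q6, r6⟩ := lob_low h7 (by linarith)
  obtain ⟨ε, hε, l1, l2, l3, l4, l5, l6⟩ : ∃ ε : ℝ, 0 < ε ∧ ε ≤ e1 ∧ ε ≤ e2 ∧ ε ≤ e3 ∧ ε ≤ e4 ∧
      ε ≤ e5 ∧ ε ≤ e6 :=
    ⟨min e1 (min e2 (min e3 (min e4 (min e5 e6)))), by positivity, by simp, by simp, by simp,
      by simp, by simp, by simp⟩
  refine ⟨ε, C1 + C2 + C3 + C4 + C5 + C6, hε, by positivity, fun h k hh hk => ?_⟩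
  obtain ⟨a1, a2⟩ := abs_le.1 hh
  obtain ⟨b1, b2⟩ := abs_le.1 hk
  have t1 := r1 (h / 8 + k / 8) (abs_le.2 ⟨by linarith, by linarith⟩)
  have t2 := r2 (h / 2) (abs_le.2 ⟨by linarith, by linarith⟩)
  have t3 := r3 (-(5 * h / 8) - k / 8) (abs_le.2 ⟨by linarith, by linarith⟩)
  have t4 := r4 (3 * h / 8 - k / 8) (abs_le.2 ⟨by linarith, by linarith⟩)
  have t5 := r5 (h / 8 + k / 8) (abs_le.2 ⟨by linarith, by linarith⟩)
  have t6 := r6 (-(h / 2)) (abs_le.2 ⟨by linarith, by linarith⟩)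
  refine ⟨⟨t1.1, t2.1, t3.1, ?_, t4.1, t5.1, t6.1, ?_⟩, ?_⟩
  · simp only [addF]
    linarith
  · simp only [addF]
    linarith
  · have s1 : C1 * (h / 8 + k / 8) ^ 2 ≤ C1 * (h ^ 2 + k ^ 2) :=
      mul_le_mul_of_nonneg_left (by nlinarith [sq_nonneg (h - k)]) q1.le
    have s2 : C2 * (h / 2) ^ 2 ≤ C2 * (h ^ 2 + k ^ 2) :=
      mul_le_mul_of_nonneg_left (by nlinarith [sq_nonneg h, sq_nonneg k]) q2.le
    have s3 : C3 * (-(5 * h / 8) - k / 8) ^ 2 ≤ C3 * (h ^ 2 + k ^ 2) :=
      mul_le_mul_of_nonneg_left (by nlinarith [sq_nonneg (h - k), sq_nonneg h, sq_nonneg k]) q3.le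
    have s4 : C4 * (3 * h / 8 - k / 8) ^ 2 ≤ C4 * (h ^ 2 + k ^ 2) :=
      mul_le_mul_of_nonneg_left (by nlinarith [sq_nonneg (h + k), sq_nonneg h, sq_nonneg k]) q4.le
    have s5 : C5 * (h / 8 + k / 8) ^ 2 ≤ C5 * (h ^ 2 + k ^ 2) :=
      mul_le_mul_of_nonneg_left (by nlinarith [sq_nonneg (h - k)]) q5.le
    have s6 : C6 * (-(h / 2)) ^ 2 ≤ C6 * (h ^ 2 + k ^ 2) :=
      mul_le_mul_of_nonneg_left (by nlinarith [sq_nonneg h, sq_nonneg k]) q6.le
    have u1 := t1.2.2
    have u2 := t2.2.2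
    have u3 := t3.2.2
    have u4 := t4.2.2
    have u5 := t5.2.2
    have u6 := t6.2.2
    simp only [Fl.vol, Lf, addF, add_sub_cancel_left]
    linarith

/-! ### Trees -/

/-- the same tree up to labels and angles -/
def Sim : AB → AB → Prop
  | .vx _ _, .vx _ _ => True
  | .br t c _ _, .br t' c' _ _ => Sim t t' ∧ Sim c c'
  | _, _ => False

/-- all angles are positive -/
def PA : AB → Prop
  | .vx _ _ => True
  | .br t c f g => PA t ∧ PA c ∧ f.Pos ∧ g.Pos

/-- the derivative of the volume -/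
noncomputable def lin : AB → AB → ℝ
  | .br t c f g, .br t' c' f' g' => lin t t' + lin c c' + (Lf f f' + Lf g g')
  | _, _ => 0

/-- the squared distance -/
noncomputable def dst2 : AB → AB → ℝ
  | .br t c f g, .br t' c' f' g' => dst2 t t' + dst2 c c' + (nrm f f' + nrm g g')
  | _, _ => 0

lemma dst2_nonneg : ∀ y z : AB, 0 ≤ dst2 y z
  | .vx _ _, .vx _ _ => le_rfl
  | .vx _ _, .br _ _ _ _ => le_rfl
  | .br _ _ _ _, .vx _ _ => le_rfl
  | .br t c f g, .br t' c' f' g' => by
    have h1 := dst2_nonneg t t'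
    have h2 := dst2_nonneg c c'
    have h3 := nrm_nonneg f f'
    have h4 := nrm_nonneg g g'
    simp only [dst2]
    linarith

theorem vol_q (y : AB) (hy : PA y) : ∃ c : ℝ, 0 < c ∧ ∀ z : AB, Sim y z → PA z →
    z.vol ≤ y.vol - 2 * lin y z - c * dst2 y z := by
  induction y with
  | vx b a =>
    refine ⟨1, one_pos, fun z h1 h2 => ?_⟩
    cases z with
    | vx b' a' => simp [AB.vol, lin, dst2]
    | br t' c' f' g' => exact absurd h1 (by simp [Sim])
  | br t c f g iht ihc =>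
    obtain ⟨p1, p2, p3, p4⟩ := hy
    obtain ⟨c1, hc1, k1⟩ := iht p1
    obtain ⟨c2, hc2, k2⟩ := ihc p2
    obtain ⟨c3, hc3, k3⟩ := fl_q f p3
    obtain ⟨c4, hc4, k4⟩ := fl_q g p4
    obtain ⟨m, hm, l1, l2, l3, l4⟩ : ∃ m : ℝ, 0 < m ∧ m ≤ c1 ∧ m ≤ c2 ∧ m ≤ c3 ∧ m ≤ c4 :=
      ⟨min c1 (min c2 (min c3 c4)), by positivity, by simp, by simp, by simp, by simp⟩
    refine ⟨m, hm, fun z h1 h2 => ?_⟩
    cases z with
    | vx b' a' => exact absurd h1 (by simp [Sim])
    | br t' c' f' g' =>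
      have e1 := k1 t' h1.1 h2.1
      have e2 := k2 c' h1.2 h2.2.1
      have e3 := k3 f' h2.2.2.1
      have e4 := k4 g' h2.2.2.2
      have s1 := mul_le_mul_of_nonneg_right l1 (dst2_nonneg t t')
      have s2 := mul_le_mul_of_nonneg_right l2 (dst2_nonneg c c')
      have s3 := mul_le_mul_of_nonneg_right l3 (nrm_nonneg f f')
      have s4 := mul_le_mul_of_nonneg_right l4 (nrm_nonneg g g')
      have s5 := mul_nonneg hm.le (nrm_nonneg f f')
      have s6 := mul_nonneg hm.le (nrm_nonneg g g')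
      simp only [AB.vol, lin, dst2]
      have e0 : m * (dst2 t t' + dst2 c c' + (nrm f f' + nrm g g')) =
          m * dst2 t t' + m * dst2 c c' + (m * nrm f f' + m * nrm g g') := by ring
      rw [e0]
      linarith

/-! ### Conditions at the vertices -/

/-- the conditions at a vertex, weak form -/
def WV (b : Bool) (w : ℤ) (l : List (Fl × Fl)) : Prop := ∃ h : ℝ,
  (∀ x ∈ l, x.1.tw = h ∧ 2 * x.1.c + (x.2.a + x.2.b') = π - h ∧
    2 * x.1.a' + (x.2.a + x.2.b') = π + h) ∧
  (b = false → (l.map fun y => y.1.cr).sum = 2 * π + w * h)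

/-- the conditions at a vertex, strong form: complete at the circles -/
def SV (b : Bool) (w : ℤ) (l : List (Fl × Fl)) : Prop := ∃ h : ℝ,
  (∀ x ∈ l, x.1.tw = h ∧ 2 * x.1.c + (x.2.a + x.2.b') = π - h ∧
    2 * x.1.a' + (x.2.a + x.2.b') = π + h) ∧
  (b = true → h = 0 ∧ (l.map fun y => y.1.cr).sum = 0) ∧
  (b = false → (l.map fun y => y.1.cr).sum = 2 * π + w * h)

lemma chain_all {α : Type} {R : α → α → Prop} {l : List α} (h : ∀ x ∈ l, ∀ y ∈ l, R x y) :
    l.IsChain R := by
  induction l with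
  | nil => exact List.IsChain.nil
  | cons x l ih =>
    cases l with
    | nil => exact List.IsChain.singleton x
    | cons y l =>
      exact List.IsChain.cons_cons (h x (by simp) y (by simp))
        (ih fun a ha b hb => h a (List.mem_cons_of_mem _ ha) b (List.mem_cons_of_mem _ hb))

lemma wv_vok {b : Bool} {w : ℤ} {l : List (Fl × Fl)} (h : WV b w l) : VOK b w l := by
  obtain ⟨h, h1, h2⟩ := h
  refine ⟨chain_all ?_, ?_, ?_⟩
  · intro x hx y hy
    have hm : ∀ z ∈ l ++ l.take 1, z ∈ l := by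
      intro z hz
      rcases List.mem_append.1 hz with h | h
      · exact h
      · exact List.mem_of_mem_take h
    have a1 := (h1 x (hm x hx)).2.1
    have a2 := (h1 y (hm y hy)).2.2
    unfold Gap
    linarith
  · intro x hx y hy
    rw [(h1 x hx).1, (h1 y hy).1]
  · intro hb x hx
    rw [(h1 x hx).1]
    exact h2 hb

/-- the rotation angle of a half twist at a filled vertex -/
noncomputable def th (b b' : Bool) (w' : ℤ) : ℝ :=
  if b = true ∧ b' = false then -(2 * π) / w' else 0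

lemma cv_pert {b b' : Bool} {w w' : ℤ} {l l' : List (Fl × Fl)} (h : SV b w l)
    (hbw : (b = b' ∧ (b = false → w = w')) ∨ (b = true ∧ b' = false ∧ w' ≠ 0))
    (hm : ∀ x' ∈ l', ∃ x ∈ l, ∃ k : ℝ, x' = (addF x.1 (th b b' w') k, addF x.2 k (th b b' w')))
    (hs : (l'.map fun y => y.1.cr).sum = (l.map fun y => y.1.cr).sum) :
    WV b w l' ∧ WV b' w' l' := by
  obtain ⟨h, h1, h2, h3⟩ := h
  have key : ∀ x' ∈ l', x'.1.tw = h + th b b' w' ∧
      2 * x'.1.c + (x'.2.a + x'.2.b') = π - (h + th b b' w') ∧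
      2 * x'.1.a' + (x'.2.a + x'.2.b') = π + (h + th b b' w') := by
    intro x' hx'
    obtain ⟨x, hx, k, rfl⟩ := hm x' hx'
    obtain ⟨a1, a2, a3⟩ := h1 x hx
    refine ⟨by rw [addF_tw, a1], ?_, ?_⟩
    · simp only [addF]
      linarith
    · simp only [addF]
      linarith
  rcases hbw with ⟨rfl, hw⟩ | ⟨rfl, rfl, hw⟩
  · have hth : th b b w' = 0 := by
      unfold th
      rw [if_neg]
      rintro ⟨p, q⟩
      rw [p] at q
      exact absurd q (by simp)
    rw [hth, add_zero] at key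
    exact ⟨⟨h, key, fun hb => by rw [hs]; exact h3 hb⟩,
      ⟨h, key, fun hb => by rw [hs, ← hw hb]; exact h3 hb⟩⟩
  · obtain ⟨p, q⟩ := h2 rfl
    refine ⟨⟨_, key, fun hb => absurd hb (by simp)⟩, ⟨_, key, fun _ => ?_⟩⟩
    rw [hs, q, p]
    have hw' : (w' : ℝ) ≠ 0 := by exact_mod_cast hw
    unfold th
    rw [if_pos ⟨rfl, rfl⟩]
    field_simp
    ring

/-! ### Conditions at all vertices -/

/-- the conditions at the edges and at the vertices other than the root -/
def AOK (V : Bool → ℤ → List (Fl × Fl) → Prop) : AB → Prop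
  | .vx _ _ => True
  | .br t c f g => AOK V t ∧ AOK V c ∧ f.Pos ∧ g.Pos ∧ f.b + f.c' + (g.b + g.c') = 2 * π ∧
      V c.bl c.wt ((g, f) :: c.fl)

lemma aok_mono {V V' : Bool → ℤ → List (Fl × Fl) → Prop} (h : ∀ b w l, V b w l → V' b w l)
    (y : AB) (hy : AOK V y) : AOK V' y := by
  induction y with
  | vx b a => trivial
  | br t c f g iht ihc =>
    obtain ⟨h1, h2, h3, h4, h5, h6⟩ := hy
    exact ⟨iht h1, ihc h2, h3, h4, h5, h _ _ _ h6⟩

lemma ok_of_aok (y : AB) (hy : AOK VOK y) : y.OK := by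
  induction y with
  | vx b a => trivial
  | br t c f g iht ihc =>
    obtain ⟨h1, h2, h3, h4, h5, h6⟩ := hy
    exact ⟨iht h1, ihc h2, h3, h4, h5, h6⟩

lemma pa_of_aok {V : Bool → ℤ → List (Fl × Fl) → Prop} (y : AB) (hy : AOK V y) : PA y := by
  induction y with
  | vx b a => trivial
  | br t c f g iht ihc =>
    obtain ⟨h1, h2, h3, h4, h5, h6⟩ := hy
    exact ⟨iht h1, ihc h2, h3, h4⟩

lemma pa_of_ok (y : AB) (hy : y.OK) : PA y := by
  induction y with
  | vx b a => trivial
  | br t c f g iht ihc =>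
    obtain ⟨h1, h2, h3, h4, h5, h6⟩ := hy
    exact ⟨iht h1, ihc h2, h3, h4⟩

/-! ### Fillings -/

/-- the same tree up to labels -/
def SimT : Tb → Tb → Prop
  | .vx _ _, .vx _ _ => True
  | .br t c, .br t' c' => SimT t t' ∧ SimT c c'
  | _, _ => False

/-- `t` is obtained from `s` by filling circles, with weights of absolute value at least `M` -/
def FilT (M : ℕ) : Tb → Tb → Prop
  | .vx b a, .vx b' a' => (b = b' ∧ (b = false → a = a')) ∨
      (b = true ∧ b' = false ∧ (M : ℤ) ≤ |a'|)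
  | .br t c, .br t' c' => FilT M t t' ∧ FilT M c c'
  | _, _ => False

/-- the sum of the squares of the inverses of the new weights -/
noncomputable def costT : Tb → Tb → ℝ
  | .vx b _, .vx b' a' => if b = true ∧ b' = false then 1 / (a' : ℝ) ^ 2 else 0
  | .br t c, .br t' c' => costT t t' + costT c c'
  | _, _ => 0

lemma costT_nonneg : ∀ s t : Tb, 0 ≤ costT s t
  | .vx b _, .vx b' a' => by
    simp only [costT]
    split_ifs
    · positivity
    · exact le_rfl
  | .vx _ _, .br _ _ => le_rfl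
  | .br _ _, .vx _ _ => le_rfl
  | .br t c, .br t' c' => add_nonneg (costT_nonneg t t') (costT_nonneg c c')

lemma filT_mono {M M' : ℕ} (hM : M' ≤ M) : ∀ s t : Tb, FilT M s t → FilT M' s t
  | .vx b _, .vx b' a', h => by
    rcases h with h | ⟨h1, h2, h3⟩
    · exact Or.inl h
    · refine Or.inr ⟨h1, h2, le_trans ?_ h3⟩
      exact_mod_cast hM
  | .vx _ _, .br _ _, h => h
  | .br _ _, .vx _ _, h => h
  | .br t c, .br t' c', h => ⟨filT_mono hM t t' h.1, filT_mono hM c c' h.2⟩

lemma simT_of_fil {M : ℕ} : ∀ s t : Tb, FilT M s t → SimT s t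
  | .vx b _, .vx b' a', _ => trivial
  | .vx _ _, .br _ _, h => h
  | .br _ _, .vx _ _, h => h
  | .br t c, .br t' c', h => ⟨simT_of_fil t t' h.1, simT_of_fil c c' h.2⟩

lemma simT_symm : ∀ s t : Tb, SimT s t → SimT t s
  | .vx b _, .vx b' a', _ => trivial
  | .vx _ _, .br _ _, h => h
  | .br _ _, .vx _ _, h => h
  | .br t c, .br t' c', h => ⟨simT_symm t t' h.1, simT_symm c c' h.2⟩

/-- the labels of the roots -/
lemma fil_root {M : ℕ} : ∀ s t : Tb, FilT M s t → (s.bl = t.bl ∧ (s.bl = false → s.wt = t.wt)) ∨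
    (s.bl = true ∧ t.bl = false ∧ (M : ℤ) ≤ |t.wt|)
  | .vx b _, .vx b' a', h => h
  | .vx _ _, .br _ _, h => h.elim
  | .br _ _, .vx _ _, h => h.elim
  | .br t c, .br t' c', h => fil_root t t' h.1

lemma fil_root' {M : ℕ} (hM : 0 < M) {s t : Tb} (h : FilT M s t) :
    (s.bl = t.bl ∧ (s.bl = false → s.wt = t.wt)) ∨
    (s.bl = true ∧ t.bl = false ∧ t.wt ≠ 0) := by
  rcases fil_root s t h with h | ⟨h1, h2, h3⟩
  · exact Or.inl h
  · refine Or.inr ⟨h1, h2, ?_⟩
    intro h0
    rw [h0, abs_zero] at h3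
    omega

/-- the contribution of the root -/
noncomputable def rc (s t : Tb) : ℝ := if s.bl = true ∧ t.bl = false then 1 / (t.wt : ℝ) ^ 2 else 0

/-- the contribution of the other vertices -/
noncomputable def costB : Tb → Tb → ℝ
  | .br t c, .br t' c' => costB t t' + (costB c c' + rc c c')
  | _, _ => 0

lemma cost_split : ∀ s t : Tb, SimT s t → costT s t = costB s t + rc s t
  | .vx b _, .vx b' a', _ => by simp [costT, costB, rc, Tb.bl, Tb.wt]
  | .vx _ _, .br _ _, h => h.elim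
  | .br _ _, .vx _ _, h => h.elim
  | .br t c, .br t' c', h => by
    have h1 := cost_split t t' h.1
    have h2 := cost_split c c' h.2
    have e : rc (.br t c) (.br t' c') = rc t t' := rfl
    simp only [costT, costB]
    rw [h1, h2, e]
    ring

lemma costB_nonneg : ∀ s t : Tb, 0 ≤ costB s t
  | .vx b _, .vx b' a' => le_rfl
  | .vx _ _, .br _ _ => le_rfl
  | .br _ _, .vx _ _ => le_rfl
  | .br t c, .br t' c' => by
    have h1 := costB_nonneg t t'
    have h2 := costB_nonneg c c'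
    have h3 : 0 ≤ rc c c' := by
      unfold rc
      split_ifs
      · positivity
      · exact le_rfl
    simp only [costB]
    linarith

lemma th_sq (s t : Tb) : (th s.bl t.bl t.wt) ^ 2 = 4 * π ^ 2 * rc s t := by
  unfold th rc
  split_ifs
  · ring
  · ring

lemma th_sq_le {s t : Tb} (h : SimT s t) :
    (th s.bl t.bl t.wt) ^ 2 ≤ 4 * π ^ 2 * costT s t := by
  rw [th_sq, cost_split s t h]
  apply mul_le_mul_of_nonneg_left _ (by positivity)
  linarith [costB_nonneg s t]

lemma th_abs {M : ℕ} (hM : 0 < M) {s t : Tb} (h : FilT M s t) :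
    |th s.bl t.bl t.wt| ≤ 2 * π / M := by
  unfold th
  split_ifs with hc
  · rcases fil_root s t h with ⟨h1, -⟩ | ⟨-, -, h3⟩
    · rw [hc.1, hc.2] at h1
      exact absurd h1 (by simp)
    · rw [abs_div, abs_neg, abs_of_pos (by positivity : (0 : ℝ) < 2 * π)]
      have h1 : (M : ℝ) ≤ |(t.wt : ℝ)| := by
        rw [← Int.cast_abs]
        exact_mod_cast h3
      have h2 : (0 : ℝ) < M := by exact_mod_cast hM
      exact div_le_div_of_nonneg_left (by positivity) h2 h1
  · rw [abs_zero]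
    positivity

/-! ### The deformation -/

/-- the deformation of an angle structure `y` for the filling `t` -/
noncomputable def pert : AB → Tb → AB
  | .vx b a, _ => .vx b a
  | .br y₁ y₂ f g, .br t c => .br (pert y₁ t) (pert y₂ c)
      (addF f (th y₁.bl t.bl t.wt) (th y₂.bl c.bl c.wt))
      (addF g (th y₂.bl c.bl c.wt) (th y₁.bl t.bl t.wt))
  | .br y₁ y₂ f g, .vx _ _ => .br y₁ y₂ f g

/-- new labels -/
def relab : AB → Tb → AB
  | .vx _ _, .vx b a => .vx b a
  | .br y₁ y₂ f g, .br t c => .br (relab y₁ t) (relab y₂ c) f g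
  | y, _ => y

lemma shape_bl (y : AB) : y.shape.bl = y.bl := by
  induction y with
  | vx b a => rfl
  | br t c f g iht ihc => exact iht

lemma shape_wt (y : AB) : y.shape.wt = y.wt := by
  induction y with
  | vx b a => rfl
  | br t c f g iht ihc => exact iht

lemma pert_shape (y : AB) : ∀ t : Tb, (pert y t).shape = y.shape := by
  induction y with
  | vx b a => intro t; rfl
  | br y₁ y₂ f g ih1 ih2 =>
    intro t
    cases t with
    | vx b a => rfl
    | br t c => simp only [pert, AB.shape, ih1 t, ih2 c]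

lemma pert_bl (y : AB) (t : Tb) : (pert y t).bl = y.bl := by
  rw [← shape_bl, ← shape_bl, pert_shape]

lemma pert_wt (y : AB) (t : Tb) : (pert y t).wt = y.wt := by
  rw [← shape_wt, ← shape_wt, pert_shape]

lemma pert_fl (y : AB) : ∀ t : Tb, SimT y.shape t →
    (∀ x' ∈ (pert y t).fl, ∃ x ∈ y.fl, ∃ k : ℝ,
      x' = (addF x.1 (th y.bl t.bl t.wt) k, addF x.2 k (th y.bl t.bl t.wt))) ∧
    ((pert y t).fl.map fun y => y.1.cr).sum = (y.fl.map fun y => y.1.cr).sum := by
  induction y with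
  | vx b a =>
    intro t _
    refine ⟨?_, rfl⟩
    intro x' hx'
    exact absurd hx' (by simp [pert, AB.fl])
  | br y₁ y₂ f g ih1 ih2 =>
    intro t ht
    cases t with
    | vx b a => exact absurd ht (by simp [AB.shape, SimT])
    | br t c =>
      obtain ⟨a1, a2⟩ := ih1 t ht.1
      have eb : (AB.br y₁ y₂ f g).bl = y₁.bl := rfl
      have et : (Tb.br t c).bl = t.bl := rfl
      have ew : (Tb.br t c).wt = t.wt := rfl
      rw [eb, et, ew]
      refine ⟨?_, ?_⟩
      · intro x' hx'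
        simp only [pert, AB.fl, List.mem_append, List.mem_singleton] at hx'
        rcases hx' with hx' | hx'
        · obtain ⟨x, hx, k, e⟩ := a1 x' hx'
          exact ⟨x, by simp only [AB.fl, List.mem_append]; exact Or.inl hx, k, e⟩
        · exact ⟨(f, g), by simp [AB.fl], th y₂.bl c.bl c.wt, hx'⟩
      · simp only [pert, AB.fl, List.map_append, List.sum_append, a2, List.map_cons, List.map_nil,
          addF_cr]

lemma relab_shape (y : AB) : ∀ t : Tb, SimT y.shape t → (relab y t).shape = t := by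
  induction y with
  | vx b a =>
    intro t ht
    cases t with
    | vx b a => rfl
    | br t c => exact absurd ht (by simp [AB.shape, SimT])
  | br y₁ y₂ f g ih1 ih2 =>
    intro t ht
    cases t with
    | vx b a => exact absurd ht (by simp [AB.shape, SimT])
    | br t c => simp only [relab, AB.shape, ih1 t ht.1, ih2 c ht.2]

lemma relab_fl (y : AB) : ∀ t : Tb, SimT y.shape t → (relab y t).fl = y.fl := by
  induction y with
  | vx b a =>
    intro t ht
    cases t with
    | vx b a => rfl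
    | br t c => exact absurd ht (by simp [AB.shape, SimT])
  | br y₁ y₂ f g ih1 ih2 =>
    intro t ht
    cases t with
    | vx b a => exact absurd ht (by simp [AB.shape, SimT])
    | br t c => simp only [relab, AB.fl, ih1 t ht.1]

lemma relab_vol (y : AB) : ∀ t : Tb, (relab y t).vol = y.vol := by
  induction y with
  | vx b a =>
    intro t
    cases t <;> rfl
  | br y₁ y₂ f g ih1 ih2 =>
    intro t
    cases t with
    | vx b a => rfl
    | br t c => simp only [relab, AB.vol, ih1 t, ih2 c]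

lemma relab_dst (x : AB) : ∀ (y : AB) (t : Tb), dst2 x (relab y t) = dst2 x y := by
  induction x with
  | vx b a =>
    intro y t
    cases y <;> cases t <;> rfl
  | br x₁ x₂ f g ih1 ih2 =>
    intro y t
    cases y with
    | vx b a => cases t <;> rfl
    | br y₁ y₂ f g =>
      cases t with
      | vx b a => rfl
      | br t c => simp only [relab, dst2, ih1, ih2]

lemma relab_bl (y : AB) (t : Tb) (h : SimT y.shape t) : (relab y t).bl = t.bl := by
  rw [← shape_bl, relab_shape y t h]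

lemma relab_wt (y : AB) (t : Tb) (h : SimT y.shape t) : (relab y t).wt = t.wt := by
  rw [← shape_wt, relab_shape y t h]

lemma sim_of_shape (y : AB) : ∀ z : AB, SimT y.shape z.shape → Sim y z := by
  induction y with
  | vx b a =>
    intro z h
    cases z with
    | vx b a => trivial
    | br z₁ z₂ f g => exact absurd h (by simp [AB.shape, SimT])
  | br y₁ y₂ f g ih1 ih2 =>
    intro z h
    cases z with
    | vx b a => exact absurd h (by simp [AB.shape, SimT])
    | br z₁ z₂ f' g' => exact ⟨ih1 z₁ h.1, ih2 z₂ h.2⟩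

lemma simT_refl : ∀ t : Tb, SimT t t
  | .vx _ _ => trivial
  | .br t c => ⟨simT_refl t, simT_refl c⟩

theorem pert_main (y : AB) (hy : AOK SV y) : ∃ (M : ℕ) (C : ℝ), 0 < M ∧ 0 ≤ C ∧
    ∀ t : Tb, FilT M y.shape t → AOK WV (pert y t) ∧ AOK WV (relab (pert y t) t) ∧
      y.vol - 2 * lin y (pert y t) - C * costT y.shape t ≤ (pert y t).vol := by
  induction y with
  | vx b a =>
    refine ⟨1, 0, one_pos, le_rfl, fun t ht => ?_⟩
    cases t with
    | vx b' a' => exact ⟨trivial, trivial, by simp [pert, AB.vol, lin]⟩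
    | br t c => exact absurd ht (by simp [AB.shape, FilT])
  | br y₁ y₂ f g ih1 ih2 =>
    obtain ⟨o1, o2, o3, o4, o5, o6⟩ := hy
    obtain ⟨M1, C1, m1, n1, k1⟩ := ih1 o1
    obtain ⟨M2, C2, m2, n2, k2⟩ := ih2 o2
    obtain ⟨ε3, C3, m3, n3, k3⟩ := fl_pert f o3
    obtain ⟨ε4, C4, m4, n4, k4⟩ := fl_pert g o4
    obtain ⟨M3, hM3⟩ := exists_nat_gt (2 * π / min ε3 ε4)
    have hmin : 0 < min ε3 ε4 := lt_min m3 m4
    refine ⟨max M1 (max M2 M3), C1 + C2 + (2 * C3 + 2 * C4) * (8 * π ^ 2), by positivity,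
      by positivity, fun t ht => ?_⟩
    cases t with
    | vx b a => exact absurd ht (by simp [AB.shape, FilT])
    | br t c =>
      have hMpos : 0 < max M1 (max M2 M3) := lt_of_lt_of_le m1 (le_max_left _ _)
      obtain ⟨ht1, ht2⟩ := ht
      have s1 := simT_of_fil _ _ ht1
      have s2 := simT_of_fil _ _ ht2
      obtain ⟨a1, a2, a3⟩ := k1 t (filT_mono (le_max_left _ _) _ _ ht1)
      obtain ⟨b1, b2, b3⟩ := k2 c (filT_mono ((le_max_left _ _).trans (le_max_right _ _)) _ _ ht2)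
      have hsm : 2 * π / (max M1 (max M2 M3) : ℕ) ≤ min ε3 ε4 := by
        have h1 : (M3 : ℝ) ≤ (max M1 (max M2 M3) : ℕ) := by
          exact_mod_cast (le_max_right M2 M3).trans (le_max_right M1 _)
        have h2 : 2 * π / min ε3 ε4 ≤ (max M1 (max M2 M3) : ℕ) := hM3.le.trans h1
        rw [div_le_iff₀ hmin] at h2
        rw [div_le_iff₀ (by exact_mod_cast hMpos)]
        linarith
      have t1 := (th_abs hMpos ht1).trans hsm
      have t2 := (th_abs hMpos ht2).trans hsm
      rw [shape_bl] at t1 t2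
      have q1 := th_sq_le s1
      have q2 := th_sq_le s2
      rw [shape_bl] at q1 q2
      obtain ⟨c1, c2⟩ := k3 (th y₁.bl t.bl t.wt) (th y₂.bl c.bl c.wt)
        (t1.trans (min_le_left _ _)) (t2.trans (min_le_left _ _))
      obtain ⟨d1, d2⟩ := k4 (th y₂.bl c.bl c.wt) (th y₁.bl t.bl t.wt)
        (t2.trans (min_le_right _ _)) (t1.trans (min_le_right _ _))
      obtain ⟨p1, p2⟩ := pert_fl y₂ c s2
      have hbw := fil_root' hMpos ht2
      rw [shape_bl, shape_wt] at hbw
      have hcv := cv_pert (b' := c.bl) (w' := c.wt)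
        (l' := (addF g (th y₂.bl c.bl c.wt) (th y₁.bl t.bl t.wt),
          addF f (th y₁.bl t.bl t.wt) (th y₂.bl c.bl c.wt)) :: (pert y₂ c).fl) o6 hbw
        (by
          intro x' hx'
          rcases List.mem_cons.1 hx' with rfl | hx'
          · exact ⟨(g, f), by simp, th y₁.bl t.bl t.wt, rfl⟩
          · obtain ⟨x, hx, k, e⟩ := p1 x' hx'
            exact ⟨x, List.mem_cons_of_mem _ hx, k, e⟩)
        (by
          simp only [List.map_cons, List.sum_cons, addF_cr]
          rw [p2])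
      have hdia : (addF f (th y₁.bl t.bl t.wt) (th y₂.bl c.bl c.wt)).b +
          (addF f (th y₁.bl t.bl t.wt) (th y₂.bl c.bl c.wt)).c' +
          ((addF g (th y₂.bl c.bl c.wt) (th y₁.bl t.bl t.wt)).b +
          (addF g (th y₂.bl c.bl c.wt) (th y₁.bl t.bl t.wt)).c') = 2 * π := by
        simp only [addF]
        linarith
      have s2' : SimT (pert y₂ c).shape c := by rw [pert_shape]; exact s2
      refine ⟨⟨a1, b1, c1, d1, hdia, ?_⟩, ⟨a2, b2, c1, d1, hdia, ?_⟩, ?_⟩
      · rw [pert_bl, pert_wt]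
        exact hcv.1
      · show WV (relab (pert y₂ c) c).bl (relab (pert y₂ c) c).wt (_ :: (relab (pert y₂ c) c).fl)
        rw [relab_bl _ _ s2', relab_wt _ _ s2', relab_fl _ _ s2']
        exact hcv.2
      · simp only [pert, AB.vol, AB.shape, lin, costT]
        have n1' := costT_nonneg y₁.shape t
        have n2' := costT_nonneg y₂.shape c
        have r1 : 2 * C3 * ((th y₁.bl t.bl t.wt) ^ 2 + (th y₂.bl c.bl c.wt) ^ 2) ≤
            2 * C3 * (8 * π ^ 2) * (costT y₁.shape t + costT y₂.shape c) := by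
          have : (th y₁.bl t.bl t.wt) ^ 2 + (th y₂.bl c.bl c.wt) ^ 2 ≤
              8 * π ^ 2 * (costT y₁.shape t + costT y₂.shape c) := by
            nlinarith [sq_nonneg π, mul_nonneg (sq_nonneg π) n1', mul_nonneg (sq_nonneg π) n2']
          calc _ ≤ 2 * C3 * (8 * π ^ 2 * (costT y₁.shape t + costT y₂.shape c)) :=
                mul_le_mul_of_nonneg_left this (by positivity)
            _ = _ := by ring
        have r2 : 2 * C4 * ((th y₂.bl c.bl c.wt) ^ 2 + (th y₁.bl t.bl t.wt) ^ 2) ≤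
            2 * C4 * (8 * π ^ 2) * (costT y₁.shape t + costT y₂.shape c) := by
          have : (th y₂.bl c.bl c.wt) ^ 2 + (th y₁.bl t.bl t.wt) ^ 2 ≤
              8 * π ^ 2 * (costT y₁.shape t + costT y₂.shape c) := by
            nlinarith [sq_nonneg π, mul_nonneg (sq_nonneg π) n1', mul_nonneg (sq_nonneg π) n2']
          calc _ ≤ 2 * C4 * (8 * π ^ 2 * (costT y₁.shape t + costT y₂.shape c)) :=
                mul_le_mul_of_nonneg_left this (by positivity)
            _ = _ := by ring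
        have r3 : 0 ≤ C2 * costT y₁.shape t := mul_nonneg n2 n1'
        have r4 : 0 ≤ C1 * costT y₂.shape c := mul_nonneg n1 n2'
        nlinarith

end Pool.Agent.U21.TL
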