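import Pool.Agent.U21.TL.Ang

/-!
# Upper and lower bounds for the volume of a filling
-/

set_option autoImplicit false
set_option linter.unusedVariables false

namespace Pool.Agent.U21.TL

open Finset Filter Topology
open Pool.Agent.TH563.UV
open Pool.Agent.W719.AR (Fl Gap)
open Pool.Agent.W737.AR (Lf)
open scoped Real

/-- a complete angle structure at which the derivative of the volume vanishes -/
def Crit (y : AB) : Prop := AOK SV y ∧ SV y.bl y.wt y.fl ∧
  ∀ z : AB, z.shape = y.shape → z.IsAng → lin y z = 0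

/-! ### The lower bound -/

theorem low (y : AB) (hy : Crit y) : ∃ (M : ℕ) (C : ℝ), 0 < M ∧ 0 ≤ C ∧
    ∀ t : Tb, FilT M y.shape t →
      ∃ z : AB, z.shape = t ∧ z.IsAng ∧ y.vol - C * costT y.shape t ≤ z.vol := by
  obtain ⟨h1, h2, h3⟩ := hy
  obtain ⟨M, C, hM, hC, k⟩ := pert_main y h1
  refine ⟨M, C, hM, hC, fun t ht => ?_⟩
  have hs := simT_of_fil _ _ ht
  obtain ⟨a1, a2, a3⟩ := k t ht
  obtain ⟨p1, p2⟩ := pert_fl y t hs
  have hbw := fil_root' hM ht
  rw [shape_bl, shape_wt] at hbw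
  obtain ⟨c1, c2⟩ := cv_pert (l' := (pert y t).fl) h2 hbw p1 p2
  have hs' : SimT (pert y t).shape t := by rw [pert_shape]; exact hs
  have hlin : lin y (pert y t) = 0 := by
    apply h3 _ (pert_shape y t)
    refine ⟨ok_of_aok _ (aok_mono (fun _ _ _ => wv_vok) _ a1), ?_⟩
    rw [pert_bl, pert_wt]
    exact wv_vok c1
  refine ⟨relab (pert y t) t, relab_shape _ _ hs',
    ⟨ok_of_aok _ (aok_mono (fun _ _ _ => wv_vok) _ a2), ?_⟩, ?_⟩
  · rw [relab_bl _ _ hs', relab_wt _ _ hs', relab_fl _ _ hs']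
    exact wv_vok c2
  · rw [relab_vol]
    rw [hlin] at a3
    linarith

/-! ### The upper bound -/

lemma forall2_fl (y : AB) : ∀ (z : AB) (q : ℝ), Sim y z → dst2 y z ≤ q →
    List.Forall₂ (fun p p' : Fl × Fl => nrm p.1 p'.1 ≤ q) y.fl z.fl := by
  induction y with
  | vx b a =>
    intro z q hz _
    cases z with
    | vx b a => exact List.Forall₂.nil
    | br t' c' f' g' => exact absurd hz (by simp [Sim])
  | br t c f g iht ihc =>
    intro z q hz hq
    cases z with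
    | vx b a => exact absurd hz (by simp [Sim])
    | br t' c' f' g' =>
      simp only [dst2] at hq
      have h2 := dst2_nonneg c c'
      have h1 := dst2_nonneg t t'
      have h3 := nrm_nonneg f f'
      have h4 := nrm_nonneg g g'
      exact List.rel_append (iht t' q hz.1 (by linarith))
        (List.Forall₂.cons (by show nrm f f' ≤ q; linarith) List.Forall₂.nil)

lemma cr_le {x y : Fl} {q : ℝ} (h : nrm x y ≤ q) :
    |y.cr - x.cr| ≤ 3 * Real.sqrt q ∧ |y.tw - x.tw| ≤ 3 * Real.sqrt q := by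
  unfold nrm at h
  have k1 : |y.a - x.a| ≤ Real.sqrt q := Real.abs_le_sqrt (by
    nlinarith [sq_nonneg (y.b - x.b), sq_nonneg (y.c - x.c), sq_nonneg (y.a' - x.a'),
      sq_nonneg (y.b' - x.b'), sq_nonneg (y.c' - x.c')])
  have k2 : |y.b - x.b| ≤ Real.sqrt q := Real.abs_le_sqrt (by
    nlinarith [sq_nonneg (y.a - x.a), sq_nonneg (y.c - x.c), sq_nonneg (y.a' - x.a'),
      sq_nonneg (y.b' - x.b'), sq_nonneg (y.c' - x.c')])
  have k3 : |y.a' - x.a'| ≤ Real.sqrt q := Real.abs_le_sqrt (by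
    nlinarith [sq_nonneg (y.b - x.b), sq_nonneg (y.c - x.c), sq_nonneg (y.a - x.a),
      sq_nonneg (y.b' - x.b'), sq_nonneg (y.c' - x.c')])
  have k4 : |y.c' - x.c'| ≤ Real.sqrt q := Real.abs_le_sqrt (by
    nlinarith [sq_nonneg (y.b - x.b), sq_nonneg (y.c - x.c), sq_nonneg (y.a - x.a),
      sq_nonneg (y.b' - x.b'), sq_nonneg (y.a' - x.a')])
  obtain ⟨a1, a2⟩ := abs_le.1 k1
  obtain ⟨b1, b2⟩ := abs_le.1 k2
  obtain ⟨c1, c2⟩ := abs_le.1 k3
  obtain ⟨d1, d2⟩ := abs_le.1 k4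
  unfold Fl.cr Fl.tw
  refine ⟨abs_le.2 ⟨?_, ?_⟩, abs_le.2 ⟨?_, ?_⟩⟩ <;> linarith

lemma cr_sum {l l' : List (Fl × Fl)} {q : ℝ}
    (h : List.Forall₂ (fun p p' : Fl × Fl => nrm p.1 p'.1 ≤ q) l l') :
    |(l'.map fun y => y.1.cr).sum - (l.map fun y => y.1.cr).sum| ≤
      l.length * (3 * Real.sqrt q) := by
  induction h with
  | nil => simp
  | @cons a b l l' h1 _ ih =>
    simp only [List.map_cons, List.sum_cons, List.length_cons]
    have h2 := (cr_le h1).1
    have e : b.1.cr + (l'.map fun y => y.1.cr).sum - (a.1.cr + (l.map fun y => y.1.cr).sum) =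
        (b.1.cr - a.1.cr) + ((l'.map fun y => y.1.cr).sum - (l.map fun y => y.1.cr).sum) := by ring
    rw [e]
    refine (abs_add_le _ _).trans ?_
    push_cast
    linarith

/-- a filled vertex is not close to a complete one -/
lemma vert {w w' : ℤ} {l l' : List (Fl × Fl)} {q : ℝ} (hq : 0 ≤ q) (hl : l ≠ [])
    (h : SV true w l) (h' : VOK false w' l')
    (hf : List.Forall₂ (fun p p' : Fl × Fl => nrm p.1 p'.1 ≤ q) l l') (hw : w' ≠ 0) :
    1 / (w' : ℝ) ^ 2 ≤ 9 * ((l.length : ℝ) + 1) ^ 2 / (4 * π ^ 2) * q := by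
  obtain ⟨h0, h1, h2, -⟩ := h
  obtain ⟨rfl, hs⟩ := h2 rfl
  obtain ⟨-, -, h3⟩ := h'
  have hsum := cr_sum hf
  rw [hs, sub_zero] at hsum
  cases hf with
  | nil => exact absurd rfl hl
  | @cons x x' l l' hx hf =>
    have e1 := h3 rfl x' (by simp)
    have e2 := (h1 x (by simp)).1
    have e3 := (cr_le hx).2
    rw [e2, sub_zero] at e3
    rw [e1] at hsum
    set n : ℝ := ((x :: l).length : ℝ) with hn
    have hn0 : 0 ≤ n := Nat.cast_nonneg _
    have hw1 : (1 : ℝ) ≤ |(w' : ℝ)| := by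
      rw [← Int.cast_abs]
      exact_mod_cast Int.one_le_abs hw
    have hD := Real.sqrt_nonneg q
    have e4 : |(w' : ℝ) * x'.1.tw| ≤ |(w' : ℝ)| * (3 * Real.sqrt q) := by
      rw [abs_mul]
      exact mul_le_mul_of_nonneg_left e3 (abs_nonneg _)
    have e5 : 2 * π ≤ n * (3 * Real.sqrt q) + |(w' : ℝ)| * (3 * Real.sqrt q) := by
      obtain ⟨a1, a2⟩ := abs_le.1 hsum
      obtain ⟨b1, b2⟩ := abs_le.1 e4
      linarith
    have e6 : 2 * π ≤ 3 * (n + 1) * |(w' : ℝ)| * Real.sqrt q := by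
      have : n * (3 * Real.sqrt q) ≤ n * (3 * Real.sqrt q) * |(w' : ℝ)| :=
        le_mul_of_one_le_right (by positivity) hw1
      nlinarith
    have e7 : (2 * π) ^ 2 ≤ (3 * (n + 1) * |(w' : ℝ)| * Real.sqrt q) ^ 2 :=
      pow_le_pow_left₀ (by positivity) e6 2
    have e8 : (3 * (n + 1) * |(w' : ℝ)| * Real.sqrt q) ^ 2 = 9 * (n + 1) ^ 2 * q * (w' : ℝ) ^ 2 := by
      rw [mul_pow, mul_pow, mul_pow, Real.sq_sqrt hq, sq_abs]
      ring
    rw [e8] at e7
    have hw2 : 0 < (w' : ℝ) ^ 2 := by positivity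
    rw [div_le_iff₀ hw2]
    have e9 : 9 * (n + 1) ^ 2 / (4 * π ^ 2) * q * (w' : ℝ) ^ 2 =
        (9 * (n + 1) ^ 2 * q * (w' : ℝ) ^ 2) / (4 * π ^ 2) := by ring
    rw [e9, le_div_iff₀ (by positivity)]
    linarith

lemma vok_fill {M : ℕ} {b b' : Bool} {w w' : ℤ} {l : List (Fl × Fl)} (h : VOK b' w' l)
    (hbw : (b = b' ∧ (b = false → w = w')) ∨ (b = true ∧ b' = false ∧ (M : ℤ) ≤ |w'|)) :
    VOK b w l := by
  rcases hbw with ⟨rfl, hw⟩ | ⟨rfl, rfl, -⟩
  · exact ⟨h.1, h.2.1, fun hb => by rw [hw hb]; exact h.2.2 hb⟩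
  · exact ⟨h.1, h.2.1, fun hb => absurd hb (by simp)⟩

lemma relab_ok {M : ℕ} (z : AB) : ∀ s : Tb, FilT M s z.shape → z.OK → (relab z s).OK := by
  induction z with
  | vx b a =>
    intro s hs _
    cases s with
    | vx b a => trivial
    | br t c => exact absurd hs (by simp [AB.shape, FilT])
  | br z₁ z₂ f g ih1 ih2 =>
    intro s hs hz
    cases s with
    | vx b a => exact absurd hs (by simp [AB.shape, FilT])
    | br t c =>
      obtain ⟨h1, h2, h3, h4, h5, h6⟩ := hz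
      have hsim := simT_symm _ _ (simT_of_fil _ _ hs.2)
      refine ⟨ih1 t hs.1 h1, ih2 c hs.2 h2, h3, h4, h5, ?_⟩
      show VOK (relab z₂ c).bl (relab z₂ c).wt ((g, f) :: (relab z₂ c).fl)
      rw [relab_bl _ _ hsim, relab_wt _ _ hsim, relab_fl _ _ hsim]
      have := fil_root _ _ hs.2
      rw [shape_bl, shape_wt] at this
      exact vok_fill h6 this

lemma rc_le {y z : AB} (hfil : FilT 1 y.shape z.shape) {q : ℝ} (hq : 0 ≤ q)
    {l l' : List (Fl × Fl)} (hl : l ≠ []) (h : SV y.bl y.wt l) (h' : VOK z.bl z.wt l')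
    (hf : List.Forall₂ (fun p p' : Fl × Fl => nrm p.1 p'.1 ≤ q) l l') :
    rc y.shape z.shape ≤ 9 * ((l.length : ℝ) + 1) ^ 2 / (4 * π ^ 2) * q := by
  unfold rc
  rw [shape_bl, shape_bl, shape_wt]
  split_ifs with hc
  · have hw : z.wt ≠ 0 := by
      have := fil_root' one_pos hfil
      rw [shape_bl, shape_bl, shape_wt, shape_wt, hc.1, hc.2] at this
      rcases this with ⟨h1, -⟩ | ⟨-, -, h3⟩
      · exact absurd h1 (by simp)
      · exact h3
    rw [hc.1] at h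
    rw [hc.2] at h'
    exact vert hq hl h h' hf hw
  · positivity

theorem costB_le (y : AB) (hy : AOK SV y) : ∃ C : ℝ, 0 ≤ C ∧ ∀ z : AB,
    FilT 1 y.shape z.shape → z.OK → costB y.shape z.shape ≤ C * dst2 y z := by
  induction y with
  | vx b a =>
    refine ⟨0, le_rfl, fun z hz _ => ?_⟩
    cases z with
    | vx b a => simp [AB.shape, costB]
    | br t c f g => exact absurd hz (by simp [AB.shape, FilT])
  | br y₁ y₂ f g ih1 ih2 =>
    obtain ⟨o1, o2, o3, o4, o5, o6⟩ := hy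
    obtain ⟨C1, n1, k1⟩ := ih1 o1
    obtain ⟨C2, n2, k2⟩ := ih2 o2
    refine ⟨C1 + C2 + 9 * ((((g, f) :: y₂.fl).length : ℝ) + 1) ^ 2 / (4 * π ^ 2), by positivity,
      fun z hz hok => ?_⟩
    cases z with
    | vx b a => exact absurd hz (by simp [AB.shape, FilT])
    | br z₁ z₂ f' g' =>
      obtain ⟨h1, h2, h3, h4, h5, h6⟩ := hok
      obtain ⟨hz1, hz2⟩ := hz
      have e1 := k1 z₁ hz1 h1
      have e2 := k2 z₂ hz2 h2
      have d1 := dst2_nonneg y₁ z₁
      have d2 := dst2_nonneg y₂ z₂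
      have d3 := nrm_nonneg f f'
      have d4 := nrm_nonneg g g'
      have hq := dst2_nonneg (.br y₁ y₂ f g) (.br z₁ z₂ f' g')
      have e3 := rc_le hz2 hq (by simp) o6 h6
        (List.Forall₂.cons (by
          show nrm g g' ≤ dst2 y₁ z₁ + dst2 y₂ z₂ + (nrm f f' + nrm g g')
          linarith) (forall2_fl y₂ z₂ _ (sim_of_shape _ _ (simT_of_fil _ _ hz2)) (by
          show dst2 y₂ z₂ ≤ dst2 y₁ z₁ + dst2 y₂ z₂ + (nrm f f' + nrm g g')
          linarith)))
      have e4 : dst2 y₁ z₁ ≤ dst2 (.br y₁ y₂ f g) (.br z₁ z₂ f' g') := by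
        show dst2 y₁ z₁ ≤ dst2 y₁ z₁ + dst2 y₂ z₂ + (nrm f f' + nrm g g')
        linarith
      have e5 : dst2 y₂ z₂ ≤ dst2 (.br y₁ y₂ f g) (.br z₁ z₂ f' g') := by
        show dst2 y₂ z₂ ≤ dst2 y₁ z₁ + dst2 y₂ z₂ + (nrm f f' + nrm g g')
        linarith
      have e6 := mul_le_mul_of_nonneg_left e4 n1
      have e7 := mul_le_mul_of_nonneg_left e5 n2
      show costB y₁.shape z₁.shape + (costB y₂.shape z₂.shape + rc y₂.shape z₂.shape) ≤ _
      rw [add_mul, add_mul]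
      linarith

theorem upp (y : AB) (hy : Crit y) (hn : y.fl ≠ []) : ∃ c : ℝ, 0 < c ∧ ∀ z : AB,
    FilT 1 y.shape z.shape → z.IsAng → z.vol ≤ y.vol - c * costT y.shape z.shape := by
  obtain ⟨h1, h2, h3⟩ := hy
  obtain ⟨c₀, hc₀, k0⟩ := vol_q y (pa_of_aok y h1)
  obtain ⟨C, hC, k1⟩ := costB_le y h1
  have hK : 0 < C + 9 * ((y.fl.length : ℝ) + 1) ^ 2 / (4 * π ^ 2) := by positivity
  refine ⟨c₀ / (C + 9 * ((y.fl.length : ℝ) + 1) ^ 2 / (4 * π ^ 2)), by positivity,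
    fun z hz hang => ?_⟩
  have hsim := simT_of_fil _ _ hz
  have hsim' := simT_symm _ _ hsim
  have hq := dst2_nonneg y z
  have e1 := k1 z hz hang.1
  have e2 := rc_le hz hq hn h2 hang.2 (forall2_fl y z _ (sim_of_shape _ _ hsim) le_rfl)
  have e3 : costT y.shape z.shape ≤
      (C + 9 * ((y.fl.length : ℝ) + 1) ^ 2 / (4 * π ^ 2)) * dst2 y z := by
    rw [cost_split _ _ hsim, add_mul]
    linarith
  have hsh : (relab z y.shape).shape = y.shape := relab_shape _ _ hsim'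
  have hang' : (relab z y.shape).IsAng := by
    refine ⟨relab_ok z _ hz hang.1, ?_⟩
    rw [relab_bl _ _ hsim', relab_wt _ _ hsim', relab_fl _ _ hsim']
    have := fil_root _ _ hz
    rw [shape_bl z, shape_wt z] at this
    exact vok_fill hang.2 this
  have e4 := k0 (relab z y.shape) (sim_of_shape _ _ (by rw [hsh]; exact simT_refl _))
    (pa_of_ok _ hang'.1)
  rw [h3 _ hsh hang', relab_vol, relab_dst] at e4
  have e5 : c₀ / (C + 9 * ((y.fl.length : ℝ) + 1) ^ 2 / (4 * π ^ 2)) * costT y.shape z.shape ≤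
      c₀ * dst2 y z := by
    rw [div_mul_eq_mul_div, div_le_iff₀ hK]
    have := mul_le_mul_of_nonneg_left e3 hc₀.le
    linarith
  linarith

/-- the volume of a critical structure is the maximum -/
theorem crit_max (y : AB) (hy : Crit y) (z : AB) (hs : z.shape = y.shape) (hz : z.IsAng) :
    z.vol ≤ y.vol := by
  obtain ⟨h1, h2, h3⟩ := hy
  obtain ⟨c₀, hc₀, k0⟩ := vol_q y (pa_of_aok y h1)
  have e4 := k0 z (sim_of_shape _ _ (by rw [hs]; exact simT_refl _)) (pa_of_ok _ hz.1)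
  rw [h3 z hs hz] at e4
  have := mul_nonneg hc₀.le (dst2_nonneg y z)
  linarith

end Pool.Agent.U21.TL
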