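import Pool.Agent.U21.TL.NZA

/-!
# Decoupling: two critical configurations on the same tree
-/

set_option autoImplicit false
set_option linter.unusedVariables false

namespace Pool.Agent.U21.TL

open Finset Filter Topology
open Pool.Agent.TH563.UV (Tb PB AB pb_bl pb_wt vt)
open Pool.Agent.TH563.Z (shape_nc)
open Pool.Agent.N561
open Pool.Agent.N561.EK
open Pool.Agent.N277.EK (mem_D1)
open scoped Real

/-- the whole configuration is critical -/
def Full (p : PB) : Prop := CE p ∧ VE p.bl p.wt p.rz (p.gs sg)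

/-- the value -/
noncomputable def fv (p : PB) : ℂ := vt p.bl p.wt p.rz + p.vl sg

lemma sh_bl {p p' : PB} (h : p.shape = p'.shape) : p.bl = p'.bl := by
  rw [← pb_bl p, ← pb_bl p', h]

lemma sh_wt {p p' : PB} (h : p.shape = p'.shape) : p.wt = p'.wt := by
  rw [← pb_wt p, ← pb_wt p', h]

lemma sh_nc {p p' : PB} (h : p.shape = p'.shape) : p.nc = p'.nc := by
  rw [← shape_nc p, ← shape_nc p', h]

lemma sh_br {t c t' c' : PB} (h : (PB.br t c).shape = (PB.br t' c').shape) :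
    t.shape = t'.shape ∧ c.shape = c'.shape := by
  simpa [PB.shape] using h

/-- the difference of the derivatives in the first variable -/
lemma s1_two {x x' y y' : ℂ} (hx : x ∈ D1) (hx' : x' ∈ D1) (hy : y ∈ D1) (hy' : y' ∈ D1) :
    ‖(s1 x' y' - s1 x y) + (x' - x) / (2 * π)‖ ≤
      1 / (2 * π) * (1 / 12 * ‖x' - x‖ + 1 / 20 * ‖y' - y‖) := by
  have h1 := s1_lip hx hx' hy'
  have h2 := s1_mix hx hy hy'
  have e : (s1 x' y' - s1 x y) + (x' - x) / (2 * π) =
      ((s1 x' y' + x' / (2 * π)) - (s1 x y' + x / (2 * π))) + (s1 x y' - s1 x y) := by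
    ring
  rw [e]
  refine (norm_add_le _ _).trans ((add_le_add h1 h2).trans (le_of_eq ?_))
  ring

/-- the trapezoidal rule at an edge -/
lemma tr_two {x x' y y' : ℂ} (hx : x ∈ D1) (hx' : x' ∈ D1) (hy : y ∈ D1) (hy' : y' ∈ D1) :
    ‖sg x' y' - sg x y - ((s1 x y + s1 x' y') * (x' - x) + (s1 y x + s1 y' x') * (y' - y)) / 2‖ ≤
      1 / (2 * π) * (4 / 25 * (‖x' - x‖ ^ 2 + ‖y' - y‖ ^ 2)) := by
  have h := TR_bd (X := (x, x', false)) (Y := (y, y', false))
    ⟨hx, hx', fun h => by simp at h⟩ ⟨hy, hy', fun h => by simp at h⟩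
  have e : TR (x, x', false) (y, y', false) = sg x' y' - sg x y -
      ((s1 x y + s1 x' y') * (x' - x) + (s1 y x + s1 y' x') * (y' - y)) / 2 := rfl
  rw [← e]
  refine h.trans (le_of_eq ?_)
  simp [dd, ee]

/-- a vertex in two configurations: its difference is controlled by the change of the derivative
at the edge to the parent -/
lemma child_gen {b : Bool} {a : ℤ} {n : ℕ} {x x' y y' g g' : ℂ} (hx : x ∈ D1) (hx' : x' ∈ D1)
    (hy : y ∈ D1) (hy' : y' ∈ D1)
    (h : VE b a x (g + s1 x y)) (h' : VE b a x' (g' + s1 x' y'))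
    (hg : ‖(g' - g) + n / (2 * π) * (x' - x)‖ ≤ 1 / 11 * (n / (2 * π)) * ‖x' - x‖) :
    ‖x' - x‖ * (10 / 11 * ‖((n + 1 : ℕ) : ℂ) - Complex.I * a‖) ≤
      2 * π * ‖s1 x y' - s1 x y‖ := by
  have hpi := Real.pi_pos
  have hpc : (π : ℂ) ≠ 0 := by exact_mod_cast hpi.ne'
  cases b with
  | true =>
    rw [h.1 rfl, h'.1 rfl, sub_self, norm_zero, zero_mul]
    positivity
  | false =>
    obtain ⟨-, -, h3⟩ := h.2 rfl
    obtain ⟨-, -, h3'⟩ := h'.2 rfl
    set δ : ℂ := x' - x with hδ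
    set E1 : ℂ := (g' - g) + n / (2 * π) * δ with hE1
    set E2 : ℂ := (s1 x' y' + x' / (2 * π)) - (s1 x y' + x / (2 * π)) with hE2
    set E3 : ℂ := s1 x y' - s1 x y with hE3
    have h2 : ‖E2‖ ≤ 1 / 12 / (2 * π) * ‖δ‖ := s1_lip hx hx' hy'
    have e : δ * (((n + 1 : ℕ) : ℂ) - Complex.I * a) = 2 * π * (E1 + E2 + E3) := by
      have : Complex.I * a * δ / (2 * π) + ((g' - g) + (s1 x' y' - s1 x y)) = 0 := by
        rw [hδ]
        linear_combination h3' - h3
      rw [hE1, hE2, hE3]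
      field_simp at this ⊢
      push_cast
      linear_combination (-1 : ℂ) * this
    have e2 : ‖δ‖ * ‖((n + 1 : ℕ) : ℂ) - Complex.I * a‖ ≤
        2 * π * (1 / 11 * (n / (2 * π)) * ‖δ‖ + 1 / 12 / (2 * π) * ‖δ‖ + ‖E3‖) := by
      rw [← norm_mul, e, norm_mul, norm_mul, Complex.norm_two, Complex.norm_real,
        Real.norm_of_nonneg hpi.le]
      apply mul_le_mul_of_nonneg_left _ (by positivity)
      refine (norm_add_le _ _).trans (add_le_add ((norm_add_le _ _).trans (add_le_add hg h2)) le_rfl)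
    have e3 : 2 * π * (1 / 11 * (n / (2 * π)) * ‖δ‖ + 1 / 12 / (2 * π) * ‖δ‖ + ‖E3‖) =
        (1 / 11 * n + 1 / 12) * ‖δ‖ + 2 * π * ‖E3‖ := by
      field_simp
    rw [e3] at e2
    have h5 : ((n : ℝ) + 1) ≤ ‖((n + 1 : ℕ) : ℂ) - Complex.I * a‖ := by
      have h6 := Complex.abs_re_le_norm (((n + 1 : ℕ) : ℂ) - Complex.I * a)
      have e7 : (((n + 1 : ℕ) : ℂ) - Complex.I * a).re = (n : ℝ) + 1 := by
        simp
      rw [e7, abs_of_nonneg (by positivity)] at h6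
      exact h6
    have h8 : (1 / 11 * (n : ℝ) + 1 / 12) * ‖δ‖ ≤
        1 / 11 * ‖((n + 1 : ℕ) : ℂ) - Complex.I * a‖ * ‖δ‖ := by
      apply mul_le_mul_of_nonneg_right _ (norm_nonneg _)
      linarith
    nlinarith

/-- the simple bound for a child -/
lemma child_le {b : Bool} {a : ℤ} {n : ℕ} {x x' y y' g g' : ℂ} (hx : x ∈ D1) (hx' : x' ∈ D1)
    (hy : y ∈ D1) (hy' : y' ∈ D1)
    (h : VE b a x (g + s1 x y)) (h' : VE b a x' (g' + s1 x' y'))
    (hg : ‖(g' - g) + n / (2 * π) * (x' - x)‖ ≤ 1 / 11 * (n / (2 * π)) * ‖x' - x‖) :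
    ‖x' - x‖ * (n + 1) ≤ 11 / 200 * ‖y' - y‖ := by
  have hpi := Real.pi_pos
  have h1 := child_gen hx hx' hy hy' h h' hg
  have h2 := s1_mix hx hy hy'
  have h3 : 2 * π * ‖s1 x y' - s1 x y‖ ≤ 1 / 20 * ‖y' - y‖ := by
    have := mul_le_mul_of_nonneg_left h2 (show (0 : ℝ) ≤ 2 * π by positivity)
    refine this.trans (le_of_eq ?_)
    field_simp
  have h5 : ((n : ℝ) + 1) ≤ ‖((n + 1 : ℕ) : ℂ) - Complex.I * a‖ := by
    have h6 := Complex.abs_re_le_norm (((n + 1 : ℕ) : ℂ) - Complex.I * a)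
    have e7 : (((n + 1 : ℕ) : ℂ) - Complex.I * a).re = (n : ℝ) + 1 := by
      simp
    rw [e7, abs_of_nonneg (by positivity)] at h6
    exact h6
  have h6 := mul_le_mul_of_nonneg_left h5 (norm_nonneg (x' - x))
  nlinarith [norm_nonneg (x' - x)]

lemma GGe (t c : PB) : GG t c = c.gs sg + s1 c.rz t.rz := rfl

/-- the response of the derivative at the root -/
lemma resp : ∀ p p' : PB, p.shape = p'.shape → CE p → CE p' → p.rz ∈ D1 → p'.rz ∈ D1 →
    ‖(p'.gs sg - p.gs sg) + p.nc / (2 * π) * (p'.rz - p.rz)‖ ≤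
      1 / 11 * (p.nc / (2 * π)) * ‖p'.rz - p.rz‖
  | .vx _ _ _, .vx _ _ _, _, _, _, _, _ => by simp [PB.gs, PB.nc]
  | .vx _ _ _, .br _ _, h, _, _, _, _ => by simp [PB.shape] at h
  | .br _ _, .vx _ _ _, h, _, _, _, _ => by simp [PB.shape] at h
  | .br t c, .br t' c', h, hp, hp', hr, hr' => by
    have hpi := Real.pi_pos
    obtain ⟨s1', s2'⟩ := sh_br h
    obtain ⟨a1, a2, a3⟩ := hp
    obtain ⟨b1, b2, b3⟩ := hp'
    have ht : t.rz ∈ D1 := hr
    have ht' : t'.rz ∈ D1 := hr'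
    have hc := mem_D1 a3
    have hc' := mem_D1 b3
    have i1 := resp t t' s1' a1 b1 ht ht'
    have i2 := resp c c' s2' a2 b2 hc hc'
    have k1 : ‖c'.rz - c.rz‖ * (c.nc + 1) ≤ 11 / 200 * ‖t'.rz - t.rz‖ := by
      refine child_le hc hc' ht ht' a3 ?_ i2
      rw [sh_bl s2', sh_wt s2']
      exact b3
    have k2 : ‖c'.rz - c.rz‖ ≤ 11 / 200 * ‖t'.rz - t.rz‖ := by
      refine le_trans ?_ k1
      have : (0 : ℝ) ≤ c.nc := by positivity
      nlinarith [norm_nonneg (c'.rz - c.rz)]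
    have k3 := s1_two ht ht' hc hc'
    have e1 : ((PB.br t' c').gs sg - (PB.br t c).gs sg) +
        ((PB.br t c).nc : ℂ) / (2 * π) * ((PB.br t' c').rz - (PB.br t c).rz) =
        ((t'.gs sg - t.gs sg) + t.nc / (2 * π) * (t'.rz - t.rz)) +
        ((s1 t'.rz c'.rz - s1 t.rz c.rz) + (t'.rz - t.rz) / (2 * π)) := by
      rw [gs_br, gs_br]
      have : (PB.br t c).nc = t.nc + 1 := rfl
      rw [this]
      have e9 : (PB.br t c).rz = t.rz := rfl
      have e10 : (PB.br t' c').rz = t'.rz := rfl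
      rw [e9, e10]
      push_cast
      ring
    rw [e1]
    have e2 : (((PB.br t c).nc : ℕ) : ℝ) = t.nc + 1 := by
      have : (PB.br t c).nc = t.nc + 1 := rfl
      rw [this]
      push_cast
      ring
    rw [e2]
    refine (norm_add_le _ _).trans ((add_le_add i1 k3).trans ?_)
    have e9 : (PB.br t c).rz = t.rz := rfl
    have e10 : (PB.br t' c').rz = t'.rz := rfl
    rw [e9, e10]
    have k0 : (0 : ℝ) < 1 / (2 * π) := by positivity
    have hn := norm_nonneg (t'.rz - t.rz)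
    have k5 : 1 / (2 * π) * (1 / 12 * ‖t'.rz - t.rz‖ + 1 / 20 * ‖c'.rz - c.rz‖) ≤
        1 / (2 * π) * (1 / 11 * ‖t'.rz - t.rz‖) := by
      apply mul_le_mul_of_nonneg_left _ k0.le
      linarith
    refine (add_le_add le_rfl k5).trans (le_of_eq ?_)
    field_simp

/-- the change of the value below the root -/
lemma val_dif : ∀ p p' : PB, p.shape = p'.shape → CE p → CE p' → p.rz ∈ D1 → p'.rz ∈ D1 →
    ‖(p'.vl sg - p.vl sg) - (p.gs sg + p'.gs sg) / 2 * (p'.rz - p.rz)‖ ≤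
      1 / 36 * p.nc * ‖p'.rz - p.rz‖ ^ 2
  | .vx _ _ _, .vx _ _ _, _, _, _, _, _ => by simp [PB.gs, PB.nc, PB.vl]
  | .vx _ _ _, .br _ _, h, _, _, _, _ => by simp [PB.shape] at h
  | .br _ _, .vx _ _ _, h, _, _, _, _ => by simp [PB.shape] at h
  | .br t c, .br t' c', h, hp, hp', hr, hr' => by
    have hpi := Real.pi_pos
    have hpi3 := Real.pi_gt_three
    obtain ⟨s1', s2'⟩ := sh_br h
    obtain ⟨a1, a2, a3⟩ := hp
    obtain ⟨b1, b2, b3⟩ := hp'
    have ht : t.rz ∈ D1 := hr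
    have ht' : t'.rz ∈ D1 := hr'
    have hc := mem_D1 a3
    have hc' := mem_D1 b3
    have i1 := val_dif t t' s1' a1 b1 ht ht'
    have i2 := val_dif c c' s2' a2 b2 hc hc'
    have i3 := resp c c' s2' a2 b2 hc hc'
    have k1 : ‖c'.rz - c.rz‖ * (c.nc + 1) ≤ 11 / 200 * ‖t'.rz - t.rz‖ := by
      refine child_le hc hc' ht ht' a3 ?_ i3
      rw [sh_bl s2', sh_wt s2']
      exact b3
    have k3 := tr_two ht ht' hc hc'
    have e3 := vert_val (b := c.bl) (b' := c'.bl) (Or.inl ⟨sh_bl s2', fun _ => sh_wt s2'⟩) a3 b3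
      (GG_zero a2 ht)
    have e3' : vf c.bl c'.bl c'.rz = 0 := by
      unfold vf
      rw [sh_bl s2']
      simp
    rw [e3'] at e3
    have e7 : GG t c = c.gs sg + s1 c.rz t.rz := rfl
    have e8 : GG t' c' = c'.gs sg + s1 c'.rz t'.rz := rfl
    have e4 : (PB.br t c).vl sg = t.vl sg + (vt c.bl c.wt c.rz + c.vl sg + sg c.rz t.rz) := rfl
    have e5 : (PB.br t' c').vl sg =
        t'.vl sg + (vt c'.bl c'.wt c'.rz + c'.vl sg + sg c'.rz t'.rz) := rfl
    have e9 : (PB.br t c).rz = t.rz := rfl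
    have e10 : (PB.br t' c').rz = t'.rz := rfl
    have q1 : sg c.rz t.rz = sg t.rz c.rz := f_all.pot.sym _ _
    have q2 : sg c'.rz t'.rz = sg t'.rz c'.rz := f_all.pot.sym _ _
    have e11 : (PB.br t' c').vl sg - (PB.br t c).vl sg -
        ((PB.br t c).gs sg + (PB.br t' c').gs sg) / 2 * ((PB.br t' c').rz - (PB.br t c).rz) =
        ((t'.vl sg - t.vl sg) - (t.gs sg + t'.gs sg) / 2 * (t'.rz - t.rz)) +
        ((c'.vl sg - c.vl sg) - (c.gs sg + c'.gs sg) / 2 * (c'.rz - c.rz)) +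
        (sg t'.rz c'.rz - sg t.rz c.rz - ((s1 t.rz c.rz + s1 t'.rz c'.rz) * (t'.rz - t.rz) +
          (s1 c.rz t.rz + s1 c'.rz t'.rz) * (c'.rz - c.rz)) / 2) := by
      have e12 : vt c'.bl c'.wt c'.rz - vt c.bl c.wt c.rz +
          ((c.gs sg + s1 c.rz t.rz) + (c'.gs sg + s1 c'.rz t'.rz)) / 2 * (c'.rz - c.rz) = 0 := e3
      rw [e4, e5, gs_br, gs_br, e9, e10, q1, q2]
      linear_combination e12
    rw [e11, e9, e10]
    have e2 : (((PB.br t c).nc : ℕ) : ℝ) = t.nc + 1 := by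
      have : (PB.br t c).nc = t.nc + 1 := rfl
      rw [this]
      push_cast
      ring
    rw [e2]
    refine (norm_add_le _ _).trans ((add_le_add ((norm_add_le _ _).trans (add_le_add i1 i2))
      k3).trans ?_)
    set dt := ‖t'.rz - t.rz‖ with hdt
    set dc := ‖c'.rz - c.rz‖ with hdc
    have hdt0 : 0 ≤ dt := norm_nonneg _
    have hdc0 : 0 ≤ dc := norm_nonneg _
    have hn : (0 : ℝ) ≤ c.nc := by positivity
    have k4 : dc ≤ 11 / 200 * dt := by nlinarith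
    have k5 : dc * dc ≤ (11 / 200 * dt) * (11 / 200 * dt) := mul_le_mul k4 k4 hdc0 (by positivity)
    have k6 : c.nc * dc * dc ≤ (11 / 200 * dt) * (11 / 200 * dt) := by
      have : c.nc * dc ≤ 11 / 200 * dt := by nlinarith
      exact mul_le_mul this k4 hdc0 (by positivity)
    have k7 : 1 / (2 * π) ≤ 1 / 6 := by
      apply one_div_le_one_div_of_le (by norm_num)
      linarith
    have k7' : 1 / (2 * π) ≤ 4 / 25 := by
      have := Real.pi_gt_d2
      rw [div_le_div_iff₀ (by positivity) (by norm_num)]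
      linarith
    have k8 : 1 / (2 * π) * (4 / 25 * (dt ^ 2 + dc ^ 2)) ≤ 4 / 25 * (4 / 25 * (dt ^ 2 + dc ^ 2)) :=
      mul_le_mul_of_nonneg_right k7' (by positivity)
    nlinarith

end Pool.Agent.U21.TL
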