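import Pool.Agent.U21.TL.DC1

/-!
# Decoupling: the root can be moved; exponential decay along a path; the mixed difference
-/

set_option autoImplicit false
set_option linter.unusedVariables false

namespace Pool.Agent.U21.TL

open Finset Filter Topology
open Pool.Agent.TH563.UV (Tb PB AB pb_bl pb_wt vt)
open Pool.Agent.TH563.Z (shape_nc)
open Pool.Agent.N561
open Pool.Agent.N561.EK
open Pool.Agent.N277.EK (mem_D1)
open scoped Real

lemma full_iff (P Q : PB) : Full (.br P Q) ↔ CE P ∧ CE Q ∧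
    VE Q.bl Q.wt Q.rz (Q.gs sg + s1 Q.rz P.rz) ∧ VE P.bl P.wt P.rz (P.gs sg + s1 P.rz Q.rz) := by
  unfold Full
  rw [gs_br]
  constructor
  · rintro ⟨⟨a, b, c⟩, d⟩
    exact ⟨a, b, c, d⟩
  · rintro ⟨a, b, c, d⟩
    exact ⟨⟨a, b, c⟩, d⟩

lemma full_swap {P Q : PB} (h : Full (.br P Q)) : Full (.br Q P) := by
  rw [full_iff] at h ⊢
  exact ⟨h.2.1, h.1, h.2.2.2, h.2.2.1⟩

lemma fv_br (P Q : PB) : fv (.br P Q) = fv P + fv Q + sg P.rz Q.rz := by
  have e : fv (.br P Q) = vt P.bl P.wt P.rz +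
      (P.vl sg + (vt Q.bl Q.wt Q.rz + Q.vl sg + sg Q.rz P.rz)) := rfl
  rw [e, f_all.pot.sym Q.rz P.rz]
  unfold fv
  ring

lemma full_shift {P c M : PB} (h : Full (.br P (.br c M))) : Full (.br (.br c P) M) := by
  rw [full_iff] at h ⊢
  obtain ⟨h1, ⟨h2, h3, h4⟩, h5, h6⟩ := h
  have e1 : (PB.br c M).rz = c.rz := rfl
  have e2 : (PB.br c P).rz = c.rz := rfl
  have e3 : (PB.br c M).bl = c.bl := rfl
  have e4 : (PB.br c M).wt = c.wt := rfl
  have e5 : (PB.br c P).bl = c.bl := rfl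
  have e6 : (PB.br c P).wt = c.wt := rfl
  rw [e1, e3, e4, gs_br] at h5
  rw [e1] at h6
  rw [e2, e5, e6, gs_br]
  refine ⟨⟨h2, h1, h6⟩, h3, h4, ?_⟩
  have e7 : c.gs sg + s1 c.rz P.rz + s1 c.rz M.rz = c.gs sg + s1 c.rz M.rz + s1 c.rz P.rz := by
    ring
  rw [e7]
  exact h5

lemma fv_shift (P c M : PB) : fv (.br P (.br c M)) = fv (.br (.br c P) M) := by
  have e1 : (PB.br c M).rz = c.rz := rfl
  have e2 : (PB.br c P).rz = c.rz := rfl
  rw [fv_br, fv_br, fv_br, fv_br, e1, e2, f_all.pot.sym P.rz c.rz]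
  ring

/-- the trees `c :: m` one below the other, `y` at the end -/
def plugP : List PB → PB → PB
  | [], y => y
  | c :: m, y => .br c (plugP m y)

lemma D1_dif {z z' : ℂ} (h : z ∈ D1) (h' : z' ∈ D1) : ‖z' - z‖ ≤ 21 / 25 := by
  have h1 := h.1
  have h2 := h'.1
  have := norm_sub_le z' z
  linarith

/-- the change at the root of a tree which is the same in both configurations -/
lemma step {q : ℝ} {X X' M M' : PB} (hs : X.shape = X'.shape)
    (h : Full (.br X M)) (h' : Full (.br X' M')) (hc : ‖cusp X.bl (X.nc + 1) X.wt‖ ^ 2 ≤ q) :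
    ‖X'.rz - X.rz‖ ≤ q * ‖M'.rz - M.rz‖ := by
  have hpi := Real.pi_pos
  have hpi4 := Real.pi_lt_d4
  have hroot : VB (1 / 20) (PB.br X M).bl (PB.br X M).wt (PB.br X M).nc (PB.br X M).rz :=
    vb_root edgeK20 (.br X M) h.1 h.2 (allP_true _) trivial
  have hsz := size_cusp (n := X.nc + 1) (by omega) h.2 hroot
  have e1 : (PB.br X M).rz = X.rz := rfl
  have e2 : (PB.br X M).bl = X.bl := rfl
  have e3 : (PB.br X M).wt = X.wt := rfl
  rw [e1, e2, e3] at hsz
  rw [full_iff] at h h'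
  obtain ⟨a1, a2, a3, a4⟩ := h
  obtain ⟨b1, b2, b3, b4⟩ := h'
  have hx := mem_D1 a4
  have hx' := mem_D1 b4
  have hm := mem_D1 a3
  have hm' := mem_D1 b3
  have hn := norm_nonneg (M'.rz - M.rz)
  by_cases hb : X.bl = true
  · have hb' : X'.bl = true := by rw [← sh_bl hs]; exact hb
    rw [a4.1 hb, b4.1 hb', sub_self, norm_zero]
    have : 0 ≤ q := le_trans (sq_nonneg _) hc
    positivity
  · have hbf : X.bl = false := by simpa using hb
    have hg := resp X X' hs a1 b1 hx hx'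
    have b4' : VE X.bl X.wt X'.rz (X'.gs sg + s1 X'.rz M'.rz) := by
      rw [sh_bl hs, sh_wt hs]
      exact b4
    have k1 := child_gen hx hx' hm hm' a4 b4' hg
    have k2 := s1_mix2 hx hm hm'
    have k3 : 2 * π * ‖s1 X.rz M'.rz - s1 X.rz M.rz‖ ≤ 12 / 100 * ‖X.rz‖ * ‖M'.rz - M.rz‖ := by
      have := mul_le_mul_of_nonneg_left k2 (show (0 : ℝ) ≤ 2 * π by positivity)
      refine this.trans (le_of_eq ?_)
      field_simp
    set w : ℝ := ‖cusp X.bl (X.nc + 1) X.wt‖ with hw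
    have hwe : w * ‖((X.nc + 1 : ℕ) : ℂ) - Complex.I * X.wt‖ = 1 := by
      rw [hw, hbf]
      have : cusp false (X.nc + 1) X.wt = 1 / (((X.nc + 1 : ℕ) : ℂ) - Complex.I * X.wt) := by
        simp [cusp]
      rw [this, norm_div, norm_one]
      have h0 : 0 < ‖((X.nc + 1 : ℕ) : ℂ) - Complex.I * X.wt‖ :=
        norm_pos_iff.2 (cusp_ne (by omega) _)
      field_simp
    have hw0 : 0 ≤ w := norm_nonneg _
    set A : ℝ := ‖((X.nc + 1 : ℕ) : ℂ) - Complex.I * X.wt‖ with hA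
    set δ : ℝ := ‖X'.rz - X.rz‖ with hδ
    set η : ℝ := ‖M'.rz - M.rz‖ with hη
    have hδ0 : 0 ≤ δ := norm_nonneg _
    have k4 : δ * (10 / 11 * A) ≤ 12 / 100 * ‖X.rz‖ * η := k1.trans k3
    have k5 : 12 / 100 * ‖X.rz‖ * η ≤ 12 / 100 * (40 * π / 19 * w) * η :=
      mul_le_mul_of_nonneg_right (mul_le_mul_of_nonneg_left hsz (by norm_num)) hn
    have k6 := mul_le_mul_of_nonneg_left (k4.trans k5) hw0
    have k7 : w * (δ * (10 / 11 * A)) = 10 / 11 * δ := by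
      linear_combination (10 / 11 * δ) * hwe
    rw [k7] at k6
    have k8 : w * (12 / 100 * (40 * π / 19 * w) * η) ≤ 10 / 11 * (w ^ 2 * η) := by
      have : 12 / 100 * (40 * π / 19) ≤ 10 / 11 := by linarith
      have := mul_le_mul_of_nonneg_right this (show 0 ≤ w ^ 2 * η by positivity)
      refine le_trans (le_of_eq ?_) this
      ring
    have k9 : δ ≤ w ^ 2 * η := by linarith
    exact k9.trans (mul_le_mul_of_nonneg_right hc hn)

lemma decay {q : ℝ} (hq : 0 ≤ q) : ∀ (m m' : List PB) (P P' y y' : PB),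
    List.Forall₂ (fun c c' : PB => c.shape = c'.shape) m m' → P.shape = P'.shape →
    Full (.br P (plugP m y)) → Full (.br P' (plugP m' y')) →
    (∀ c ∈ m, ‖cusp c.bl (c.nc + 2) c.wt‖ ^ 2 ≤ q) →
    ‖(plugP m' y').rz - (plugP m y).rz‖ ≤ 21 / 25 * q ^ m.length := by
  intro m
  induction m with
  | nil =>
    intro m' P P' y y' hm hP h h' _
    cases hm
    have h1 := (full_iff _ _).1 h
    have h2 := (full_iff _ _).1 h'
    simpa using D1_dif (mem_D1 h1.2.2.1) (mem_D1 h2.2.2.1)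
  | cons c m ih =>
    intro m' P P' y y' hm hP h h' hc
    cases hm with
    | cons hcc hm =>
      rename_i c' m'
      have g := full_shift (M := plugP m y) h
      have g' := full_shift (M := plugP m' y') h'
      have hS : (PB.br c P).shape = (PB.br c' P').shape := by
        simp only [PB.shape, hcc, hP]
      have k1 := ih m' (.br c P) (.br c' P') y y' hm hS g g'
        (fun d hd => hc d (List.mem_cons_of_mem _ hd))
      have k2 := step hS g g' (hc c List.mem_cons_self)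
      have e1 : (plugP (c :: m) y).rz = (PB.br c P).rz := rfl
      have e2 : (plugP (c' :: m') y').rz = (PB.br c' P').rz := rfl
      rw [e1, e2]
      refine k2.trans ((mul_le_mul_of_nonneg_left k1 hq).trans (le_of_eq ?_))
      rw [List.length_cons]
      ring

/-- one side of an edge -/
lemma side {P P' Q Q' : PB} (hs : P.shape = P'.shape) (h : Full (.br P Q))
    (h' : Full (.br P' Q')) : ‖P'.rz - P.rz‖ ≤ 11 / 200 * ‖Q'.rz - Q.rz‖ ∧
    ‖(fv P' - fv P) + (s1 P.rz Q.rz + s1 P'.rz Q'.rz) / 2 * (P'.rz - P.rz)‖ ≤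
      1 / 10000 * ‖Q'.rz - Q.rz‖ ^ 2 := by
  rw [full_iff] at h h'
  obtain ⟨a1, a2, a3, a4⟩ := h
  obtain ⟨b1, b2, b3, b4⟩ := h'
  have hx := mem_D1 a4
  have hx' := mem_D1 b4
  have hm := mem_D1 a3
  have hm' := mem_D1 b3
  have hg := resp P P' hs a1 b1 hx hx'
  have b4' : VE P.bl P.wt P'.rz (P'.gs sg + s1 P'.rz Q'.rz) := by
    rw [sh_bl hs, sh_wt hs]
    exact b4
  have k1 := child_le hx hx' hm hm' a4 b4' hg
  have hn : (0 : ℝ) ≤ P.nc := by positivity
  have hd := norm_nonneg (P'.rz - P.rz)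
  have hq := norm_nonneg (Q'.rz - Q.rz)
  have k2 : ‖P'.rz - P.rz‖ ≤ 11 / 200 * ‖Q'.rz - Q.rz‖ := by
    refine le_trans ?_ k1
    nlinarith
  refine ⟨k2, ?_⟩
  have v1 := val_dif P P' hs a1 b1 hx hx'
  have e3 := vert_val (b := P.bl) (b' := P'.bl) (Or.inl ⟨sh_bl hs, fun _ => sh_wt hs⟩) a4 b4
    (GG_zero a1 hm)
  have e3' : vf P.bl P'.bl P'.rz = 0 := by
    unfold vf
    rw [sh_bl hs]
    simp
  rw [e3'] at e3
  have e4 : (fv P' - fv P) + (s1 P.rz Q.rz + s1 P'.rz Q'.rz) / 2 * (P'.rz - P.rz) =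
      (P'.vl sg - P.vl sg) - (P.gs sg + P'.gs sg) / 2 * (P'.rz - P.rz) := by
    unfold fv
    linear_combination e3
  rw [e4]
  refine v1.trans ?_
  set d := ‖P'.rz - P.rz‖ with hdd
  set e := ‖Q'.rz - Q.rz‖ with hee
  have k3 : P.nc * d ≤ 11 / 200 * e := by nlinarith
  have k4 : P.nc * d * d ≤ (11 / 200 * e) * (11 / 200 * e) :=
    mul_le_mul k3 k2 hd (by positivity)
  nlinarith [sq_nonneg e]

/-- the mixed difference -/
theorem mixed {ε : ℝ} {P1 P2 P3 P4 Q1 Q2 Q3 Q4 : PB} (hε : 0 ≤ ε)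
    (h1 : Full (.br P1 Q1)) (h2 : Full (.br P2 Q2)) (h3 : Full (.br P3 Q3))
    (h4 : Full (.br P4 Q4)) (a : P1.shape = P2.shape) (b : P3.shape = P4.shape)
    (c : Q1.shape = Q3.shape) (d : Q2.shape = Q4.shape)
    (e1 : ‖Q2.rz - Q1.rz‖ ≤ ε) (e2 : ‖Q4.rz - Q3.rz‖ ≤ ε)
    (e3 : ‖P3.rz - P1.rz‖ ≤ ε) (e4 : ‖P4.rz - P2.rz‖ ≤ ε) :
    ‖fv (.br P1 Q1) - fv (.br P2 Q2) - fv (.br P3 Q3) + fv (.br P4 Q4)‖ ≤ 13 / 50 * ε ^ 2 := by
  have hpi := Real.pi_pos
  obtain ⟨x12, A12⟩ := side a h1 h2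
  obtain ⟨x34, A34⟩ := side b h3 h4
  obtain ⟨y13, B13⟩ := side c (full_swap h1) (full_swap h3)
  obtain ⟨y24, B24⟩ := side d (full_swap h2) (full_swap h4)
  have f1 := (full_iff _ _).1 h1
  have f2 := (full_iff _ _).1 h2
  have f3 := (full_iff _ _).1 h3
  have f4 := (full_iff _ _).1 h4
  have hx1 := mem_D1 f1.2.2.2
  have hx2 := mem_D1 f2.2.2.2
  have hx3 := mem_D1 f3.2.2.2
  have hx4 := mem_D1 f4.2.2.2
  have hy1 := mem_D1 f1.2.2.1
  have hy2 := mem_D1 f2.2.2.1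
  have hy3 := mem_D1 f3.2.2.1
  have hy4 := mem_D1 f4.2.2.1
  have T12 := tr_two hx1 hx2 hy1 hy2
  have T34 := tr_two hx3 hx4 hy3 hy4
  have H23 := s1_two hy2 hy3 hx2 hx3
  have H14 := s1_two hy1 hy4 hx1 hx4
  rw [fv_br, fv_br, fv_br, fv_br]
  generalize fv P1 = F1 at *
  generalize fv P2 = F2 at *
  generalize fv P3 = F3 at *
  generalize fv P4 = F4 at *
  generalize fv Q1 = G1 at *
  generalize fv Q2 = G2 at *
  generalize fv Q3 = G3 at *
  generalize fv Q4 = G4 at *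
  generalize P1.rz = x1 at *
  generalize P2.rz = x2 at *
  generalize P3.rz = x3 at *
  generalize P4.rz = x4 at *
  generalize Q1.rz = y1 at *
  generalize Q2.rz = y2 at *
  generalize Q3.rz = y3 at *
  generalize Q4.rz = y4 at *
  have k0 : (0 : ℝ) < 1 / (2 * π) := by positivity
  have k7 : 1 / (2 * π) ≤ 4 / 25 := by
    have := Real.pi_gt_d2
    rw [div_le_div_iff₀ (by positivity) (by norm_num)]
    linarith
  have x12' : ‖x2 - x1‖ ≤ 11 / 200 * ε := x12.trans (by linarith)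
  have x34' : ‖x4 - x3‖ ≤ 11 / 200 * ε := x34.trans (by linarith)
  have y13' : ‖y3 - y1‖ ≤ 11 / 200 * ε := y13.trans (by linarith)
  have y24' : ‖y4 - y2‖ ≤ 11 / 200 * ε := y24.trans (by linarith)
  have s23 : ‖y3 - y2‖ ≤ 211 / 200 * ε := by
    have e : y3 - y2 = (y3 - y1) - (y2 - y1) := by ring
    rw [e]
    refine (norm_sub_le _ _).trans ?_
    linarith
  have s14 : ‖y4 - y1‖ ≤ 211 / 200 * ε := by
    have e : y4 - y1 = (y4 - y2) + (y2 - y1) := by ring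
    rw [e]
    refine (norm_add_le _ _).trans ?_
    linarith
  have u23 : ‖x3 - x2‖ ≤ 211 / 200 * ε := by
    have e : x3 - x2 = (x3 - x1) - (x2 - x1) := by ring
    rw [e]
    refine (norm_sub_le _ _).trans ?_
    linarith
  have u14 : ‖x4 - x1‖ ≤ 211 / 200 * ε := by
    have e : x4 - x1 = (x4 - x2) + (x2 - x1) := by ring
    rw [e]
    refine (norm_add_le _ _).trans ?_
    linarith
  have sq : ∀ {r s : ℝ}, 0 ≤ r → r ≤ s → r ^ 2 ≤ s ^ 2 := fun h h' => pow_le_pow_left₀ h h' 2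
  have cA12 := A12.trans (mul_le_mul_of_nonneg_left (sq (norm_nonneg _) e1)
    (by norm_num : (0 : ℝ) ≤ 1 / 10000))
  have cA34 := A34.trans (mul_le_mul_of_nonneg_left (sq (norm_nonneg _) e2)
    (by norm_num : (0 : ℝ) ≤ 1 / 10000))
  have cB13 := B13.trans (mul_le_mul_of_nonneg_left (sq (norm_nonneg _) e3)
    (by norm_num : (0 : ℝ) ≤ 1 / 10000))
  have cB24 := B24.trans (mul_le_mul_of_nonneg_left (sq (norm_nonneg _) e4)
    (by norm_num : (0 : ℝ) ≤ 1 / 10000))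
  have tt : ∀ {r s : ℝ}, 0 ≤ r → 0 ≤ s → r ≤ 11 / 200 * ε → s ≤ ε →
      1 / (2 * π) * (4 / 25 * (r ^ 2 + s ^ 2)) ≤ 26 / 1000 * ε ^ 2 := by
    intro r s hr hs h h'
    have g1 := sq hr h
    have g2 := sq hs h'
    have g3 : 1 / (2 * π) * (4 / 25 * (r ^ 2 + s ^ 2)) ≤ 4 / 25 * (4 / 25 * (r ^ 2 + s ^ 2)) :=
      mul_le_mul_of_nonneg_right k7 (by positivity)
    nlinarith [sq_nonneg ε]
  have cT12 := T12.trans (tt (norm_nonneg _) (norm_nonneg _) x12' e1)
  have cT34 := T34.trans (tt (norm_nonneg _) (norm_nonneg _) x34' e2)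
  have hh : ∀ {r s : ℝ} {z t : ℂ}, ‖t‖ ≤ 211 / 200 * ε → s ≤ 211 / 200 * ε →
      ‖z + t / (2 * π)‖ ≤ 1 / (2 * π) * (1 / 12 * ‖t‖ + 1 / 20 * s) → ‖z‖ ≤ 192 / 1000 * ε := by
    intro r s z t ht hs h
    have g1 : ‖t / (2 * π)‖ = 1 / (2 * π) * ‖t‖ := by
      rw [norm_div, norm_mul, Complex.norm_two, Complex.norm_real, Real.norm_of_nonneg hpi.le]
      ring
    have e : z = (z + t / (2 * π)) - t / (2 * π) := by ring
    rw [e]
    refine (norm_sub_le _ _).trans ((add_le_add h g1.le).trans ?_)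
    have g2 : 1 / (2 * π) * (1 / 12 * ‖t‖ + 1 / 20 * s) + 1 / (2 * π) * ‖t‖ =
        1 / (2 * π) * (13 / 12 * ‖t‖ + 1 / 20 * s) := by ring
    rw [g2]
    have g3 : 13 / 12 * ‖t‖ + 1 / 20 * s ≤ (13 / 12 + 1 / 20) * (211 / 200 * ε) := by linarith
    refine (mul_le_mul_of_nonneg_left g3 k0.le).trans
      ((mul_le_mul_of_nonneg_right k7 (by positivity)).trans ?_)
    nlinarith
  have cH23 := hh (r := 0) s23 u23 H23
  have cH14 := hh (r := 0) s14 u14 H14
  have e : F1 + G1 + sg x1 y1 - (F2 + G2 + sg x2 y2) - (F3 + G3 + sg x3 y3) +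
      (F4 + G4 + sg x4 y4) =
      -((F2 - F1) + (s1 x1 y1 + s1 x2 y2) / 2 * (x2 - x1)) +
      ((F4 - F3) + (s1 x3 y3 + s1 x4 y4) / 2 * (x4 - x3)) +
      -((G3 - G1) + (s1 y1 x1 + s1 y3 x3) / 2 * (y3 - y1)) +
      ((G4 - G2) + (s1 y2 x2 + s1 y4 x4) / 2 * (y4 - y2)) +
      -(sg x2 y2 - sg x1 y1 - ((s1 x1 y1 + s1 x2 y2) * (x2 - x1) +
        (s1 y1 x1 + s1 y2 x2) * (y2 - y1)) / 2) +
      (sg x4 y4 - sg x3 y3 - ((s1 x3 y3 + s1 x4 y4) * (x4 - x3) +
        (s1 y3 x3 + s1 y4 x4) * (y4 - y3)) / 2) +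
      (s1 y3 x3 - s1 y2 x2) / 2 * (y4 - y1) +
      -((s1 y4 x4 - s1 y1 x1) / 2 * (y3 - y2)) := by
    ring
  rw [e]
  have p1 : ‖(s1 y3 x3 - s1 y2 x2) / 2 * (y4 - y1)‖ ≤ 102 / 1000 * ε ^ 2 := by
    rw [norm_mul, norm_div, Complex.norm_two]
    have := mul_le_mul (div_le_div_of_nonneg_right cH23 (by norm_num : (0 : ℝ) ≤ 2)) s14
      (norm_nonneg _) (by positivity)
    nlinarith [sq_nonneg ε]
  have p2 : ‖(s1 y4 x4 - s1 y1 x1) / 2 * (y3 - y2)‖ ≤ 102 / 1000 * ε ^ 2 := by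
    rw [norm_mul, norm_div, Complex.norm_two]
    have := mul_le_mul (div_le_div_of_nonneg_right cH14 (by norm_num : (0 : ℝ) ≤ 2)) s23
      (norm_nonneg _) (by positivity)
    nlinarith [sq_nonneg ε]
  refine (norm_add_le _ _).trans ?_
  refine (add_le_add (norm_add_le _ _) le_rfl).trans ?_
  refine (add_le_add (add_le_add (norm_add_le _ _) le_rfl) le_rfl).trans ?_
  refine (add_le_add (add_le_add (add_le_add (norm_add_le _ _) le_rfl) le_rfl) le_rfl).trans ?_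
  refine (add_le_add (add_le_add (add_le_add (add_le_add (norm_add_le _ _) le_rfl) le_rfl)
    le_rfl) le_rfl).trans ?_
  refine (add_le_add (add_le_add (add_le_add (add_le_add (add_le_add (norm_add_le _ _) le_rfl)
    le_rfl) le_rfl) le_rfl) le_rfl).trans ?_
  refine (add_le_add (add_le_add (add_le_add (add_le_add (add_le_add (add_le_add
    (norm_add_le _ _) le_rfl) le_rfl) le_rfl) le_rfl) le_rfl) le_rfl).trans ?_
  rw [norm_neg, norm_neg, norm_neg, norm_neg]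
  have h5 : (0 : ℝ) ≤ ε ^ 2 := sq_nonneg _
  linarith

/-- the value is determined by the tree -/
lemma full_uniq {p p' : PB} (hs : p.shape = p'.shape) (hn : 1 ≤ p.nc) (h : Full p)
    (h' : Full p') : fv p = fv p' := by
  have hpi := Real.pi_pos
  have hpc : (π : ℂ) ≠ 0 := by exact_mod_cast hpi.ne'
  have hx := mem_D1 h.2
  have hx' := mem_D1 h'.2
  have hg := resp p p' hs h.1 h'.1 hx hx'
  have hv := val_dif p p' hs h.1 h'.1 hx hx'
  have key : p'.rz = p.rz := by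
    by_cases hb : p.bl = true
    · rw [h.2.1 hb, h'.2.1 (by rw [← sh_bl hs]; exact hb)]
    · have hbf : p.bl = false := by simpa using hb
      obtain ⟨-, -, h3⟩ := h.2.2 hbf
      obtain ⟨-, -, h3'⟩ := h'.2.2 (by rw [← sh_bl hs]; exact hbf)
      rw [← sh_wt hs] at h3'
      set δ : ℂ := p'.rz - p.rz with hδ
      set E1 : ℂ := (p'.gs sg - p.gs sg) + p.nc / (2 * π) * δ with hE1
      have e : δ * ((p.nc : ℂ) - Complex.I * p.wt) = 2 * π * E1 := by
        have : Complex.I * p.wt * δ / (2 * π) + (p'.gs sg - p.gs sg) = 0 := by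
          rw [hδ]
          linear_combination h3' - h3
        rw [hE1]
        field_simp at this ⊢
        linear_combination (-1 : ℂ) * this
      have e2 : ‖δ‖ * ‖(p.nc : ℂ) - Complex.I * p.wt‖ ≤
          2 * π * (1 / 11 * (p.nc / (2 * π)) * ‖δ‖) := by
        rw [← norm_mul, e, norm_mul, norm_mul, Complex.norm_two, Complex.norm_real,
          Real.norm_of_nonneg hpi.le]
        exact mul_le_mul_of_nonneg_left hg (by positivity)
      have e3 : 2 * π * (1 / 11 * (p.nc / (2 * π)) * ‖δ‖) = 1 / 11 * p.nc * ‖δ‖ := by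
        field_simp
      rw [e3] at e2
      have h5 : (p.nc : ℝ) ≤ ‖(p.nc : ℂ) - Complex.I * p.wt‖ := by
        have h6 := Complex.abs_re_le_norm ((p.nc : ℂ) - Complex.I * p.wt)
        have e7 : ((p.nc : ℂ) - Complex.I * p.wt).re = (p.nc : ℝ) := by
          simp
        rw [e7, abs_of_nonneg (by positivity)] at h6
        exact h6
      have h6 := mul_le_mul_of_nonneg_left h5 (norm_nonneg δ)
      have hn' : (1 : ℝ) ≤ p.nc := by exact_mod_cast hn
      have h7 : ‖δ‖ ≤ 0 := by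
        nlinarith [norm_nonneg δ]
      have h8 : δ = 0 := norm_le_zero_iff.1 h7
      exact sub_eq_zero.1 h8
  rw [key, sub_self, norm_zero, mul_zero, sub_zero] at hv
  have h9 : p'.vl sg = p.vl sg := by
    have : ‖p'.vl sg - p.vl sg‖ ≤ 0 := by
      refine hv.trans (le_of_eq ?_)
      ring
    exact sub_eq_zero.1 (norm_le_zero_iff.1 this)
  unfold fv
  rw [h9, key, sh_bl hs, sh_wt hs]

end Pool.Agent.U21.TL
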