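import Pool.Agent.U21.TL.DC2

/-!
# Decoupling along a path of a planar tree, and periodic insertions
-/

set_option autoImplicit false
set_option linter.unusedVariables false

namespace Pool.Agent.U21.TL

open Finset Filter Topology
open Pool.Agent.TH563.UV.Arb
open Pool.Agent.TH563.UV (Tb PB AB pb_bl pb_wt vt)
open Pool.Agent.TH563.Z (shape_nc)
open Pool.Agent.TH563.CV (HasCS IsComplexVolume)
open Pool.Agent.N561
open Pool.Agent.N561.EK
open Pool.Agent.N277.EK (mem_D1)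
open Pool.Agent.N561.ArbK (AllTwisted TwistedBelow Twisted)
open Pool.Agent.W719.AX (EXY)
open scoped Real

/-! ### Definitions -/

/-- The roots of the trees of the list `L` and of `Y` are joined by edges, one after the other; the
root of the result is the root of the first tree. -/
def hang : List Tree → Tree → Tree
  | [], Y => Y
  | c :: L, Y => .join c (hang L Y)

/-- The roots of `X`, of the trees of the list `L`, and of `Y` are joined by edges, one after the
other. -/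
def chain (X : Tree) (L : List Tree) (Y : Tree) : Tree := .join X (hang L Y)

/-- The list `c`, repeated `k` times. -/
def repeated (c : List Tree) (k : ℕ) : List Tree := (List.replicate k c).flatten

/-- The vertices of the path (the roots of the trees of the list) have a crossing circle, or
`n² + a² ≥ B`, where `n` is the number of neighbours (two more than the number of children) and `a`
the weight. -/
def Broad (B : ℝ) (L : List Tree) : Prop :=
  ∀ c ∈ L, c.circle = false → B ≤ ((c.children : ℝ) + 2) ^ 2 + (c.weight : ℝ) ^ 2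

/-! ### Trees -/

lemma hang_append (L M : List Tree) (Y : Tree) : hang (L ++ M) Y = hang L (hang M Y) := by
  induction L with
  | nil => rfl
  | cons c L ih =>
    show Tree.join c (hang (L ++ M) Y) = Tree.join c (hang L (hang M Y))
    rw [ih]

lemma rep_succ (c : List Tree) (k : ℕ) : repeated c (k + 1) = c ++ repeated c k := by
  unfold repeated
  rw [List.replicate_succ, List.flatten_cons]

lemma rep_succ' (c : List Tree) (k : ℕ) : repeated c (k + 1) = repeated c k ++ c := by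
  unfold repeated
  rw [List.replicate_succ', List.flatten_append]
  simp

lemma rep_len (c : List Tree) (k : ℕ) : (repeated c k).length = k * c.length := by
  induction k with
  | zero => simp [repeated]
  | succ k ih =>
    rw [rep_succ, List.length_append, ih]
    ring

lemma rep_mem {c : List Tree} {k : ℕ} {d : Tree} (h : d ∈ repeated c k) : d ∈ c := by
  induction k with
  | zero => simp [repeated] at h
  | succ k ih =>
    rw [rep_succ, List.mem_append] at h
    rcases h with h | h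
    · exact h
    · exact ih h

/-- the condition at the end of a path -/
def EndOK (X : Tree) : Prop := TwistedBelow X ∧ Twisted X.circle (X.children + 1) X.weight

/-- the condition inside a path -/
def MidOK (c : Tree) : Prop := TwistedBelow c ∧ Twisted c.circle (c.children + 2) c.weight

lemma end_hang (L : List Tree) (Y : Tree) : EndOK (hang L Y) ↔ (∀ c ∈ L, MidOK c) ∧ EndOK Y := by
  induction L with
  | nil => simp [hang]
  | cons c L ih =>
    have e : EndOK (hang (c :: L) Y) ↔ MidOK c ∧ EndOK (hang L Y) := by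
      unfold EndOK MidOK
      constructor
      · rintro ⟨⟨a1, a2, a3⟩, a4⟩
        exact ⟨⟨a1, a4⟩, a2, a3⟩
      · rintro ⟨⟨a1, a4⟩, a2, a3⟩
        exact ⟨⟨a1, a2, a3⟩, a4⟩
    rw [e, ih]
    simp only [List.mem_cons, forall_eq_or_imp]
    tauto

lemma all_chain (X Y : Tree) (L : List Tree) :
    AllTwisted (chain X L Y) ↔ EndOK X ∧ (∀ c ∈ L, MidOK c) ∧ EndOK Y := by
  have e : AllTwisted (chain X L Y) ↔ EndOK X ∧ EndOK (hang L Y) := by
    unfold EndOK AllTwisted
    constructor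
    · rintro ⟨⟨a1, a2, a3⟩, a4⟩
      exact ⟨⟨a1, a4⟩, a2, a3⟩
    · rintro ⟨⟨a1, a4⟩, a2, a3⟩
      exact ⟨⟨a1, a2, a3⟩, a4⟩
  rw [e, end_hang]

lemma ws_hang (L : List Tree) (Y : Tree) :
    weightSum (hang L Y) = (L.map weightSum).sum + weightSum Y := by
  induction L with
  | nil => simp [hang]
  | cons c L ih =>
    show weightSum c + weightSum (hang L Y) = _
    rw [ih, List.map_cons, List.sum_cons]
    ring

lemma ws_chain (X Y : Tree) (L : List Tree) :
    weightSum (chain X L Y) = weightSum X + (L.map weightSum).sum + weightSum Y := by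
  show weightSum X + weightSum (hang L Y) = _
  rw [ws_hang]
  ring

lemma ch_pos (X Y : Tree) (L : List Tree) : 1 ≤ (chain X L Y).children := by
  show 1 ≤ X.children + 1
  omega

/-! ### Configurations -/

lemma sh_inv {p : PB} {s d : Tree} (h : p.shape = toTb (.join s d)) :
    ∃ t c : PB, p = .br t c ∧ t.shape = toTb s ∧ c.shape = toTb d := by
  cases p with
  | vx b a z => simp [PB.shape, toTb] at h
  | br t c =>
    have h' : Tb.br t.shape c.shape = Tb.br (toTb s) (toTb d) := h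
    injection h' with h1 h2
    exact ⟨t, c, rfl, h1, h2⟩

lemma shift_list (Z : Tree) : ∀ (a : List Tree) (P : Tree) (p : PB),
    p.shape = toTb (chain P a Z) → Full p →
    ∃ p' : PB, p'.shape = toTb (.join (hang a.reverse P) Z) ∧ Full p' ∧ fv p' = fv p := by
  intro a
  induction a with
  | nil =>
    intro P p hp h
    exact ⟨p, hp, h, rfl⟩
  | cons c a ih =>
    intro P p hp h
    obtain ⟨pP, pr, rfl, h1, h2⟩ := sh_inv (p := p) (s := P) (d := hang (c :: a) Z) hp
    obtain ⟨pc, pM, rfl, h3, h4⟩ := sh_inv (p := pr) (s := c) (d := hang a Z) h2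
    have g := full_shift h
    obtain ⟨p', k1, k2, k3⟩ := ih (.join c P) (.br (.br pc pP) pM) (by
      show Tb.br (Tb.br pc.shape pP.shape) pM.shape = Tb.br (Tb.br (toTb c) (toTb P)) (toTb (hang a Z))
      rw [h1, h3, h4]) g
    refine ⟨p', ?_, k2, ?_⟩
    · rw [k1, List.reverse_cons, hang_append]
      rfl
    · rw [k3, ← fv_shift]

lemma hang_shape : ∀ (m : List Tree) (Y : Tree) (Q : PB), Q.shape = toTb (hang m Y) →
    ∃ (mp : List PB) (yp : PB), Q = plugP mp yp ∧
      List.Forall₂ (fun (c : PB) (t : Tree) => c.shape = toTb t) mp m ∧ yp.shape = toTb Y := by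
  intro m
  induction m with
  | nil =>
    intro Y Q h
    exact ⟨[], Q, rfl, List.Forall₂.nil, h⟩
  | cons c m ih =>
    intro Y Q h
    obtain ⟨pc, pM, rfl, h1, h2⟩ := sh_inv (p := Q) (s := c) (d := hang m Y) h
    obtain ⟨mp, yp, rfl, h3, h4⟩ := ih Y pM h2
    exact ⟨pc :: mp, yp, rfl, List.Forall₂.cons h1 h3, h4⟩

lemma f2_eq : ∀ {m : List Tree} {mp mp' : List PB},
    List.Forall₂ (fun (c : PB) (t : Tree) => c.shape = toTb t) mp m →
    List.Forall₂ (fun (c : PB) (t : Tree) => c.shape = toTb t) mp' m →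
    List.Forall₂ (fun c c' : PB => c.shape = c'.shape) mp mp' := by
  intro m
  induction m with
  | nil =>
    intro mp mp' h h'
    cases h
    cases h'
    exact List.Forall₂.nil
  | cons c m ih =>
    intro mp mp' h h'
    cases h with
    | cons h1 h2 =>
      cases h' with
      | cons h1' h2' => exact List.Forall₂.cons (h1.trans h1'.symm) (ih h2 h2')

lemma f2_mem : ∀ {m : List Tree} {mp : List PB},
    List.Forall₂ (fun (c : PB) (t : Tree) => c.shape = toTb t) mp m →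
    ∀ c ∈ mp, ∃ t ∈ m, c.shape = toTb t := by
  intro m
  induction m with
  | nil =>
    intro mp h c hc
    cases h
    simp at hc
  | cons d m ih =>
    intro mp h c hc
    cases h with
    | cons h1 h2 =>
      rcases List.mem_cons.1 hc with rfl | hc
      · exact ⟨d, List.mem_cons_self, h1⟩
      · obtain ⟨t, ht, he⟩ := ih h2 c hc
        exact ⟨t, List.mem_cons_of_mem _ ht, he⟩

lemma f2_len : ∀ {m : List Tree} {mp : List PB},
    List.Forall₂ (fun (c : PB) (t : Tree) => c.shape = toTb t) mp m → mp.length = m.length :=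
  fun h => h.length_eq

lemma cusp_broad {B : ℝ} (hB : 0 < B) {L : List Tree} (hL : Broad B L) {mp : List PB}
    (h : List.Forall₂ (fun (c : PB) (t : Tree) => c.shape = toTb t) mp L) :
    ∀ c ∈ mp, ‖cusp c.bl (c.nc + 2) c.wt‖ ^ 2 ≤ 1 / B := by
  intro c hc
  obtain ⟨t, ht, he⟩ := f2_mem h c hc
  have e1 : c.bl = t.circle := by rw [← pb_bl, he, bl_to]
  have e2 : c.nc = t.children := by rw [← shape_nc, he, nc_to]
  have e3 : c.wt = t.weight := by rw [← pb_wt, he, wt_to]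
  rw [e1, e2, e3]
  by_cases hb : t.circle = true
  · have : cusp t.circle (t.children + 2) t.weight = 0 := by simp [cusp, hb]
    rw [this, norm_zero, zero_pow two_ne_zero]
    positivity
  · have hbf : t.circle = false := by simpa using hb
    have h1 := hL t ht hbf
    rw [hbf]
    have h2 := cusp_norm_eq (n := t.children + 2) (by omega) t.weight
    have h3 : 0 < (t.weight : ℝ) ^ 2 + ((t.children + 2 : ℕ) : ℝ) ^ 2 := by positivity
    have h4 : ‖cusp false (t.children + 2) t.weight‖ ^ 2 *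
        ((t.weight : ℝ) ^ 2 + ((t.children + 2 : ℕ) : ℝ) ^ 2) = 1 := by
      have h5 := congrArg (fun u : ℝ => u ^ 2) h2
      simp only [mul_pow, one_pow] at h5
      rw [Real.sq_sqrt h3.le] at h5
      exact h5
    have h6 : B ≤ (t.weight : ℝ) ^ 2 + ((t.children + 2 : ℕ) : ℝ) ^ 2 := by
      push_cast
      linarith
    rw [le_div_iff₀ hB]
    calc ‖cusp false (t.children + 2) t.weight‖ ^ 2 * B
        ≤ ‖cusp false (t.children + 2) t.weight‖ ^ 2 *
          ((t.weight : ℝ) ^ 2 + ((t.children + 2 : ℕ) : ℝ) ^ 2) :=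
          mul_le_mul_of_nonneg_left h6 (sq_nonneg _)
      _ = 1 := h4

/-- the mixed difference of four configurations -/
lemma dec_fv {B : ℝ} (hB : 1 ≤ B) {X X' Y Y' : Tree} {L : List Tree} (hL : Broad B L)
    {p1 p2 p3 p4 : PB} (s1 : p1.shape = toTb (chain X L Y)) (s2 : p2.shape = toTb (chain X L Y'))
    (s3 : p3.shape = toTb (chain X' L Y)) (s4 : p4.shape = toTb (chain X' L Y'))
    (h1 : Full p1) (h2 : Full p2) (h3 : Full p3) (h4 : Full p4) :
    ‖fv p1 - fv p2 - fv p3 + fv p4‖ ≤ 23 / 125 * (B * (1 / B) ^ L.length) := by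
  have hB0 : 0 < B := by linarith
  set r : ℕ := L.length / 2 with hr
  set a : List Tree := L.take r with ha
  set m : List Tree := L.drop r with hm
  have hL0 : L = a ++ m := (List.take_append_drop r L).symm
  have hch : ∀ X Y : Tree, chain X L Y = chain X a (hang m Y) := by
    intro X Y
    unfold chain
    conv_lhs => rw [hL0]
    rw [hang_append]
  rw [hch] at s1 s2 s3 s4
  obtain ⟨p1', u1, v1, w1⟩ := shift_list _ a X p1 s1 h1
  obtain ⟨p2', u2, v2, w2⟩ := shift_list _ a X p2 s2 h2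
  obtain ⟨p3', u3, v3, w3⟩ := shift_list _ a X' p3 s3 h3
  obtain ⟨p4', u4, v4, w4⟩ := shift_list _ a X' p4 s4 h4
  obtain ⟨P1, Q1, rfl, c1, d1⟩ := sh_inv u1
  obtain ⟨P2, Q2, rfl, c2, d2⟩ := sh_inv u2
  obtain ⟨P3, Q3, rfl, c3, d3⟩ := sh_inv u3
  obtain ⟨P4, Q4, rfl, c4, d4⟩ := sh_inv u4
  have hl : (a.reverse).length = r := by
    rw [List.length_reverse, ha, List.length_take]
    omega
  have hml : r ≤ m.length := by
    rw [hm, List.length_drop]
    omega
  have hBl : Broad B a.reverse := by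
    intro c hc
    exact hL c (by rw [hL0, List.mem_append]; exact Or.inl (List.mem_reverse.1 hc))
  have hBm : Broad B m := by
    intro c hc
    exact hL c (by rw [hL0, List.mem_append]; exact Or.inr hc)
  have hq0 : (0 : ℝ) ≤ 1 / B := by positivity
  have hq1 : 1 / B ≤ 1 := by
    rw [div_le_one hB0]
    exact hB
  set ε : ℝ := 21 / 25 * (1 / B) ^ r with hε
  have hε0 : 0 ≤ ε := by positivity
  have down : ∀ {P P' Q Q' : PB} {Y Y' Z : Tree}, P.shape = toTb Z → P'.shape = toTb Z →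
      Q.shape = toTb (hang m Y) → Q'.shape = toTb (hang m Y') → Full (.br P Q) →
      Full (.br P' Q') → ‖Q'.rz - Q.rz‖ ≤ ε := by
    intro P P' Q Q' Y Y' Z g1 g2 g3 g4 g5 g6
    obtain ⟨mp, yp, rfl, k1, -⟩ := hang_shape m Y Q g3
    obtain ⟨mp', yp', rfl, k1', -⟩ := hang_shape m Y' Q' g4
    have := decay hq0 mp mp' P P' yp yp' (f2_eq k1 k1') (g1.trans g2.symm) g5 g6
      (cusp_broad hB0 hBm k1)
    refine this.trans ?_
    rw [f2_len k1, hε]
    exact mul_le_mul_of_nonneg_left (pow_le_pow_of_le_one hq0 hq1 hml) (by norm_num)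
  have up : ∀ {P P' Q Q' : PB} {X X' Z : Tree}, Q.shape = toTb Z → Q'.shape = toTb Z →
      P.shape = toTb (hang a.reverse X) → P'.shape = toTb (hang a.reverse X') →
      Full (.br P Q) → Full (.br P' Q') → ‖P'.rz - P.rz‖ ≤ ε := by
    intro P P' Q Q' X X' Z g1 g2 g3 g4 g5 g6
    obtain ⟨mp, yp, rfl, k1, -⟩ := hang_shape a.reverse X P g3
    obtain ⟨mp', yp', rfl, k1', -⟩ := hang_shape a.reverse X' P' g4
    have := decay hq0 mp mp' Q Q' yp yp' (f2_eq k1 k1') (g1.trans g2.symm) (full_swap g5)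
      (full_swap g6) (cusp_broad hB0 hBl k1)
    refine this.trans ?_
    rw [f2_len k1, hl, hε]
  have key := mixed hε0 v1 v2 v3 v4 (c1.trans c2.symm) (c3.trans c4.symm) (d1.trans d3.symm)
    (d2.trans d4.symm) (down c1 c2 d1 d2 v1 v2) (down c3 c4 d3 d4 v3 v4)
    (up d1 d3 c1 c3 v1 v3) (up d2 d4 c2 c4 v2 v4)
  rw [w1, w2, w3, w4] at key
  refine key.trans ?_
  have e1 : ε ^ 2 = (21 / 25) ^ 2 * (1 / B) ^ (2 * r) := by
    rw [hε, mul_pow, ← pow_mul]
    congr 2
    ring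
  have e2 : (1 / B) ^ (2 * r) = B * (1 / B) ^ (2 * r + 1) := by
    rw [pow_succ]
    field_simp
  have e3 : (1 / B) ^ (2 * r + 1) ≤ (1 / B) ^ L.length :=
    pow_le_pow_of_le_one hq0 hq1 (by omega)
  have e4 : B * (1 / B) ^ (2 * r + 1) ≤ B * (1 / B) ^ L.length :=
    mul_le_mul_of_nonneg_left e3 hB0.le
  rw [e1, e2]
  have e5 : 0 ≤ B * (1 / B) ^ (2 * r + 1) := by positivity
  nlinarith

/-! ### The complex volume of a tree -/

open Classical in
/-- the complex volume of the tree -/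
noncomputable def cz (t : Tree) : ℂ :=
  if h : ∃ p : PB, p.shape = toTb t ∧ Full p then
    2 * π * fv h.choose - Complex.I * (π : ℂ) ^ 2 * weightSum t / 2 else 0

lemma cz_eq {t : Tree} (ht : 1 ≤ t.children) {p : PB} (hp : p.shape = toTb t) (h : Full p) :
    cz t = 2 * π * fv p - Complex.I * (π : ℂ) ^ 2 * weightSum t / 2 := by
  have hex : ∃ p : PB, p.shape = toTb t ∧ Full p := ⟨p, hp, h⟩
  unfold cz
  rw [dif_pos hex]
  have h1 := hex.choose_spec
  have hn : 1 ≤ p.nc := by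
    rw [← shape_nc, hp, nc_to]
    exact ht
  rw [full_uniq (hp.trans h1.1.symm) hn h h1.2]

/-- `z` is the complex volume of the link of `t`, and there are expansions -/
def CV (t : Tree) (z : ℂ) : Prop := ∃ V C : ℝ, z = (V : ℂ) + Complex.I * C ∧ IsVol t V ∧
  (∀ C' : ℝ, HasCS t V C' ↔ ∃ k : ℤ, C' = C + k * Real.pi ^ 2) ∧
  (∀ e f : ℤ, ∃ (C' : ℝ) (y : ℕ → ℂ), HasCS t V C' ∧ y 0 ≠ 0 ∧
    EXY (kashaev e f t) ((V + Complex.I * C') / (2 * Real.pi)) y)

lemma cz_spec {t : Tree} (ht : AllTwisted t) (hc : 1 ≤ t.children) :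
    CV t (cz t) ∧ ∃ p : PB, p.shape = toTb t ∧ Full p := by
  obtain ⟨V, C, p, p1, p2, p3, p4, p5, p6, p7⟩ := one_val t ht hc
  have hF : Full p := ⟨p2, p3⟩
  refine ⟨⟨V, C, ?_, p4, p5, p6⟩, p, p1, hF⟩
  rw [cz_eq hc p1 hF, p7]
  rfl

theorem dec {B : ℝ} (hB : 1 ≤ B) {X X' Y Y' : Tree} {L : List Tree} (hL : Broad B L)
    (h : AllTwisted (chain X L Y)) (h' : AllTwisted (chain X' L Y')) :
    ‖cz (chain X L Y) - cz (chain X L Y') - cz (chain X' L Y) + cz (chain X' L Y')‖ ≤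
      6 / 5 * (B * (1 / B) ^ L.length) := by
  have hpi := Real.pi_pos
  obtain ⟨a1, a2, a3⟩ := (all_chain _ _ _).1 h
  obtain ⟨b1, b2, b3⟩ := (all_chain _ _ _).1 h'
  obtain ⟨-, p1, s1, f1⟩ := cz_spec h (ch_pos _ _ _)
  obtain ⟨-, p4, s4, f4⟩ := cz_spec h' (ch_pos _ _ _)
  obtain ⟨-, p2, s2, f2⟩ := cz_spec ((all_chain X Y' L).2 ⟨a1, a2, b3⟩) (ch_pos _ _ _)
  obtain ⟨-, p3, s3, f3⟩ := cz_spec ((all_chain X' Y L).2 ⟨b1, a2, a3⟩) (ch_pos _ _ _)
  have key := dec_fv hB hL s1 s2 s3 s4 f1 f2 f3 f4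
  rw [cz_eq (ch_pos _ _ _) s1 f1, cz_eq (ch_pos _ _ _) s2 f2, cz_eq (ch_pos _ _ _) s3 f3,
    cz_eq (ch_pos _ _ _) s4 f4, ws_chain, ws_chain, ws_chain, ws_chain]
  have e : ∀ (u1 u2 u3 u4 : ℂ) (x x' y y' l : ℤ),
      2 * π * u1 - Complex.I * (π : ℂ) ^ 2 * (x + l + y : ℤ) / 2 -
      (2 * π * u2 - Complex.I * (π : ℂ) ^ 2 * (x + l + y' : ℤ) / 2) -
      (2 * π * u3 - Complex.I * (π : ℂ) ^ 2 * (x' + l + y : ℤ) / 2) +
      (2 * π * u4 - Complex.I * (π : ℂ) ^ 2 * (x' + l + y' : ℤ) / 2) =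
      2 * π * (u1 - u2 - u3 + u4) := by
    intros
    push_cast
    ring
  rw [e, norm_mul, norm_mul, Complex.norm_two, Complex.norm_real, Real.norm_of_nonneg hpi.le]
  have h1 := mul_le_mul_of_nonneg_left key (show (0 : ℝ) ≤ 2 * π by positivity)
  refine h1.trans ?_
  have h2 : 2 * π * (23 / 125) ≤ 6 / 5 := by
    have := Real.pi_lt_d2
    linarith
  have h3 : 0 ≤ B * (1 / B) ^ L.length := by
    have : 0 < B := by linarith
    positivity
  nlinarith

/-- the root can be moved along the path -/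
lemma cz_shift {X Y : Tree} {c L : List Tree} (h : AllTwisted (chain X (c ++ L) Y)) :
    cz (chain X (c ++ L) Y) = cz (chain (hang c.reverse X) L Y) := by
  obtain ⟨-, p, s, f⟩ := cz_spec h (ch_pos _ _ _)
  have e : chain X (c ++ L) Y = chain X c (hang L Y) := by
    unfold chain
    rw [hang_append]
  obtain ⟨p', u, v, w⟩ := shift_list (hang L Y) c X p (by rw [s, e]) f
  have u' : p'.shape = toTb (chain (hang c.reverse X) L Y) := u
  rw [cz_eq (ch_pos _ _ _) s f, cz_eq (ch_pos _ _ _) u' v, w, ws_chain, ws_chain, ws_hang,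
    List.map_append, List.sum_append, List.map_reverse, List.sum_reverse]
  have : weightSum X + ((c.map weightSum).sum + (L.map weightSum).sum) + weightSum Y =
      (c.map weightSum).sum + weightSum X + (L.map weightSum).sum + weightSum Y := by
    ring
  rw [this]

/-! ### Periodic insertions -/

lemma seq_lin (b : ℕ → ℂ) {E ρ : ℝ} (hE : 0 ≤ E) (hρ : 0 ≤ ρ) (hρ' : ρ ≤ 1 / 256)
    (h : ∀ k, ‖b (k + 2) - 2 * b (k + 1) + b k‖ ≤ E * ρ ^ k) :
    ∃ v β : ℂ, Tendsto (fun k => b (k + 1) - b k) atTop (𝓝 v) ∧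
      Tendsto (fun k : ℕ => b k - k * v) atTop (𝓝 β) ∧
      ∀ k : ℕ, ‖b k - (k * v + β)‖ ≤ 26 / 25 * (E * ρ ^ k) := by
  have hρ1 : ρ < 1 := by linarith
  have h1 : ∀ k, dist (b (k + 1) - b k) (b (k + 1 + 1) - b (k + 1)) ≤ E * ρ ^ k := by
    intro k
    rw [dist_comm, dist_eq_norm]
    have e : b (k + 1 + 1) - b (k + 1) - (b (k + 1) - b k) = b (k + 2) - 2 * b (k + 1) + b k := by
      ring
    rw [e]
    exact h k
  obtain ⟨v, hv⟩ := cauchySeq_tendsto_of_complete (cauchySeq_of_le_geometric ρ E hρ1 h1)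
  have h2 := dist_le_of_le_geometric_of_tendsto ρ E hρ1 h1 hv
  have h3 : ∀ k : ℕ, dist (b k - k * v) (b (k + 1) - ((k + 1 : ℕ) : ℂ) * v) ≤
      E / (1 - ρ) * ρ ^ k := by
    intro k
    rw [dist_comm, dist_eq_norm]
    have e : b (k + 1) - ((k + 1 : ℕ) : ℂ) * v - (b k - k * v) = b (k + 1) - b k - v := by
      push_cast
      ring
    rw [e, ← dist_eq_norm]
    refine (h2 k).trans (le_of_eq ?_)
    ring
  obtain ⟨β, hβ⟩ := cauchySeq_tendsto_of_complete (cauchySeq_of_le_geometric ρ _ hρ1 h3)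
  have h4 := dist_le_of_le_geometric_of_tendsto ρ _ hρ1 h3 hβ
  refine ⟨v, β, hv, hβ, fun k => ?_⟩
  have e : b k - (k * v + β) = (b k - k * v) - β := by ring
  rw [e, ← dist_eq_norm]
  refine (h4 k).trans ?_
  have h5 : (0 : ℝ) < 1 - ρ := by linarith
  have h6 : 1 / (1 - ρ) * (1 / (1 - ρ)) ≤ 26 / 25 := by
    have h7 : 1 / (1 - ρ) ≤ 101 / 100 := by
      rw [div_le_iff₀ h5]
      linarith
    have h8 : 0 ≤ 1 / (1 - ρ) := by positivity
    nlinarith
  have h9 : 0 ≤ E * ρ ^ k := by positivity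
  have e2 : E / (1 - ρ) * ρ ^ k / (1 - ρ) = 1 / (1 - ρ) * (1 / (1 - ρ)) * (E * ρ ^ k) := by
    field_simp
  rw [e2]
  exact mul_le_mul_of_nonneg_right h6 h9

theorem periodic {B : ℝ} (hB : 256 ≤ B) {c : List Tree} (hc : c ≠ []) (hL : Broad B c) :
    ∃ (v : ℂ) (β₁ β₂ : Tree → ℂ), ∀ X Y : Tree, AllTwisted (chain X c Y) → ∀ k : ℕ,
      AllTwisted (chain X (repeated c k) Y) ∧
      ‖cz (chain X (repeated c k) Y) - (k * v + (β₁ X + β₂ Y))‖ ≤
        5 / 4 * (B * ((1 / B) ^ c.length) ^ k) := by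
  have hB0 : 0 < B := by linarith
  have hB1 : (1 : ℝ) ≤ B := by linarith
  have hlen : 1 ≤ c.length := by
    rcases c with _ | ⟨d, c⟩
    · exact absurd rfl hc
    · simp
  set ρ : ℝ := (1 / B) ^ c.length with hρ
  have hq0 : (0 : ℝ) ≤ 1 / B := by positivity
  have hq1 : 1 / B ≤ 1 := by
    rw [div_le_one hB0]
    exact hB1
  have hρ0 : 0 ≤ ρ := by positivity
  have hρ1 : ρ ≤ 1 / 256 := by
    have h1 : ρ ≤ (1 / B) ^ 1 := pow_le_pow_of_le_one hq0 hq1 hlen
    rw [pow_one] at h1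
    refine h1.trans ?_
    exact one_div_le_one_div_of_le (by norm_num) hB
  set E : ℝ := 6 / 5 * B with hE
  have hE0 : 0 ≤ E := by positivity
  have hLk : ∀ k, Broad B (repeated c k) := fun k d hd => hL d (rep_mem hd)
  have hbd : ∀ k, 6 / 5 * (B * (1 / B) ^ (repeated c k).length) = E * ρ ^ k := by
    intro k
    rw [rep_len, hE, hρ, ← pow_mul, mul_comm c.length k]
    ring
  by_cases hne : ∃ X Y : Tree, AllTwisted (chain X c Y)
  swap
  · exact ⟨0, 0, 0, fun X Y h => absurd ⟨X, Y, h⟩ hne⟩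
  obtain ⟨X₀, Y₀, h₀⟩ := hne
  obtain ⟨a1, a2, a3⟩ := (all_chain _ _ _).1 h₀
  have hall : ∀ X Y : Tree, EndOK X → EndOK Y → ∀ k, AllTwisted (chain X (repeated c k) Y) :=
    fun X Y hX hY k => (all_chain _ _ _).2 ⟨hX, fun d hd => a2 d (rep_mem hd), hY⟩
  have hend : ∀ Y : Tree, EndOK Y → EndOK (hang c Y) := fun Y hY => (end_hang _ _).2 ⟨a2, hY⟩
  have hend' : ∀ X : Tree, EndOK X → EndOK (hang c.reverse X) := fun X hX =>
    (end_hang _ _).2 ⟨fun d hd => a2 d (List.mem_reverse.1 hd), hX⟩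
  set b : Tree → Tree → ℕ → ℂ := fun X Y k => cz (chain X (repeated c k) Y) with hb
  have hdec : ∀ X X' Y Y' : Tree, EndOK X → EndOK X' → EndOK Y → EndOK Y' → ∀ k,
      ‖b X Y k - b X Y' k - b X' Y k + b X' Y' k‖ ≤ E * ρ ^ k := by
    intro X X' Y Y' hX hX' hY hY' k
    rw [← hbd]
    exact dec hB1 (hLk k) (hall X Y hX hY k) (hall X' Y' hX' hY' k)
  have hr : ∀ X Y : Tree, ∀ k, b X (hang c Y) k = b X Y (k + 1) := by
    intro X Y k
    show cz (chain X (repeated c k) (hang c Y)) = cz (chain X (repeated c (k + 1)) Y)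
    rw [rep_succ']
    unfold chain
    rw [hang_append]
  have hl : ∀ X Y : Tree, EndOK X → EndOK Y → ∀ k, b (hang c.reverse X) Y k = b X Y (k + 1) := by
    intro X Y hX hY k
    show cz (chain (hang c.reverse X) (repeated c k) Y) = cz (chain X (repeated c (k + 1)) Y)
    have h := hall X Y hX hY (k + 1)
    rw [rep_succ] at h ⊢
    exact (cz_shift h).symm
  have hsec : ∀ X Y : Tree, EndOK X → EndOK Y → ∀ k,
      ‖b X Y (k + 2) - 2 * b X Y (k + 1) + b X Y k‖ ≤ E * ρ ^ k := by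
    intro X Y hX hY k
    have h := hdec X (hang c.reverse X) Y (hang c Y) hX (hend' X hX) hY (hend Y hY) k
    rw [hr X Y, hl X Y hX hY, hr (hang c.reverse X) Y, hl X Y hX hY] at h
    have e : b X Y (k + 2) - 2 * b X Y (k + 1) + b X Y k =
        b X Y k - b X Y (k + 1) - b X Y (k + 1) + b X Y (k + 1 + 1) := by ring
    rw [e]
    exact h
  have hex : ∀ X Y : Tree, ∃ v β : ℂ, EndOK X → EndOK Y →
      Tendsto (fun k => b X Y (k + 1) - b X Y k) atTop (𝓝 v) ∧
      Tendsto (fun k : ℕ => b X Y k - k * v) atTop (𝓝 β) ∧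
      ∀ k : ℕ, ‖b X Y k - (k * v + β)‖ ≤ 26 / 25 * (E * ρ ^ k) := by
    intro X Y
    by_cases h : EndOK X ∧ EndOK Y
    · obtain ⟨v, β, h1⟩ := seq_lin (b X Y) hE0 hρ0 hρ1 (hsec X Y h.1 h.2)
      exact ⟨v, β, fun _ _ => h1⟩
    · exact ⟨0, 0, fun h1 h2 => absurd ⟨h1, h2⟩ h⟩
  choose v β hvβ using hex
  have hz : Tendsto (fun k : ℕ => E * ρ ^ k) atTop (𝓝 0) := by
    have := (tendsto_pow_atTop_nhds_zero_of_lt_one hρ0 (by linarith : ρ < 1)).const_mul E
    simpa using this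
  have hvX : ∀ X Y : Tree, EndOK X → EndOK Y → v X Y = v X₀ Y := by
    intro X Y hX hY
    have h1 := (hvβ X Y hX hY).1
    have h2 := (hvβ X₀ Y a1 hY).1
    have h3 : Tendsto (fun k => (b X₀ Y (k + 1) - b X₀ Y k) - (b X Y (k + 1) - b X Y k)) atTop
        (𝓝 0) := by
      refine squeeze_zero_norm (fun k => ?_) hz
      have h := hdec X X₀ Y (hang c Y) hX a1 hY (hend Y hY) k
      rw [hr X Y, hr X₀ Y] at h
      have e : (b X₀ Y (k + 1) - b X₀ Y k) - (b X Y (k + 1) - b X Y k) =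
          b X Y k - b X Y (k + 1) - b X₀ Y k + b X₀ Y (k + 1) := by ring
      rw [e]
      exact h
    have h4 := tendsto_nhds_unique h3 (h2.sub h1)
    exact (sub_eq_zero.1 h4.symm).symm
  have hvY : ∀ Y : Tree, EndOK Y → v X₀ Y = v X₀ Y₀ := by
    intro Y hY
    have h1 := (hvβ X₀ Y a1 hY).1
    have h2 := (hvβ X₀ Y₀ a1 a3).1
    have h3 : Tendsto (fun k => (b X₀ Y₀ (k + 1) - b X₀ Y₀ k) - (b X₀ Y (k + 1) - b X₀ Y k))
        atTop (𝓝 0) := by
      refine squeeze_zero_norm (fun k => ?_) hz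
      have h := hdec X₀ (hang c.reverse X₀) Y Y₀ a1 (hend' X₀ a1) hY a3 k
      rw [hl X₀ Y a1 hY, hl X₀ Y₀ a1 a3] at h
      have e : (b X₀ Y₀ (k + 1) - b X₀ Y₀ k) - (b X₀ Y (k + 1) - b X₀ Y k) =
          b X₀ Y k - b X₀ Y₀ k - b X₀ Y (k + 1) + b X₀ Y₀ (k + 1) := by ring
      rw [e]
      exact h
    have h4 := tendsto_nhds_unique h3 (h2.sub h1)
    exact (sub_eq_zero.1 h4.symm).symm
  have hv : ∀ X Y : Tree, EndOK X → EndOK Y → v X Y = v X₀ Y₀ :=
    fun X Y hX hY => (hvX X Y hX hY).trans (hvY Y hY)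
  have hβ : ∀ X Y : Tree, EndOK X → EndOK Y → β X Y = β X Y₀ + (β X₀ Y - β X₀ Y₀) := by
    intro X Y hX hY
    have g1 := (hvβ X Y hX hY).2.1
    have g2 := (hvβ X Y₀ hX a3).2.1
    have g3 := (hvβ X₀ Y a1 hY).2.1
    have g4 := (hvβ X₀ Y₀ a1 a3).2.1
    rw [hv X Y hX hY] at g1
    rw [hv X Y₀ hX a3] at g2
    rw [hv X₀ Y a1 hY] at g3
    have h3 : Tendsto (fun k => b X Y k - b X Y₀ k - b X₀ Y k + b X₀ Y₀ k) atTop (𝓝 0) :=
      squeeze_zero_norm (fun k => hdec X X₀ Y Y₀ hX a1 hY a3 k) hz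
    have h4 := ((g1.sub g2).sub g3).add g4
    have h5 : (fun k : ℕ => b X Y k - k * v X₀ Y₀ - (b X Y₀ k - k * v X₀ Y₀) -
        (b X₀ Y k - k * v X₀ Y₀) + (b X₀ Y₀ k - k * v X₀ Y₀)) =
        fun k => b X Y k - b X Y₀ k - b X₀ Y k + b X₀ Y₀ k := by
      funext k
      ring
    rw [h5] at h4
    have h6 := tendsto_nhds_unique h4 h3
    linear_combination h6
  refine ⟨v X₀ Y₀, fun X => β X Y₀, fun Y => β X₀ Y - β X₀ Y₀, fun X Y h k => ?_⟩
  obtain ⟨b1, b2, b3⟩ := (all_chain _ _ _).1 h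
  refine ⟨hall X Y b1 b3 k, ?_⟩
  have h1 := (hvβ X Y b1 b3).2.2 k
  rw [hv X Y b1 b3, hβ X Y b1 b3] at h1
  refine h1.trans ?_
  rw [hE]
  have h2 : 0 ≤ B * ρ ^ k := by positivity
  nlinarith

lemma broad_of {X Y : Tree} {L : List Tree} (h : AllTwisted (chain X L Y)) : Broad 256 L := by
  intro c hc hb
  obtain ⟨-, a2, -⟩ := (all_chain _ _ _).1 h
  obtain ⟨-, h1⟩ := a2 c hc
  rcases h1 with h1 | h1 | h1
  · rw [hb] at h1
    exact absurd h1 (by simp)
  · have h2 : (16 : ℝ) ≤ |(c.weight : ℝ)| := by exact_mod_cast h1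
    have h3 : (c.weight : ℝ) ^ 2 = |(c.weight : ℝ)| ^ 2 := (sq_abs _).symm
    have h4 : (16 : ℝ) ^ 2 ≤ |(c.weight : ℝ)| ^ 2 := pow_le_pow_left₀ (by norm_num) h2 2
    have h5 : (0 : ℝ) ≤ ((c.children : ℝ) + 2) ^ 2 := sq_nonneg _
    rw [h3]
    linarith
  · have h2 : (32 : ℝ) ≤ (c.children : ℝ) + 2 := by exact_mod_cast h1
    have h4 : (32 : ℝ) ^ 2 ≤ ((c.children : ℝ) + 2) ^ 2 := pow_le_pow_left₀ (by norm_num) h2 2
    have h5 : (0 : ℝ) ≤ (c.weight : ℝ) ^ 2 := sq_nonneg _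
    linarith

end Pool.Agent.U21.TL
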