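import Pool.Agent.U21.TL.Lin
import Pool.Agent.N999.EK.HesMul

/-!
# Explicit estimates of the critical points
-/

set_option autoImplicit false
set_option linter.unusedVariables false

namespace Pool.Agent.U21.TL

open Finset Filter Topology
open Pool.Agent.TH563.UV
open Pool.Agent.TH563.V
open Pool.Agent.TH563.Z (shape_nc)
open Pool.Agent.W719.AR (Fl Gap)
open Pool.Agent.W711.HT hiding XX
open Pool.Agent.N561
open Pool.Agent.N561.EK
open Pool.Agent.N561.G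
open Pool.Agent.N277.EK (kf0 e0 inde mem_D1 vl_ve)
open scoped Real

/-! ### The edges -/

lemma edge20 {z w : ℂ} (hz : z ∈ D1) (hw : w ∈ D1) :
    ‖deriv (fun u => sg u w) z + z / (2 * π)‖ ≤ 1 / 20 * ‖z‖ / (2 * π) :=
  f_all.mul.m1 z hz w hw

/-- the quotient near `0` -/
lemma q_small {a b : ℂ} {T : ℝ} (hT : T ≤ 441 / 10000) (ha : ‖a‖ ^ 2 ≤ T) (hb : ‖b‖ ^ 2 ≤ T) :
    ‖Complex.cos b / (Complex.cos a * Pool.Agent.N999.EK.sr a b) - 1‖ ≤ 108 / 100 * T := by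
  have hT0 : 0 ≤ T := (sq_nonneg _).trans ha
  have him : ∀ {a : ℂ}, ‖a‖ ^ 2 ≤ T → a.im ^ 2 ≤ T := by
    intro a ha
    refine le_trans ?_ ha
    rw [Complex.sq_norm, Complex.normSq_apply]
    nlinarith [sq_nonneg a.re]
  have hsin : ∀ {a : ℂ}, ‖a‖ ^ 2 ≤ T → ‖Complex.sin a‖ ^ 2 ≤ 105 / 100 * T := by
    intro a ha
    refine (Pool.Agent.N999.EK.sin_disc ha (him ha) (by linarith)).trans ?_
    have : T ^ 2 / (1 - T) ≤ 5 / 100 * T := by
      rw [div_le_iff₀ (by linarith)]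
      nlinarith
    linarith
  have hcos : ∀ {a : ℂ}, ‖a‖ ^ 2 ≤ T → ‖Complex.cos a - 1‖ ≤ 51 / 100 * T := by
    intro a ha
    rw [Pool.Agent.N999.EK.norm_cos_sub_one]
    have h1 : ‖a / 2‖ ^ 2 ≤ T / 4 := by
      rw [norm_div, Complex.norm_two, div_pow]
      linarith
    have h2 : (a / 2).im ^ 2 ≤ T / 4 := by
      have : (a / 2).im = a.im / 2 := by simp
      rw [this, div_pow]
      linarith [him ha]
    have h3 := Pool.Agent.N999.EK.sin_disc h1 h2 (by linarith)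
    have h4 : (T / 4) ^ 2 / (1 - T / 4) ≤ 1 / 200 * T := by
      rw [div_le_iff₀ (by linarith)]
      nlinarith
    linarith
  have hr : ‖1 - Pool.Agent.N999.EK.sr a b‖ ≤ 26 / 1000 * T := by
    refine Pool.Agent.N999.EK.r_bd (hsin ha) (hsin hb) ?_ ?_
    · nlinarith
    · nlinarith [mul_nonneg hT0 hT0, mul_nonneg hT0 (mul_nonneg hT0 hT0)]
  have hD : ‖Complex.cos b - Complex.cos a‖ ≤ 102 / 100 * T := by
    have e : Complex.cos b - Complex.cos a = (Complex.cos b - 1) - (Complex.cos a - 1) := by ring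
    rw [e]
    refine (norm_sub_le _ _).trans ?_
    linarith [hcos ha, hcos hb]
  have n1 : 9775 / 10000 ≤ ‖Complex.cos a‖ := by
    have h1 : ‖1 - Complex.cos a‖ ≤ 225 / 10000 := by
      rw [norm_sub_rev]
      linarith [hcos ha]
    linarith [Pool.Agent.N999.EK.norm_ge_of_sub h1]
  refine (Pool.Agent.N999.EK.quot_bd (by norm_num) n1 hD (by linarith) hr).trans ?_
  have h5 : 102 / 100 * T / (9775 / 10000 * (1 - 26 / 1000 * T)) ≤ 1046 / 1000 * T := by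
    rw [div_le_iff₀ (by nlinarith)]
    nlinarith
  have h6 : 26 / 1000 * T / (1 - 26 / 1000 * T) ≤ 27 / 1000 * T := by
    rw [div_le_iff₀ (by nlinarith)]
    nlinarith
  linarith

lemma edge_small {z w : ℂ} {R : ℝ} (hR : R ≤ 441 / 2500) (hz : z ∈ D1) (hw : w ∈ D1)
    (hz1 : ‖z‖ ^ 2 ≤ R) (hw1 : ‖w‖ ^ 2 ≤ R) :
    ‖deriv (fun u => sg u w) z + z / (2 * π)‖ ≤ 27 / 100 * R * ‖z‖ / (2 * π) := by
  have hP := f_all.pot
  have hwD := Pool.Agent.N999.EK.D1_sub hw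
  have hR0 : 0 ≤ R := (sq_nonneg _).trans hz1
  have h0 : Pool.Agent.N999.EK.ff w 0 = 0 := by
    rw [Pool.Agent.N999.EK.ff, Pool.Agent.N999.EK.s1_zero hP hwD, zero_div, add_zero]
  have hhalf : ∀ {u : ℂ}, ‖u‖ ^ 2 ≤ R → ‖u / 2‖ ^ 2 ≤ R / 4 := by
    intro u hu
    rw [norm_div, Complex.norm_two, div_pow]
    linarith
  have hmem : ∀ {u : ℂ}, ‖u‖ ^ 2 ≤ R ↔ u ∈ Metric.closedBall (0 : ℂ) (Real.sqrt R) := by
    intro u
    rw [mem_closedBall_zero_iff]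
    constructor
    · intro h
      exact Real.le_sqrt_of_sq_le h
    · intro h
      calc ‖u‖ ^ 2 ≤ (Real.sqrt R) ^ 2 := pow_le_pow_left₀ (norm_nonneg _) h 2
        _ = R := Real.sq_sqrt hR0
  have h1 : ‖Pool.Agent.N999.EK.ff w z - Pool.Agent.N999.EK.ff w 0‖ ≤
      27 / 100 * R / (2 * π) * ‖z - 0‖ := by
    refine Pool.Agent.N999.EK.mean hP hwD
      (s := D1 ∩ Metric.closedBall (0 : ℂ) (Real.sqrt R))
      (Pool.Agent.N999.EK.convex_D1.inter (convex_closedBall _ _)) ?_ ?_ ?_ ?_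
    · exact fun u hu => Pool.Agent.N999.EK.D1_sub hu.1
    · intro u hu
      rw [Pool.Agent.N999.EK.rr_eq]
      refine (q_small (T := R / 4) (by linarith) (hhalf (hmem.2 hu.2)) (hhalf hw1)).trans ?_
      linarith
    · refine ⟨⟨?_, ?_⟩, ?_⟩
      · rw [norm_zero]; norm_num
      · rw [Complex.zero_im, abs_zero]; norm_num
      · rw [mem_closedBall_zero_iff, norm_zero]
        exact Real.sqrt_nonneg _
    · exact ⟨hz, hmem.1 hz1⟩
  rw [h0, sub_zero, sub_zero] at h1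
  change ‖Pool.Agent.N999.EK.ff w z‖ ≤ _
  refine h1.trans (le_of_eq ?_)
  ring

/-! ### The equations -/

/-- the estimate at the edges: `P` holds for the critical points -/
def EdgeK (κ : ℝ) (P : ℂ → Prop) : Prop := ∀ z w : ℂ, z ∈ D1 → w ∈ D1 → P z → P w →
  ‖deriv (fun u => sg u w) z + z / (2 * π)‖ ≤ κ * ‖z‖ / (2 * π)

lemma edgeK' {κ : ℝ} {P : ℂ → Prop} (h : EdgeK κ P) {z w : ℂ} (hz : z ∈ D1) (hw : w ∈ D1)
    (h1 : P z) (h2 : P w) :
    ‖deriv (fun u => sg w u) z + z / (2 * π)‖ ≤ κ * ‖z‖ / (2 * π) := by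
  have e : (fun u => sg w u) = fun u => sg u w := by
    funext u
    exact f_all.pot.sym w u
  rw [e]
  exact h z w hz hw h1 h2

/-- the vertices other than the root have the property `P` -/
def AllP (P : ℂ → Prop) : PB → Prop
  | .vx _ _ _ => True
  | .br t c => AllP P t ∧ AllP P c ∧ P c.rz

lemma gs_est {κ : ℝ} {P : ℂ → Prop} (hk : EdgeK κ P) : ∀ p : PB, CE p → AllP P p → p.rz ∈ D1 →
    P p.rz → ‖p.gs sg + p.nc * p.rz / (2 * π)‖ ≤ p.nc * κ * ‖p.rz‖ / (2 * π)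
  | .vx _ _ _, _, _, _, _ => by simp [PB.gs, PB.nc]
  | .br t c, h, hP, hz, hPz => by
    obtain ⟨h1, h2, h3⟩ := h
    have e1 := gs_est hk t h1 hP.1 hz hPz
    have e2 := edgeK' hk (z := t.rz) (w := c.rz) hz (mem_D1 h3) hPz hP.2.2
    have e3 : (PB.br t c).gs sg + ((PB.br t c).nc : ℂ) * (PB.br t c).rz / (2 * π) =
        (t.gs sg + t.nc * t.rz / (2 * π)) +
          (deriv (fun u => sg c.rz u) t.rz + t.rz / (2 * π)) := by
      simp only [PB.gs, PB.nc, PB.rz]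
      push_cast
      ring
    rw [e3]
    refine (norm_add_le _ _).trans ?_
    have e4 : (((PB.br t c).nc : ℝ)) * κ * ‖(PB.br t c).rz‖ / (2 * π) =
        (t.nc : ℝ) * κ * ‖t.rz‖ / (2 * π) + κ * ‖t.rz‖ / (2 * π) := by
      simp only [PB.nc, PB.rz]
      push_cast
      ring
    rw [e4]
    exact add_le_add e1 e2

/-- the estimate at a vertex -/
def VB (κ : ℝ) (b : Bool) (w : ℤ) (n : ℕ) (z : ℂ) : Prop := b = false → 0 < z.im ∧
  ‖z * (Complex.I * w - n) + 2 * π * Complex.I‖ ≤ n * κ * ‖z‖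

lemma vb_of {κ : ℝ} {b : Bool} {w : ℤ} {n : ℕ} {z G : ℂ} (h : VE b w z G)
    (hG : ‖G + n * z / (2 * π)‖ ≤ n * κ * ‖z‖ / (2 * π)) : VB κ b w n z := by
  intro hb
  obtain ⟨-, h2, h3⟩ := h.2 hb
  refine ⟨h2, ?_⟩
  have hpi := Real.pi_pos
  have hpc : (π : ℂ) ≠ 0 := by exact_mod_cast hpi.ne'
  have e : z * (Complex.I * w - n) + 2 * π * Complex.I = -(2 * π * (G + n * z / (2 * π))) := by
    have h4 : G = -(Complex.I * w * z / (2 * π) + Complex.I) := by linear_combination h3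
    rw [h4]
    field_simp
    ring
  rw [e, norm_neg, norm_mul, norm_mul, Complex.norm_ofNat, Complex.norm_real, Real.norm_eq_abs,
    abs_of_pos hpi]
  calc 2 * π * ‖G + n * z / (2 * π)‖ ≤ 2 * π * (n * κ * ‖z‖ / (2 * π)) :=
        mul_le_mul_of_nonneg_left hG (by positivity)
    _ = n * κ * ‖z‖ := by field_simp

/-- the estimates at the vertices other than the root -/
def VBB (κ : ℝ) : PB → Prop
  | .vx _ _ _ => True
  | .br t c => VBB κ t ∧ VBB κ c ∧ VB κ c.bl c.wt (c.nc + 1) c.rz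

lemma vbb_of {κ : ℝ} {P : ℂ → Prop} (hk : EdgeK κ P) : ∀ p : PB, CE p → AllP P p → p.rz ∈ D1 →
    P p.rz → VBB κ p
  | .vx _ _ _, _, _, _, _ => trivial
  | .br t c, h, hP, hz, hPz => by
    obtain ⟨h1, h2, h3⟩ := h
    refine ⟨vbb_of hk t h1 hP.1 hz hPz, vbb_of hk c h2 hP.2.1 (mem_D1 h3) hP.2.2, vb_of h3 ?_⟩
    have e1 := gs_est hk c h2 hP.2.1 (mem_D1 h3) hP.2.2
    have e2 := hk c.rz t.rz (mem_D1 h3) hz hP.2.2 hPz
    have e3 : c.gs sg + deriv (fun w => sg w t.rz) c.rz +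
        ((c.nc + 1 : ℕ) : ℂ) * c.rz / (2 * π) = (c.gs sg + c.nc * c.rz / (2 * π)) +
          (deriv (fun u => sg u t.rz) c.rz + c.rz / (2 * π)) := by
      push_cast
      ring
    rw [e3]
    refine (norm_add_le _ _).trans ?_
    have e4 : (((c.nc + 1 : ℕ) : ℝ)) * κ * ‖c.rz‖ / (2 * π) =
        (c.nc : ℝ) * κ * ‖c.rz‖ / (2 * π) + κ * ‖c.rz‖ / (2 * π) := by
      push_cast
      ring
    rw [e4]
    exact add_le_add e1 e2

lemma vb_root {κ : ℝ} {P : ℂ → Prop} (hk : EdgeK κ P) (p : PB) (h : CE p)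
    (hV : VE p.bl p.wt p.rz (p.gs sg)) (hP : AllP P p) (hPz : P p.rz) :
    VB κ p.bl p.wt p.nc p.rz := vb_of hV (gs_est hk p h hP (mem_D1 hV) hPz)

/-! ### The critical points -/

/-- the size of the critical point of a vertex -/
theorem vb_size {κ : ℝ} (hκ0 : 0 ≤ κ) (hκ : κ < 1) {w : ℤ} {n : ℕ} {z : ℂ} (hn : 1 ≤ n)
    (h : VB κ false w n z) :
    ‖z‖ * Real.sqrt ((w : ℝ) ^ 2 + n ^ 2) ≤ 2 * π / (1 - κ) := by
  obtain ⟨-, h1⟩ := h rfl
  have hpi := Real.pi_pos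
  have hn0 : (0 : ℝ) < n := by exact_mod_cast hn
  have hm2 : 0 < (w : ℝ) ^ 2 + (n : ℝ) ^ 2 := by positivity
  set m : ℝ := Real.sqrt ((w : ℝ) ^ 2 + (n : ℝ) ^ 2) with hm
  have hmp : 0 < m := Real.sqrt_pos.2 hm2
  have hnm : (n : ℝ) ≤ m := by
    apply Real.le_sqrt_of_sq_le
    nlinarith [sq_nonneg (w : ℝ)]
  have hq : 0 ≤ ‖z‖ := norm_nonneg z
  have hzm : ‖z * (Complex.I * w - n)‖ = ‖z‖ * m := by
    rw [norm_mul]
    congr 1
    rw [Complex.norm_eq_sqrt_sq_add_sq, hm]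
    congr 1
    simp
    ring
  have h2 : ‖z‖ * m ≤ n * κ * ‖z‖ + 2 * π := by
    have e : z * (Complex.I * w - n) =
        (z * (Complex.I * w - n) + 2 * π * Complex.I) - 2 * π * Complex.I := by ring
    rw [← hzm, e]
    refine (norm_sub_le _ _).trans ?_
    rw [norm_mul (2 * (π : ℂ)), norm_mul, Complex.norm_I, Complex.norm_ofNat, Complex.norm_real,
      Real.norm_eq_abs, abs_of_pos hpi, mul_one]
    linarith
  rw [le_div_iff₀ (by linarith)]
  have : n * κ * ‖z‖ ≤ m * κ * ‖z‖ :=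
    mul_le_mul_of_nonneg_right (mul_le_mul_of_nonneg_right hnm hκ0) hq
  nlinarith

/-- real and imaginary part of the critical point of a vertex -/
theorem vb_est {κ : ℝ} (hκ0 : 0 ≤ κ) (hκ : κ < 1) {w : ℤ} {n : ℕ} {z : ℂ} (hn : 1 ≤ n)
    (h : VB κ false w n z) :
    |z.im - 2 * π * n / ((w : ℝ) ^ 2 + n ^ 2)| ≤
      2 * π * n * (κ / (1 - κ)) / ((w : ℝ) ^ 2 + n ^ 2) ∧
    |z.re + 2 * π * w / ((w : ℝ) ^ 2 + n ^ 2)| ≤
      2 * π * n * (κ / (1 - κ)) / ((w : ℝ) ^ 2 + n ^ 2) := by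
  have h3 := vb_size hκ0 hκ hn h
  obtain ⟨-, h1⟩ := h rfl
  have hpi := Real.pi_pos
  have hn0 : (0 : ℝ) < n := by exact_mod_cast hn
  have hm2 : 0 < (w : ℝ) ^ 2 + (n : ℝ) ^ 2 := by positivity
  set m : ℝ := Real.sqrt ((w : ℝ) ^ 2 + (n : ℝ) ^ 2) with hm
  have hmp : 0 < m := Real.sqrt_pos.2 hm2
  have hms : m ^ 2 = (w : ℝ) ^ 2 + (n : ℝ) ^ 2 := Real.sq_sqrt hm2.le
  set r : ℂ := z * (Complex.I * w - n) + 2 * π * Complex.I with hr
  have h5 : m * ‖r‖ ≤ 2 * π * n * (κ / (1 - κ)) := by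
    calc m * ‖r‖ ≤ m * (n * κ * ‖z‖) := mul_le_mul_of_nonneg_left h1 hmp.le
      _ = n * κ * (‖z‖ * m) := by ring
      _ ≤ n * κ * (2 * π / (1 - κ)) := mul_le_mul_of_nonneg_left h3 (by positivity)
      _ = 2 * π * n * (κ / (1 - κ)) := by ring
  have hcs : ∀ x y : ℝ, x ^ 2 + y ^ 2 = m ^ 2 → |x * r.re + y * r.im| ≤ m * ‖r‖ := by
    intro x y hxy
    apply abs_le_of_sq_le_sq _ (by positivity)
    have e : (m * ‖r‖) ^ 2 = (x ^ 2 + y ^ 2) * (r.re ^ 2 + r.im ^ 2) := by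
      rw [mul_pow, hxy, ← Complex.normSq_eq_norm_sq, Complex.normSq_apply]
      ring
    rw [e]
    nlinarith [sq_nonneg (x * r.im - y * r.re)]
  have hre : r.re = -(n * z.re) - w * z.im := by
    rw [hr]
    simp
    ring
  have him : r.im = w * z.re - n * z.im + 2 * π := by
    rw [hr]
    simp
    ring
  have c1 := hcs w n (by rw [hms])
  have c2 := hcs n (-w) (by rw [hms]; ring)
  constructor
  · have e : z.im - 2 * π * n / ((w : ℝ) ^ 2 + n ^ 2) =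
        -(w * r.re + n * r.im) / ((w : ℝ) ^ 2 + n ^ 2) := by
      rw [hre, him]
      field_simp
      ring
    rw [e, abs_div, abs_of_pos hm2, abs_neg]
    exact div_le_div_of_nonneg_right (c1.trans h5) hm2.le
  · have e : z.re + 2 * π * w / ((w : ℝ) ^ 2 + n ^ 2) =
        -(n * r.re + -w * r.im) / ((w : ℝ) ^ 2 + n ^ 2) := by
      rw [hre, him]
      field_simp
      ring
    rw [e, abs_div, abs_of_pos hm2, abs_neg]
    exact div_le_div_of_nonneg_right (c2.trans h5) hm2.le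

end Pool.Agent.U21.TL
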