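import Pool.Agent.U21.TL.Bnd
import Pool.Agent.N561.EK.Fin

/-!
# The critical structures of the library
-/

set_option autoImplicit false
set_option linter.unusedVariables false

namespace Pool.Agent.U21.TL

open Finset Filter Topology
open Pool.Agent.TH563.UV
open Pool.Agent.TH563.V
open Pool.Agent.TH563.Z (shape_nc)
open Pool.Agent.W719.AR (Fl Gap)
open Pool.Agent.W737.AR (Lf)
open Pool.Agent.W711.HT hiding XX
open Pool.Agent.N561
open Pool.Agent.N561.EK
open Pool.Agent.N561.G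
open Pool.Agent.N277.EK (kf0 e0 inde mem_D1 vl_ve)
open Pool.Agent.TH609.UV (VL vt_re vl_im wt_eq vertex fe)
open scoped Real

lemma Lg_zero (u : ℂ) : Lg u 0 = 0 := by
  unfold Lg
  rw [sub_zero, add_zero]
  by_cases h : Complex.cos (u / 2) = 0
  · rw [h, div_zero, Complex.log_zero]
  · rw [div_self h, Complex.log_one]

lemma sv_of {b : Bool} {w : ℤ} {ψ L : ℂ} {l : List (Fl × Fl)} (hl : ∀ x ∈ l, EGW ψ x)
    (hsum : (l.map fun y => y.1.cr).sum = L.im) (hL : VL b w ψ L) : SV b w l := by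
  refine ⟨ψ.re, ?_, ?_, ?_⟩
  · intro x hx
    obtain ⟨ψ', u, h, rfl⟩ := hl x hx
    obtain ⟨-, -, h3, h4, h5, -⟩ := h.sr
    exact ⟨h5, h3, h4⟩
  · intro hb
    have h0 := hL.1 hb
    subst h0
    refine ⟨by simp, ?_⟩
    apply List.sum_eq_zero
    intro x hx
    obtain ⟨y, hy, rfl⟩ := List.mem_map.1 hx
    obtain ⟨ψ', u, h, rfl⟩ := hl y hy
    have := h.sr.2.2.2.2.2
    rw [Lg_zero] at this
    simpa using this
  · intro hb
    rw [hsum]
    exact vl_im hL hb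

theorem agv_aok (kf : Bool → ℕ → ℤ → ℕ) (e : ℕ → ℕ → ℂ → ℂ → ℂ) :
    ∀ (p : PB) (k : ℕ), hpv kf e k p → lcv kf e k p → AOK SV (agv kf e k p)
  | .vx _ _ _, _, _, _ => trivial
  | .br t c, k, h, h' => by
    obtain ⟨h1, h2, h3⟩ := h
    obtain ⟨k1, k2, k3⟩ := h'
    have h4 := hw_symm h3
    obtain ⟨g1, g2⟩ := agv_fl kf e (kc kf c) c h2
    have s3 := h3.sr
    have s4 := h4.sr
    refine ⟨agv_aok kf e t k h1 k1, agv_aok kf e c (kc kf c) h2 k2, s4.1, s3.1, s4.2.1, ?_⟩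
    rw [agv_wt, agv_bl]
    refine sv_of (ψ := c.rz) ?_ ?_ k3
    · intro x hx
      rcases List.mem_cons.1 hx with rfl | hx
      · exact ⟨_, _, h3, rfl⟩
      · exact g1 x hx
    · rw [List.map_cons, List.sum_cons, g2]
      simp only
      rw [s3.2.2.2.2.2, ← Complex.add_im]

lemma lin_agv (kf : Bool → ℕ → ℤ → ℕ) (e : ℕ → ℕ → ℂ → ℂ → ℂ) :
    ∀ (p : PB) (k : ℕ) (z : AB), lin (agv kf e k p) z = LLv kf e k p z
  | .vx _ _ _, k, z => by
    cases z <;> simp [agv, lin, LLv]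
  | .br t c, k, z => by
    cases z with
    | vx b a => simp [agv, lin, LLv]
    | br t' c' f g =>
      simp only [agv, lin, LLv]
      rw [lin_agv kf e t k t', lin_agv kf e c (kc kf c) c']

/-- the configuration of a tree -/
theorem conf (A : ALL) (t : Tb) (hS : OkE t) (hR : t.bl = false → LG t.nc t.wt) (hn : 1 ≤ t.nc) :
    ∃ p : PB, p.shape = t ∧ CE p ∧ VE p.bl p.wt p.rz (p.gs sg) := by
  obtain ⟨F, hF, hFc⟩ := ind A t hS
  cases hb : t.bl with
  | false =>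
    obtain ⟨z, z1, z2, z3⟩ := (A.crt A.pot A.hes A.mul).2 t.nc F t.wt hn hF.ana (hR hb)
    obtain ⟨p, p1, p2, p3, p4, p5⟩ := hFc z (D0_DD z1)
    have ew : p.wt = t.wt := by rw [← pb_wt p, p1]
    have eb : p.bl = t.bl := by rw [← pb_bl p, p1]
    refine ⟨p, p1, p3, ?_, ?_⟩
    · intro h
      rw [eb, hb] at h
      exact absurd h (by simp)
    · intro _
      rw [p2, ew]
      refine ⟨z1, z2, ?_⟩
      rw [← p5.deriv]
      exact z3
  | true =>
    obtain ⟨p, p1, p2, p3, p4, p5⟩ := hFc 0 zero_DD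
    have eb : p.bl = t.bl := by rw [← pb_bl p, p1]
    refine ⟨p, p1, p3, fun _ => p2, ?_⟩
    intro h
    rw [eb, hb] at h
    exact absurd h (by simp)

/-- every tree whose vertices are large or have circles has a critical angle structure -/
theorem crit_ex (t : Tb) (hS : OkE t) (hR : t.bl = false → LG t.nc t.wt) (hn : 1 ≤ t.nc) :
    ∃ y : AB, y.shape = t ∧ Crit y := by
  obtain ⟨p, p1, hCr, hV⟩ := conf f_all t hS hR hn
  obtain ⟨i1, i2, i3, i4⟩ := inde f_all.efe p hCr (mem_D1 hV)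
  have hL : VL p.bl p.wt p.rz (lgv kf0 e0 0 p) := vl_ve hV i1
  obtain ⟨g1, g2⟩ := agv_fl kf0 e0 0 p i2
  refine ⟨agv kf0 e0 0 p, by rw [agv_shape, p1], agv_aok kf0 e0 p 0 i2 i3, ?_, ?_⟩
  · rw [agv_wt, agv_bl]
    exact sv_of g1 g2 hL
  · intro z hz hang
    rw [agv_shape] at hz
    rw [lin_agv, LLv_eq kf0 e0 p 0 i2 i3 z hz hang.1]
    exact vertex p.bl p.rz p.wt (elv kf0 e0 0 p z) (elv_pos kf0 e0 0 p z hz hang.1)
      (by rw [elv_map kf0 e0 0 p z hz, ← (wt_eq p z hz).1, ← (wt_eq p z hz).2]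
          exact hang.2)
      (by rw [elv_lg kf0 e0 0 p z hz]; exact hL)

end Pool.Agent.U21.TL
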