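import Pool.Agent.U21.TL.Vol
import Pool.Agent.N561.EK.ArbF

/-!
# Kashaev invariants under twisting: definitions, and the two-sided law

The definitions of weighted planar trees, their coloured Jones polynomials, and their angle
structures are in `Pool.Agent.TH563.UV.Arb`, that of `AllTwisted` is in `Pool.Agent.N561.EK.ArbE`.
-/

set_option autoImplicit false
set_option linter.unusedVariables false

namespace Pool.Agent.U21.TL

open Finset Filter Topology
open Pool.Agent.TH563.UV.Arb
open Pool.Agent.N561.ArbK
open scoped Real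

/-! ### Definitions -/

/-- The growth rate of the Kashaev invariants: `2 π log |⟨L⟩_N| / N` tends to `V`. -/
def Rate (t : Tree) (V : ℝ) : Prop := ∀ e f : ℤ,
  Tendsto (fun N : ℕ => 2 * Real.pi * (Real.log ‖kashaev e f t N‖ / N)) atTop (𝓝 V)

/-- `V` is the maximum of the volume functional over the angle structures. -/
def IsVol (t : Tree) (V : ℝ) : Prop :=
  IsGreatest {W : ℝ | ∃ y : AngleTree, y.tree = t ∧ IsAngle y ∧ vol y = W} V

/-- `Fills s t`: the link of `t` is obtained from the link of `s` by Dehn fillings of crossing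
circles, up to half twists at crossing circles (they do not change the volume).  Both have the same
underlying planar tree.  At every vertex either both have a crossing circle (the weights may
differ), or neither has and the weights are equal, or `s` has a crossing circle and `t` has none
and a weight `≠ 0`. -/
def Fills : Tree → Tree → Prop
  | .single b a, .single b' a' => (b = b' ∧ (b = false → a = a')) ∨
      (b = true ∧ b' = false ∧ a' ≠ 0)
  | .join t c, .join t' c' => Fills t t' ∧ Fills c c'
  | _, _ => False

/-- The sum of `1 / a²` over the filled vertices, `a` the weight of the vertex in `t`. -/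
noncomputable def cost : Tree → Tree → ℝ
  | .single b _, .single b' a' => if b = true ∧ b' = false then 1 / (a' : ℝ) ^ 2 else 0
  | .join t c, .join t' c' => cost t t' + cost c c'
  | _, _ => 0

/-! ### Conversion -/

lemma fills_to (s : Tree) : ∀ t : Tree, FilT 1 (toTb s) (toTb t) ↔ Fills s t := by
  induction s with
  | single b a =>
    intro t
    cases t with
    | single b' a' =>
      simp only [toTb, FilT, Fills]
      have : (((1 : ℕ) : ℤ) ≤ |a'|) ↔ a' ≠ 0 := by
        rw [Nat.cast_one]
        refine ⟨?_, Int.one_le_abs⟩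
        rintro h rfl
        simp at h
      rw [this]
    | join t c => simp [toTb, FilT, Fills]
  | join t c iht ihc =>
    intro t'
    cases t' with
    | single b' a' => simp [toTb, FilT, Fills]
    | join t' c' =>
      simp only [toTb, FilT, Fills]
      rw [iht, ihc]

lemma cost_to (s : Tree) : ∀ t : Tree, costT (toTb s) (toTb t) = cost s t := by
  induction s with
  | single b a =>
    intro t
    cases t with
    | single b' a' => simp only [toTb, costT, cost]
    | join t c => simp [toTb, costT, cost]
  | join t c iht ihc =>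
    intro t'
    cases t' with
    | single b' a' => simp [toTb, costT, cost]
    | join t' c' =>
      simp only [toTb, costT, cost]
      rw [iht, ihc]

lemma fil_or {M : ℕ} (hM : 0 < M) : ∀ s t : Pool.Agent.TH563.UV.Tb, FilT 1 s t → ¬ FilT M s t →
    1 / (M : ℝ) ^ 2 ≤ costT s t
  | .vx b a, .vx b' a', h, h' => by
    rcases h with h | ⟨h1, h2, h3⟩
    · exact absurd (Or.inl h) h'
    · have h4 : ¬ (M : ℤ) ≤ |a'| := fun h4 => h' (Or.inr ⟨h1, h2, h4⟩)
      have h5 : |(a' : ℝ)| ≤ M := by
        rw [← Int.cast_abs]
        have : |a'| ≤ (M : ℤ) := (not_le.1 h4).le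
        exact_mod_cast this
      have h6 : (a' : ℝ) ^ 2 ≤ (M : ℝ) ^ 2 := by
        rw [← sq_abs]
        exact pow_le_pow_left₀ (abs_nonneg _) h5 2
      have h7 : 0 < (a' : ℝ) ^ 2 := by
        have : a' ≠ 0 := by
          intro h0
          rw [h0] at h3
          simp at h3
        have : (a' : ℝ) ≠ 0 := by exact_mod_cast this
        positivity
      simp only [costT]
      rw [if_pos ⟨h1, h2⟩]
      exact one_div_le_one_div_of_le h7 h6
  | .vx _ _, .br _ _, h, _ => h.elim
  | .br _ _, .vx _ _, h, _ => h.elim
  | .br t c, .br t' c', h, h' => by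
    by_cases h1 : FilT M t t'
    · have h2 : ¬ FilT M c c' := fun h2 => h' ⟨h1, h2⟩
      have := fil_or hM c c' h.2 h2
      have := costT_nonneg t t'
      simp only [costT]
      linarith
    · have := fil_or hM t t' h.1 h1
      have := costT_nonneg c c'
      simp only [costT]
      linarith

/-- every tree of the class has a critical angle structure; its volume is the growth rate -/
theorem crit_tree (s : Tree) (hs : AllTwisted s) (hc : 1 ≤ s.children) :
    ∃ y : Pool.Agent.TH563.UV.AB, y.shape = toTb s ∧ Crit y ∧ IsVol s y.vol ∧ Rate s y.vol := by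
  obtain ⟨y, h1, h2⟩ := crit_ex (toTb s) (below_ok s hs.1)
    (by rw [bl_to, nc_to, wt_to]; exact lg_of hs.2) (by rw [nc_to]; exact hc)
  obtain ⟨V, h3, h4⟩ := main Pool.Agent.N561.EK.f_fin s hc hs
  have h5 : IsVol s y.vol := by
    unfold IsVol
    rw [volume_eq]
    refine ⟨⟨y, h1, ?_, rfl⟩, ?_⟩
    · refine ⟨ok_of_aok _ (aok_mono (fun b w l h => wv_vok ?_) _ h2.1), wv_vok ?_⟩
      · obtain ⟨h0, a1, a2, a3⟩ := h
        exact ⟨h0, a1, a3⟩
      · obtain ⟨h0, a1, a2, a3⟩ := h2.2.1
        exact ⟨h0, a1, a3⟩
    · rintro W ⟨z, z1, z2, rfl⟩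
      exact crit_max y h2 z (by rw [z1, h1]) z2
  have h6 : V = y.vol := h3.unique h5
  refine ⟨y, h1, h2, h5, ?_⟩
  rw [← h6]
  exact (h4 s (Or.inl rfl)).2

lemma fl_ne {y : Pool.Agent.TH563.UV.AB} (h : 1 ≤ y.shape.nc) : y.fl ≠ [] := by
  cases y with
  | vx b a => exact absurd h (by simp [Pool.Agent.TH563.UV.AB.shape, Pool.Agent.TH563.UV.Tb.nc])
  | br t c f g => simp [Pool.Agent.TH563.UV.AB.fl]

/-- the two-sided law -/
theorem law (s : Tree) (hs : AllTwisted s) (hc : 1 ≤ s.children) : ∃ V c C : ℝ,
    0 < c ∧ 0 < C ∧ IsVol s V ∧ Rate s V ∧ ∀ t : Tree, Fills s t → AllTwisted t →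
      ∃ V' : ℝ, IsVol t V' ∧ Rate t V' ∧ V - C * cost s t ≤ V' ∧ V' ≤ V - c * cost s t := by
  obtain ⟨y, h1, h2, h3, h4⟩ := crit_tree s hs hc
  obtain ⟨M, C, hM, hC, hlow⟩ := low y h2
  obtain ⟨c, hc0, hupp⟩ := upp y h2 (fl_ne (by rw [h1, nc_to]; exact hc))
  have hV := vol_nonneg y (pa_of_aok y h2.1)
  refine ⟨y.vol, c, C + y.vol * (M : ℝ) ^ 2 + 1, hc0, by positivity, h3, h4, fun t hf ht => ?_⟩
  have hct : 1 ≤ t.children := by
    have : ∀ s t : Tree, Fills s t → s.children = t.children := by
      intro s
      induction s with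
      | single b a =>
        intro t h
        cases t with
        | single b' a' => rfl
        | join t c => exact h.elim
      | join t c iht ihc =>
        intro t' h
        cases t' with
        | single b' a' => exact h.elim
        | join t' c' => simp only [Tree.children, iht t' h.1]
    rw [← this s t hf]
    exact hc
  obtain ⟨z, g1, g2, g3, g4⟩ := crit_tree t ht hct
  have hfT : FilT 1 y.shape z.shape := by
    rw [h1, g1]
    exact (fills_to s t).2 hf
  have hcost : costT y.shape z.shape = cost s t := by rw [h1, g1, cost_to]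
  have hcost0 : 0 ≤ cost s t := by rw [← hcost]; exact costT_nonneg _ _
  have hz0 := vol_nonneg z (pa_of_aok z g2.1)
  refine ⟨z.vol, g3, g4, ?_, ?_⟩
  · by_cases hfM : FilT M y.shape z.shape
    · obtain ⟨z', e1, e2, e3⟩ := hlow z.shape hfM
      have e4 := crit_max z g2 z' e1 e2
      rw [hcost] at e3
      have e5 : 0 ≤ y.vol * (M : ℝ) ^ 2 * cost s t := by positivity
      nlinarith
    · have e1 := fil_or hM _ _ hfT hfM
      rw [hcost, div_le_iff₀ (by positivity)] at e1
      have e2 := mul_le_mul_of_nonneg_left e1 hV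
      have e3 : 0 ≤ C * cost s t := mul_nonneg hC hcost0
      nlinarith
  · have hang : z.IsAng := by
      refine ⟨ok_of_aok _ (aok_mono (fun b w l h => wv_vok ?_) _ g2.1), wv_vok ?_⟩
      · obtain ⟨h0, a1, a2, a3⟩ := h
        exact ⟨h0, a1, a3⟩
      · obtain ⟨h0, a1, a2, a3⟩ := g2.2.1
        exact ⟨h0, a1, a3⟩
    have := hupp z hfT hang
    rw [hcost] at this
    exact this

end Pool.Agent.U21.TL
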