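import Pool.Agent.U21.TL.Path
import Pool.Agent.U21.TL.Law
import Pool.Agent.TH563.UB.Vol

/-!
# The twisting formula for the growth rates of the Kashaev invariants
-/

set_option autoImplicit false
set_option linter.unusedVariables false

namespace Pool.Agent.U21.TL

open Finset Filter Topology
open Pool.Agent.TH563.UV.Arb
open Pool.Agent.TH563.UV (Tb PB AB)
open Pool.Agent.TH563.UV (pb_bl pb_wt)
open Pool.Agent.TH563.Z (shape_nc)
open Pool.Agent.N561
open Pool.Agent.N561.EK
open Pool.Agent.N561.G
open Pool.Agent.N561.ArbK (AllTwisted)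
open Pool.Agent.N277.EK (kf0 e0 inde mem_D1 vl_ve)
open Pool.Agent.W711.HT (hv bet)
open scoped Real

/-! ### Definitions -/

/-- The number of edges. -/
def edges : Tree → ℕ
  | .single _ _ => 0
  | .join t c => edges t + edges c + 1

/-- The volume `8 Λ(π / 4) = 3.6638…` of the regular ideal octahedron. -/
noncomputable def octahedron : ℝ := 8 * Lob (π / 4)

lemma oct_eq : octahedron = Pool.Agent.TH563.UB.v8 := rfl

/-- The vertices other than the root: every one has a crossing circle, or a weight of absolute value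
at least `A`, or at least `2 A` neighbours. -/
def LargeBelow (A : ℕ) : Tree → Prop
  | .single _ _ => True
  | .join t c => LargeBelow A t ∧ LargeBelow A c ∧
      (c.circle = true ∨ (A : ℤ) ≤ |c.weight| ∨ 2 * A ≤ c.children + 1)

/-- Every vertex has a crossing circle, or a weight of absolute value at least `A`, or at least
`2 A` neighbours. -/
def Large (A : ℕ) (t : Tree) : Prop :=
  LargeBelow A t ∧ (t.circle = true ∨ (A : ℤ) ≤ |t.weight| ∨ 2 * A ≤ t.children)

/-- The condition of `More` at a vertex with `n` neighbours, with the labels `b, a` in `t` and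
`b', a'` in `t'` (`b = true`: there is a crossing circle; `a` is the weight).  Either nothing is
changed (the weight at a crossing circle is irrelevant), or there is no circle in `t`, `|a| ≥ A`,
`n ≤ lam |a|`, and there is a circle in `t'` or `a'` has the sign of `a` and `|a'| > |a|`. -/
def MoreAt (A : ℕ) (lam : ℝ) (n : ℕ) (b : Bool) (a : ℤ) (b' : Bool) (a' : ℤ) : Prop :=
  (b = b' ∧ (b = false → a = a')) ∨
    (b = false ∧ (A : ℤ) ≤ |a| ∧ (n : ℝ) ≤ lam * |(a : ℝ)| ∧
      (b' = true ∨ (b' = false ∧ ((0 < a ∧ a < a') ∨ (a < 0 ∧ a' < a)))))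

/-- The condition of `More` at the vertices other than the root. -/
def MoreBelow (A : ℕ) (lam : ℝ) : Tree → Tree → Prop
  | .single _ _, .single _ _ => True
  | .join t c, .join t' c' => MoreBelow A lam t t' ∧ MoreBelow A lam c c' ∧
      MoreAt A lam (c.children + 1) c.circle c.weight c'.circle c'.weight
  | _, _ => False

/-- `t'` is more twisted than `t`: they have the same underlying planar tree, and at some vertices
`t'` has more half twists of the same sign, or a crossing circle (infinitely many half twists); at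
these vertices `t` has a weight of absolute value at least `A` and at least `1 / lam` times the
number of neighbours. -/
def More (A : ℕ) (lam : ℝ) (t t' : Tree) : Prop :=
  MoreBelow A lam t t' ∧ MoreAt A lam t.children t.circle t.weight t'.circle t'.weight

/-- The same labels, up to the weights at crossing circles. -/
def Same : Tree → Tree → Prop
  | .single b a, .single b' a' => b = b' ∧ (b = false → a = a')
  | .join t c, .join t' c' => Same t t' ∧ Same c c'
  | _, _ => False

/-- `n / (n² + a²)` for a vertex with `n` neighbours, weight `a` and no crossing circle. -/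
noncomputable def share (b : Bool) (n : ℕ) (a : ℤ) : ℝ :=
  if b = true then 0 else n / ((a : ℝ) ^ 2 + n ^ 2)

/-- The sum of the shares of the vertices other than the root. -/
noncomputable def sumBelow : Tree → ℝ
  | .single _ _ => 0
  | .join t c => sumBelow t + sumBelow c + share c.circle (c.children + 1) c.weight

/-- The sum of `n_x / (n_x² + a_x²)` over the vertices `x` without crossing circle, `n_x` the number
of neighbours and `a_x` the weight of `x`. -/
noncomputable def deficit (t : Tree) : ℝ := sumBelow t + share t.circle t.children t.weight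

/-- The vertices other than the root: each one has a circle, or a weight of absolute value at least
`A` and at least `1 / lam` times the number of neighbours. -/
def ModerateBelow (A : ℕ) (lam : ℝ) : Tree → Prop
  | .single _ _ => True
  | .join t c => ModerateBelow A lam t ∧ ModerateBelow A lam c ∧
      (c.circle = true ∨ ((A : ℤ) ≤ |c.weight| ∧ ((c.children + 1 : ℕ) : ℝ) ≤ lam * |(c.weight : ℝ)|))

/-- Every vertex has a circle, or a weight of absolute value at least `A` and at least `1 / lam`
times the number of neighbours. -/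
def Moderate (A : ℕ) (lam : ℝ) (t : Tree) : Prop := ModerateBelow A lam t ∧
  (t.circle = true ∨ ((A : ℤ) ≤ |t.weight| ∧ (t.children : ℝ) ≤ lam * |(t.weight : ℝ)|))

/-- Crossing circles at all vertices. -/
def AllCircles : Tree → Prop
  | .single b _ => b = true
  | .join t c => AllCircles t ∧ AllCircles c

/-! ### Conversion -/

lemma large_to' {A : ℕ} (t : Tree) (h : LargeBelow A t) : OkA A (toTb t) := by
  induction t with
  | single b a => trivial
  | join t c iht ihc =>
    obtain ⟨h1, h2, h3⟩ := h
    refine ⟨iht h1, ihc h2, ?_⟩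
    rw [bl_to, nc_to, wt_to]
    intro hb
    rcases h3 with h3 | h3
    · rw [hb] at h3
      exact absurd h3 (by simp)
    · exact h3

lemma large_cls {A : ℕ} {t : Tree} (h : Large A t) : Cls A (toTb t) := by
  refine ⟨large_to' t h.1, ?_⟩
  rw [bl_to, nc_to, wt_to]
  intro hb
  rcases h.2 with h3 | h3
  · rw [hb] at h3
    exact absurd h3 (by simp)
  · exact h3

lemma more_to' {A : ℕ} {lam : ℝ} (t : Tree) : ∀ t' : Tree, MoreBelow A lam t t' →
    RelB (RM A lam) (toTb t) (toTb t') := by
  induction t with
  | single b a =>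
    intro t' h
    cases t' with
    | single b a => trivial
    | join t c => exact h.elim
  | join t c iht ihc =>
    intro t' h
    cases t' with
    | single b a => exact h.elim
    | join t' c' =>
      obtain ⟨h1, h2, h3⟩ := h
      refine ⟨iht t' h1, ihc c' h2, ?_⟩
      rw [bl_to, nc_to, wt_to, bl_to, wt_to]
      exact h3

lemma more_to {A : ℕ} {lam : ℝ} {t t' : Tree} (h : More A lam t t') :
    RelT (RM A lam) (toTb t) (toTb t') := by
  refine ⟨more_to' t t' h.1, ?_⟩
  rw [bl_to, nc_to, wt_to, bl_to, wt_to]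
  exact h.2

lemma sum_to (t : Tree) : dfB (toTb t) = sumBelow t := by
  induction t with
  | single b a => rfl
  | join t c iht ihc =>
    show dfB (toTb t) + dfB (toTb c) + dv (toTb c).bl ((toTb c).nc + 1) (toTb c).wt = _
    rw [iht, ihc, bl_to, nc_to, wt_to]
    rfl

lemma df_to (t : Tree) : dfT (toTb t) = deficit t := by
  unfold dfT
  rw [sum_to, bl_to, nc_to, wt_to]
  rfl

/-! ### The deficit decreases -/

lemma share_le {A : ℕ} (hA : 16 ≤ A) {lam : ℝ} {n : ℕ} (hn : 1 ≤ n) {b : Bool} {a : ℤ} {b' : Bool}
    {a' : ℤ} (h : MoreAt A lam n b a b' a') : share b' n a' ≤ share b n a ∧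
    (share b' n a' = share b n a → b = b' ∧ (b = false → a = a')) := by
  have hn' : (1 : ℝ) ≤ n := by exact_mod_cast hn
  rcases h with ⟨rfl, h⟩ | ⟨rfl, h16, -, h⟩
  · cases b with
    | true => exact ⟨by simp [share], fun _ => ⟨rfl, fun h => absurd h (by simp)⟩⟩
    | false =>
      obtain rfl := h rfl
      exact ⟨le_rfl, fun _ => ⟨rfl, fun _ => rfl⟩⟩
  · have e1 : share false n a = n / ((a : ℝ) ^ 2 + n ^ 2) := by simp [share]
    have hp : 0 < share false n a := by
      rw [e1]
      positivity
    have key : share b' n a' < share false n a := by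
      rcases h with rfl | ⟨rfl, h⟩
      · have : share true n a' = 0 := by simp [share]
        rw [this]
        exact hp
      · have e2 : share false n a' = n / ((a' : ℝ) ^ 2 + n ^ 2) := by simp [share]
        rw [e1, e2]
        have hsq : (a : ℝ) ^ 2 < (a' : ℝ) ^ 2 := by
          rcases h with ⟨h1, h2⟩ | ⟨h1, h2⟩
          · have h1' : (0 : ℝ) < a := by exact_mod_cast h1
            have h2' : (a : ℝ) < a' := by exact_mod_cast h2
            nlinarith
          · have h1' : (a : ℝ) < 0 := by exact_mod_cast h1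
            have h2' : (a' : ℝ) < a := by exact_mod_cast h2
            nlinarith
        apply div_lt_div_of_pos_left (by linarith) (by positivity)
        linarith
    exact ⟨key.le, fun h => absurd h key.ne⟩

/-- the labels are the same below the root -/
def SameB : Tree → Tree → Prop
  | .single _ _, .single _ _ => True
  | .join t c, .join t' c' => SameB t t' ∧ SameB c c' ∧
      (c.circle = c'.circle ∧ (c.circle = false → c.weight = c'.weight))
  | _, _ => False

lemma same_of (t : Tree) : ∀ t' : Tree, SameB t t' →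
    (t.circle = t'.circle ∧ (t.circle = false → t.weight = t'.weight)) → Same t t' := by
  induction t with
  | single b a =>
    intro t' h h'
    cases t' with
    | single b a => exact h'
    | join t c => exact h.elim
  | join t c iht ihc =>
    intro t' h h'
    cases t' with
    | single b a => exact h.elim
    | join t' c' =>
      obtain ⟨h1, h2, h3⟩ := h
      exact ⟨iht t' h1 h', ihc c' h2 h3⟩

lemma sum_le {A : ℕ} (hA : 16 ≤ A) {lam : ℝ} (t : Tree) : ∀ t' : Tree, MoreBelow A lam t t' →
    t.children = t'.children ∧ sumBelow t' ≤ sumBelow t ∧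
      (sumBelow t' = sumBelow t → SameB t t') := by
  induction t with
  | single b a =>
    intro t' h
    cases t' with
    | single b a => exact ⟨rfl, le_rfl, fun _ => trivial⟩
    | join t c => exact h.elim
  | join t c iht ihc =>
    intro t' h
    cases t' with
    | single b a => exact h.elim
    | join t' c' =>
      obtain ⟨h1, h2, h3⟩ := h
      obtain ⟨a0, a1, a2⟩ := iht t' h1
      obtain ⟨b0, b1, b2⟩ := ihc c' h2
      obtain ⟨c1, c2⟩ := share_le hA (Nat.succ_le_succ (Nat.zero_le _)) h3
      refine ⟨by simp only [Tree.children, a0], ?_, fun he => ?_⟩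
      · simp only [sumBelow]
        rw [← b0]
        linarith
      · simp only [sumBelow] at he
        rw [← b0] at he
        exact ⟨a2 (by linarith), b2 (by linarith), c2 (by linarith)⟩

theorem deficit_le {A : ℕ} (hA : 16 ≤ A) {lam : ℝ} {t t' : Tree} (hn : 1 ≤ t.children)
    (h : More A lam t t') : deficit t' ≤ deficit t ∧ (deficit t' = deficit t → Same t t') := by
  obtain ⟨a0, a1, a2⟩ := sum_le hA t t' h.1
  obtain ⟨c1, c2⟩ := share_le hA hn h.2
  unfold deficit
  rw [← a0]
  exact ⟨by linarith, fun he => same_of t t' (a2 (by linarith)) (c2 (by linarith))⟩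

/-! ### The volume -/

lemma vt_vol {A : ℕ} (hA : 16 ≤ A) (t : Tree) (ht : Cls A (toTb t)) (hn : 1 ≤ t.children) :
    IsVol t (VT (toTb t)) ∧ Rate t (VT (toTb t)) := by
  obtain ⟨p, p1, -, -, -, -, -, p7⟩ := conf3 hA (toTb t) ht (by rw [nc_to]; exact hn)
  have h1 : IsVol t (VT (toTb t)) := by
    unfold IsVol
    rw [volume_eq]
    exact p7
  have hall : AllTwisted t := by
    have hb : ∀ t : Tree, OkA A (toTb t) → Pool.Agent.N561.ArbK.TwistedBelow t := by
      intro t
      induction t with
      | single b a => exact fun _ => trivial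
      | join t c iht ihc =>
        intro h
        obtain ⟨h1, h2, h3⟩ := h
        refine ⟨iht h1, ihc h2, ?_⟩
        rw [bl_to, nc_to, wt_to] at h3
        cases hc : c.circle with
        | true => exact Or.inl rfl
        | false =>
          rcases h3 hc with h | h
          · exact Or.inr (Or.inl (le_trans (by omega) h))
          · exact Or.inr (Or.inr (by omega))
    refine ⟨hb t ht.1, ?_⟩
    have h3 := ht.2
    rw [bl_to, nc_to, wt_to] at h3
    cases hc : t.circle with
    | true => exact Or.inl rfl
    | false =>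
      rcases h3 hc with h | h
      · exact Or.inr (Or.inl (le_trans (by omega) h))
      · exact Or.inr (Or.inr (by omega))
  obtain ⟨V, h3, h4⟩ := Pool.Agent.N561.ArbK.main Pool.Agent.N561.EK.f_fin t hn hall
  rw [h3.unique h1] at h4
  exact ⟨h1, (h4 t (Or.inl rfl)).2⟩

/-! ### All circles -/

lemma hv_zero : hv 0 0 (2 * π * dst 0 0) = 2 * octahedron := by
  have h0 : (0 : ℂ) ∈ D1 := by
    refine ⟨?_, ?_⟩
    · rw [norm_zero]; norm_num
    · rw [Complex.zero_im, abs_zero]; norm_num
  have h1 := (f_all.efe 0 h0 0 h0).val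
  rw [f_all.pot.zero] at h1
  simp only [Complex.ofReal_re, Complex.zero_im, zero_mul, add_zero] at h1
  rw [← h1, oct_eq, ← Pool.Agent.TH563.UB.bet_v8]

/-- circles at all vertices -/
def AllC : Tb → Prop
  | .vx b _ => b = true
  | .br t c => AllC t ∧ AllC c

lemma allC_bl : ∀ t : Tb, AllC t → t.bl = true
  | .vx _ _, h => h
  | .br t _, h => allC_bl t h.1

lemma hsv_all : ∀ p : PB, AllC p.shape → CE p → p.rz = 0 →
    hsv kf0 e0 0 p = 2 * octahedron * p.shape.ne
  | .vx _ _ _, _, _, _ => by simp [hsv, PB.shape, Tb.ne]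
  | .br t c, h, hC, h0 => by
    obtain ⟨h1, h2, h3⟩ := hC
    have hc : c.rz = 0 := h3.1 (by
      have := allC_bl _ h.2
      rw [pb_bl] at this
      exact this)
    have ht : t.rz = 0 := h0
    have e1 := hsv_all t h.1 h1 ht
    have e2 := hsv_all c h.2 h2 hc
    have e3 : hsv kf0 e0 0 (.br t c) = hsv kf0 e0 0 t + hsv kf0 e0 0 c +
        hv c.rz t.rz (2 * π * dst c.rz t.rz) := rfl
    have e4 : ((PB.br t c).shape.ne : ℝ) = t.shape.ne + c.shape.ne + 1 := by
      have : (PB.br t c).shape.ne = t.shape.ne + c.shape.ne + 1 := rfl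
      rw [this]
      push_cast
      ring
    rw [e3, e1, e2, hc, ht, hv_zero, e4]
    ring

theorem vt_all {A : ℕ} (hA : 16 ≤ A) (t : Tb) (h : AllC t) (hn : 1 ≤ t.nc) :
    VT t = 2 * octahedron * t.ne := by
  have hcls : ∀ t : Tb, AllC t → OkE t := by
    intro t
    induction t with
    | vx b a => exact fun _ => trivial
    | br t c iht ihc =>
      intro h
      refine ⟨iht h.1, ihc h.2, fun hb => ?_⟩
      rw [allC_bl c h.2] at hb
      exact absurd hb (by simp)
  obtain ⟨p, p1, p2, p3, p4, p5, p6⟩ := conf2 t (hcls t h) (fun hb => by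
    rw [allC_bl t h] at hb
    exact absurd hb (by simp)) hn
  subst p1
  have hg := crit_greatest p6
  rw [agv_shape] at hg
  have e : (agv kf0 e0 0 p).vol = VT p.shape := hg.csSup_eq.symm
  have hb := allC_bl _ h
  rw [pb_bl] at hb
  rw [← e, agv_vol kf0 e0 p 0 p4.1, hsv_all p h p2 (p3.1 hb)]

lemma allCircles_to (t : Tree) (h : AllCircles t) : AllC (toTb t) ∧ (toTb t).ne = edges t ∧
    sumBelow t = 0 ∧ t.circle = true := by
  induction t with
  | single b a => exact ⟨h, rfl, rfl, h⟩
  | join t c iht ihc =>
    obtain ⟨a1, a2, a3, a4⟩ := iht h.1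
    obtain ⟨b1, b2, b3, b4⟩ := ihc h.2
    refine ⟨⟨a1, b1⟩, ?_, ?_, a4⟩
    · show (toTb t).ne + (toTb c).ne + 1 = edges t + edges c + 1
      rw [a2, b2]
    · show sumBelow t + sumBelow c + share _ _ _ = 0
      rw [a3, b3, b4]
      simp [share]

lemma allCircles_deficit {t : Tree} (h : AllCircles t) : deficit t = 0 := by
  obtain ⟨-, -, h3, h4⟩ := allCircles_to t h
  unfold deficit
  rw [h3, h4]
  simp [share]

/-- the tree with circles at all vertices -/
def circ : Tree → Tree
  | .single _ a => .single true a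
  | .join t c => .join (circ t) (circ c)

lemma circ_props (t : Tree) : AllC (toTb (circ t)) ∧ (circ t).children = t.children ∧
    (circ t).circle = true ∧ (toTb (circ t)).ne = edges t ∧ sumBelow (circ t) = 0 := by
  induction t with
  | single b a => exact ⟨rfl, rfl, rfl, rfl, rfl⟩
  | join t c iht ihc =>
    obtain ⟨a1, a2, a3, a4, a5⟩ := iht
    obtain ⟨b1, b2, b3, b4, b5⟩ := ihc
    refine ⟨⟨a1, b1⟩, by simp only [circ, Tree.children, a2], a3, ?_, ?_⟩
    · show (toTb (circ t)).ne + (toTb (circ c)).ne + 1 = edges t + edges c + 1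
      rw [a4, b4]
    · show sumBelow (circ t) + sumBelow (circ c) + share _ _ _ = 0
      rw [a5, b5, b3]
      simp [share]

lemma circ_more {A : ℕ} {lam : ℝ} (t : Tree) (h : ModerateBelow A lam t) :
    MoreBelow A lam t (circ t) := by
  induction t with
  | single b a => trivial
  | join t c iht ihc =>
    obtain ⟨h1, h2, h3⟩ := h
    refine ⟨iht h1, ihc h2, ?_⟩
    rw [(circ_props c).2.2.1]
    cases hc : c.circle with
    | true => exact Or.inl ⟨rfl, fun h => absurd h (by simp)⟩
    | false =>
      rw [hc] at h3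
      rcases h3 with h3 | ⟨h3, h4⟩
      · exact absurd h3 (by simp)
      · exact Or.inr ⟨rfl, h3, h4, Or.inl rfl⟩

lemma moderate_more {A : ℕ} {lam : ℝ} {t : Tree} (h : Moderate A lam t) :
    More A lam t (circ t) := by
  refine ⟨circ_more t h.1, ?_⟩
  rw [(circ_props t).2.2.1]
  cases hc : t.circle with
  | true => exact Or.inl ⟨rfl, fun h => absurd h (by simp)⟩
  | false =>
    have h3 := h.2
    rw [hc] at h3
    rcases h3 with h3 | ⟨h3, h4⟩
    · exact absurd h3 (by simp)
    · exact Or.inr ⟨rfl, h3, h4, Or.inl rfl⟩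

lemma moderate_large {A : ℕ} {lam : ℝ} {t : Tree} (h : Moderate A lam t) : Large A t := by
  have hb : ∀ t : Tree, ModerateBelow A lam t → LargeBelow A t := by
    intro t
    induction t with
    | single b a => exact fun _ => trivial
    | join t c iht ihc =>
      intro h
      refine ⟨iht h.1, ihc h.2.1, ?_⟩
      rcases h.2.2 with h | h
      · exact Or.inl h
      · exact Or.inr (Or.inl h.1)
  refine ⟨hb t h.1, ?_⟩
  rcases h.2 with h | h
  · exact Or.inl h
  · exact Or.inr (Or.inl h.1)

/-! ### The theorems -/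

/-- the whole statement -/
theorem twist_all {A : ℕ} {lam : ℝ} (hA : 16 ≤ A) (h0 : 0 ≤ lam) (h1 : lam ≤ A) (s t : Tree)
    (hs : Large A s) (hn : 1 ≤ s.children) (h : More A lam s t) :
    ∃ V V' : ℝ, IsVol s V ∧ Rate s V ∧ IsVol t V' ∧ Rate t V' ∧
      (2 * π ^ 2 - 27 * (1 + lam) / A) * (deficit s - deficit t) ≤ V' - V ∧
      V' - V ≤ (2 * π ^ 2 + 27 * (1 + lam) / A) * (deficit s - deficit t) ∧
      deficit t ≤ deficit s ∧ (¬ Same s t → deficit t < deficit s) ∧
      (¬ Same s t → 27 * (1 + lam) < 2 * π ^ 2 * A → V < V') ∧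
      (AllCircles t → V' = 2 * octahedron * edges t ∧ deficit t = 0) := by
  have hc := large_cls hs
  have hR := more_to h
  have hc' : Cls A (toTb t) := cls_of rm_lg hR hc
  have hn' : 1 ≤ t.children := by
    have := relB_nc _ _ hR.1
    rw [nc_to, nc_to] at this
    omega
  obtain ⟨a1, a2⟩ := vt_vol hA s hc hn
  obtain ⟨b1, b2⟩ := vt_vol hA t hc' hn'
  obtain ⟨c1, c2⟩ := main_law hA h0 h1 hc (by rw [nc_to]; exact hn) hR
  obtain ⟨d1, d2⟩ := deficit_le hA hn h
  rw [df_to, df_to] at c1 c2
  have d3 : ¬ Same s t → deficit t < deficit s := fun hS =>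
    lt_of_le_of_ne d1 fun he => hS (d2 he)
  refine ⟨_, _, a1, a2, b1, b2, c1, c2, d1, d3, fun hS hl => ?_, fun hC => ?_⟩
  · have hA0 : (0 : ℝ) < A := by
      have : (16 : ℝ) ≤ A := by exact_mod_cast hA
      linarith
    have : 0 < 2 * π ^ 2 - 27 * (1 + lam) / A := by
      rw [sub_pos, div_lt_iff₀ hA0]
      exact hl
    have := mul_pos this (sub_pos.2 (d3 hS))
    linarith
  obtain ⟨e1, e2, -, -⟩ := allCircles_to t hC
  exact ⟨by rw [vt_all hA _ e1 (by rw [nc_to]; exact hn'), e2], allCircles_deficit hC⟩

/-- comparison of two links -/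
theorem twist_law {A : ℕ} {lam : ℝ} (hA : 16 ≤ A) (h0 : 0 ≤ lam) (h1 : lam ≤ A) (t t' : Tree)
    (ht : Large A t) (hn : 1 ≤ t.children) (h : More A lam t t') :
    ∃ V V' : ℝ, IsVol t V ∧ Rate t V ∧ IsVol t' V' ∧ Rate t' V' ∧
      (2 * π ^ 2 - 27 * (1 + lam) / A) * (deficit t - deficit t') ≤ V' - V ∧
      V' - V ≤ (2 * π ^ 2 + 27 * (1 + lam) / A) * (deficit t - deficit t') := by
  have hc := large_cls ht
  have hR := more_to h
  have hc' : Cls A (toTb t') := cls_of rm_lg hR hc
  have hn' : 1 ≤ t'.children := by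
    have := relB_nc _ _ hR.1
    rw [nc_to, nc_to] at this
    omega
  obtain ⟨a1, a2⟩ := vt_vol hA t hc hn
  obtain ⟨b1, b2⟩ := vt_vol hA t' hc' hn'
  obtain ⟨c1, c2⟩ := main_law hA h0 h1 hc (by rw [nc_to]; exact hn) hR
  rw [df_to, df_to] at c1 c2
  exact ⟨_, _, a1, a2, b1, b2, c1, c2⟩

/-- comparison with the volume of the octahedra -/
theorem twist_formula {A : ℕ} {lam : ℝ} (hA : 16 ≤ A) (h0 : 0 ≤ lam) (h1 : lam ≤ A) (t : Tree)
    (ht : Moderate A lam t) (hn : 1 ≤ t.children) :
    ∃ V : ℝ, IsVol t V ∧ Rate t V ∧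
      (2 * π ^ 2 - 27 * (1 + lam) / A) * deficit t ≤ 2 * octahedron * edges t - V ∧
      2 * octahedron * edges t - V ≤ (2 * π ^ 2 + 27 * (1 + lam) / A) * deficit t := by
  have hc := large_cls (moderate_large ht)
  have hR := more_to (moderate_more ht)
  obtain ⟨a1, a2⟩ := vt_vol hA t hc hn
  obtain ⟨c1, c2⟩ := main_law hA h0 h1 hc (by rw [nc_to]; exact hn) hR
  obtain ⟨d1, d2, d3, d4, d5⟩ := circ_props t
  have e1 : deficit (circ t) = 0 := by
    unfold deficit
    rw [d5, d3]
    simp [share]
  rw [df_to, df_to, e1, sub_zero, vt_all hA _ d1 (by rw [nc_to, d2]; exact hn), d4] at c1 c2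
  exact ⟨_, a1, a2, c1, c2⟩

end Pool.Agent.U21.TL
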