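import Pool.Agent.U21.TL.Ex

/-!
# The derivative of the volume at a critical structure in the direction of another one
-/

set_option autoImplicit false
set_option linter.unusedVariables false

namespace Pool.Agent.U21.TL

open Finset Filter Topology
open Pool.Agent.TH563.UV
open Pool.Agent.TH563.V
open Pool.Agent.TH563.Z (shape_nc)
open Pool.Agent.W719.AR (Fl Gap)
open Pool.Agent.W737.AR (Lf ze TT)
open Pool.Agent.W711.HT hiding XX
open Pool.Agent.N561
open Pool.Agent.N561.EK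
open Pool.Agent.N561.G
open Pool.Agent.N277.EK (kf0 e0 inde mem_D1 vl_ve)
open Pool.Agent.TH609.UV (VL vt_re vl_im wt_eq vertex fe)
open scoped Real

/-- the sum over the edges at a vertex -/
lemma vertex_gen {b : Bool} {w : ℤ} {ψ : ℂ} {h : ℝ} (l : List ((ℂ × ℂ) × (Fl × Fl)))
    (h1 : ∀ e ∈ l, e.2.1.tw = h ∧ ze e.2.1 e.2.2 = 0)
    (hlg : VL b w ψ (l.map (fun e => Lg e.1.1 ψ)).sum) :
    (l.map (fun e => TT ψ e.1.1 e.2.1 e.2.2)).sum =
      if b = true then 0 else ψ.im / 2 * ((l.map fun e => e.2.1.cr).sum - w * h - 2 * π) := by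
  have h7 : ∀ m : List ((ℂ × ℂ) × (Fl × Fl)), (∀ e ∈ m, e.2.1.tw = h ∧ ze e.2.1 e.2.2 = 0) →
      (m.map (fun e => TT ψ e.1.1 e.2.1 e.2.2)).sum =
      (m.map (fun e => Lg e.1.1 ψ)).sum.re * ((h - ψ.re) / 2) +
      ((m.map (fun e => e.2.1.cr)).sum - (m.map (fun e => Lg e.1.1 ψ)).sum.im) * (ψ.im / 2) := by
    intro m
    induction m with
    | nil => intro _; simp
    | cons e m ih =>
      intro hm
      simp only [List.map_cons, List.sum_cons, Complex.add_re, Complex.add_im]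
      rw [ih (fun e' he' => hm e' (List.mem_cons_of_mem _ he'))]
      obtain ⟨a1, a2⟩ := hm e List.mem_cons_self
      unfold TT
      rw [a1, a2]
      ring
  rw [h7 l h1]
  cases b with
  | true =>
    have h0 := hlg.1 rfl
    subst h0
    have : (l.map (fun e => Lg e.1.1 (0 : ℂ))).sum = 0 := by
      apply List.sum_eq_zero
      intro x hx
      obtain ⟨y, hy, rfl⟩ := List.mem_map.1 hx
      exact Lg_zero _
    rw [this]
    simp
  | false =>
    have h0 := hlg.2 rfl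
    rw [← h0]
    simp
    ring

/-- the same tree up to labels and numbers -/
def SimP : PB → PB → Prop
  | .vx _ _ _, .vx _ _ _ => True
  | .br t c, .br t' c' => SimP t t' ∧ SimP c c'
  | _, _ => False

/-- the contribution of a vertex -/
noncomputable def dl2 (b : Bool) (w : ℤ) (ψ : ℂ) (b' : Bool) (w' : ℤ) (ψ' : ℂ) : ℝ :=
  if b = true then 0 else if b' = true then -(π * ψ.im) else
    ψ.im / 2 * ((w' - w) * ψ'.re)

/-- the contributions of the vertices other than the root -/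
noncomputable def Dp : PB → PB → ℝ
  | .br t c, .br t' c' => Dp t t' + Dp c c' + dl2 c.bl c.wt c.rz c'.bl c'.wt c'.rz
  | _, _ => 0

/-- solutions -/
def Sol (p : PB) : Prop := hpv kf0 e0 0 p ∧ lcv kf0 e0 0 p

/-- the edges at the root -/
noncomputable def el2 (p p' : PB) : List ((ℂ × ℂ) × (Fl × Fl)) :=
  elv kf0 e0 0 p (agv kf0 e0 0 p')

lemma el2_props : ∀ p p' : PB, SimP p p' → hpv kf0 e0 0 p' →
    (∀ e ∈ el2 p p', e.2.1.tw = p'.rz.re ∧ ze e.2.1 e.2.2 = 0) ∧
    ((el2 p p').map (fun e => Lg e.1.1 p.rz)).sum = lgv kf0 e0 0 p ∧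
    ((el2 p p').map (fun e => e.2.1.cr)).sum = (lgv kf0 e0 0 p').im
  | .vx _ _ _, .vx _ _ _, _, _ => by
    refine ⟨?_, ?_, ?_⟩
    · intro e he
      simp [el2, elv] at he
    · simp [el2, elv, lgv]
    · simp [el2, elv, lgv]
  | .vx _ _ _, .br _ _, h, _ => h.elim
  | .br _ _, .vx _ _ _, h, _ => h.elim
  | .br t c, .br t' c', h, h' => by
    obtain ⟨g1, g2, g3⟩ := el2_props t t' h.1 h'.1
    have e : el2 (.br t c) (.br t' c') = el2 t t' ++ [((uu kf0 e0 0 t c, c.rz),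
        (fe t'.rz (uu kf0 e0 0 t' c'), fe c'.rz (uu kf0 e0 0 t' c')))] := rfl
    have h4 := (hw_symm h'.2.2).sr
    obtain ⟨-, -, -, s4, s5, s6⟩ := h4
    refine ⟨?_, ?_, ?_⟩
    · intro x hx
      rw [e] at hx
      rcases List.mem_append.1 hx with h | h
      · exact g1 x h
      · rw [List.mem_singleton] at h
        subst h
        refine ⟨s5, ?_⟩
        simp only [ze]
        linarith
    · rw [e]
      simp only [List.map_append, List.map_cons, List.map_nil, List.sum_append, List.sum_cons,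
        List.sum_nil, add_zero, lgv, PB.rz]
      rw [g2]
    · rw [e]
      simp only [List.map_append, List.map_cons, List.map_nil, List.sum_append, List.sum_cons,
        List.sum_nil, add_zero, lgv, Complex.add_im]
      rw [g3, s6]

lemma vl_sum {b : Bool} {w : ℤ} {ψ L : ℂ} (h : VL b w ψ L) (hb : b = false) :
    L.im = 2 * π + w * ψ.re := vl_im h hb

lemma circ_sum : ∀ (p : PB), hpv kf0 e0 0 p → p.rz = 0 → lgv kf0 e0 0 p = 0
  | .vx _ _ _, _, _ => rfl
  | .br t c, h, h0 => by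
    have h1 : t.rz = 0 := h0
    simp only [lgv]
    rw [circ_sum t h.1 h1, h1, Lg_zero, add_zero]

/-- the term of a vertex in terms of the two configurations -/
lemma vert2 {b b' : Bool} {w w' : ℤ} {ψ ψ' L' : ℂ} (l : List ((ℂ × ℂ) × (Fl × Fl)))
    (h1 : ∀ e ∈ l, e.2.1.tw = ψ'.re ∧ ze e.2.1 e.2.2 = 0)
    (hlg : VL b w ψ (l.map (fun e => Lg e.1.1 ψ)).sum)
    (hcr : (l.map fun e => e.2.1.cr).sum = L'.im) (hL' : VL b' w' ψ' L')
    (h0 : b' = true → L' = 0) :
    (l.map (fun e => TT ψ e.1.1 e.2.1 e.2.2)).sum = dl2 b w ψ b' w' ψ' := by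
  rw [vertex_gen l h1 hlg, hcr]
  unfold dl2
  cases b with
  | true => simp
  | false =>
    cases b' with
    | true =>
      rw [h0 rfl, hL'.1 rfl]
      simp
      ring
    | false =>
      rw [vl_sum hL' rfl, if_neg (by simp), if_neg (by simp), if_neg (by simp)]
      ring

theorem LLv_gen : ∀ p p' : PB, SimP p p' → Sol p → Sol p' →
    LLv kf0 e0 0 p (agv kf0 e0 0 p') =
      ((el2 p p').map (fun e => TT p.rz e.1.1 e.2.1 e.2.2)).sum + Dp p p'
  | .vx _ _ _, .vx _ _ _, _, _, _ => by simp [el2, elv, LLv, Dp]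
  | .vx _ _ _, .br _ _, h, _, _ => h.elim
  | .br _ _, .vx _ _ _, h, _, _ => h.elim
  | .br t c, .br t' c', h, ⟨h1, h2⟩, ⟨h3, h4⟩ => by
    obtain ⟨n1, n2, n3⟩ := h1
    obtain ⟨r1, r2, r3⟩ := h2
    obtain ⟨m1, m2, m3⟩ := h3
    obtain ⟨q1, q2, q3⟩ := h4
    have e1 := LLv_gen t t' h.1 ⟨n1, r1⟩ ⟨m1, q1⟩
    have e2 := LLv_gen c c' h.2 ⟨n2, r2⟩ ⟨m2, q2⟩
    have hs := (hw_symm m3).sr
    have hs' := m3.sr
    have e3 := edge_id (hw_symm n3) (fe t'.rz (uu kf0 e0 0 t' c'))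
      (fe c'.rz (uu kf0 e0 0 t' c')) hs.1 hs'.1 hs.2.1
    obtain ⟨g1, g2, g3⟩ := el2_props c c' h.2 m2
    have e4 := vert2 (b := c.bl) (b' := c'.bl) (w := c.wt) (w' := c'.wt) (ψ := c.rz) (ψ' := c'.rz)
      (L' := Lg (uu kf0 e0 0 t' c') c'.rz + lgv kf0 e0 0 c')
      (((uu kf0 e0 0 t c, t.rz), (fe c'.rz (uu kf0 e0 0 t' c'),
        fe t'.rz (uu kf0 e0 0 t' c'))) :: el2 c c')
      (by
        intro x hx
        rcases List.mem_cons.mp hx with rfl | hx
        · obtain ⟨-, -, -, s4, s5, s6⟩ := hs'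
          refine ⟨s5, ?_⟩
          simp only [ze]
          linarith
        · exact g1 x hx)
      (by
        rw [List.map_cons, List.sum_cons, g2]
        exact r3)
      (by
        rw [List.map_cons, List.sum_cons, g3, Complex.add_im]
        simp only
        rw [hs'.2.2.2.2.2])
      q3
      (by
        intro hb
        have h0 := q3.1 hb
        rw [h0, Lg_zero, circ_sum c' m2 h0, add_zero])
    have e5 : LLv kf0 e0 0 (.br t c) (agv kf0 e0 0 (.br t' c')) =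
        LLv kf0 e0 0 t (agv kf0 e0 0 t') + LLv kf0 e0 0 c (agv kf0 e0 0 c') +
        (Lf (fe t.rz (uu kf0 e0 0 t c)) (fe t'.rz (uu kf0 e0 0 t' c')) +
          Lf (fe c.rz (uu kf0 e0 0 t c)) (fe c'.rz (uu kf0 e0 0 t' c'))) := rfl
    have e6 : el2 (.br t c) (.br t' c') = el2 t t' ++ [((uu kf0 e0 0 t c, c.rz),
        (fe t'.rz (uu kf0 e0 0 t' c'), fe c'.rz (uu kf0 e0 0 t' c')))] := rfl
    rw [e5, e6, e1, e2, e3]
    simp only [List.map_append, List.map_cons, List.map_nil, List.sum_append, List.sum_cons,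
      List.sum_nil, add_zero, PB.rz, Dp]
    rw [List.map_cons, List.sum_cons] at e4
    linarith

/-! ### The tangent plane inequality -/

/-- the contributions of all vertices -/
noncomputable def Dt (p p' : PB) : ℝ := Dp p p' + dl2 p.bl p.wt p.rz p'.bl p'.wt p'.rz

/-- the equation at the root -/
def VR (p : PB) : Prop := VL p.bl p.wt p.rz (lgv kf0 e0 0 p)

lemma simP_agv : ∀ p p' : PB, SimP p p' → Sim (agv kf0 e0 0 p) (agv kf0 e0 0 p')
  | .vx _ _ _, .vx _ _ _, _ => trivial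
  | .vx _ _ _, .br _ _, h => h.elim
  | .br _ _, .vx _ _ _, h => h.elim
  | .br t c, .br t' c', h => ⟨simP_agv t t' h.1, simP_agv c c' h.2⟩

lemma pa_agv : ∀ p : PB, hpv kf0 e0 0 p → PA (agv kf0 e0 0 p)
  | .vx _ _ _, _ => trivial
  | .br t c, h => ⟨pa_agv t h.1, pa_agv c h.2.1, (hw_symm h.2.2).sr.1, h.2.2.sr.1⟩

theorem tangent (p p' : PB) (h : SimP p p') (hp : Sol p) (hr : VR p) (hp' : Sol p')
    (hr' : VR p') : (agv kf0 e0 0 p').vol ≤ (agv kf0 e0 0 p).vol - 2 * Dt p p' := by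
  obtain ⟨c, hc, k⟩ := vol_q (agv kf0 e0 0 p) (pa_agv p hp.1)
  have e1 := k (agv kf0 e0 0 p') (simP_agv p p' h) (pa_agv p' hp'.1)
  rw [lin_agv, LLv_gen p p' h hp hp'] at e1
  obtain ⟨g1, g2, g3⟩ := el2_props p p' h hp'.1
  have e2 := vert2 (b := p.bl) (b' := p'.bl) (w := p.wt) (w' := p'.wt) (ψ := p.rz) (ψ' := p'.rz)
    (L' := lgv kf0 e0 0 p') (el2 p p') g1 (by rw [g2]; exact hr) g3 hr'
    (fun hb => circ_sum p' hp'.1 (hr'.1 hb))
  rw [e2] at e1
  have e3 := mul_nonneg hc.le (dst2_nonneg (agv kf0 e0 0 p) (agv kf0 e0 0 p'))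
  unfold Dt
  linarith

/-- the configuration of a tree, with the volume and the growth rate of its critical structure -/
theorem conf2 (t : Tb) (hS : OkE t) (hR : t.bl = false → LG t.nc t.wt) (hn : 1 ≤ t.nc) :
    ∃ p : PB, p.shape = t ∧ CE p ∧ VE p.bl p.wt p.rz (p.gs sg) ∧ Sol p ∧ VR p ∧
      Crit (agv kf0 e0 0 p) := by
  obtain ⟨p, p1, hCr, hV⟩ := conf f_all t hS hR hn
  obtain ⟨i1, i2, i3, i4⟩ := inde f_all.efe p hCr (mem_D1 hV)
  have hL : VL p.bl p.wt p.rz (lgv kf0 e0 0 p) := vl_ve hV i1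
  obtain ⟨g1, g2⟩ := agv_fl kf0 e0 0 p i2
  refine ⟨p, p1, hCr, hV, ⟨i2, i3⟩, hL, agv_aok kf0 e0 p 0 i2 i3, ?_, ?_⟩
  · rw [agv_wt, agv_bl]
    exact sv_of g1 g2 hL
  · intro z hz hang
    rw [agv_shape] at hz
    rw [lin_agv, LLv_eq kf0 e0 p 0 i2 i3 z hz hang.1]
    exact vertex p.bl p.rz p.wt (elv kf0 e0 0 p z) (elv_pos kf0 e0 0 p z hz hang.1)
      (by rw [elv_map kf0 e0 0 p z hz, ← (wt_eq p z hz).1, ← (wt_eq p z hz).2]
          exact hang.2)
      (by rw [elv_lg kf0 e0 0 p z hz]; exact hL)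

end Pool.Agent.U21.TL
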