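import Pool.Agent.U21.TL.Est

/-!
# Explicit two-sided estimate of the change of the volume under twisting
-/

set_option autoImplicit false
set_option linter.unusedVariables false

namespace Pool.Agent.U21.TL

open Finset Filter Topology
open Pool.Agent.TH563.UV
open Pool.Agent.TH563.V
open Pool.Agent.TH563.Z (shape_nc)
open Pool.Agent.W719.AR (Fl Gap)
open Pool.Agent.W711.HT hiding XX
open Pool.Agent.N561
open Pool.Agent.N561.EK
open Pool.Agent.N561.G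
open Pool.Agent.N277.EK (kf0 e0 inde mem_D1 vl_ve)
open scoped Real

/-! ### Numbers -/

lemma num_low {A₀ A n lam k y X : ℝ} (hA₀ : 16 ≤ A₀) (hA : A₀ ≤ A) (hn : 1 ≤ n) (h0 : 0 ≤ lam)
    (h1 : lam ≤ A₀) (hnl : n ≤ lam * A) (hk0 : 0 ≤ k) (hk : k * A₀ ^ 2 ≤ 12.6)
    (hy : 2 * π * n / ((A + 1) ^ 2 + n ^ 2) - 2 * π * n * k / ((A + 1) ^ 2 + n ^ 2) ≤ y)
    (hX : 2 * π * A / (A ^ 2 + n ^ 2) - 2 * π * n * k / (A ^ 2 + n ^ 2) ≤ X) :
    (π ^ 2 - 13.5 * (1 + lam) / A₀) * (n / (A ^ 2 + n ^ 2) - n / ((A + 1) ^ 2 + n ^ 2)) ≤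
      y / 2 * X := by
  have hpi := Real.pi_gt_d2
  have hpi2 := Real.pi_lt_d2
  have hπ1 : 9.85 ≤ π ^ 2 := by nlinarith
  have hπ2 : π ^ 2 ≤ 9.9225 := by nlinarith
  have hA0 : 0 < A₀ := by linarith
  have hAp : 0 < A := by linarith
  have hP : 0 < A ^ 2 + n ^ 2 := by positivity
  have hQ : 0 < (A + 1) ^ 2 + n ^ 2 := by positivity
  set P := A ^ 2 + n ^ 2 with hPd
  set Q := (A + 1) ^ 2 + n ^ 2 with hQd
  -- the error
  have k1 : k * A₀ ≤ 0.7875 := by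
    have : k * A₀ * 16 ≤ k * A₀ * A₀ := mul_le_mul_of_nonneg_left hA₀ (by positivity)
    nlinarith
  have k2 : k ≤ 0.05 := by nlinarith
  have k3 : lam * k ≤ 0.7875 := by
    have : lam * k ≤ A₀ * k := mul_le_mul_of_nonneg_right h1 hk0
    linarith
  have ey : 2 * π * n * (1 - k) / Q ≤ y := by
    refine le_trans (le_of_eq ?_) hy
    ring
  have eX : 2 * π * A * (1 - lam * k) / P ≤ X := by
    refine le_trans ?_ hX
    rw [← sub_div]
    apply div_le_div_of_nonneg_right _ hP.le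
    have h2 : n * k ≤ lam * A * k := mul_le_mul_of_nonneg_right hnl hk0
    have : 2 * π * (n * k) ≤ 2 * π * (lam * A * k) := mul_le_mul_of_nonneg_left h2 (by linarith)
    nlinarith
  have hk1 : 0 ≤ 1 - k := by linarith
  have hk3 : 0 ≤ 1 - lam * k := by linarith
  have y0 : 0 ≤ 2 * π * n * (1 - k) / Q := by positivity
  have X0 : 0 ≤ 2 * π * A * (1 - lam * k) / P := by positivity
  have e1 : 2 * π * n * (1 - k) / Q * (2 * π * A * (1 - lam * k) / P) ≤ y * X :=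
    mul_le_mul ey eX X0 (y0.trans ey)
  have e2 : n / P - n / Q = n * (2 * A + 1) / (P * Q) := by
    rw [div_sub_div _ _ hP.ne' hQ.ne']
    congr 1
    rw [hPd, hQd]
    ring
  have e3 : (π ^ 2 - 13.5 * (1 + lam) / A₀) * (2 * A + 1) ≤
      2 * π ^ 2 * ((1 - k) * (1 - lam * k)) * A := by
    have f1 : 1 - k * (1 + lam) ≤ (1 - k) * (1 - lam * k) := by
      nlinarith [mul_nonneg hk0 (mul_nonneg h0 hk0)]
    have f2 : 2 * π ^ 2 * (1 - k * (1 + lam)) * A ≤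
        2 * π ^ 2 * ((1 - k) * (1 - lam * k)) * A := by
      apply mul_le_mul_of_nonneg_right _ hAp.le
      exact mul_le_mul_of_nonneg_left f1 (by positivity)
    refine le_trans ?_ f2
    -- reduce to an inequality without division
    have f3 : k * A ≤ 0.7875 * (A / A₀) := by
      rw [mul_div_assoc', le_div_iff₀ hA0]
      nlinarith
    have f4 : 1 ≤ A / A₀ := by
      rw [le_div_iff₀ hA0]
      linarith
    have f5 : 13.5 * (1 + lam) / A₀ * (2 * A + 1) ≥ 27 * (1 + lam) * (A / A₀) := by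
      have : 13.5 * (1 + lam) / A₀ * (2 * A + 1) =
          27 * (1 + lam) * (A / A₀) + 13.5 * (1 + lam) / A₀ := by
        field_simp
        ring
      rw [this]
      have : 0 ≤ 13.5 * (1 + lam) / A₀ := by positivity
      linarith
    have f6 : 2 * π ^ 2 * (k * A) * (1 + lam) ≤
        2 * 9.9225 * (0.7875 * (A / A₀)) * (1 + lam) := by
      apply mul_le_mul_of_nonneg_right _ (by linarith)
      apply mul_le_mul (by linarith) f3 (by positivity) (by norm_num)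
    have f7 : π ^ 2 ≤ 9.9225 * ((A / A₀) * (1 + lam)) := by
      have : 1 ≤ (A / A₀) * (1 + lam) := by nlinarith
      nlinarith
    nlinarith [mul_nonneg (by linarith : (0:ℝ) ≤ A / A₀) (by linarith : (0 : ℝ) ≤ 1 + lam)]
  rw [e2]
  have e4 : (π ^ 2 - 13.5 * (1 + lam) / A₀) * (n * (2 * A + 1) / (P * Q)) =
      (π ^ 2 - 13.5 * (1 + lam) / A₀) * (2 * A + 1) * (n / (P * Q)) := by ring
  have e5 : 2 * π * n * (1 - k) / Q * (2 * π * A * (1 - lam * k) / P) =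
      2 * (2 * π ^ 2 * ((1 - k) * (1 - lam * k)) * A * (n / (P * Q))) := by
    field_simp
  rw [e5] at e1
  rw [e4]
  have e6 : (π ^ 2 - 13.5 * (1 + lam) / A₀) * (2 * A + 1) * (n / (P * Q)) ≤
      2 * π ^ 2 * ((1 - k) * (1 - lam * k)) * A * (n / (P * Q)) :=
    mul_le_mul_of_nonneg_right e3 (by positivity)
  linarith

lemma num_upp {A₀ A n lam k y X : ℝ} (hA₀ : 16 ≤ A₀) (hA : A₀ ≤ A) (hn : 1 ≤ n) (h0 : 0 ≤ lam)
    (h1 : lam ≤ A₀) (hnl : n ≤ lam * A) (hk0 : 0 ≤ k) (hk : k * A₀ ^ 2 ≤ 12.6) (hy0 : 0 ≤ y)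
    (hy : y ≤ 2 * π * n / (A ^ 2 + n ^ 2) + 2 * π * n * k / (A ^ 2 + n ^ 2))
    (hX : X ≤ 2 * π * (A + 1) / ((A + 1) ^ 2 + n ^ 2) +
      2 * π * n * k / ((A + 1) ^ 2 + n ^ 2)) :
    y / 2 * X ≤
      (π ^ 2 + 13.5 * (1 + lam) / A₀) * (n / (A ^ 2 + n ^ 2) - n / ((A + 1) ^ 2 + n ^ 2)) := by
  have hpi := Real.pi_gt_d2
  have hpi2 := Real.pi_lt_d2
  have hπ1 : 9.85 ≤ π ^ 2 := by nlinarith
  have hπ2 : π ^ 2 ≤ 9.9225 := by nlinarith
  have hA0 : 0 < A₀ := by linarith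
  have hAp : 0 < A := by linarith
  have hP : 0 < A ^ 2 + n ^ 2 := by positivity
  have hQ : 0 < (A + 1) ^ 2 + n ^ 2 := by positivity
  set P := A ^ 2 + n ^ 2 with hPd
  set Q := (A + 1) ^ 2 + n ^ 2 with hQd
  have k1 : k * A₀ ≤ 0.7875 := by
    have : k * A₀ * 16 ≤ k * A₀ * A₀ := mul_le_mul_of_nonneg_left hA₀ (by positivity)
    nlinarith
  have k2 : k ≤ 0.05 := by nlinarith
  have k3 : lam * k ≤ 0.7875 := by
    have : lam * k ≤ A₀ * k := mul_le_mul_of_nonneg_right h1 hk0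
    linarith
  have ey : y ≤ 2 * π * n * (1 + k) / P := by
    refine hy.trans (le_of_eq ?_)
    ring
  have eX : X ≤ 2 * π * (A + 1) * (1 + lam * k) / Q := by
    refine hX.trans ?_
    rw [← add_div]
    apply div_le_div_of_nonneg_right _ hQ.le
    have h2 : n * k ≤ lam * (A + 1) * k := mul_le_mul_of_nonneg_right (by nlinarith) hk0
    have : 2 * π * (n * k) ≤ 2 * π * (lam * (A + 1) * k) :=
      mul_le_mul_of_nonneg_left h2 (by linarith)
    nlinarith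
  have hlk : 0 ≤ lam * k := mul_nonneg h0 hk0
  have X0 : 0 ≤ 2 * π * (A + 1) * (1 + lam * k) / Q := by positivity
  have e1 : y * X ≤ 2 * π * n * (1 + k) / P * (2 * π * (A + 1) * (1 + lam * k) / Q) :=
    (mul_le_mul_of_nonneg_left eX hy0).trans (mul_le_mul_of_nonneg_right ey X0)
  have e2 : n / P - n / Q = n * (2 * A + 1) / (P * Q) := by
    rw [div_sub_div _ _ hP.ne' hQ.ne']
    congr 1
    rw [hPd, hQd]
    ring
  have e3 : 2 * π ^ 2 * ((1 + k) * (1 + lam * k)) * (A + 1) ≤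
      (π ^ 2 + 13.5 * (1 + lam) / A₀) * (2 * A + 1) := by
    have f1 : (1 + k) * (1 + lam * k) ≤ 1 + 1.05 * (k * (1 + lam)) := by
      nlinarith [mul_nonneg hk0 hk0, mul_nonneg h0 (mul_nonneg hk0 hk0)]
    have f2 : 2 * π ^ 2 * ((1 + k) * (1 + lam * k)) * (A + 1) ≤
        2 * π ^ 2 * (1 + 1.05 * (k * (1 + lam))) * (A + 1) := by
      apply mul_le_mul_of_nonneg_right _ (by linarith)
      exact mul_le_mul_of_nonneg_left f1 (by positivity)
    refine f2.trans ?_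
    have f3 : k * (A + 1) ≤ 0.7875 * ((A + 1) / A₀) := by
      rw [mul_div_assoc', le_div_iff₀ hA0]
      nlinarith
    have f4 : 1 ≤ A / A₀ := by
      rw [le_div_iff₀ hA0]
      linarith
    have f8 : 1 / A₀ ≤ 1 / 16 * (A / A₀) := by
      rw [mul_div_assoc', div_le_div_iff_of_pos_right hA0]
      linarith
    have f9 : (A + 1) / A₀ = A / A₀ + 1 / A₀ := by ring
    have f5 : 13.5 * (1 + lam) / A₀ * (2 * A + 1) =
          (1 + lam) * (27 * (A / A₀) + 13.5 * (1 / A₀)) := by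
        field_simp
        ring
    have f6 : 2 * π ^ 2 * 1.05 * (k * (A + 1)) * (1 + lam) ≤
        2 * 9.9225 * 1.05 * (0.7875 * ((A + 1) / A₀)) * (1 + lam) := by
      apply mul_le_mul_of_nonneg_right _ (by linarith)
      apply mul_le_mul (by linarith) f3 (by positivity) (by norm_num)
    have f7 : π ^ 2 ≤ 9.9225 * ((A / A₀) * (1 + lam)) := by
      have : 1 ≤ (A / A₀) * (1 + lam) := by nlinarith
      nlinarith
    rw [f9] at f6
    have f10 : 0 ≤ 1 / A₀ := by positivity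
    have f11 : (1 / A₀) * (1 + lam) ≤ 1 / 16 * (A / A₀) * (1 + lam) :=
      mul_le_mul_of_nonneg_right f8 (by linarith)
    have f12 : 0 ≤ (A / A₀) * (1 + lam) := by positivity
    rw [add_mul, f5]
    nlinarith
  rw [e2]
  have e4 : (π ^ 2 + 13.5 * (1 + lam) / A₀) * (n * (2 * A + 1) / (P * Q)) =
      (π ^ 2 + 13.5 * (1 + lam) / A₀) * (2 * A + 1) * (n / (P * Q)) := by ring
  have e5 : 2 * π * n * (1 + k) / P * (2 * π * (A + 1) * (1 + lam * k) / Q) =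
      2 * (2 * π ^ 2 * ((1 + k) * (1 + lam * k)) * (A + 1) * (n / (P * Q))) := by
    field_simp
  rw [e5] at e1
  rw [e4]
  have e6 : 2 * π ^ 2 * ((1 + k) * (1 + lam * k)) * (A + 1) * (n / (P * Q)) ≤
      (π ^ 2 + 13.5 * (1 + lam) / A₀) * (2 * A + 1) * (n / (P * Q)) :=
    mul_le_mul_of_nonneg_right e3 (by positivity)
  linarith

/-! ### The deficit -/

/-- the contribution of a vertex to the deficit -/
noncomputable def dv (b : Bool) (n : ℕ) (a : ℤ) : ℝ :=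
  if b = true then 0 else n / ((a : ℝ) ^ 2 + n ^ 2)

/-- the contributions of the vertices other than the root -/
noncomputable def dfB : Tb → ℝ
  | .vx _ _ => 0
  | .br t c => dfB t + dfB c + dv c.bl (c.nc + 1) c.wt

/-- the deficit -/
noncomputable def dfT (t : Tb) : ℝ := dfB t + dv t.bl t.nc t.wt

/-- a relation between the labels of the vertices, other than the root -/
def RelB (R : ℕ → Bool → ℤ → Bool → ℤ → Prop) : Tb → Tb → Prop
  | .vx _ _, .vx _ _ => True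
  | .br t c, .br t' c' => RelB R t t' ∧ RelB R c c' ∧ R (c.nc + 1) c.bl c.wt c'.bl c'.wt
  | _, _ => False

/-- a relation between the labels of the vertices -/
def RelT (R : ℕ → Bool → ℤ → Bool → ℤ → Prop) (t t' : Tb) : Prop :=
  RelB R t t' ∧ R t.nc t.bl t.wt t'.bl t'.wt

lemma relB_nc {R : ℕ → Bool → ℤ → Bool → ℤ → Prop} : ∀ t t' : Tb, RelB R t t' → t.nc = t'.nc
  | .vx _ _, .vx _ _, _ => rfl
  | .vx _ _, .br _ _, h => h.elim
  | .br _ _, .vx _ _, h => h.elim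
  | .br t c, .br t' c', h => by
    show t.nc + 1 = t'.nc + 1
    rw [relB_nc t t' h.1]

lemma relB_sim {R : ℕ → Bool → ℤ → Bool → ℤ → Prop} :
    ∀ p p' : PB, RelB R p.shape p'.shape → SimP p p' ∧ SimP p' p
  | .vx _ _ _, .vx _ _ _, _ => ⟨trivial, trivial⟩
  | .vx _ _ _, .br _ _, h => h.elim
  | .br _ _, .vx _ _ _, h => h.elim
  | .br t c, .br t' c', h =>
    ⟨⟨(relB_sim t t' h.1).1, (relB_sim c c' h.2.1).1⟩,
      ⟨(relB_sim t t' h.1).2, (relB_sim c c' h.2.1).2⟩⟩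

lemma relB_mono {R R' : ℕ → Bool → ℤ → Bool → ℤ → Prop}
    (h : ∀ n b a b' a', R n b a b' a' → R' n b a b' a') :
    ∀ t t' : Tb, RelB R t t' → RelB R' t t'
  | .vx _ _, .vx _ _, _ => trivial
  | .vx _ _, .br _ _, h1 => h1.elim
  | .br _ _, .vx _ _, h1 => h1.elim
  | .br t c, .br t' c', h1 =>
    ⟨relB_mono h t t' h1.1, relB_mono h c c' h1.2.1, h _ _ _ _ _ h1.2.2⟩

theorem lowB {R : ℕ → Bool → ℤ → Bool → ℤ → Prop} {κ α : ℝ}
    (hR : ∀ n b a b' a' z z', 1 ≤ n → R n b a b' a' → VB κ b a n z → VB κ b' a' n z' →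
      α * (dv b n a - dv b' n a') ≤ dl2 b' a' z' b a z) :
    ∀ p p' : PB, RelB R p.shape p'.shape → VBB κ p → VBB κ p' →
      α * (dfB p.shape - dfB p'.shape) ≤ Dp p' p
  | .vx _ _ _, .vx _ _ _, _, _, _ => by simp [PB.shape, dfB, Dp]
  | .vx _ _ _, .br _ _, h, _, _ => h.elim
  | .br _ _, .vx _ _ _, h, _, _ => h.elim
  | .br t c, .br t' c', h, h1, h2 => by
    obtain ⟨k1, k2, k3⟩ := h
    have e1 := lowB hR t t' k1 h1.1 h2.1
    have e2 := lowB hR c c' k2 h1.2.1 h2.2.1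
    have en := relB_nc _ _ k2
    rw [shape_nc, shape_nc] at en
    have h3 := h2.2.2
    rw [← en] at h3
    rw [shape_nc, pb_bl, pb_wt, pb_bl, pb_wt] at k3
    have e3 := hR _ _ _ _ _ _ _ (Nat.succ_le_succ (Nat.zero_le _)) k3 h1.2.2 h3
    simp only [PB.shape, dfB, Dp]
    rw [shape_nc, shape_nc, pb_bl, pb_wt, pb_bl, pb_wt, ← en]
    linarith

theorem uppB {R : ℕ → Bool → ℤ → Bool → ℤ → Prop} {κ β : ℝ}
    (hR : ∀ n b a b' a' z z', 1 ≤ n → R n b a b' a' → VB κ b a n z → VB κ b' a' n z' →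
      -dl2 b a z b' a' z' ≤ β * (dv b n a - dv b' n a')) :
    ∀ p p' : PB, RelB R p.shape p'.shape → VBB κ p → VBB κ p' →
      -Dp p p' ≤ β * (dfB p.shape - dfB p'.shape)
  | .vx _ _ _, .vx _ _ _, _, _, _ => by simp [PB.shape, dfB, Dp]
  | .vx _ _ _, .br _ _, h, _, _ => h.elim
  | .br _ _, .vx _ _ _, h, _, _ => h.elim
  | .br t c, .br t' c', h, h1, h2 => by
    obtain ⟨k1, k2, k3⟩ := h
    have e1 := uppB hR t t' k1 h1.1 h2.1
    have e2 := uppB hR c c' k2 h1.2.1 h2.2.1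
    have en := relB_nc _ _ k2
    rw [shape_nc, shape_nc] at en
    have h3 := h2.2.2
    rw [← en] at h3
    rw [shape_nc, pb_bl, pb_wt, pb_bl, pb_wt] at k3
    have e3 := hR _ _ _ _ _ _ _ (Nat.succ_le_succ (Nat.zero_le _)) k3 h1.2.2 h3
    simp only [PB.shape, dfB, Dp]
    rw [shape_nc, shape_nc, pb_bl, pb_wt, pb_bl, pb_wt, ← en]
    linarith

/-! ### The class and the volume -/

/-- the condition on a vertex without circle -/
def LA (A n : ℕ) (a : ℤ) : Prop := (A : ℤ) ≤ |a| ∨ 2 * A ≤ n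

/-- the vertices other than the root are large -/
def OkA (A : ℕ) : Tb → Prop
  | .vx _ _ => True
  | .br t c => OkA A t ∧ OkA A c ∧ (c.bl = false → LA A (c.nc + 1) c.wt)

/-- the class -/
def Cls (A : ℕ) (t : Tb) : Prop := OkA A t ∧ (t.bl = false → LA A t.nc t.wt)

lemma la_lg {A n : ℕ} {a : ℤ} (hA : 16 ≤ A) (h : LA A n a) : LG n a := by
  rcases h with h | h
  · left; omega
  · right; omega

lemma okA_okE {A : ℕ} (hA : 16 ≤ A) : ∀ t : Tb, OkA A t → OkE t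
  | .vx _ _, _ => trivial
  | .br t c, h => ⟨okA_okE hA t h.1, okA_okE hA c h.2.1, fun hb => la_lg hA (h.2.2 hb)⟩

/-- the volume -/
noncomputable def VT (t : Tb) : ℝ := sSup {W : ℝ | ∃ y : AB, y.shape = t ∧ y.IsAng ∧ y.vol = W}

lemma crit_greatest {y : AB} (hy : Crit y) :
    IsGreatest {W : ℝ | ∃ z : AB, z.shape = y.shape ∧ z.IsAng ∧ z.vol = W} y.vol := by
  refine ⟨⟨y, rfl, ?_, rfl⟩, ?_⟩
  · have hv : ∀ b w (l : List (Fl × Fl)), SV b w l → VOK b w l := by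
      intro b w l h
      obtain ⟨h0, a1, a2, a3⟩ := h
      exact wv_vok ⟨h0, a1, a3⟩
    exact ⟨ok_of_aok _ (aok_mono hv _ hy.1), hv _ _ _ hy.2.1⟩
  · rintro W ⟨z, z1, z2, rfl⟩
    exact crit_max y hy z z1 z2

/-- small numbers -/
def Sm (A : ℕ) (z : ℂ) : Prop := ‖z‖ ^ 2 ≤ (40 * π / 19) ^ 2 / (A : ℝ) ^ 2

lemma edge_true : EdgeK (1 / 20) (fun _ => True) := fun z w hz hw _ _ => edge20 hz hw

lemma edge_sm {A : ℕ} (hA : 16 ≤ A) : EdgeK (12 / (A : ℝ) ^ 2) (Sm A) := by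
  intro z w hz hw h1 h2
  have hA' : (16 : ℝ) ≤ A := by exact_mod_cast hA
  have hA2 : (256 : ℝ) ≤ (A : ℝ) ^ 2 := by nlinarith
  have hpi := Real.pi_pos
  have hpi2 := Real.pi_lt_d2
  have hn : (40 * π / 19) ^ 2 ≤ 44 := by nlinarith
  have e1 : (40 * π / 19) ^ 2 / (A : ℝ) ^ 2 ≤ 441 / 2500 := by
    rw [div_le_iff₀ (by positivity)]
    nlinarith
  refine (edge_small e1 hz hw h1 h2).trans ?_
  have e2 : 27 / 100 * ((40 * π / 19) ^ 2 / (A : ℝ) ^ 2) ≤ 12 / (A : ℝ) ^ 2 := by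
    rw [mul_div_assoc']
    apply div_le_div_of_nonneg_right _ (by positivity)
    linarith
  have e3 : 0 ≤ ‖z‖ / (2 * π) := by positivity
  have e4 := mul_le_mul_of_nonneg_right e2 e3
  calc _ = 27 / 100 * ((40 * π / 19) ^ 2 / (A : ℝ) ^ 2) * (‖z‖ / (2 * π)) := by ring
    _ ≤ _ := e4
    _ = _ := by ring

lemma sm_of {A : ℕ} (hA : 16 ≤ A) {b : Bool} {w : ℤ} {n : ℕ} {z : ℂ} (hn : 1 ≤ n)
    (h0 : b = true → z = 0) (hL : b = false → LA A n w) (h : VB (1 / 20) b w n z) : Sm A z := by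
  have hA' : (16 : ℝ) ≤ A := by exact_mod_cast hA
  cases b with
  | true =>
    rw [h0 rfl]
    unfold Sm
    rw [norm_zero, zero_pow two_ne_zero]
    positivity
  | false =>
    have h1 := vb_size (by norm_num) (by norm_num) hn h
    have e1 : 2 * π / (1 - 1 / 20) = 40 * π / 19 := by ring
    rw [e1] at h1
    have hm : (A : ℝ) ≤ Real.sqrt ((w : ℝ) ^ 2 + n ^ 2) := by
      apply Real.le_sqrt_of_sq_le
      rcases hL rfl with h | h
      · have h2 : (A : ℝ) ≤ |(w : ℝ)| := by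
          rw [← Int.cast_abs]
          exact_mod_cast h
        have h3 : (A : ℝ) ^ 2 ≤ (w : ℝ) ^ 2 := by
          rw [← sq_abs (w : ℝ)]
          exact pow_le_pow_left₀ (by linarith) h2 2
        nlinarith [sq_nonneg (n : ℝ)]
      · have h2 : (A : ℝ) ≤ n := by
          have : A ≤ n := by omega
          exact_mod_cast this
        have h3 : (A : ℝ) ^ 2 ≤ (n : ℝ) ^ 2 := pow_le_pow_left₀ (by linarith) h2 2
        nlinarith [sq_nonneg (w : ℝ)]
    have h4 : ‖z‖ * A ≤ 40 * π / 19 :=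
      (mul_le_mul_of_nonneg_left hm (norm_nonneg _)).trans h1
    unfold Sm
    rw [le_div_iff₀ (by positivity), ← mul_pow]
    exact pow_le_pow_left₀ (by positivity) h4 2

lemma all_sm {A : ℕ} (hA : 16 ≤ A) : ∀ p : PB, CE p → VBB (1 / 20) p → OkA A p.shape →
    AllP (Sm A) p
  | .vx _ _ _, _, _, _ => trivial
  | .br t c, h, hv, hO => by
    refine ⟨all_sm hA t h.1 hv.1 hO.1, all_sm hA c h.2.1 hv.2.1 hO.2.1,
      sm_of hA (Nat.succ_le_succ (Nat.zero_le _)) h.2.2.1 ?_ hv.2.2⟩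
    have := hO.2.2
    rw [shape_nc, pb_bl, pb_wt] at this
    exact this

lemma all_true : ∀ p : PB, AllP (fun _ => True) p
  | .vx _ _ _ => trivial
  | .br t c => ⟨all_true t, all_true c, trivial⟩

/-- the configuration of a tree of the class -/
theorem conf3 {A : ℕ} (hA : 16 ≤ A) (t : Tb) (ht : Cls A t) (hn : 1 ≤ t.nc) :
    ∃ p : PB, p.shape = t ∧ Sol p ∧ VR p ∧
    VBB (12 / (A : ℝ) ^ 2) p ∧ VB (12 / (A : ℝ) ^ 2) p.bl p.wt p.nc p.rz ∧
    (agv kf0 e0 0 p).vol = VT t ∧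
    IsGreatest {W : ℝ | ∃ z : AB, z.shape = t ∧ z.IsAng ∧ z.vol = W} (VT t) := by
  obtain ⟨p, p1, p2, p3, p4, p5, p6⟩ := conf2 t (okA_okE hA t ht.1)
    (fun hb => la_lg hA (ht.2 hb)) hn
  have h := crit_greatest p6
  rw [agv_shape, p1] at h
  have e : (agv kf0 e0 0 p).vol = VT t := h.csSup_eq.symm
  rw [e] at h
  subst p1
  have q1 := vbb_of edge_true p p2 (all_true p) (mem_D1 p3) trivial
  have q2 := vb_root edge_true p p2 p3 (all_true p) trivial
  have q3 := all_sm hA p p2 q1 ht.1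
  have hn' := hn
  rw [shape_nc] at hn'
  have hL := ht.2
  rw [shape_nc, pb_bl, pb_wt] at hL
  have q4 : Sm A p.rz := sm_of hA hn' p3.1 hL q2
  exact ⟨p, rfl, p4, p5, vbb_of (edge_sm hA) p p2 q3 (mem_D1 p3) q4,
    vb_root (edge_sm hA) p p2 p3 q3 q4, e, h⟩

/-- two trees of the class with a relation between the labels -/
theorem two {A : ℕ} (hA : 16 ≤ A) {R : ℕ → Bool → ℤ → Bool → ℤ → Prop} {α β : ℝ}
    (h1 : ∀ n b a b' a' z z', 1 ≤ n → R n b a b' a' → VB (12 / (A : ℝ) ^ 2) b a n z →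
      VB (12 / (A : ℝ) ^ 2) b' a' n z' → α * (dv b n a - dv b' n a') ≤ dl2 b' a' z' b a z)
    (h2 : ∀ n b a b' a' z z', 1 ≤ n → R n b a b' a' → VB (12 / (A : ℝ) ^ 2) b a n z →
      VB (12 / (A : ℝ) ^ 2) b' a' n z' → -dl2 b a z b' a' z' ≤ β * (dv b n a - dv b' n a'))
    {t t' : Tb} (ht : Cls A t) (ht' : Cls A t') (hn : 1 ≤ t.nc) (hR : RelT R t t') :
    2 * α * (dfT t - dfT t') ≤ VT t' - VT t ∧ VT t' - VT t ≤ 2 * β * (dfT t - dfT t') := by
  obtain ⟨hB, hr⟩ := hR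
  have en := relB_nc _ _ hB
  obtain ⟨p, p1, p2, p3, p4, p5, p6, -⟩ := conf3 hA t ht hn
  obtain ⟨q, q1, q2, q3, q4, q5, q6, -⟩ := conf3 hA t' ht' (en ▸ hn)
  subst p1
  subst q1
  obtain ⟨s1, s2⟩ := relB_sim p q hB
  rw [shape_nc, shape_nc] at en
  rw [← en] at q5
  rw [shape_nc] at hn
  rw [shape_nc, pb_bl, pb_wt, pb_bl, pb_wt] at hr
  have a1 := lowB h1 p q hB p4 q4
  have a2 := h1 _ _ _ _ _ _ _ hn hr p5 q5
  have b1 := uppB h2 p q hB p4 q4
  have b2 := h2 _ _ _ _ _ _ _ hn hr p5 q5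
  have c1 := tangent q p s2 q2 q3 p2 p3
  have c2 := tangent p q s1 p2 p3 q2 q3
  rw [p6, q6] at c1 c2
  have d1 : dfT p.shape = dfB p.shape + dv p.bl p.nc p.wt := by
    unfold dfT
    rw [shape_nc, pb_bl, pb_wt]
  have d2 : dfT q.shape = dfB q.shape + dv q.bl p.nc q.wt := by
    unfold dfT
    rw [shape_nc, pb_bl, pb_wt, en]
  unfold Dt at c1 c2
  rw [d1, d2]
  constructor
  · linarith
  · linarith

end Pool.Agent.U21.TL
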