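import Pool.Agent.U21.TL.NZF

/-!
# The complex volume under filling: the Neumann-Zagier law with cusp shapes
-/

set_option autoImplicit false
set_option linter.unusedVariables false

namespace Pool.Agent.U21.TL

open Finset Filter Topology
open Pool.Agent.TH563.UV.Arb
open Pool.Agent.TH563.UV (Tb PB AB pb_bl pb_wt vt)
open Pool.Agent.TH563.Z (shape_nc)
open Pool.Agent.TH563.CV (HasCS IsComplexVolume)
open Pool.Agent.N561
open Pool.Agent.N561.EK
open Pool.Agent.N277.EK (mem_D1)
open Pool.Agent.N561.ArbK (AllTwisted TwistedBelow)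
open Pool.Agent.W719.AX (EXY)
open scoped Real

/-! ### Definitions -/

/-- Complex numbers at the vertices of a planar tree (built up as `Tree`). -/
inductive Marks : Type
  | single (z : ℂ) : Marks
  | join (m k : Marks) : Marks

/-- The number of the root. -/
def Marks.mark : Marks → ℂ
  | .single z => z
  | .join m _ => m.mark

/-- The sum of `1 / (τ - i a)` over the vertices at which `s` has a crossing circle and `t` has
none; `a` is the weight in `t` and `τ` the mark. -/
noncomputable def fillSum : Marks → Tree → Tree → ℂ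
  | .single z, .single b _, .single b' a' =>
      if (b && !b') = true then 1 / (z - Complex.I * a') else 0
  | .join m k, .join s d, .join t c => fillSum m s t + fillSum k d c
  | _, _, _ => 0

/-- The term of a vertex with `n` neighbours in `loss`. -/
noncomputable def lossAt (n : ℕ) (b b' : Bool) (a : ℤ) : ℝ :=
  if (b && !b') = true then n / ((a : ℝ) ^ 2 + n ^ 2) ^ 2 else 0

/-- The sum of `n / (n² + a²)²` over the vertices other than the root at which `s` has a crossing
circle and `t` has none; `a` is the weight in `t` and `n` the number of neighbours. -/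
noncomputable def lossBelow : Tree → Tree → ℝ
  | .join s d, .join t c => lossBelow s t + lossBelow d c +
      lossAt (c.children + 1) d.circle c.circle c.weight
  | _, _ => 0

/-- The sum of `n / (n² + a²)²` over the vertices at which `s` has a crossing circle and `t` has
none. -/
noncomputable def loss (s t : Tree) : ℝ :=
  lossBelow s t + lossAt t.children s.circle t.circle t.weight

/-- The sum of `|w|²` over the children of the root, `w = 1 / (n - i a)` (`0` if there is a crossing
circle). -/
noncomputable def squares : Tree → ℝ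
  | .single _ _ => 0
  | .join t c => squares t + ‖childCusp c‖ ^ 2

/-- At every vertex other than the root the mark differs from the number of neighbours by at most
`6 ∑ |w|²`, the sum over the neighbours; `ω` is the number `w` of the root. -/
def NearBelow : ℂ → Marks → Tree → Prop
  | _, .single _, .single _ _ => True
  | ω, .join m k, .join t c => NearBelow ω m t ∧ NearBelow (childCusp c) k c ∧
      ‖k.mark - ((c.children + 1 : ℕ) : ℂ)‖ ≤ 6 * (squares c + ‖ω‖ ^ 2)
  | _, _, _ => False

/-- At every vertex the mark differs from the number of neighbours by at most `6 ∑ |w|²`, the sum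
over the neighbours, where `w = 1 / (n - i a)` for a neighbour with `n` neighbours, weight `a` and no
crossing circle, and `w = 0` if there is a crossing circle. -/
def Near (m : Marks) (t : Tree) : Prop :=
  NearBelow (rootCusp t) m t ∧ ‖m.mark - (t.children : ℂ)‖ ≤ 6 * squares t

/-! ### The marks of a critical configuration -/

/-- the marks; `e` is the contribution of the parent of the root -/
noncomputable def mk : ℂ → PB → Marks
  | e, .vx _ _ _ => .single e
  | e, .br t c => .join (mk (e + Complex.cos (c.rz / 2)) t) (mk (Complex.cos (t.rz / 2)) c)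

lemma mk_mark : ∀ (e : ℂ) (p : PB), (mk e p).mark = e + cr p
  | e, .vx _ _ _ => by simp [mk, Marks.mark, cr]
  | e, .br t c => by
    simp only [mk, Marks.mark, cr]
    rw [mk_mark]
    ring

lemma cos_le {z ω : ℂ} (h : z ∈ D1) (h2 : ‖z‖ ≤ 40 * π / 19 * ‖ω‖) :
    ‖Complex.cos (z / 2) - 1‖ ≤ 6 * ‖ω‖ ^ 2 := by
  have hpi := Real.pi_pos
  refine (cos_half h).1.trans ?_
  have h3 := pow_le_pow_left₀ (norm_nonneg z) h2 2
  have h4 : π ^ 2 ≤ 9.87 := by
    have h1 : π ^ 2 ≤ 3.141593 ^ 2 := pow_le_pow_left₀ hpi.le Real.pi_lt_d6.le 2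
    norm_num at h1 ⊢
    linarith
  have e : (40 * π / 19 * ‖ω‖) ^ 2 = (40 / 19) ^ 2 * π ^ 2 * ‖ω‖ ^ 2 := by ring
  rw [e] at h3
  have h5 : (40 / 19) ^ 2 * π ^ 2 * ‖ω‖ ^ 2 ≤ (40 / 19) ^ 2 * 9.87 * ‖ω‖ ^ 2 :=
    mul_le_mul_of_nonneg_right (mul_le_mul_of_nonneg_left h4 (by norm_num)) (sq_nonneg _)
  have h6 : (0 : ℝ) ≤ ‖ω‖ ^ 2 := sq_nonneg _
  nlinarith

/-- the size of `z` in terms of `w` -/
lemma size_cusp {b : Bool} {a : ℤ} {n : ℕ} {z G : ℂ} (hn : 1 ≤ n) (h : VE b a z G)
    (hB : VB (1 / 20) b a n z) : ‖z‖ ≤ 40 * π / 19 * ‖cusp b n a‖ := by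
  have hpi := Real.pi_pos
  cases b with
  | true =>
    rw [h.1 rfl]
    simp only [norm_zero]
    positivity
  | false =>
    have hs := vb_size (by norm_num) (by norm_num) hn hB
    have e1 : 2 * π / (1 - 1 / 20) = 40 * π / 19 := by ring
    rw [e1] at hs
    have h2 := cusp_norm_eq hn a
    have hn0 : (0 : ℝ) < n := by exact_mod_cast hn
    have h3 : 0 < Real.sqrt ((a : ℝ) ^ 2 + n ^ 2) := Real.sqrt_pos.2 (by positivity)
    have e2 : ‖cusp false n a‖ = 1 / Real.sqrt ((a : ℝ) ^ 2 + n ^ 2) := by
      rw [eq_div_iff h3.ne']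
      exact h2
    rw [e2, mul_one_div, le_div_iff₀ h3]
    linarith

lemma cr_squares (t : Tree) : ∀ p : PB, p.shape = toTb t → CE p → VBB (1 / 20) p →
    ‖cr p - (p.nc : ℂ)‖ ≤ 6 * squares t := by
  induction t with
  | single b a =>
    intro p hp hC hB
    cases p with
    | vx b' a' z => simp [cr, PB.nc, squares]
    | br t c => exact absurd hp (by simp [PB.shape, toTb])
  | join t c iht ihc =>
    intro p hp hC hB
    cases p with
    | vx b' a' z => exact absurd hp (by simp [PB.shape, toTb])
    | br t' c' =>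
      have h1 : t'.shape = toTb t := (Pool.Agent.TH563.UV.Tb.br.inj hp).1
      have h2 : c'.shape = toTb c := (Pool.Agent.TH563.UV.Tb.br.inj hp).2
      have e1 : cusp c'.bl (c'.nc + 1) c'.wt = childCusp c := by
        unfold childCusp
        rw [← pb_bl, ← pb_wt, ← shape_nc, h2, bl_to, nc_to, wt_to]
      have g1 := iht t' h1 hC.1 hB.1
      have g2 := size_cusp (by omega) hC.2.2 hB.2.2
      rw [e1] at g2
      have g3 := cos_le (mem_D1 hC.2.2) g2
      have e : cr (.br t' c') - ((PB.br t' c').nc : ℂ) = (cr t' - t'.nc) +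
          (Complex.cos (c'.rz / 2) - 1) := by
        have : (PB.br t' c').nc = t'.nc + 1 := rfl
        rw [this]
        simp only [cr]
        push_cast
        ring
      rw [e]
      simp only [squares]
      refine (norm_add_le _ _).trans ?_
      linarith

lemma near_of (t : Tree) : ∀ (p : PB) (e ω : ℂ), p.shape = toTb t → CE p → VBB (1 / 20) p →
    p.rz ∈ D1 → ‖p.rz‖ ≤ 40 * π / 19 * ‖ω‖ → NearBelow ω (mk e p) t := by
  induction t with
  | single b a =>
    intro p e ω hp hC hB hD hz
    cases p with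
    | vx b' a' z => trivial
    | br t c => exact absurd hp (by simp [PB.shape, toTb])
  | join t c iht ihc =>
    intro p e ω hp hC hB hD hz
    cases p with
    | vx b' a' z => exact absurd hp (by simp [PB.shape, toTb])
    | br t' c' =>
      have h1 : t'.shape = toTb t := (Pool.Agent.TH563.UV.Tb.br.inj hp).1
      have h2 : c'.shape = toTb c := (Pool.Agent.TH563.UV.Tb.br.inj hp).2
      have e1 : cusp c'.bl (c'.nc + 1) c'.wt = childCusp c := by
        unfold childCusp
        rw [← pb_bl, ← pb_wt, ← shape_nc, h2, bl_to, nc_to, wt_to]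
      have g2 := size_cusp (by omega) hC.2.2 hB.2.2
      rw [e1] at g2
      refine ⟨iht t' _ ω h1 hC.1 hB.1 hD hz, ihc c' _ _ h2 hC.2.1 hB.2.1 (mem_D1 hC.2.2) g2, ?_⟩
      rw [mk_mark]
      have g3 := cr_squares c c' h2 hC.2.1 hB.2.1
      have g4 := cos_le (z := t'.rz) hD hz
      have e2 : c'.nc = c.children := by rw [← shape_nc, h2, nc_to]
      have e3 : Complex.cos (t'.rz / 2) + cr c' - ((c.children + 1 : ℕ) : ℂ) =
          (cr c' - (c'.nc : ℂ)) + (Complex.cos (t'.rz / 2) - 1) := by
        rw [e2]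
        push_cast
        ring
      rw [e3]
      refine (norm_add_le _ _).trans ?_
      linarith

/-! ### The sums -/

lemma fillSum_eq (s : Tree) : ∀ (t : Tree) (p p' : PB) (e : ℂ), p.shape = toTb s →
    p'.shape = toTb t → FilP p p' → fillSum (mk e p) s t =
      nzt s.circle t.circle (e + cr p) t.weight + nzs p p' := by
  induction s with
  | single b a =>
    intro t p p' e hp hp' hF
    cases p with
    | vx b1 a1 z1 =>
      cases p' with
      | vx b2 a2 z2 =>
        cases t with
        | single b' a' =>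
          simp only [mk, fillSum, nzt, Tree.circle, Tree.weight, cr, nzs, add_zero]
        | join t c => exact absurd hp' (by simp [PB.shape, toTb])
      | br t' c' => exact hF.elim
    | br t1 c1 => exact absurd hp (by simp [PB.shape, toTb])
  | join s d ihs ihd =>
    intro t p p' e hp hp' hF
    cases p with
    | vx b1 a1 z1 => exact absurd hp (by simp [PB.shape, toTb])
    | br p q =>
      cases p' with
      | vx b2 a2 z2 => exact hF.elim
      | br p' q' =>
        cases t with
        | single b' a' => exact absurd hp' (by simp [PB.shape, toTb])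
        | join t c =>
          have h1 : p.shape = toTb s := (Pool.Agent.TH563.UV.Tb.br.inj hp).1
          have h2 : q.shape = toTb d := (Pool.Agent.TH563.UV.Tb.br.inj hp).2
          have h3 : p'.shape = toTb t := (Pool.Agent.TH563.UV.Tb.br.inj hp').1
          have h4 : q'.shape = toTb c := (Pool.Agent.TH563.UV.Tb.br.inj hp').2
          have g1 := ihs t p p' (e + Complex.cos (q.rz / 2)) h1 h3 hF.1
          have g2 := ihd c q q' (Complex.cos (p.rz / 2)) h2 h4 hF.2.1
          simp only [mk, fillSum, nzs, cr, Tree.circle, Tree.weight]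
          rw [g1, g2]
          have k1 : q.bl = d.circle := by rw [← pb_bl, h2, bl_to]
          have k2 : q'.bl = c.circle := by rw [← pb_bl, h4, bl_to]
          have k3 : q'.wt = c.weight := by rw [← pb_wt, h4, wt_to]
          rw [k1, k2, k3]
          have e1 : e + Complex.cos (q.rz / 2) + cr p = e + (cr p + Complex.cos (q.rz / 2)) := by
            ring
          have e2 : Complex.cos (p.rz / 2) + cr q = cr q + Complex.cos (p.rz / 2) := by ring
          rw [e1, e2]
          ring

lemma loss_eq (s : Tree) : ∀ (t : Tree) (p p' : PB), p.shape = toTb s →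
    p'.shape = toTb t → lss p p' = lossBelow s t := by
  induction s with
  | single b a =>
    intro t p p' hp hp'
    cases p with
    | vx b1 a1 z1 => simp [lss, lossBelow]
    | br t1 c1 => exact absurd hp (by simp [PB.shape, toTb])
  | join s d ihs ihd =>
    intro t p p' hp hp'
    cases p with
    | vx b1 a1 z1 => exact absurd hp (by simp [PB.shape, toTb])
    | br p q =>
      cases p' with
      | vx b2 a2 z2 =>
        cases t with
        | single b' a' => simp [lss, lossBelow]
        | join t c => exact absurd hp' (by simp [PB.shape, toTb])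
      | br p' q' =>
        cases t with
        | single b' a' => exact absurd hp' (by simp [PB.shape, toTb])
        | join t c =>
          have h1 : p.shape = toTb s := (Pool.Agent.TH563.UV.Tb.br.inj hp).1
          have h2 : q.shape = toTb d := (Pool.Agent.TH563.UV.Tb.br.inj hp).2
          have h3 : p'.shape = toTb t := (Pool.Agent.TH563.UV.Tb.br.inj hp').1
          have h4 : q'.shape = toTb c := (Pool.Agent.TH563.UV.Tb.br.inj hp').2
          simp only [lss, lossBelow]
          rw [ihs t p p' h1 h3, ihd c q q' h2 h4]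
          have k1 : q.bl = d.circle := by rw [← pb_bl, h2, bl_to]
          have k2 : q'.bl = c.circle := by rw [← pb_bl, h4, bl_to]
          have k3 : q'.wt = c.weight := by rw [← pb_wt, h4, wt_to]
          have k4 : q'.nc = c.children := by rw [← shape_nc, h4, nc_to]
          rw [k1, k2, k3, k4]
          rfl

lemma nfs_nat : ∀ p p' : PB, ∃ K : ℕ, nfs p p' = K * (π * Complex.I)
  | .vx _ _ _, .vx _ _ _ => ⟨0, by simp [nfs]⟩
  | .vx _ _ _, .br _ _ => ⟨0, by simp [nfs]⟩
  | .br _ _, .vx _ _ _ => ⟨0, by simp [nfs]⟩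
  | .br t c, .br t' c' => by
    obtain ⟨K, hK⟩ := nfs_nat t t'
    obtain ⟨L, hL⟩ := nfs_nat c c'
    simp only [nfs]
    rw [hK, hL]
    unfold nft
    by_cases h : (c.bl && !c'.bl) = true
    · rw [if_pos h]
      exact ⟨K + L + 1, by push_cast; ring⟩
    · rw [if_neg h]
      exact ⟨K + L, by push_cast; ring⟩

/-! ### Fillings -/

/-- the labels of the root of a filling -/
lemma fills_root (s : Tree) : ∀ t : Tree, Fills s t →
    FV s.circle s.weight t.circle t.weight := by
  induction s with
  | single b a =>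
    intro t h
    cases t with
    | single b' a' =>
      rcases h with h | h
      · exact Or.inl h
      · exact Or.inr ⟨h.1, h.2.1⟩
    | join t c => exact h.elim
  | join s d ihs ihd =>
    intro t h
    cases t with
    | single b' a' => exact h.elim
    | join t c => exact ihs t h.1

lemma fills_nc (s : Tree) : ∀ t : Tree, Fills s t → s.children = t.children := by
  induction s with
  | single b a =>
    intro t h
    cases t with
    | single b' a' => rfl
    | join t c => exact h.elim
  | join t c iht ihc =>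
    intro t' h
    cases t' with
    | single b' a' => exact h.elim
    | join t' c' => simp only [Tree.children, iht t' h.1]

lemma fills_fil (s : Tree) : ∀ (t : Tree) (p p' : PB), p.shape = toTb s → p'.shape = toTb t →
    Fills s t → FilP p p' := by
  induction s with
  | single b a =>
    intro t p p' hp hp' h
    cases t with
    | single b' a' =>
      cases p with
      | vx _ _ _ =>
        cases p' with
        | vx _ _ _ => trivial
        | br _ _ => exact absurd hp' (by simp [PB.shape, toTb])
      | br _ _ => exact absurd hp (by simp [PB.shape, toTb])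
    | join t c => exact h.elim
  | join s d ihs ihd =>
    intro t p p' hp hp' h
    cases t with
    | single b' a' => exact h.elim
    | join t c =>
      cases p with
      | vx _ _ _ => exact absurd hp (by simp [PB.shape, toTb])
      | br p q =>
        cases p' with
        | vx _ _ _ => exact absurd hp' (by simp [PB.shape, toTb])
        | br p' q' =>
          have h1 : p.shape = toTb s := (Pool.Agent.TH563.UV.Tb.br.inj hp).1
          have h2 : q.shape = toTb d := (Pool.Agent.TH563.UV.Tb.br.inj hp).2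
          have h3 : p'.shape = toTb t := (Pool.Agent.TH563.UV.Tb.br.inj hp').1
          have h4 : q'.shape = toTb c := (Pool.Agent.TH563.UV.Tb.br.inj hp').2
          refine ⟨ihs t p p' h1 h3 h.1, ihd c q q' h2 h4 h.2, ?_⟩
          have h5 := fills_root d c h.2
          have k1 : q.bl = d.circle := by rw [← pb_bl, h2, bl_to]
          have k2 : q'.bl = c.circle := by rw [← pb_bl, h4, bl_to]
          have k3 : q'.wt = c.weight := by rw [← pb_wt, h4, wt_to]
          have k4 : q.wt = d.weight := by rw [← pb_wt, h2, wt_to]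
          rw [k1, k2, k3, k4]
          exact h5

/-! ### One tree -/

lemma ws_to (t : Tree) : (toTb t).ws = weightSum t := by
  induction t with
  | single b a => rfl
  | join t c iht ihc =>
    show (toTb t).ws + (toTb c).ws = _
    rw [iht, ihc]
    rfl

/-- the value of one tree -/
theorem one_val (t : Tree) (ht : AllTwisted t) (hs : 1 ≤ t.children) :
    ∃ (V C : ℝ) (p : PB), p.shape = toTb t ∧ CE p ∧ VE p.bl p.wt p.rz (p.gs sg) ∧
      IsVol t V ∧ (∀ C' : ℝ, HasCS t V C' ↔ ∃ k : ℤ, C' = C + k * Real.pi ^ 2) ∧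
      (∀ e f : ℤ, ∃ (C' : ℝ) (y : ℕ → ℂ), HasCS t V C' ∧ y 0 ≠ 0 ∧
        EXY (kashaev e f t) ((V + Complex.I * C') / (2 * Real.pi)) y) ∧
      (V : ℂ) + Complex.I * C = 2 * π * (vt p.bl p.wt p.rz + p.vl sg) -
        Complex.I * (π : ℂ) ^ 2 * weightSum t / 2 := by
  have hpi := Real.pi_pos
  obtain ⟨V, C₀, h2, hC₀, -, h3, -, -, -⟩ :=
    Pool.Agent.N561.ArbK.mainM Pool.Agent.N561.EK.f_finy t hs ht
  obtain ⟨p, p1, p2, p3, -⟩ := conf2 (toTb t) (Pool.Agent.N561.ArbK.below_ok t ht.1)
    (by rw [bl_to, nc_to, wt_to]; exact Pool.Agent.N561.ArbK.lg_of ht.2)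
    (by rw [nc_to]; exact hs)
  have hn : 1 ≤ p.nc := by
    rw [← shape_nc, p1, nc_to]
    exact hs
  obtain ⟨g1, g2⟩ := Pool.Agent.N765.EK.gey f_all.efe
    (Pool.Agent.N891.EK.gpe' f_all.pot f_all.efe) p p2 p3 hn
  obtain ⟨g3, -⟩ := g2 t p1
  set W : ℂ := vt p.bl p.wt p.rz + p.vl sg with hW
  have hV : V = 2 * π * W.re := by
    have h4 : IsGreatest {W : ℝ | ∃ y : AngleTree, y.tree = t ∧ IsAngle y ∧ vol y = W}
        (2 * π * W.re) := by
      rw [volume_eq]
      rw [p1] at g1
      exact g1
    exact h2.unique h4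
  set v : ℂ := W + Complex.I * π - Complex.I * π * (toTb t).ws / 4 with hv
  have hre : v.re = W.re := by
    have : v = W + ((π - π * (toTb t).ws / 4 : ℝ) : ℂ) * Complex.I := by
      rw [hv]
      push_cast
      ring
    rw [this, Complex.add_re, Complex.re_ofReal_mul, Complex.I_re, mul_zero, add_zero]
  have h5 : HasCS t V (2 * Real.pi * v.im) := by
    rw [hV]
    exact g3.hasCS (by rw [hre])
  set C : ℝ := 2 * Real.pi * v.im - 2 * Real.pi ^ 2 with hC
  obtain ⟨k₁, hk₁⟩ := (hC₀ _).1 h5
  have hCC : ∀ C' : ℝ, HasCS t V C' ↔ ∃ k : ℤ, C' = C + k * Real.pi ^ 2 := by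
    intro C'
    rw [hC₀]
    constructor
    · rintro ⟨k, rfl⟩
      refine ⟨k - k₁ + 2, ?_⟩
      rw [hC, hk₁]
      push_cast
      ring
    · rintro ⟨k, rfl⟩
      refine ⟨k + k₁ - 2, ?_⟩
      rw [hC, hk₁]
      push_cast
      ring
  refine ⟨V, C, p, p1, p2, p3, h2, hCC, h3, ?_⟩
  have e1 : (V : ℂ) + Complex.I * (2 * Real.pi * v.im : ℝ) = 2 * π * v := by
    rw [hV, ← hre]
    push_cast
    have := Complex.re_add_im v
    linear_combination (2 * (π : ℂ)) * this
  have e2 : ((C : ℝ) : ℂ) = ((2 * Real.pi * v.im : ℝ) : ℂ) - 2 * (π : ℂ) ^ 2 := by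
    rw [hC]
    push_cast
    ring
  rw [e2]
  have e3 : (V : ℂ) + Complex.I * (((2 * Real.pi * v.im : ℝ) : ℂ) - 2 * (π : ℂ) ^ 2) =
      ((V : ℂ) + Complex.I * ((2 * Real.pi * v.im : ℝ) : ℂ)) -
        Complex.I * (2 * (π : ℂ) ^ 2) := by
    ring
  rw [e3, e1, hv, ws_to]
  ring

/-! ### The theorem -/

theorem neumann_zagier (s : Tree) (hs : AllTwisted s) (hc : 1 ≤ s.children) :
    ∃ (V C : ℝ) (m : Marks), IsVol s V ∧
      (∀ C' : ℝ, HasCS s V C' ↔ ∃ k : ℤ, C' = C + k * Real.pi ^ 2) ∧
      (∀ e f : ℤ, ∃ (C' : ℝ) (y : ℕ → ℂ), HasCS s V C' ∧ y 0 ≠ 0 ∧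
        EXY (kashaev e f s) ((V + Complex.I * C') / (2 * Real.pi)) y) ∧
      Near m s ∧
      ∀ t : Tree, Fills s t → AllTwisted t → ∃ V' C' : ℝ, IsVol t V' ∧
        (∀ C'' : ℝ, HasCS t V' C'' ↔ ∃ k : ℤ, C'' = C' + k * Real.pi ^ 2) ∧
        (∀ e f : ℤ, ∃ (C'' : ℝ) (y : ℕ → ℂ), HasCS t V' C'' ∧ y 0 ≠ 0 ∧
          EXY (kashaev e f t) ((V' + Complex.I * C'') / (2 * Real.pi)) y) ∧
        ‖((V' : ℂ) + Complex.I * C') - (V + Complex.I * C -
          Complex.I * (Real.pi : ℂ) ^ 2 * (weightSum t - weightSum s : ℤ) / 2 -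
          2 * (Real.pi : ℂ) ^ 2 * fillSum m s t)‖ ≤ 500 * loss s t := by
  have hpi := Real.pi_pos
  obtain ⟨V, C, p, p1, p2, p3, p4, p5, p6, p7⟩ := one_val s hs hc
  have hn : 1 ≤ p.nc := by
    rw [← shape_nc, p1, nc_to]
    exact hc
  have hD : p.rz ∈ D1 := mem_D1 p3
  have hB : VBB (1 / 20) p := vbb_of edgeK20 p p2 (allP_true p) hD trivial
  have hBr : VB (1 / 20) p.bl p.wt p.nc p.rz :=
    vb_root edgeK20 p p2 p3 (allP_true p) trivial
  have hroot : cusp p.bl p.nc p.wt = rootCusp s := by
    unfold rootCusp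
    rw [← pb_bl, ← pb_wt, ← shape_nc, p1, bl_to, nc_to, wt_to]
  refine ⟨V, C, mk 0 p, p4, p5, p6, ⟨?_, ?_⟩, fun t hf ht => ?_⟩
  · refine near_of s p 0 _ p1 p2 hB hD ?_
    rw [← hroot]
    exact size_cusp hn p3 hBr
  · rw [mk_mark, zero_add]
    have := cr_squares s p p1 p2 hB
    have e : p.nc = s.children := by rw [← shape_nc, p1, nc_to]
    rwa [e] at this
  · have hct : 1 ≤ t.children := by rw [← fills_nc s t hf]; exact hc
    obtain ⟨V', C₁, p', q1, q2, q3, q4, q5, q6, q7⟩ := one_val t ht hct
    have hn' : 1 ≤ p'.nc := by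
      rw [← shape_nc, q1, nc_to]
      exact hct
    have hD' : p'.rz ∈ D1 := mem_D1 q3
    have k1 : p.bl = s.circle := by rw [← pb_bl, p1, bl_to]
    have k2 : p'.bl = t.circle := by rw [← pb_bl, q1, bl_to]
    have k3 : p'.wt = t.weight := by rw [← pb_wt, q1, wt_to]
    have k4 : p.wt = s.weight := by rw [← pb_wt, p1, wt_to]
    have k5 : p'.nc = t.children := by rw [← shape_nc, q1, nc_to]
    have hF : FV p.bl p.wt p'.bl p'.wt := by
      rw [k1, k2, k3, k4]
      exact fills_root s t hf
    have hFP : FilP p p' := fills_fil s t p p' p1 q1 hf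
    have hok : Ok2 p p' := ⟨p2, q2, hD, hD', hFP, fun hb _ => p3.1 hb⟩
    have hv := nz_val hok p3 q3 hF hn'
    obtain ⟨K, hK⟩ := nfs_nat p p'
    obtain ⟨L, hL⟩ : ∃ L : ℕ, nft p.bl p'.bl + nfs p p' = L * (π * Complex.I) := by
      rw [hK]
      unfold nft
      by_cases h : (p.bl && !p'.bl) = true
      · rw [if_pos h]
        exact ⟨K + 1, by push_cast; ring⟩
      · rw [if_neg h]
        exact ⟨K, by push_cast; ring⟩
    have e1 := fillSum_eq s t p p' 0 p1 q1 hFP
    rw [zero_add] at e1
    have e2 := loss_eq s t p p' p1 q1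
    have e3 : lsv p.bl p'.bl p'.nc p'.wt + lss p p' = loss s t := by
      rw [e2, k1, k2, k3, k5]
      unfold loss lossAt lsv
      ring
    rw [e3, hL, k1, k2, k3, ← e1] at hv
    refine ⟨V', C₁ + ((2 * L : ℕ) : ℤ) * Real.pi ^ 2, q4, fun C'' => ?_, q6, ?_⟩
    · rw [q5]
      constructor
      · rintro ⟨k, rfl⟩
        refine ⟨k - ((2 * L : ℕ) : ℤ), ?_⟩
        push_cast
        ring
      · rintro ⟨k, rfl⟩
        refine ⟨k + ((2 * L : ℕ) : ℤ), ?_⟩
        push_cast
        ring
    · have e4 : ((V' : ℂ) + Complex.I * ((C₁ + ((2 * L : ℕ) : ℤ) * Real.pi ^ 2 : ℝ) : ℂ)) -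
          (V + Complex.I * C -
          Complex.I * (Real.pi : ℂ) ^ 2 * (weightSum t - weightSum s : ℤ) / 2 -
          2 * (Real.pi : ℂ) ^ 2 * fillSum (mk 0 p) s t) =
          2 * π * (vt t.circle t.weight p'.rz + p'.vl sg -
            (vt s.circle p.wt p.rz + p.vl sg) + L * (π * Complex.I) +
            π * fillSum (mk 0 p) s t) := by
        rw [k2, k3] at q7
        rw [k1] at p7
        push_cast
        linear_combination q7 - p7
      rw [e4, norm_mul, norm_mul, Complex.norm_two, Complex.norm_real,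
        Real.norm_of_nonneg hpi.le]
      exact hv

end Pool.Agent.U21.TL
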