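import Pool.Agent.U21.TL.Sec

/-!
# Estimates of the potential of an edge for two configurations
-/

set_option autoImplicit false
set_option linter.unusedVariables false

namespace Pool.Agent.U21.TL

open Finset Filter Topology
open Pool.Agent.N561
open Pool.Agent.N561.EK
open Pool.Agent.W711.HT (bet)
open scoped Real

lemma zero_D1 : (0 : ℂ) ∈ D1 := by
  refine ⟨?_, ?_⟩
  · rw [norm_zero]; norm_num
  · rw [Complex.zero_im, abs_zero]; norm_num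

lemma half_sq {ψ : ℂ} (h : ψ ∈ D1) : ‖ψ / 2‖ ^ 2 = ‖ψ‖ ^ 2 / 4 ∧ ‖ψ / 2‖ ^ 2 ≤ 441 / 10000 := by
  have e : ‖ψ / 2‖ ^ 2 = ‖ψ‖ ^ 2 / 4 := by
    rw [norm_div, Complex.norm_two]
    ring
  refine ⟨e, ?_⟩
  rw [e]
  have := h.1
  nlinarith [norm_nonneg ψ]

lemma sin_half {ψ : ℂ} (h : ψ ∈ D1) : ‖Complex.sin (ψ / 2)‖ ^ 2 ≤ 105 / 400 * ‖ψ‖ ^ 2 := by
  obtain ⟨e, h1⟩ := half_sq h
  set T : ℝ := ‖ψ / 2‖ ^ 2 with hT
  have hT0 : 0 ≤ T := sq_nonneg _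
  have him : (ψ / 2).im ^ 2 ≤ T := by
    rw [hT, Complex.sq_norm, Complex.normSq_apply]
    nlinarith [sq_nonneg (ψ / 2).re]
  refine (Pool.Agent.N999.EK.sin_disc (R := T) le_rfl him (by linarith)).trans ?_
  have : T ^ 2 / (1 - T) ≤ 5 / 100 * T := by
    rw [div_le_iff₀ (by linarith)]
    nlinarith
  linarith

lemma cos_half {ψ : ℂ} (h : ψ ∈ D1) : ‖Complex.cos (ψ / 2) - 1‖ ≤ 13 / 100 * ‖ψ‖ ^ 2 ∧
    ‖Complex.cos (ψ / 2) - 1‖ ≤ 23 / 1000 := by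
  obtain ⟨e, h1⟩ := half_sq h
  have h2 := ccos_tay (x := ψ / 2) (by
    have := (Pool.Agent.N999.EK.in1 h).1
    linarith)
  have e4 : ‖ψ / 2‖ ^ 4 = (‖ψ / 2‖ ^ 2) ^ 2 := by ring
  rw [e4] at h2
  set T : ℝ := ‖ψ / 2‖ ^ 2 with hT
  have hT0 : 0 ≤ T := sq_nonneg _
  have e1 : Complex.cos (ψ / 2) - 1 = (Complex.cos (ψ / 2) - (1 - (ψ / 2) ^ 2 / 2)) -
      (ψ / 2) ^ 2 / 2 := by ring
  have h3 : ‖Complex.cos (ψ / 2) - 1‖ ≤ 52 / 100 * T := by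
    rw [e1]
    refine (norm_sub_le _ _).trans ?_
    rw [norm_div, Complex.norm_two, norm_pow, ← hT]
    nlinarith
  constructor
  · linarith
  · linarith

lemma rr_bd {ψ φ : ℂ} (hψ : ψ ∈ D1) (hφ : φ ∈ D1) :
    ‖1 - rr ψ φ‖ ≤ 552 / 16000 * (‖ψ‖ ^ 2 * ‖φ‖ ^ 2) ∧ 998 / 1000 ≤ ‖rr ψ φ‖ := by
  have h1 := sin_half hψ
  have h2 := sin_half hφ
  have h3 : ‖ψ‖ ^ 2 ≤ 441 / 2500 := by
    have := hψ.1
    nlinarith [norm_nonneg ψ]
  have h4 : ‖φ‖ ^ 2 ≤ 441 / 2500 := by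
    have := hφ.1
    nlinarith [norm_nonneg φ]
  set A : ℝ := ‖ψ‖ ^ 2 with hA
  set B : ℝ := ‖φ‖ ^ 2 with hB
  have hA0 : 0 ≤ A := sq_nonneg _
  have hB0 : 0 ≤ B := sq_nonneg _
  have hAB : A * B ≤ 441 / 2500 * (441 / 2500) := mul_le_mul h3 h4 hB0 (by norm_num)
  have h0 : 0 ≤ A * B := mul_nonneg hA0 hB0
  have h5 : ‖1 - rr ψ φ‖ ≤ 552 / 16000 * (A * B) := by
    rw [Pool.Agent.N999.EK.rr_eq]
    refine Pool.Agent.N999.EK.r_bd h1 h2 ?_ ?_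
    · nlinarith
    · nlinarith [mul_nonneg h0 h0]
  refine ⟨h5, ?_⟩
  have h6 : ‖1 - rr ψ φ‖ ≤ 2 / 1000 := by
    refine h5.trans ?_
    nlinarith
  linarith [Pool.Agent.N999.EK.norm_ge_of_sub h6]

lemma mixq {ψ φ : ℂ} (hψ : ψ ∈ D1) (hφ : φ ∈ D1) :
    ‖Complex.sin (ψ / 2) * Complex.sin (φ / 2) / rr ψ φ‖ ≤ 27 / 100 * (‖ψ‖ * ‖φ‖) := by
  have h1 := sin_half hψ
  have h2 := sin_half hφ
  have h3 := (rr_bd hψ hφ).2
  rw [norm_div, norm_mul, div_le_iff₀ (by linarith)]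
  have h4 : ‖Complex.sin (ψ / 2)‖ * ‖Complex.sin (φ / 2)‖ ≤ 105 / 400 * (‖ψ‖ * ‖φ‖) := by
    apply le_of_sq_le_sq _ (by positivity)
    have := mul_le_mul h1 h2 (sq_nonneg _) (by positivity)
    calc (‖Complex.sin (ψ / 2)‖ * ‖Complex.sin (φ / 2)‖) ^ 2 =
          ‖Complex.sin (ψ / 2)‖ ^ 2 * ‖Complex.sin (φ / 2)‖ ^ 2 := by ring
      _ ≤ 105 / 400 * ‖ψ‖ ^ 2 * (105 / 400 * ‖φ‖ ^ 2) := this
      _ = (105 / 400 * (‖ψ‖ * ‖φ‖)) ^ 2 := by ring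
  have h5 : 0 ≤ ‖ψ‖ * ‖φ‖ := by positivity
  nlinarith

/-- the derivative of `s1` in the second variable -/
lemma s1_mix {ψ φ φ' : ℂ} (hψ : ψ ∈ D1) (hφ : φ ∈ D1) (hφ' : φ' ∈ D1) :
    ‖s1 ψ φ' - s1 ψ φ‖ ≤ 1 / 20 / (2 * π) * ‖φ' - φ‖ := by
  have hpi := Real.pi_pos
  refine Pool.Agent.N999.EK.convex_D1.norm_image_sub_le_of_norm_hasDerivWithin_le
    (f := fun z => s1 ψ z)
    (fun z hz => (f_all.pot.d12 ψ (Pool.Agent.N999.EK.D1_sub hψ) z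
      (Pool.Agent.N999.EK.D1_sub hz)).hasDerivWithinAt) (fun z hz => ?_) hφ hφ'
  have h1 := f_all.hes.mixb ψ hψ z hz
  rw [norm_mul, norm_div, norm_one, norm_mul, Complex.norm_two, Complex.norm_real,
    Real.norm_of_nonneg hpi.le]
  calc 1 / (2 * π) * ‖Complex.sin (ψ / 2) * Complex.sin (z / 2) / rr ψ z‖ ≤
        1 / (2 * π) * (1 / 20) := mul_le_mul_of_nonneg_left h1 (by positivity)
    _ = 1 / 20 / (2 * π) := by ring

lemma s1_mix0 {ψ φ : ℂ} (hψ : ψ ∈ D1) (hφ : φ ∈ D1) :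
    ‖s1 ψ φ - s1 ψ 0‖ ≤ 27 / 200 / (2 * π) * (‖ψ‖ * ‖φ‖ ^ 2) := by
  have hpi := Real.pi_pos
  have key := radial (f := fun z => s1 ψ z - s1 ψ 0) (ψ := φ)
    (f' := fun z => 1 / (2 * π) * (Complex.sin (ψ / 2) * Complex.sin (z / 2) / rr ψ z))
    (fun t ht => (f_all.pot.d12 ψ (Pool.Agent.N999.EK.D1_sub hψ) _
      (Pool.Agent.N999.EK.D1_sub (seg_D1 hφ ht))).sub_const _)
    (B := fun t => 27 / 200 / (2 * π) * (‖ψ‖ * ‖φ‖ ^ 2) * t ^ 2)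
    (B' := fun t => 27 / 200 / (2 * π) * (‖ψ‖ * ‖φ‖ ^ 2) * (2 * t ^ 1 * 1))
    (fun t => ((hasDerivAt_id t).pow 2).const_mul _) (by simp)
    (fun t ht => by
      have hz := seg_D1 hφ ht
      have h1 := mixq hψ hz
      have n1 : ‖(t : ℂ) * φ‖ = t * ‖φ‖ := by
        rw [norm_mul, Complex.norm_real, Real.norm_of_nonneg ht.1]
      rw [n1] at h1
      rw [norm_mul, norm_div, norm_one, norm_mul, Complex.norm_two, Complex.norm_real,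
        Real.norm_of_nonneg hpi.le]
      calc 1 / (2 * π) * ‖Complex.sin (ψ / 2) * Complex.sin (↑t * φ / 2) / rr ψ (↑t * φ)‖ * ‖φ‖ ≤
            1 / (2 * π) * (27 / 100 * (‖ψ‖ * (t * ‖φ‖))) * ‖φ‖ :=
            mul_le_mul_of_nonneg_right (mul_le_mul_of_nonneg_left h1 (by positivity))
              (norm_nonneg _)
        _ = 27 / 200 / (2 * π) * (‖ψ‖ * ‖φ‖ ^ 2) * (2 * t ^ 1 * 1) := by ring)
  refine key.trans (le_of_eq ?_)
  ring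

lemma s1_mix2 {ψ φ φ' : ℂ} (hψ : ψ ∈ D1) (hφ : φ ∈ D1) (hφ' : φ' ∈ D1) :
    ‖s1 ψ φ' - s1 ψ φ‖ ≤ 12 / 100 / (2 * π) * ‖ψ‖ * ‖φ' - φ‖ := by
  have hpi := Real.pi_pos
  refine Pool.Agent.N999.EK.convex_D1.norm_image_sub_le_of_norm_hasDerivWithin_le
    (f := fun z => s1 ψ z)
    (fun z hz => (f_all.pot.d12 ψ (Pool.Agent.N999.EK.D1_sub hψ) z
      (Pool.Agent.N999.EK.D1_sub hz)).hasDerivWithinAt) (fun z hz => ?_) hφ hφ'
  have h1 := mixq hψ hz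
  have h2 : 27 / 100 * (‖ψ‖ * ‖z‖) ≤ 12 / 100 * ‖ψ‖ := by
    have := hz.1
    nlinarith [norm_nonneg ψ, norm_nonneg z, mul_nonneg (norm_nonneg ψ) (norm_nonneg z)]
  rw [norm_mul, norm_div, norm_one, norm_mul, Complex.norm_two, Complex.norm_real,
    Real.norm_of_nonneg hpi.le]
  calc 1 / (2 * π) * ‖Complex.sin (ψ / 2) * Complex.sin (z / 2) / rr ψ z‖ ≤
        1 / (2 * π) * (12 / 100 * ‖ψ‖) := mul_le_mul_of_nonneg_left (h1.trans h2) (by positivity)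
    _ = 12 / 100 / (2 * π) * ‖ψ‖ := by ring

/-- the derivative of `s1` in the first variable -/
lemma s1_lip {ψ ψ' φ : ℂ} (hψ : ψ ∈ D1) (hψ' : ψ' ∈ D1) (hφ : φ ∈ D1) :
    ‖(s1 ψ' φ + ψ' / (2 * π)) - (s1 ψ φ + ψ / (2 * π))‖ ≤ 1 / 12 / (2 * π) * ‖ψ' - ψ‖ :=
  Pool.Agent.N999.EK.mean f_all.pot (Pool.Agent.N999.EK.D1_sub hφ)
    Pool.Agent.N999.EK.convex_D1 (fun z hz => Pool.Agent.N999.EK.D1_sub hz)
    (fun z hz => f_all.hes.sec1 z hz φ hφ) hψ hψ'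

lemma quot0 {ψ φ : ℂ} (hψ : ψ ∈ D1) (hφ : φ ∈ D1) :
    ‖Complex.cos (φ / 2) / (Complex.cos (ψ / 2) * rr ψ φ) - Complex.cos (φ / 2)‖ ≤
      1 / 6 * ‖ψ‖ ^ 2 := by
  obtain ⟨c1, c2⟩ := cos_half hψ
  obtain ⟨-, c3⟩ := cos_half hφ
  obtain ⟨r1, r2⟩ := rr_bd hψ hφ
  have h4 : ‖φ‖ ^ 2 ≤ 441 / 2500 := by
    have := hφ.1
    nlinarith [norm_nonneg φ]
  have n1 : 977 / 1000 ≤ ‖Complex.cos (ψ / 2)‖ := by
    have h1 : ‖1 - Complex.cos (ψ / 2)‖ ≤ 23 / 1000 := by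
      rw [norm_sub_rev]
      exact c2
    linarith [Pool.Agent.N999.EK.norm_ge_of_sub h1]
  have n2 : ‖Complex.cos (ψ / 2)‖ ≤ 1023 / 1000 := by
    have e : Complex.cos (ψ / 2) = (Complex.cos (ψ / 2) - 1) + 1 := by ring
    rw [e]
    refine (norm_add_le _ _).trans ?_
    rw [norm_one]
    linarith
  have n3 : ‖Complex.cos (φ / 2)‖ ≤ 1023 / 1000 := by
    have e : Complex.cos (φ / 2) = (Complex.cos (φ / 2) - 1) + 1 := by ring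
    rw [e]
    refine (norm_add_le _ _).trans ?_
    rw [norm_one]
    linarith
  have c0 : Complex.cos (ψ / 2) ≠ 0 := by
    intro h
    rw [h, norm_zero] at n1
    norm_num at n1
  have r0 : rr ψ φ ≠ 0 := by
    intro h
    rw [h, norm_zero] at r2
    norm_num at r2
  have e : Complex.cos (φ / 2) / (Complex.cos (ψ / 2) * rr ψ φ) - Complex.cos (φ / 2) =
      Complex.cos (φ / 2) * (-(Complex.cos (ψ / 2) - 1) + Complex.cos (ψ / 2) * (1 - rr ψ φ)) /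
        (Complex.cos (ψ / 2) * rr ψ φ) := by
    field_simp
    ring
  have hden : 975 / 1000 ≤ ‖Complex.cos (ψ / 2)‖ * ‖rr ψ φ‖ := by
    have := mul_le_mul n1 r2 (by norm_num) (norm_nonneg (Complex.cos (ψ / 2)))
    linarith
  rw [e, norm_div, norm_mul, norm_mul, div_le_iff₀ (by linarith)]
  have h5 : ‖-(Complex.cos (ψ / 2) - 1) + Complex.cos (ψ / 2) * (1 - rr ψ φ)‖ ≤
      1363 / 10000 * ‖ψ‖ ^ 2 := by
    refine (norm_add_le _ _).trans ?_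
    rw [norm_neg, norm_mul]
    have h6 := mul_le_mul n2 r1 (norm_nonneg _) (by norm_num)
    have h7 : ‖ψ‖ ^ 2 * ‖φ‖ ^ 2 ≤ ‖ψ‖ ^ 2 * (441 / 2500) :=
      mul_le_mul_of_nonneg_left h4 (sq_nonneg _)
    nlinarith [sq_nonneg ‖ψ‖]
  have h8 := mul_le_mul n3 h5 (norm_nonneg _) (by norm_num)
  have h9 : 1 / 6 * ‖ψ‖ ^ 2 * (975 / 1000) ≤ 1 / 6 * ‖ψ‖ ^ 2 *
      (‖Complex.cos (ψ / 2)‖ * ‖rr ψ φ‖) := mul_le_mul_of_nonneg_left hden (by positivity)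
  nlinarith [sq_nonneg ‖ψ‖]

lemma s1_cos {ψ φ : ℂ} (hψ : ψ ∈ D1) (hφ : φ ∈ D1) :
    ‖s1 ψ φ + Complex.cos (φ / 2) * ψ / (2 * π)‖ ≤ 1 / 18 / (2 * π) * ‖ψ‖ ^ 3 := by
  have hpi := Real.pi_pos
  have key := radial (f := fun z => s1 z φ + Complex.cos (φ / 2) * z / (2 * π)) (ψ := ψ)
    (f' := fun z => -(1 / (2 * π)) * (Complex.cos (φ / 2) / (Complex.cos (z / 2) * rr z φ) -
      Complex.cos (φ / 2)))
    (fun t ht => by
      have hz := seg_D1 hψ ht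
      have h1 := (f_all.pot.d11 _ (Pool.Agent.N999.EK.D1_sub hz) φ
        (Pool.Agent.N999.EK.D1_sub hφ)).add
        (((hasDerivAt_id ((t : ℂ) * ψ)).const_mul (Complex.cos (φ / 2))).div_const ((2 : ℂ) * π))
      refine h1.congr_deriv ?_
      ring)
    (B := fun t => 1 / 18 / (2 * π) * ‖ψ‖ ^ 3 * t ^ 3)
    (B' := fun t => 1 / 18 / (2 * π) * ‖ψ‖ ^ 3 * (3 * t ^ 2 * 1))
    (fun t => ((hasDerivAt_id t).pow 3).const_mul _)
    (by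
      rw [Pool.Agent.N999.EK.s1_zero f_all.pot (Pool.Agent.N999.EK.D1_sub hφ)]
      simp)
    (fun t ht => by
      have hz := seg_D1 hψ ht
      have h1 := Pool.Agent.N999.EK.norm_der (quot0 hz hφ)
      have n1 : ‖(t : ℂ) * ψ‖ = t * ‖ψ‖ := by
        rw [norm_mul, Complex.norm_real, Real.norm_of_nonneg ht.1]
      rw [n1] at h1
      refine (mul_le_mul_of_nonneg_right h1 (norm_nonneg ψ)).trans (le_of_eq ?_)
      ring)
  refine key.trans (le_of_eq ?_)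
  ring

lemma sg_der {ψ φ : ℂ} (hψ : ψ ∈ D1) (hφ : φ ∈ D1) : HasDerivAt (fun z => sg z φ) (s1 ψ φ) ψ :=
  (f_all.pot.d1 ψ (Pool.Agent.N999.EK.D1_sub hψ) φ
    (Pool.Agent.N999.EK.D1_sub hφ)).differentiableAt.hasDerivAt

/-- the trapezoidal rule in one variable -/
lemma trap {ψ ψ' φ : ℂ} (hψ : ψ ∈ D1) (hψ' : ψ' ∈ D1) (hφ : φ ∈ D1) :
    ‖sg ψ' φ - sg ψ φ - (s1 ψ φ + s1 ψ' φ) / 2 * (ψ' - ψ)‖ ≤
      1 / 12 / (2 * π) * ‖ψ' - ψ‖ ^ 2 := by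
  have hpi := Real.pi_pos
  have hpc : (π : ℂ) ≠ 0 := by exact_mod_cast hpi.ne'
  set k : ℂ := ((s1 ψ φ + ψ / (2 * π)) + (s1 ψ' φ + ψ' / (2 * π))) / 2 with hk
  have hseg : Convex ℝ (segment ℝ ψ ψ') := convex_segment _ _
  have hsub : ∀ z ∈ segment ℝ ψ ψ', z ∈ D1 := fun z hz =>
    Pool.Agent.N999.EK.convex_D1.segment_subset hψ hψ' hz
  have hd : ∀ z ∈ segment ℝ ψ ψ', ‖z - ψ‖ ≤ ‖ψ' - ψ‖ ∧ ‖z - ψ'‖ ≤ ‖ψ' - ψ‖ := by
    intro z hz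
    obtain ⟨a, b, ha, hb, hab, rfl⟩ := hz
    have ea : (a : ℂ) + b = 1 := by exact_mod_cast hab
    constructor
    · have e : a • ψ + b • ψ' - ψ = (b : ℂ) * (ψ' - ψ) := by
        simp only [Complex.real_smul]
        linear_combination ψ * ea
      rw [e, norm_mul, Complex.norm_real, Real.norm_of_nonneg hb]
      have : b ≤ 1 := by linarith
      nlinarith [norm_nonneg (ψ' - ψ)]
    · have e : a • ψ + b • ψ' - ψ' = (a : ℂ) * (ψ - ψ') := by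
        simp only [Complex.real_smul]
        linear_combination ψ' * ea
      rw [e, norm_mul, Complex.norm_real, Real.norm_of_nonneg ha, norm_sub_rev ψ ψ']
      have : a ≤ 1 := by linarith
      nlinarith [norm_nonneg (ψ' - ψ)]
  have h0 := hseg.norm_image_sub_le_of_norm_hasDerivWithin_le
    (C := 1 / 12 / (2 * π) * ‖ψ' - ψ‖)
    (f := fun z => sg z φ + z ^ 2 / (4 * π) - k * z)
    (f' := fun z => (s1 z φ + z / (2 * π)) - k)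
    (fun z hz => (by
      have h1 := ((sg_der (hsub z hz) hφ).add (((hasDerivAt_id z).pow 2).div_const
        ((4 : ℂ) * π))).sub ((hasDerivAt_id z).const_mul k)
      refine (h1.congr_deriv ?_).hasDerivWithinAt
      simp only [id]
      field_simp
      ring)) (fun z hz => ?_)
    (x := ψ) (y := ψ') (left_mem_segment _ _ _) (right_mem_segment _ _ _)
  · have e : sg ψ' φ - sg ψ φ - (s1 ψ φ + s1 ψ' φ) / 2 * (ψ' - ψ) =
        (sg ψ' φ + ψ' ^ 2 / (4 * π) - k * ψ') - (sg ψ φ + ψ ^ 2 / (4 * π) - k * ψ) := by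
      rw [hk]
      field_simp
      ring
    rw [e]
    refine h0.trans (le_of_eq ?_)
    ring
  · obtain ⟨d1, d2⟩ := hd z hz
    have h1 := s1_lip hψ (hsub z hz) hφ
    have h2 := s1_lip hψ' (hsub z hz) hφ
    have e : (s1 z φ + z / (2 * π)) - k = (((s1 z φ + z / (2 * π)) - (s1 ψ φ + ψ / (2 * π))) +
        ((s1 z φ + z / (2 * π)) - (s1 ψ' φ + ψ' / (2 * π)))) / 2 := by
      rw [hk]
      ring
    rw [e, norm_div, Complex.norm_two]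
    have h3 := norm_add_le ((s1 z φ + z / (2 * π)) - (s1 ψ φ + ψ / (2 * π)))
      ((s1 z φ + z / (2 * π)) - (s1 ψ' φ + ψ' / (2 * π)))
    have h4 : 1 / 12 / (2 * π) * ‖z - ψ‖ ≤ 1 / 12 / (2 * π) * ‖ψ' - ψ‖ :=
      mul_le_mul_of_nonneg_left d1 (by positivity)
    have h5 : 1 / 12 / (2 * π) * ‖z - ψ'‖ ≤ 1 / 12 / (2 * π) * ‖ψ' - ψ‖ :=
      mul_le_mul_of_nonneg_left d2 (by positivity)
    linarith

/-- the trapezoidal rule from `0` -/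
lemma trap0 {ψ φ : ℂ} (hψ : ψ ∈ D1) (hφ : φ ∈ D1) :
    ‖sg ψ φ - sg 0 φ - s1 ψ φ / 2 * ψ‖ ≤ 1 / 24 / (2 * π) * ‖ψ‖ ^ 4 := by
  have hpi := Real.pi_pos
  have hpc : (π : ℂ) ≠ 0 := by exact_mod_cast hpi.ne'
  have key := radial (f := fun z => (sg z φ + Complex.cos (φ / 2) * z ^ 2 / (4 * π)) - sg 0 φ)
    (ψ := ψ) (f' := fun z => s1 z φ + Complex.cos (φ / 2) * z / (2 * π))
    (fun t ht => by
      have hz := seg_D1 hψ ht
      have h1 := ((sg_der hz hφ).add ((((hasDerivAt_id ((t : ℂ) * ψ)).pow 2).const_mul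
        (Complex.cos (φ / 2))).div_const ((4 : ℂ) * π))).sub_const (sg 0 φ)
      refine h1.congr_deriv ?_
      simp only [id]
      field_simp
      ring)
    (B := fun t => 1 / 72 / (2 * π) * ‖ψ‖ ^ 4 * t ^ 4)
    (B' := fun t => 1 / 72 / (2 * π) * ‖ψ‖ ^ 4 * (4 * t ^ 3 * 1))
    (fun t => ((hasDerivAt_id t).pow 4).const_mul _) (by simp)
    (fun t ht => by
      have hz := seg_D1 hψ ht
      have h1 := s1_cos hz hφ
      have n1 : ‖(t : ℂ) * ψ‖ = t * ‖ψ‖ := by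
        rw [norm_mul, Complex.norm_real, Real.norm_of_nonneg ht.1]
      rw [n1] at h1
      refine (mul_le_mul_of_nonneg_right h1 (norm_nonneg ψ)).trans (le_of_eq ?_)
      ring)
  have h2 := s1_cos hψ hφ
  have e : sg ψ φ - sg 0 φ - s1 ψ φ / 2 * ψ =
      ((sg ψ φ + Complex.cos (φ / 2) * ψ ^ 2 / (4 * π)) - sg 0 φ) -
      (s1 ψ φ + Complex.cos (φ / 2) * ψ / (2 * π)) * ψ / 2 := by
    field_simp
    ring
  rw [e]
  refine (norm_sub_le _ _).trans ?_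
  rw [norm_div, norm_mul, Complex.norm_two]
  have h3 := mul_le_mul_of_nonneg_right h2 (norm_nonneg ψ)
  have e3 : 1 / 24 / (2 * π) * ‖ψ‖ ^ 4 = 1 / 72 / (2 * π) * ‖ψ‖ ^ 4 * 1 ^ 4 +
      1 / 18 / (2 * π) * ‖ψ‖ ^ 3 * ‖ψ‖ / 2 := by ring
  rw [e3]
  linarith

lemma cos_dif {z z' : ℂ} (hz : z ∈ D1) (hz' : z' ∈ D1) :
    ‖Complex.cos (z' / 2) - Complex.cos (z / 2)‖ ≤ 1 / 8 * ‖z' - z‖ := by
  refine Pool.Agent.N999.EK.convex_D1.norm_image_sub_le_of_norm_hasDerivWithin_le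
    (f := fun u => Complex.cos (u / 2)) (f' := fun u => -Complex.sin (u / 2) * (1 / 2))
    (fun u hu => ?_) (fun u hu => ?_) hz hz'
  · have h1 : HasDerivAt (fun u : ℂ => u / 2) (1 / 2) u := (hasDerivAt_id u).div_const 2
    exact ((Complex.hasDerivAt_cos (u / 2)).comp u h1).hasDerivWithinAt
  · have h1 := sin_half hu
    have h2 : ‖u‖ ^ 2 ≤ 441 / 2500 := by
      have := hu.1
      nlinarith [norm_nonneg u]
    have h3 : ‖Complex.sin (u / 2)‖ ≤ 1 / 4 := by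
      apply le_of_sq_le_sq _ (by norm_num)
      nlinarith
    rw [norm_mul, norm_neg]
    have : ‖(1 / 2 : ℂ)‖ = 1 / 2 := by norm_num
    rw [this]
    linarith

end Pool.Agent.U21.TL
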