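import Pool.Agent.U21.TL.SecF
import Pool.Agent.U21.TL.Form
import Pool.Agent.N561.EK.FinY

/-!
# The complex volume of arborescent links to second order
-/

set_option autoImplicit false
set_option linter.unusedVariables false

namespace Pool.Agent.U21.TL

open Finset Filter Topology
open Pool.Agent.TH563.UV.Arb
open Pool.Agent.TH563.UV (Tb PB AB pb_bl pb_wt vt)
open Pool.Agent.TH563.Z (shape_nc)
open Pool.Agent.TH563.CV (HasCS IsComplexVolume)
open Pool.Agent.N561
open Pool.Agent.N561.EK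
open Pool.Agent.N561.ArbK (AllTwisted TwistedBelow)
open Pool.Agent.W719.AX (EXY)
open Pool.Agent.W711.HT (bet)
open scoped Real

/-! ### Definitions -/

/-- The number `1 / (n - i a)` of the root of `c`, when `c` is attached to another tree (`n` the
number of neighbours, `a` the weight); `0` if there is a crossing circle. -/
noncomputable def childCusp (c : Tree) : ℂ := cusp c.circle (c.children + 1) c.weight

/-- The number `1 / (n - i a)` of the root of a whole tree; `0` if there is a crossing circle. -/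
noncomputable def rootCusp (t : Tree) : ℂ := cusp t.circle t.children t.weight

/-- The sum of the numbers `w = 1 / (n - i a)` of the vertices other than the root. -/
noncomputable def cuspSumBelow : Tree → ℂ
  | .single _ _ => 0
  | .join t c => cuspSumBelow t + cuspSumBelow c + childCusp c

/-- The sum of the numbers `w = 1 / (n - i a)` of all vertices. -/
noncomputable def cuspSum (t : Tree) : ℂ := rootCusp t + cuspSumBelow t

/-- The sum of `f w w'` over the edges, `w` and `w'` the numbers of the ends; `ω` is the number of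
the root. -/
noncomputable def edgeSum {M : Type} [AddCommMonoid M] (f : ℂ → ℂ → M) : ℂ → Tree → M
  | _, .single _ _ => 0
  | ω, .join t c => edgeSum f ω t + edgeSum f (childCusp c) c + f ω (childCusp c)

/-- The sum of all weights. -/
def weightSum : Tree → ℤ
  | .single _ a => a
  | .join t c => weightSum t + weightSum c

/-- The first order approximation of the complex volume, modulo `i π²`:
`2 v₈ e - i π² s / 2 - 2 π² ∑ w`, `e` the number of edges, `s` the sum of the weights. -/
noncomputable def first (t : Tree) : ℂ :=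
  2 * octahedron * edges t - Complex.I * (Real.pi : ℂ) ^ 2 * weightSum t / 2 -
    2 * (Real.pi : ℂ) ^ 2 * cuspSum t

/-- The second order approximation of the complex volume, modulo `i π²`. -/
noncomputable def second (t : Tree) : ℂ :=
  first t - (Real.pi : ℂ) ^ 4 / 6 *
    edgeSum (fun w w' => w ^ 4 - 6 * w ^ 2 * w' ^ 2 + w' ^ 4) (rootCusp t) t

/-- The sum of `|w|^k + |w'|^k` over the edges, that is, of `n |w|^k` over the vertices. -/
noncomputable def power (k : ℕ) (t : Tree) : ℝ :=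
  edgeSum (fun w w' => ‖w‖ ^ k + ‖w'‖ ^ k) (rootCusp t) t

/-! ### Conversion -/

lemma conv (t : Tree) : ∀ p : PB, p.shape = toTb t → wsm p = cuspSumBelow t ∧
    (∀ ω, xs ga ω p = ((2 * bet : ℝ) : ℂ) * edges t - (π : ℂ) ^ 3 / 12 *
      edgeSum (fun w w' => w ^ 4 - 6 * w ^ 2 * w' ^ 2 + w' ^ 4) ω t) ∧
    (∀ ω, xs e6 ω p = edgeSum (fun w w' => ‖w‖ ^ 6 + ‖w'‖ ^ 6) ω t) ∧
    (toTb t).ws = weightSum t ∧ ∃ K : ℕ, cs p = K * (π * Complex.I) := by
  induction t with
  | single b a =>
    intro p hp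
    cases p with
    | vx b' a' z => exact ⟨rfl, fun ω => by simp [xs, edges, edgeSum], fun ω => rfl, rfl, 0, by
        simp [cs]⟩
    | br t c => exact absurd hp (by simp [PB.shape, toTb])
  | join t c iht ihc =>
    intro p hp
    cases p with
    | vx b' a' z => exact absurd hp (by simp [PB.shape, toTb])
    | br t' c' =>
      have h1 : t'.shape = toTb t := (Pool.Agent.TH563.UV.Tb.br.inj hp).1
      have h2 : c'.shape = toTb c := (Pool.Agent.TH563.UV.Tb.br.inj hp).2
      obtain ⟨a1, a2, a3, a4, K, a5⟩ := iht t' h1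
      obtain ⟨b1, b2, b3, b4, L, b5⟩ := ihc c' h2
      have e1 : cw c' = childCusp c := by
        unfold cw childCusp
        rw [← pb_bl, ← pb_wt, ← shape_nc, h2, bl_to, nc_to, wt_to]
      refine ⟨?_, fun ω => ?_, fun ω => ?_, ?_, ?_⟩
      · simp only [wsm, cuspSumBelow]
        rw [a1, b1, e1]
      · simp only [xs, edgeSum]
        rw [a2, b2, e1]
        have : (edges (.join t c) : ℂ) = edges t + edges c + 1 := by
          simp only [edges]
          push_cast
          ring
        rw [this]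
        simp only [ga]
        ring
      · simp only [xs, edgeSum]
        rw [a3, b3, e1]
        rfl
      · show (toTb t).ws + (toTb c).ws = _
        rw [a4, b4]
        rfl
      · simp only [cs]
        rw [a5, b5]
        unfold ci
        cases c'.bl with
        | true => exact ⟨K + L + 1, by simp; ring⟩
        | false => exact ⟨K + L, by simp; ring⟩

/-- sums over the edges: comparison -/
lemma edgeSum_le {f g : ℂ → ℂ → ℝ} {P : ℂ → Prop} (h : ∀ x y, P x → P y → f x y ≤ g x y) (t : Tree) :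
    ∀ ω, P ω → (∀ c : Tree, TwistedBelow c → (c.circle = true ∨ 16 ≤ |c.weight| ∨
      32 ≤ c.children + 1) → P (childCusp c)) → TwistedBelow t →
      edgeSum f ω t ≤ edgeSum g ω t := by
  induction t with
  | single b a => exact fun _ _ _ _ => le_rfl
  | join t c iht ihc =>
    intro ω hω hP hT
    obtain ⟨h1, h2, h3⟩ := hT
    have h4 : P (childCusp c) := hP c h2 h3
    have g1 := iht ω hω hP h1
    have g2 := ihc (childCusp c) h4 hP h2
    have g3 := h ω (childCusp c) hω h4
    simp only [edgeSum]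
    linarith

lemma edgeSum_norm (f : ℂ → ℂ → ℂ) (t : Tree) : ∀ ω,
    ‖edgeSum f ω t‖ ≤ edgeSum (fun x y => ‖f x y‖) ω t := by
  induction t with
  | single b a => intro ω; simp [edgeSum]
  | join t c iht ihc =>
    intro ω
    simp only [edgeSum]
    exact (norm_add_le _ _).trans (add_le_add ((norm_add_le _ _).trans
      (add_le_add (iht ω) (ihc _))) le_rfl)

lemma edgeSum_mul (k : ℝ) (f : ℂ → ℂ → ℝ) (t : Tree) : ∀ ω,
    edgeSum (fun x y => k * f x y) ω t = k * edgeSum f ω t := by
  induction t with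
  | single b a => intro ω; simp [edgeSum]
  | join t c iht ihc =>
    intro ω
    simp only [edgeSum]
    rw [iht, ihc]
    ring

lemma cusp_small {b : Bool} {n : ℕ} {a : ℤ} (hn : 1 ≤ n) (h : b = true ∨ 16 ≤ |a| ∨ 32 ≤ n) :
    ‖cusp b n a‖ ^ 2 ≤ 1 / 256 := by
  cases b with
  | true => simp [cusp]
  | false =>
    have h2 := cusp_norm_eq hn a
    have hn0 : (0 : ℝ) < n := by exact_mod_cast hn
    have h3 : (256 : ℝ) ≤ (a : ℝ) ^ 2 + n ^ 2 := by
      rcases h with h | h | h
      · exact absurd h (by simp)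
      · have h4 : (16 : ℝ) ≤ |(a : ℝ)| := by
          rw [← Int.cast_abs]
          exact_mod_cast h
        have h5 : (16 : ℝ) ^ 2 ≤ |(a : ℝ)| ^ 2 := pow_le_pow_left₀ (by norm_num) h4 2
        rw [sq_abs] at h5
        nlinarith
      · have h4 : (32 : ℝ) ≤ n := by exact_mod_cast h
        nlinarith [sq_nonneg (a : ℝ)]
    have h4 : ‖cusp false n a‖ ^ 2 * ((a : ℝ) ^ 2 + n ^ 2) = 1 := by
      have := congrArg (fun x => x ^ 2) h2
      simp only [mul_pow, one_pow] at this
      rwa [Real.sq_sqrt (by positivity)] at this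
    nlinarith [sq_nonneg ‖cusp false n a‖]

/-! ### The theorem -/

theorem second_order (t : Tree) (ht : AllTwisted t) (hs : 1 ≤ t.children) :
    ∃ V C : ℝ, IsVol t V ∧ (∀ C' : ℝ, HasCS t V C' ↔ ∃ k : ℤ, C' = C + k * Real.pi ^ 2) ∧
      (∀ e f : ℤ, ∃ (C' : ℝ) (y : ℕ → ℂ), HasCS t V C' ∧ y 0 ≠ 0 ∧
        EXY (kashaev e f t) ((V + Complex.I * C') / (2 * Real.pi)) y) ∧
      ‖(V : ℂ) + Complex.I * C - second t‖ ≤ 4600 * power 6 t ∧
      ‖(V : ℂ) + Complex.I * C - first t‖ ≤ 83 * power 4 t := by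
  have hpi := Real.pi_pos
  obtain ⟨V, C₀, h2, hC₀, -, h3, -, -, -⟩ :=
    Pool.Agent.N561.ArbK.mainM Pool.Agent.N561.EK.f_finy t hs ht
  obtain ⟨p, p1, p2, p3, -⟩ := conf2 (toTb t) (Pool.Agent.N561.ArbK.below_ok t ht.1)
    (by rw [bl_to, nc_to, wt_to]; exact Pool.Agent.N561.ArbK.lg_of ht.2)
    (by rw [nc_to]; exact hs)
  have hn : 1 ≤ p.nc := by
    rw [← shape_nc, p1, nc_to]
    exact hs
  obtain ⟨g1, g2⟩ := Pool.Agent.N765.EK.gey f_all.efe
    (Pool.Agent.N891.EK.gpe' f_all.pot f_all.efe) p p2 p3 hn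
  obtain ⟨g3, -⟩ := g2 t p1
  set W : ℂ := vt p.bl p.wt p.rz + p.vl sg with hW
  have hV : V = 2 * π * W.re := by
    have h4 : IsGreatest {W : ℝ | ∃ y : AngleTree, y.tree = t ∧ IsAngle y ∧ vol y = W}
        (2 * π * W.re) := by
      rw [volume_eq]
      rw [p1] at g1
      exact g1
    exact h2.unique h4
  set v : ℂ := W + Complex.I * π - Complex.I * π * (toTb t).ws / 4 with hv
  have hre : v.re = W.re := by
    have : v = W + ((π - π * (toTb t).ws / 4 : ℝ) : ℂ) * Complex.I := by
      rw [hv]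
      push_cast
      ring
    rw [this, Complex.add_re, Complex.re_ofReal_mul, Complex.I_re, mul_zero, add_zero]
  have h5 : HasCS t V (2 * Real.pi * v.im) := by
    rw [hV]
    exact g3.hasCS (by rw [hre])
  obtain ⟨q1, q2, q3, q4, K, q5⟩ := conv t p p1
  have hcir : ∃ L : ℕ, ci p.bl + cs p = L * (π * Complex.I) := by
    rw [q5]
    unfold ci
    cases p.bl with
    | true => exact ⟨K + 1, by simp; ring⟩
    | false => exact ⟨K, by simp⟩
  obtain ⟨L, hL⟩ := hcir
  have hroot : cusp p.bl p.nc p.wt = rootCusp t := by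
    unfold rootCusp
    rw [← pb_bl, ← pb_wt, ← shape_nc, p1, bl_to, nc_to, wt_to]
  set C : ℝ := 2 * Real.pi * v.im - 2 * (L + 1) * Real.pi ^ 2 with hC
  obtain ⟨k₁, hk₁⟩ := (hC₀ _).1 h5
  have hCC : ∀ C' : ℝ, HasCS t V C' ↔ ∃ k : ℤ, C' = C + k * Real.pi ^ 2 := by
    intro C'
    rw [hC₀]
    constructor
    · rintro ⟨k, rfl⟩
      refine ⟨k - k₁ + 2 * (L + 1), ?_⟩
      rw [hC, hk₁]
      push_cast
      ring
    · rintro ⟨k, rfl⟩
      refine ⟨k + k₁ - 2 * (L + 1), ?_⟩
      rw [hC, hk₁]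
      push_cast
      ring
  have hVC : (V : ℂ) + Complex.I * C = 2 * π * (W - L * (π * Complex.I)) -
      Complex.I * (π : ℂ) ^ 2 * weightSum t / 2 := by
    have e1 : (V : ℂ) + Complex.I * (2 * Real.pi * v.im : ℝ) = 2 * π * v := by
      rw [hV, ← hre]
      push_cast
      have := Complex.re_add_im v
      linear_combination (2 * (π : ℂ)) * this
    have e2 : ((C : ℝ) : ℂ) = ((2 * Real.pi * v.im : ℝ) : ℂ) - 2 * (L + 1) * (π : ℂ) ^ 2 := by
      rw [hC]
      push_cast
      ring
    rw [e2]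
    have e3 : (V : ℂ) + Complex.I * (((2 * Real.pi * v.im : ℝ) : ℂ) - 2 * (L + 1) * (π : ℂ) ^ 2) =
        ((V : ℂ) + Complex.I * ((2 * Real.pi * v.im : ℝ) : ℂ)) -
          Complex.I * (2 * (L + 1) * (π : ℂ) ^ 2) := by
      ring
    rw [e3, e1, hv, q4]
    ring
  have hoct : 2 * (π : ℂ) * ((2 * bet : ℝ) : ℂ) = 2 * (octahedron : ℂ) := by
    have := Pool.Agent.TH563.UB.bet_v8
    rw [← oct_eq] at this
    exact_mod_cast congrArg (fun x : ℝ => (x : ℂ)) this
  have happr : 2 * π * (appr p - L * (π * Complex.I)) -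
      Complex.I * (π : ℂ) ^ 2 * weightSum t / 2 = second t := by
    unfold appr second first cuspSum
    rw [hL, hroot, q1, q2]
    linear_combination (edges t : ℂ) * hoct
  have hb := val_bd p2 p3 hn
  rw [hroot, q3, ← hW] at hb
  have hB : ‖(V : ℂ) + Complex.I * C - second t‖ ≤ 4600 * power 6 t := by
    have e1 : (V : ℂ) + Complex.I * C - second t = 2 * π * (W - appr p) := by
      rw [hVC, ← happr]
      ring
    rw [e1, norm_mul, norm_mul, Complex.norm_two, Complex.norm_real,
      Real.norm_of_nonneg hpi.le]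
    exact hb
  refine ⟨V, C, h2, hCC, h3, hB, ?_⟩
  -- first order
  have hsm : ∀ c : Tree, TwistedBelow c → (c.circle = true ∨ 16 ≤ |c.weight| ∨
      32 ≤ c.children + 1) → ‖childCusp c‖ ^ 2 ≤ 1 / 256 := fun c _ h =>
    cusp_small (by omega) h
  have hr2 : ‖rootCusp t‖ ^ 2 ≤ 1 / 256 := cusp_small hs ht.2
  have h6 : power 6 t ≤ 1 / 256 * power 4 t := by
    unfold power
    rw [← edgeSum_mul]
    refine edgeSum_le (P := fun w => ‖w‖ ^ 2 ≤ 1 / 256) (fun x y hx hy => ?_) t _ hr2 hsm ht.1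
    have h7 := mul_le_mul_of_nonneg_right hx (show (0 : ℝ) ≤ ‖x‖ ^ 4 by positivity)
    have h8 := mul_le_mul_of_nonneg_right hy (show (0 : ℝ) ≤ ‖y‖ ^ 4 by positivity)
    have e1 : ‖x‖ ^ 6 = ‖x‖ ^ 2 * ‖x‖ ^ 4 := by ring
    have e2 : ‖y‖ ^ 6 = ‖y‖ ^ 2 * ‖y‖ ^ 4 := by ring
    rw [e1, e2]
    linarith
  have h9 : ‖second t - first t‖ ≤ 65 * power 4 t := by
    have e1 : second t - first t = -((π : ℂ) ^ 4 / 6 *
        edgeSum (fun w w' => w ^ 4 - 6 * w ^ 2 * w' ^ 2 + w' ^ 4) (rootCusp t) t) := by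
      unfold second
      ring
    have e2 : ‖(π : ℂ) ^ 4 / 6‖ = π ^ 4 / 6 := by
      rw [norm_div, norm_pow, Complex.norm_real, Real.norm_of_nonneg hpi.le]
      norm_num
    rw [e1, norm_neg, norm_mul, e2]
    have h10 := edgeSum_norm (fun w w' => w ^ 4 - 6 * w ^ 2 * w' ^ 2 + w' ^ 4) t (rootCusp t)
    have h11 : edgeSum (fun w w' : ℂ => ‖w ^ 4 - 6 * w ^ 2 * w' ^ 2 + w' ^ 4‖) (rootCusp t) t ≤
        4 * power 4 t := by
      unfold power
      rw [← edgeSum_mul]
      refine edgeSum_le (P := fun w => ‖w‖ ^ 2 ≤ 1 / 256) (fun x y hx hy => ?_) t _ hr2 hsm ht.1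
      refine (norm_add_le _ _).trans ?_
      have h12 := norm_sub_le (x ^ 4) (6 * x ^ 2 * y ^ 2)
      rw [norm_mul, norm_mul, norm_pow, norm_pow, norm_pow] at h12
      have e3 : ‖(6 : ℂ)‖ = 6 := by norm_num
      rw [e3] at h12
      rw [norm_pow]
      nlinarith [sq_nonneg (‖x‖ ^ 2 - ‖y‖ ^ 2)]
    have hp4 : π ^ 4 ≤ 97.42 := by
      have h1 : π ^ 4 ≤ 3.1416 ^ 4 := pow_le_pow_left₀ hpi.le Real.pi_lt_d4.le 4
      norm_num at h1 ⊢
      linarith
    have hP : 0 ≤ power 4 t := by
      have := (norm_nonneg _).trans (h10.trans h11)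
      linarith
    calc π ^ 4 / 6 * ‖edgeSum (fun w w' => w ^ 4 - 6 * w ^ 2 * w' ^ 2 + w' ^ 4) (rootCusp t) t‖
        ≤ π ^ 4 / 6 * (4 * power 4 t) :=
          mul_le_mul_of_nonneg_left (h10.trans h11) (by positivity)
      _ ≤ 65 * power 4 t := by nlinarith
  have hP : 0 ≤ power 4 t := by
    have := (norm_nonneg _).trans h9
    linarith
  have e1 : (V : ℂ) + Complex.I * C - first t =
      ((V : ℂ) + Complex.I * C - second t) + (second t - first t) := by ring
  rw [e1]
  refine (norm_add_le _ _).trans ?_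
  linarith

end Pool.Agent.U21.TL
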