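import Pool.Agent.U21.TL.NZT
import Pool.Agent.U21.TL.SecA

/-!
# The Neumann-Zagier law for the exponents, with an explicit uniform error
-/

set_option autoImplicit false
set_option linter.unusedVariables false

namespace Pool.Agent.U21.TL

open Finset Filter Topology
open Pool.Agent.TH563.UV.Arb
open Pool.Agent.TH563.UV (Tb PB AB pb_bl pb_wt vt)
open Pool.Agent.TH563.Z (shape_nc)
open Pool.Agent.TH563.CV (HasCS IsComplexVolume)
open Pool.Agent.N561
open Pool.Agent.N561.EK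
open Pool.Agent.N561.ArbK (AllTwisted TwistedBelow)
open Pool.Agent.N277.EK (mem_D1)
open Pool.Agent.W719.AX (EXY)
open scoped Real

/-! ### One filled vertex -/

lemma fill_v {a : ℤ} {n : ℕ} {z G τ : ℂ} (hn : 1 ≤ n) (h : VE false a z G)
    (hB : VB (1 / 20) false a n z) (hτ : ‖τ - n‖ ≤ 23 / 1000 * n) :
    ‖Complex.I * z / 2 + π / (τ - Complex.I * a)‖ ≤ 11 / 20 * (‖z‖ * ‖G + z / (2 * π) * τ‖) := by
  have hpi := Real.pi_pos
  have hpc : (π : ℂ) ≠ 0 := by exact_mod_cast hpi.ne'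
  have hn0 : (1 : ℝ) ≤ n := by exact_mod_cast hn
  obtain ⟨-, -, h3⟩ := h.2 rfl
  set M : ℂ := τ - Complex.I * a with hM
  set R : ℂ := G + z / (2 * π) * τ with hR
  have hI2 : (Complex.I : ℂ) ^ 2 = -1 := Complex.I_sq
  have eR : R = M * z / (2 * π) - Complex.I := by
    rw [hR, hM]
    linear_combination h3
  have hM0 : M ≠ 0 := by
    intro h0
    have h1 : M.re = τ.re := by
      rw [hM]
      simp
    rw [h0, Complex.zero_re] at h1
    have h2 : |(τ - n).re| ≤ ‖τ - n‖ := Complex.abs_re_le_norm _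
    have h4 : (τ - n).re = τ.re - n := by simp
    rw [h4, ← h1, zero_sub, abs_neg, abs_of_nonneg (by linarith)] at h2
    linarith
  have hMz : M * z = 2 * π * (Complex.I + R) := by
    rw [eR]
    field_simp
    ring
  -- the size of `R`
  have hs := vb_size (by norm_num) (by norm_num) hn hB
  have e1 : 2 * π / (1 - 1 / 20) = 40 * π / 19 := by ring
  rw [e1] at hs
  have hnz : n * ‖z‖ ≤ 40 * π / 19 := by
    have hnm : (n : ℝ) ≤ Real.sqrt ((a : ℝ) ^ 2 + n ^ 2) := by
      apply Real.le_sqrt_of_sq_le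
      nlinarith [sq_nonneg (a : ℝ)]
    have := mul_le_mul_of_nonneg_left hnm (norm_nonneg z)
    linarith
  have hQ : ‖G + n * z / (2 * π)‖ ≤ n * ‖z‖ / (40 * π) := by
    have e2 : z * (Complex.I * a - n) + 2 * π * Complex.I = -(2 * π * (G + n * z / (2 * π))) := by
      have h4 : G = -(Complex.I * a * z / (2 * π) + Complex.I) := by linear_combination h3
      rw [h4]
      field_simp
      ring
    have h5 := (hB rfl).2
    rw [e2, norm_neg, norm_mul, norm_mul, Complex.norm_two, Complex.norm_real,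
      Real.norm_of_nonneg hpi.le] at h5
    rw [le_div_iff₀ (by positivity)]
    nlinarith
  have hRn : ‖R‖ ≤ 1 / 11 := by
    have e2 : R = (G + n * z / (2 * π)) + z / (2 * π) * (τ - n) := by
      rw [hR]
      ring
    have h6 : ‖z / (2 * π) * (τ - n)‖ ≤ 23 / 1000 * (n * ‖z‖) / (2 * π) := by
      rw [norm_mul, norm_div, norm_mul, Complex.norm_two, Complex.norm_real,
        Real.norm_of_nonneg hpi.le]
      have := mul_le_mul_of_nonneg_left hτ (show 0 ≤ ‖z‖ / (2 * π) by positivity)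
      refine this.trans (le_of_eq ?_)
      ring
    have h7 : ‖R‖ ≤ n * ‖z‖ / (40 * π) + 23 / 1000 * (n * ‖z‖) / (2 * π) := by
      rw [e2]
      exact (norm_add_le _ _).trans (add_le_add hQ h6)
    refine h7.trans ?_
    have e3 : (n : ℝ) * ‖z‖ / (40 * π) + 23 / 1000 * (n * ‖z‖) / (2 * π) =
        (73 / 1000) * (n * ‖z‖) / (2 * π) := by
      field_simp
      ring
    rw [e3, div_le_iff₀ (by positivity)]
    nlinarith
  have hIR : 10 / 11 ≤ ‖Complex.I + R‖ := by
    have h8 : ‖(Complex.I : ℂ)‖ ≤ ‖Complex.I + R‖ + ‖R‖ := by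
      have e2 : (Complex.I : ℂ) = (Complex.I + R) - R := by ring
      calc ‖(Complex.I : ℂ)‖ = ‖(Complex.I + R) - R‖ := by rw [← e2]
        _ ≤ _ := norm_sub_le _ _
    rw [Complex.norm_I] at h8
    linarith
  have hMn : 0 < ‖M‖ := norm_pos_iff.2 hM0
  have h9 : ‖M‖ * ‖z‖ = 2 * π * ‖Complex.I + R‖ := by
    rw [← norm_mul, hMz, norm_mul, norm_mul, Complex.norm_two, Complex.norm_real,
      Real.norm_of_nonneg hpi.le]
  have h10 : π / ‖M‖ ≤ 11 / 20 * ‖z‖ := by
    rw [div_le_iff₀ hMn]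
    nlinarith
  have e4 : Complex.I * z / 2 + π / M = Complex.I * R * (π / M) := by
    have e5 : z = 2 * π * (Complex.I + R) / M := by
      rw [← hMz]
      field_simp
    rw [e5]
    field_simp
    linear_combination hI2
  rw [e4, norm_mul, norm_mul, Complex.norm_I, one_mul, norm_div, Complex.norm_real,
    Real.norm_of_nonneg hpi.le]
  calc ‖R‖ * (π / ‖M‖) ≤ ‖R‖ * (11 / 20 * ‖z‖) := mul_le_mul_of_nonneg_left h10 (norm_nonneg _)
    _ = 11 / 20 * (‖z‖ * ‖R‖) := by ring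

/-! ### All filled vertices -/

/-- the term `1 / (τ - i a)` of a filled vertex -/
noncomputable def nzt (b b' : Bool) (τ : ℂ) (a : ℤ) : ℂ :=
  if (b && !b') = true then 1 / (τ - Complex.I * a) else 0

/-- the sum over the filled vertices other than the root -/
noncomputable def nzs : PB → PB → ℂ
  | .br t c, .br t' c' => nzs t t' + nzs c c' +
      nzt c.bl c'.bl (cr c + Complex.cos (t.rz / 2)) c'.wt
  | _, _ => 0

/-- the term `i π` of a filled vertex -/
noncomputable def nft (b b' : Bool) : ℂ := if (b && !b') = true then π * Complex.I else 0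

/-- the sum over the filled vertices other than the root -/
noncomputable def nfs : PB → PB → ℂ
  | .br t c, .br t' c' => nfs t t' + nfs c c' + nft c.bl c'.bl
  | _, _ => 0

lemma fil_nc : ∀ p p' : PB, FilP p p' → p.nc = p'.nc
  | .vx _ _ _, .vx _ _ _, _ => rfl
  | .vx _ _ _, .br _ _, h => h.elim
  | .br _ _, .vx _ _ _, h => h.elim
  | .br t c, .br t' c', h => by
    have := fil_nc t t' h.1
    simp only [PB.nc, this]

lemma term_le {b b' : Bool} {a a' : ℤ} {n : ℕ} {z z' G G' τ : ℂ} (hn : 1 ≤ n)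
    (h' : VE b' a' z' G') (hB : VB (1 / 20) b' a' n z')
    (hτ : ‖τ - n‖ ≤ 23 / 1000 * n) :
    ‖vf b b' z' + nft b b' + π * nzt b b' τ a'‖ ≤
      11 / 20 * (ee (z, z', b && !b') * ‖G' + z' / (2 * π) * τ‖) := by
  unfold vf nft nzt ee
  by_cases h : (b && !b') = true
  · rw [if_pos h, if_pos h, if_pos h, if_pos h]
    rw [Bool.and_eq_true, Bool.not_eq_true'] at h
    rw [h.2] at h' hB
    have e : Complex.I * z' / 2 - π * Complex.I + π * Complex.I +
        π * (1 / (τ - Complex.I * a')) = Complex.I * z' / 2 + π / (τ - Complex.I * a') := by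
      ring
    rw [e]
    exact fill_v hn h' hB hτ
  · rw [if_neg h, if_neg h, if_neg h, if_neg h]
    simp

lemma terms_le : ∀ p p' : PB, Ok2 p p' → VBB (1 / 20) p' →
    ‖vfs p p' + nfs p p' + π * nzs p p'‖ ≤ 11 / 20 * V3 p p'
  | .vx _ _ _, .vx _ _ _, _, _ => by simp [vfs, nfs, nzs, V3]
  | .vx _ _ _, .br _ _, h0, _ => h0.2.2.2.2.1.elim
  | .br _ _, .vx _ _ _, h0, _ => h0.2.2.2.2.1.elim
  | .br t c, .br t' c', h0, hB => by
    obtain ⟨h1, h2, h3, h4, h5⟩ := ok2_br h0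
    obtain ⟨b1, b2, b3⟩ := hB
    have g1 := terms_le t t' h1 b1
    have g2 := terms_le c c' h2 b2
    have hnc := fil_nc c c' h2.2.2.2.2.1
    have hτ : ‖cr c + Complex.cos (t.rz / 2) - ((c'.nc + 1 : ℕ) : ℂ)‖ ≤
        23 / 1000 * ((c'.nc + 1 : ℕ) : ℝ) := by
      have k1 := cr_near c h2.1
      have k2 := (cos_half h1.2.2.1).2
      rw [hnc] at k1
      have e : cr c + Complex.cos (t.rz / 2) - ((c'.nc + 1 : ℕ) : ℂ) =
          (cr c - c'.nc) + (Complex.cos (t.rz / 2) - 1) := by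
        push_cast
        ring
      rw [e]
      refine (norm_add_le _ _).trans ?_
      push_cast
      linarith
    have g3 := term_le (b := c.bl) (a := c.wt) (z := c.rz) (G := GG t c) (n := c'.nc + 1)
      (by omega) h4 b3 hτ
    have e1 : RC t c t' c' = GG t' c' + c'.rz / (2 * π) * (cr c + Complex.cos (t.rz / 2)) := by
      unfold RC RR rX GG dat s1
      ring
    have e2 : vfs (.br t c) (.br t' c') + nfs (.br t c) (.br t' c') +
        π * nzs (.br t c) (.br t' c') = (vfs t t' + nfs t t' + π * nzs t t') +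
          (vfs c c' + nfs c c' + π * nzs c c') + (vf c.bl c'.bl c'.rz + nft c.bl c'.bl +
          π * nzt c.bl c'.bl (cr c + Complex.cos (t.rz / 2)) c'.wt) := by
      simp only [vfs, nfs, nzs]
      ring
    rw [e2]
    simp only [V3]
    rw [e1]
    have g4 := (norm_add_le _ _).trans (add_le_add ((norm_add_le _ _).trans (add_le_add g1 g2)) g3)
    refine g4.trans (le_of_eq ?_)
    unfold dat
    ring

/-! ### The loss -/

/-- `n / (n² + a²)²` for a filled vertex -/
noncomputable def lsv (b b' : Bool) (n : ℕ) (a : ℤ) : ℝ :=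
  if (b && !b') = true then n / ((a : ℝ) ^ 2 + n ^ 2) ^ 2 else 0

/-- the sum over the filled vertices other than the root -/
noncomputable def lss : PB → PB → ℝ
  | .br t c, .br t' c' => lss t t' + lss c c' + lsv c.bl c'.bl (c'.nc + 1) c'.wt
  | _, _ => 0

lemma ee_le {b b' : Bool} {a' : ℤ} {n : ℕ} {z z' : ℂ} (hn : 1 ≤ n)
    (hB : VB (1 / 20) b' a' n z') :
    (n : ℝ) * ee (z, z', b && !b') ^ 4 ≤ (40 * π / 19) ^ 4 * lsv b b' n a' := by
  unfold ee lsv
  by_cases h : (b && !b') = true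
  · rw [if_pos h, if_pos h]
    rw [Bool.and_eq_true, Bool.not_eq_true'] at h
    rw [h.2] at hB
    have hs := vb_size (by norm_num) (by norm_num) hn hB
    have e1 : 2 * π / (1 - 1 / 20) = 40 * π / 19 := by ring
    rw [e1] at hs
    have hn0 : (0 : ℝ) < n := by exact_mod_cast hn
    have hm : (0 : ℝ) < (a' : ℝ) ^ 2 + n ^ 2 := by positivity
    have h1 := pow_le_pow_left₀ (by positivity) hs 4
    rw [mul_pow] at h1
    have e2 : Real.sqrt ((a' : ℝ) ^ 2 + n ^ 2) ^ 4 = ((a' : ℝ) ^ 2 + n ^ 2) ^ 2 := by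
      have : Real.sqrt ((a' : ℝ) ^ 2 + n ^ 2) ^ 4 =
          (Real.sqrt ((a' : ℝ) ^ 2 + n ^ 2) ^ 2) ^ 2 := by ring
      rw [this, Real.sq_sqrt hm.le]
    rw [e2] at h1
    rw [mul_div_assoc', le_div_iff₀ (by positivity)]
    nlinarith
  · rw [if_neg h, if_neg h]
    simp

lemma ee_sum : ∀ p p' : PB, Ok2 p p' → VBB (1 / 20) p' →
    ys (fun X Y => ee X ^ 4 + ee Y ^ 4) p p' ≤
      (40 * π / 19) ^ 4 * lss p p' + p'.nc * ee (dat p p') ^ 4
  | .vx _ _ _, .vx _ _ _, _, _ => by simp [ys, lss, PB.nc]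
  | .vx _ _ _, .br _ _, h0, _ => h0.2.2.2.2.1.elim
  | .br _ _, .vx _ _ _, h0, _ => h0.2.2.2.2.1.elim
  | .br t c, .br t' c', h0, hB => by
    obtain ⟨h1, h2, -, -, -⟩ := ok2_br h0
    obtain ⟨b1, b2, b3⟩ := hB
    have g1 := ee_sum t t' h1 b1
    have g2 := ee_sum c c' h2 b2
    have g3 := ee_le (b := c.bl) (z := c.rz) (n := c'.nc + 1) (by omega) b3
    have e1 : ((PB.br t' c').nc : ℝ) = t'.nc + 1 := by
      have : (PB.br t' c').nc = t'.nc + 1 := rfl
      rw [this]
      push_cast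
      ring
    rw [e1, dat_br]
    simp only [ys, lss]
    have e2 : ee (c.rz, c'.rz, c.bl && !c'.bl) = ee (dat c c') := rfl
    rw [e2] at g3
    push_cast at g3
    nlinarith

/-- the change of the value -/
theorem nz_val {p p' : PB} (h : Ok2 p p') (hV : VE p.bl p.wt p.rz (p.gs sg))
    (hV' : VE p'.bl p'.wt p'.rz (p'.gs sg)) (hF : FV p.bl p.wt p'.bl p'.wt)
    (hn : 1 ≤ p'.nc) :
    2 * π * ‖(vt p'.bl p'.wt p'.rz + p'.vl sg) - (vt p.bl p.wt p.rz + p.vl sg) +
      (nft p.bl p'.bl + nfs p p') + π * (nzt p.bl p'.bl (cr p) p'.wt + nzs p p')‖ ≤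
      500 * (lsv p.bl p'.bl p'.nc p'.wt + lss p p') := by
  have hpi := Real.pi_pos
  have hB : VBB (1 / 20) p' := vbb_of edgeK20 p' h.2.1 (allP_true p') h.2.2.2.1 trivial
  have hBr : VB (1 / 20) p'.bl p'.wt p'.nc p'.rz :=
    vb_root edgeK20 p' h.2.1 hV' (allP_true p') trivial
  have hnc := fil_nc p p' h.2.2.2.2.1
  have hτ : ‖cr p - (p'.nc : ℂ)‖ ≤ 23 / 1000 * (p'.nc : ℝ) := by
    rw [← hnc]
    exact cr_near p h.1
  have t1 := term_le (b := p.bl) (a := p.wt) (z := p.rz) (G := p.gs sg) hn hV' hBr hτ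
  have t2 := terms_le p p' h hB
  have t3 := V3_le p p' h
  have t4 := RR_le p p' h
  have e1 := vl_dif p p' h
  have e2 := vert_val hF hV hV' (gs_zero p h.1)
  have e0 : (vt p'.bl p'.wt p'.rz + p'.vl sg) - (vt p.bl p.wt p.rz + p.vl sg) +
      (nft p.bl p'.bl + nfs p p') + π * (nzt p.bl p'.bl (cr p) p'.wt + nzs p p') =
      (vf p.bl p'.bl p'.rz + nft p.bl p'.bl + π * nzt p.bl p'.bl (cr p) p'.wt) +
        (vfs p p' + nfs p p' + π * nzs p p') + ys TR p p' := by
    linear_combination e1 + e2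
  have t5 : ee (p.rz, p'.rz, p.bl && !p'.bl) * ‖p'.gs sg + p'.rz / (2 * π) * cr p‖ ≤
      ee (dat p p') * R1 p p' := mul_le_mul_of_nonneg_left t4 (ee_nonneg _)
  set Y1 := ys (fun X Y => dd X ^ 2 + dd Y ^ 2) p p' with hY1
  set Y2 := ys (fun X Y => ee X ^ 4 + ee Y ^ 4) p p' with hY2
  have t6 : ys (fun X Y => ee X * ‖rX X Y‖ + ee Y * ‖rX Y X‖) p p' * (11 / 20) ≤
      1 / (2 * π) * (7 / 200) * Y1 + 1 / (2 * π) * (137 / 1000) * Y2 := by
    have e3 : ys (fun X Y => ee X * ‖rX X Y‖ + ee Y * ‖rX Y X‖) p p' * (11 / 20) =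
        ys (fun X Y => 11 / 20 * (ee X * ‖rX X Y‖ + ee Y * ‖rX Y X‖) + 0 *
          (ee X * ‖rX X Y‖ + ee Y * ‖rX Y X‖)) p p' := by
      rw [ys_lin]
      ring
    rw [e3, hY1, hY2, ← ys_lin]
    refine ys_le (fun X Y hX hY => ?_) p p' h
    have := rX_bd2 hX hY
    refine le_trans (le_of_eq ?_) (this.trans (le_of_eq ?_))
    · ring
    · ring
  have t7 : ‖ys TR p p'‖ ≤ 1 / (2 * π) * (4 / 25) * Y1 + 1 / (2 * π) * (121 / 1000) * Y2 := by
    refine (ys_norm TR p p').trans ?_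
    rw [hY1, hY2, ← ys_lin]
    refine ys_le (fun X Y hX hY => ?_) p p' h
    refine (TR_bd hX hY).trans (le_of_eq ?_)
    ring
  have t8 : Y1 ≤ 1 / 150 * Y2 := dd_le h hV hV' hF
  have t9 : Y2 ≤ (40 * π / 19) ^ 4 * (lsv p.bl p'.bl p'.nc p'.wt + lss p p') := by
    have k1 := ee_sum p p' h hB
    have k2 := ee_le (b := p.bl) (z := p.rz) hn hBr
    have e3 : ee (p.rz, p'.rz, p.bl && !p'.bl) = ee (dat p p') := rfl
    rw [e3] at k2
    rw [mul_add]
    linarith
  have hL : 0 ≤ lsv p.bl p'.bl p'.nc p'.wt + lss p p' := by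
    have l1 : ∀ (b b' : Bool) (n : ℕ) (a : ℤ), 0 ≤ lsv b b' n a := by
      intro b b' n a
      unfold lsv
      split_ifs
      · positivity
      · exact le_rfl
    have l2 : ∀ p p' : PB, 0 ≤ lss p p' := by
      intro p
      induction p with
      | vx b a z => intro p'; cases p' <;> simp [lss]
      | br t c iht ihc =>
        intro p'
        cases p' with
        | vx b a z => simp [lss]
        | br t' c' => exact add_nonneg (add_nonneg (iht t') (ihc c')) (l1 _ _ _ _)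
    exact add_nonneg (l1 _ _ _ _) (l2 _ _)
  set L := lsv p.bl p'.bl p'.nc p'.wt + lss p p' with hLd
  have k0 : (0 : ℝ) < 1 / (2 * π) := by positivity
  rw [e0]
  have t10 : ‖(vf p.bl p'.bl p'.rz + nft p.bl p'.bl + π * nzt p.bl p'.bl (cr p) p'.wt) +
      (vfs p p' + nfs p p' + π * nzs p p') + ys TR p p'‖ ≤
      1 / (2 * π) * ((39 / 200) * Y1 + (258 / 1000) * Y2) := by
    have s1 := (norm_add_le _ _).trans (add_le_add ((norm_add_le _ _).trans
      (add_le_add t1 t2)) t7)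
    refine s1.trans ?_
    have s2 : 11 / 20 * (ee (p.rz, p'.rz, p.bl && !p'.bl) *
        ‖p'.gs sg + p'.rz / (2 * π) * cr p‖) + 11 / 20 * V3 p p' ≤
        1 / (2 * π) * (7 / 200) * Y1 + 1 / (2 * π) * (137 / 1000) * Y2 := by
      linarith
    have e3 : 1 / (2 * π) * ((39 / 200) * Y1 + (258 / 1000) * Y2) =
        (1 / (2 * π) * (7 / 200) * Y1 + 1 / (2 * π) * (137 / 1000) * Y2) +
        (1 / (2 * π) * (4 / 25) * Y1 + 1 / (2 * π) * (121 / 1000) * Y2) := by
      ring
    rw [e3]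
    linarith
  have t11 : (39 / 200) * Y1 + (258 / 1000) * Y2 ≤ 2593 / 10000 * ((40 * π / 19) ^ 4 * L) := by
    nlinarith
  have hp4 : π ^ 4 ≤ 97.42 := by
    have h1 : π ^ 4 ≤ 3.1416 ^ 4 := pow_le_pow_left₀ hpi.le Real.pi_lt_d4.le 4
    norm_num at h1 ⊢
    linarith
  calc 2 * π * ‖(vf p.bl p'.bl p'.rz + nft p.bl p'.bl + π * nzt p.bl p'.bl (cr p) p'.wt) +
        (vfs p p' + nfs p p' + π * nzs p p') + ys TR p p'‖
      ≤ 2 * π * (1 / (2 * π) * (2593 / 10000 * ((40 * π / 19) ^ 4 * L))) :=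
        mul_le_mul_of_nonneg_left (t10.trans (mul_le_mul_of_nonneg_left t11 k0.le))
          (by positivity)
    _ = 2593 / 10000 * (40 / 19) ^ 4 * π ^ 4 * L := by
        field_simp
    _ ≤ 2593 / 10000 * (40 / 19) ^ 4 * 97.42 * L := by
        apply mul_le_mul_of_nonneg_right _ hL
        exact mul_le_mul_of_nonneg_left hp4 (by norm_num)
    _ ≤ 500 * L := mul_le_mul_of_nonneg_right (by norm_num) hL

end Pool.Agent.U21.TL
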