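import Pool.Agent.U21.TL.NZE

/-!
# One edge, two configurations
-/

set_option autoImplicit false
set_option linter.unusedVariables false

namespace Pool.Agent.U21.TL

open Finset Filter Topology
open Pool.Agent.N561
open Pool.Agent.N561.EK
open scoped Real

/-- the data of a vertex: the critical points of both configurations, and whether a circle has been
filled -/
abbrev DT := ℂ × ℂ × Bool

/-- the multiplier -/
noncomputable def kk (X : DT) : ℂ := if X.2.2 = true then 0 else (starRingEnd ℂ) (X.2.1 - X.1)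

/-- the difference at a vertex which is not filled -/
noncomputable def dd (X : DT) : ℝ := if X.2.2 = true then 0 else ‖X.2.1 - X.1‖

/-- the critical point at a filled vertex -/
noncomputable def ee (X : DT) : ℝ := if X.2.2 = true then ‖X.2.1‖ else 0

/-- the conditions -/
def OKD (X : DT) : Prop := X.1 ∈ D1 ∧ X.2.1 ∈ D1 ∧ (X.2.2 = true → X.1 = 0)

lemma dd_nonneg (X : DT) : 0 ≤ dd X := by
  unfold dd
  split_ifs
  · exact le_rfl
  · exact norm_nonneg _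

lemma ee_nonneg (X : DT) : 0 ≤ ee X := by
  unfold ee
  split_ifs
  · exact norm_nonneg _
  · exact le_rfl

lemma dif_Y {u : ℂ} {Y : DT} (hu : u ∈ D1) (hY : OKD Y) :
    ‖s1 u Y.2.1 - s1 u Y.1‖ ≤ 1 / (2 * π) * (1 / 20 * dd Y + 3 / 50 * ee Y ^ 2) := by
  have hpi := Real.pi_pos
  obtain ⟨y1, y2, y3⟩ := hY
  unfold dd ee
  by_cases h : Y.2.2 = true
  · rw [if_pos h, if_pos h, y3 h]
    have h1 := s1_mix0 hu y2
    have h2 : 27 / 200 / (2 * π) * (‖u‖ * ‖Y.2.1‖ ^ 2) ≤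
        1 / (2 * π) * (3 / 50 * ‖Y.2.1‖ ^ 2) := by
      have h3 : 27 / 200 * ‖u‖ ≤ 3 / 50 := by
        have := hu.1
        linarith
      have h4 := mul_le_mul_of_nonneg_right h3 (sq_nonneg ‖Y.2.1‖)
      have h5 := mul_le_mul_of_nonneg_left h4 (show (0 : ℝ) ≤ 1 / (2 * π) by positivity)
      refine le_trans (le_of_eq ?_) (h5.trans (le_of_eq ?_))
      · ring
      · ring
    refine (h1.trans h2).trans (le_of_eq ?_)
    ring
  · rw [if_neg h, if_neg h]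
    refine (s1_mix hu y1 y2).trans (le_of_eq ?_)
    ring

/-- the term of the coercivity estimate -/
noncomputable def g1 (X Y : DT) : ℂ :=
  kk X * (s1 X.2.1 Y.2.1 - s1 X.1 Y.1) + kk Y * (s1 Y.2.1 X.2.1 - s1 Y.1 X.1)

lemma half_g1 {X Y : DT} (hX : OKD X) (hY : OKD Y) :
    1 / (2 * π) * (11 / 12 * dd X ^ 2 - dd X * (1 / 20 * dd Y + 3 / 50 * ee Y ^ 2)) ≤
      (-(kk X * (s1 X.2.1 Y.2.1 - s1 X.1 Y.1))).re := by
  have hpi := Real.pi_pos
  have hpc : (π : ℂ) ≠ 0 := by exact_mod_cast hpi.ne'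
  have h2 := dif_Y hX.1 hY
  unfold dd at *
  unfold kk
  by_cases h : X.2.2 = true
  · rw [if_pos h, if_pos h]
    simp
  · rw [if_neg h, if_neg h]
    set δ : ℂ := X.2.1 - X.1 with hδ
    have h1 := s1_lip hX.1 hX.2.1 hY.2.1
    rw [← hδ] at h1
    set e1 : ℂ := (s1 X.2.1 Y.2.1 + X.2.1 / (2 * π)) - (s1 X.1 Y.2.1 + X.1 / (2 * π)) with he1
    set e2 : ℂ := s1 X.1 Y.2.1 - s1 X.1 Y.1 with he2
    have e0 : -((starRingEnd ℂ) δ * (s1 X.2.1 Y.2.1 - s1 X.1 Y.1)) =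
        (starRingEnd ℂ) δ * δ / (2 * π) - (starRingEnd ℂ) δ * (e1 + e2) := by
      rw [he1, he2, hδ]
      ring
    have e3 : ((starRingEnd ℂ) δ * δ / (2 * π)).re = 1 / (2 * π) * ‖δ‖ ^ 2 := by
      have : (starRingEnd ℂ) δ * δ / (2 * π) = ((1 / (2 * π) * ‖δ‖ ^ 2 : ℝ) : ℂ) := by
        rw [mul_comm ((starRingEnd ℂ) δ) δ, Complex.mul_conj, Complex.normSq_eq_norm_sq]
        push_cast
        ring
      rw [this, Complex.ofReal_re]
    rw [e0, Complex.sub_re, e3]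
    have h3 : ((starRingEnd ℂ) δ * (e1 + e2)).re ≤ ‖δ‖ * (‖e1‖ + ‖e2‖) := by
      refine (Complex.re_le_norm _).trans ?_
      rw [norm_mul, RCLike.norm_conj]
      exact mul_le_mul_of_nonneg_left (norm_add_le _ _) (norm_nonneg _)
    have h4 : ‖δ‖ * (‖e1‖ + ‖e2‖) ≤ ‖δ‖ * (1 / 12 / (2 * π) * ‖δ‖ + 1 / (2 * π) *
        (1 / 20 * (if Y.2.2 = true then 0 else ‖Y.2.1 - Y.1‖) + 3 / 50 * ee Y ^ 2)) :=
      mul_le_mul_of_nonneg_left (add_le_add h1 h2) (norm_nonneg _)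
    refine le_trans (le_of_eq ?_) (sub_le_sub_left (h3.trans h4) _)
    ring

/-- coercivity -/
lemma g1_bd {X Y : DT} (hX : OKD X) (hY : OKD Y) :
    1 / (2 * π) * (3 / 5 * (dd X ^ 2 + dd Y ^ 2) - 1 / 250 * (ee X ^ 4 + ee Y ^ 4)) ≤
      (-(g1 X Y)).re := by
  have hpi := Real.pi_pos
  have h1 := half_g1 hX hY
  have h2 := half_g1 hY hX
  have e : (-(g1 X Y)).re = (-(kk X * (s1 X.2.1 Y.2.1 - s1 X.1 Y.1))).re +
      (-(kk Y * (s1 Y.2.1 X.2.1 - s1 Y.1 X.1))).re := by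
    unfold g1
    rw [neg_add, Complex.add_re]
  rw [e]
  refine le_trans ?_ (add_le_add h1 h2)
  rw [← mul_add]
  apply mul_le_mul_of_nonneg_left _ (by positivity)
  set x := dd X
  set y := dd Y
  set a := ee X
  set b := ee Y
  have e4 : ∀ c : ℝ, c ^ 4 = (c ^ 2) ^ 2 := fun c => by ring
  rw [e4 a, e4 b]
  nlinarith [sq_nonneg (x - y), sq_nonneg (4 * x - 9 / 20 * b ^ 2), sq_nonneg (4 * y - 9 / 20 * a ^ 2),
    sq_nonneg x, sq_nonneg y]

/-- the error of the trapezoidal rule -/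
noncomputable def TR (X Y : DT) : ℂ := sg X.2.1 Y.2.1 - sg X.1 Y.1 -
  ((s1 X.1 Y.1 + s1 X.2.1 Y.2.1) * (X.2.1 - X.1) +
    (s1 Y.1 X.1 + s1 Y.2.1 X.2.1) * (Y.2.1 - Y.1)) / 2

/-- one variable -/
lemma one_var {X : DT} {φ : ℂ} (hX : OKD X) (hφ : φ ∈ D1) :
    ‖sg X.2.1 φ - sg X.1 φ - (s1 X.1 φ + s1 X.2.1 φ) / 2 * (X.2.1 - X.1)‖ ≤
      1 / (2 * π) * (1 / 12 * dd X ^ 2 + 1 / 24 * ee X ^ 4) := by
  have hpi := Real.pi_pos
  obtain ⟨x1, x2, x3⟩ := hX
  unfold dd ee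
  by_cases h : X.2.2 = true
  · rw [if_pos h, if_pos h, x3 h, Pool.Agent.N999.EK.s1_zero f_all.pot
      (Pool.Agent.N999.EK.D1_sub hφ), zero_add, sub_zero]
    refine (trap0 x2 hφ).trans (le_of_eq ?_)
    ring
  · rw [if_neg h, if_neg h]
    refine (trap x1 x2 hφ).trans (le_of_eq ?_)
    ring

lemma mix_C {X Y : DT} (hX : OKD X) (hY : OKD Y) :
    ‖(s1 X.1 Y.2.1 - s1 X.1 Y.1) / 2 * (X.2.1 - X.1)‖ ≤
      1 / (2 * π) * (1 / 2 * dd X * (1 / 20 * dd Y + 3 / 50 * ee Y ^ 2)) := by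
  have hpi := Real.pi_pos
  have h2 := dif_Y hX.1 hY
  have hd := dd_nonneg Y
  have he := ee_nonneg Y
  by_cases h : X.2.2 = true
  · rw [hX.2.2 h, Pool.Agent.N999.EK.s1_zero f_all.pot (Pool.Agent.N999.EK.D1_sub hY.2.1),
      Pool.Agent.N999.EK.s1_zero f_all.pot (Pool.Agent.N999.EK.D1_sub hY.1)]
    have := dd_nonneg X
    simp only [sub_self, zero_div, zero_mul, norm_zero]
    positivity
  · have e : dd X = ‖X.2.1 - X.1‖ := by
      unfold dd
      rw [if_neg h]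
    rw [norm_mul, norm_div, Complex.norm_two, ← e]
    have := mul_le_mul_of_nonneg_right h2 (dd_nonneg X)
    nlinarith

lemma mix_D {X Y : DT} (hX : OKD X) (hY : OKD Y) :
    ‖(s1 Y.2.1 X.1 - s1 Y.2.1 X.2.1) / 2 * (Y.2.1 - Y.1)‖ ≤
      1 / (2 * π) * (1 / 2 * (1 / 20 * dd X * dd Y + 3 / 25 * dd X * ee Y ^ 2 +
        3 / 50 * dd Y * ee X ^ 2 + 27 / 200 * ee X ^ 2 * ee Y ^ 2)) := by
  have hpi := Real.pi_pos
  obtain ⟨x1, x2, x3⟩ := hX
  obtain ⟨y1, y2, y3⟩ := hY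
  rw [norm_mul, norm_div, Complex.norm_two, norm_sub_rev (s1 Y.2.1 X.1)]
  unfold dd ee
  have k0 : (0 : ℝ) < 1 / (2 * π) := by positivity
  by_cases h : X.2.2 = true
  · rw [if_pos h, if_pos h, x3 h]
    have h1 := s1_mix0 y2 x2
    by_cases g : Y.2.2 = true
    · rw [if_pos g, if_pos g, y3 g, sub_zero]
      have := mul_le_mul_of_nonneg_right h1 (norm_nonneg Y.2.1)
      refine le_trans (le_of_eq ?_) ((mul_le_mul_of_nonneg_left this
        (show (0 : ℝ) ≤ 1 / 2 by norm_num)).trans (le_of_eq ?_))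
      · ring
      · ring
    · rw [if_neg g, if_neg g]
      have h3 : 27 / 200 * ‖Y.2.1‖ ≤ 3 / 50 := by
        have := y2.1
        linarith
      have h4 : 27 / 200 / (2 * π) * (‖Y.2.1‖ * ‖X.2.1‖ ^ 2) ≤
          1 / (2 * π) * (3 / 50 * ‖X.2.1‖ ^ 2) := by
        have h5 := mul_le_mul_of_nonneg_left (mul_le_mul_of_nonneg_right h3
          (sq_nonneg ‖X.2.1‖)) k0.le
        refine le_trans (le_of_eq ?_) (h5.trans (le_of_eq ?_))
        · ring
        · ring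
      have := mul_le_mul_of_nonneg_right (h1.trans h4) (norm_nonneg (Y.2.1 - Y.1))
      refine le_trans (le_of_eq ?_) ((mul_le_mul_of_nonneg_left this
        (show (0 : ℝ) ≤ 1 / 2 by norm_num)).trans (le_of_eq ?_))
      · ring
      · ring
  · rw [if_neg h, if_neg h]
    by_cases g : Y.2.2 = true
    · rw [if_pos g, if_pos g, y3 g, sub_zero]
      have h1 := s1_mix2 y2 x1 x2
      have := mul_le_mul_of_nonneg_right h1 (norm_nonneg Y.2.1)
      refine le_trans (le_of_eq ?_) ((mul_le_mul_of_nonneg_left this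
        (show (0 : ℝ) ≤ 1 / 2 by norm_num)).trans (le_of_eq ?_))
      · ring
      · ring
    · rw [if_neg g, if_neg g]
      have h1 := s1_mix y2 x1 x2
      have := mul_le_mul_of_nonneg_right h1 (norm_nonneg (Y.2.1 - Y.1))
      refine le_trans (le_of_eq ?_) ((mul_le_mul_of_nonneg_left this
        (show (0 : ℝ) ≤ 1 / 2 by norm_num)).trans (le_of_eq ?_))
      · ring
      · ring

theorem TR_bd {X Y : DT} (hX : OKD X) (hY : OKD Y) :
    ‖TR X Y‖ ≤ 1 / (2 * π) *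
      (4 / 25 * (dd X ^ 2 + dd Y ^ 2) + 121 / 1000 * (ee X ^ 4 + ee Y ^ 4)) := by
  have hpi := Real.pi_pos
  have k0 : (0 : ℝ) < 1 / (2 * π) := by positivity
  have h1 := one_var hX hY.2.1
  have h2 := one_var hY hX.1
  have h3 := mix_C hX hY
  have h4 := mix_D hX hY
  have e : TR X Y = (sg X.2.1 Y.2.1 - sg X.1 Y.2.1 - (s1 X.1 Y.2.1 + s1 X.2.1 Y.2.1) / 2 *
      (X.2.1 - X.1)) + (sg Y.2.1 X.1 - sg Y.1 X.1 - (s1 Y.1 X.1 + s1 Y.2.1 X.1) / 2 *
      (Y.2.1 - Y.1)) + (s1 X.1 Y.2.1 - s1 X.1 Y.1) / 2 * (X.2.1 - X.1) +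
      (s1 Y.2.1 X.1 - s1 Y.2.1 X.2.1) / 2 * (Y.2.1 - Y.1) := by
    unfold TR
    rw [f_all.pot.sym Y.2.1 X.1, f_all.pot.sym Y.1 X.1]
    ring
  rw [e]
  refine (norm_add_le _ _).trans ((add_le_add ((norm_add_le _ _).trans (add_le_add
    ((norm_add_le _ _).trans (add_le_add h1 h2)) h3)) h4).trans ?_)
  rw [← mul_add, ← mul_add, ← mul_add]
  apply mul_le_mul_of_nonneg_left _ k0.le
  have x0 := dd_nonneg X
  have y0 := dd_nonneg Y
  set x := dd X
  set y := dd Y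
  set a := ee X
  set b := ee Y
  have e4 : ∀ c : ℝ, c ^ 4 = (c ^ 2) ^ 2 := fun c => by ring
  rw [e4 a, e4 b]
  nlinarith [sq_nonneg (x - y), sq_nonneg (x - b ^ 2), sq_nonneg (y - a ^ 2),
    sq_nonneg (a ^ 2 - b ^ 2), sq_nonneg x, sq_nonneg y, sq_nonneg (a ^ 2), sq_nonneg (b ^ 2)]

/-! ### The equation at a filled vertex -/

/-- the remainder of the equation -/
noncomputable def rX (X Y : DT) : ℂ := s1 X.2.1 Y.2.1 + X.2.1 / (2 * π) * Complex.cos (Y.1 / 2)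

lemma rX_bd {X Y : DT} (hX : OKD X) (hY : OKD Y) : ee X * ‖rX X Y‖ ≤
    1 / (2 * π) * (1 / 18 * ee X ^ 4 + ee X ^ 2 * (1 / 8 * dd Y + 13 / 100 * ee Y ^ 2)) := by
  have hpi := Real.pi_pos
  have k0 : (0 : ℝ) < 1 / (2 * π) := by positivity
  have he := ee_nonneg X
  by_cases h : X.2.2 = true
  · have e : ee X = ‖X.2.1‖ := by
      unfold ee
      rw [if_pos h]
    have hc : ‖Complex.cos (Y.1 / 2) - Complex.cos (Y.2.1 / 2)‖ ≤
        1 / 8 * dd Y + 13 / 100 * ee Y ^ 2 := by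
      unfold dd ee
      by_cases g : Y.2.2 = true
      · rw [if_pos g, if_pos g, hY.2.2 g, zero_div, Complex.cos_zero, norm_sub_rev]
        linarith [(cos_half hY.2.1).1]
      · rw [if_neg g, if_neg g, norm_sub_rev]
        linarith [cos_dif hY.1 hY.2.1]
    have h1 := s1_cos hX.2.1 hY.2.1
    have e0 : rX X Y = (s1 X.2.1 Y.2.1 + Complex.cos (Y.2.1 / 2) * X.2.1 / (2 * π)) +
        X.2.1 / (2 * π) * (Complex.cos (Y.1 / 2) - Complex.cos (Y.2.1 / 2)) := by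
      unfold rX
      ring
    have h2 : ‖rX X Y‖ ≤ 1 / 18 / (2 * π) * ee X ^ 3 + ee X / (2 * π) *
        (1 / 8 * dd Y + 13 / 100 * ee Y ^ 2) := by
      rw [e0, e]
      refine (norm_add_le _ _).trans (add_le_add h1 ?_)
      rw [norm_mul, norm_div, norm_mul, Complex.norm_two, Complex.norm_real,
        Real.norm_of_nonneg hpi.le]
      exact mul_le_mul_of_nonneg_left hc (by positivity)
    refine (mul_le_mul_of_nonneg_left h2 he).trans (le_of_eq ?_)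
    ring
  · have e : ee X = 0 := by
      unfold ee
      rw [if_neg h]
    rw [e]
    simp

/-- both terms of an edge -/
lemma rX_bd2 {X Y : DT} (hX : OKD X) (hY : OKD Y) :
    11 / 20 * (ee X * ‖rX X Y‖ + ee Y * ‖rX Y X‖) ≤
      1 / (2 * π) * (7 / 200 * (dd X ^ 2 + dd Y ^ 2) + 137 / 1000 * (ee X ^ 4 + ee Y ^ 4)) := by
  have hpi := Real.pi_pos
  have k0 : (0 : ℝ) < 1 / (2 * π) := by positivity
  have h1 := rX_bd hX hY
  have h2 := rX_bd hY hX
  have h3 := mul_le_mul_of_nonneg_left (add_le_add h1 h2) (show (0 : ℝ) ≤ 11 / 20 by norm_num)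
  refine h3.trans ?_
  rw [← mul_add, mul_left_comm]
  apply mul_le_mul_of_nonneg_left _ k0.le
  set x := dd X
  set y := dd Y
  set a := ee X
  set b := ee Y
  have e4 : ∀ c : ℝ, c ^ 4 = (c ^ 2) ^ 2 := fun c => by ring
  rw [e4 a, e4 b]
  nlinarith [sq_nonneg (x - b ^ 2), sq_nonneg (y - a ^ 2), sq_nonneg (a ^ 2 - b ^ 2), sq_nonneg x,
    sq_nonneg y, sq_nonneg (a ^ 2), sq_nonneg (b ^ 2)]

end Pool.Agent.U21.TL
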