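import Pool.Agent.U21.TL.SecT

/-!
# The value at the critical configuration to second order: the estimate
-/

set_option autoImplicit false
set_option linter.unusedVariables false

namespace Pool.Agent.U21.TL

open Finset Filter Topology
open Pool.Agent.TH563.UV
open Pool.Agent.TH563.V
open Pool.Agent.N561
open Pool.Agent.N561.EK
open Pool.Agent.N277.EK (mem_D1)
open Pool.Agent.W711.HT (bet)
open scoped Real

lemma cusp_norm_eq {n : ℕ} (hn : 1 ≤ n) (a : ℤ) :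
    ‖cusp false n a‖ * Real.sqrt ((a : ℝ) ^ 2 + n ^ 2) = 1 := by
  have h0 : 0 < ‖(n : ℂ) - Complex.I * a‖ := norm_pos_iff.2 (cusp_ne hn a)
  have e : ‖(n : ℂ) - Complex.I * a‖ = Real.sqrt ((a : ℝ) ^ 2 + n ^ 2) := by
    rw [Complex.norm_eq_sqrt_sq_add_sq]
    congr 1
    simp
    ring
  unfold cusp
  rw [if_neg (by simp), norm_div, norm_one, ← e, one_div, inv_mul_cancel₀ h0.ne']

lemma pv_of {b : Bool} {a : ℤ} {n : ℕ} {z G : ℂ} (hn : 1 ≤ n) (h : VE b a z G)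
    (hB : VB (1 / 20) b a n z) : PV (z, cusp b n a) := by
  refine ⟨mem_D1 h, ?_⟩
  cases b with
  | true =>
    rw [h.1 rfl]
    simp [cusp]
  | false =>
    have h1 := vb_size (by norm_num) (by norm_num) hn hB
    have h2 := cusp_norm_eq hn a
    set m := Real.sqrt ((a : ℝ) ^ 2 + n ^ 2) with hm
    have hn0 : (0 : ℝ) < n := by exact_mod_cast hn
    have hmp : 0 < m := Real.sqrt_pos.2 (by positivity)
    have e1 : 2 * π / (1 - 1 / 20) = 40 * π / 19 := by ring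
    rw [e1] at h1
    have h3 : ‖z‖ * m * ‖cusp false n a‖ ≤ 40 * π / 19 * ‖cusp false n a‖ :=
      mul_le_mul_of_nonneg_right h1 (norm_nonneg _)
    calc ‖z‖ = ‖z‖ * (‖cusp false n a‖ * m) := by rw [h2, mul_one]
      _ = ‖z‖ * m * ‖cusp false n a‖ := by ring
      _ ≤ _ := h3

lemma allq_of : ∀ p : PB, CE p → VBB (1 / 20) p → AllQ PV p
  | .vx _ _ _, _, _ => trivial
  | .br t c, h, hB => by
    obtain ⟨h1, h2, h3⟩ := h
    obtain ⟨g1, g2, g3⟩ := hB
    exact ⟨allq_of t h1 g1, allq_of c h2 g2, pv_of (by omega) h3 g3⟩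

lemma edgeK20 : EdgeK (1 / 20) (fun _ => True) := fun z w hz hw _ _ => edge20 hz hw

lemma allP_true : ∀ p : PB, AllP (fun _ => True) p
  | .vx _ _ _ => trivial
  | .br t c => ⟨allP_true t, allP_true c, trivial⟩

theorem allq {p : PB} (hC : CE p) (hV : VE p.bl p.wt p.rz (p.gs sg)) (hn : 1 ≤ p.nc) :
    AllQ PV p ∧ PV (p.rz, cusp p.bl p.nc p.wt) :=
  ⟨allq_of p hC (vbb_of edgeK20 p hC (allP_true p) (mem_D1 hV) trivial),
    pv_of hn hV (vb_root edgeK20 p hC hV (allP_true p) trivial)⟩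

/-- the terms of the circles, without the root -/
noncomputable def cs : PB → ℂ
  | .vx _ _ _ => 0
  | .br t c => cs t + cs c + ci c.bl

/-- the sum of the numbers of the vertices, without the root -/
noncomputable def wsm : PB → ℂ
  | .vx _ _ _ => 0
  | .br t c => wsm t + wsm c + cw c

/-- the sum of `w Q²`, without the root -/
noncomputable def qsm : PB → ℂ
  | .vx _ _ _ => 0
  | .br t c => qsm t + qsm c + cw c * Qc t c ^ 2

lemma vs_eq : ∀ p : PB, vs p = cs p - π * wsm p - π * qsm p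
  | .vx _ _ _ => by simp [vs, cs, wsm, qsm]
  | .br t c => by
    simp only [vs, cs, wsm, qsm]
    rw [vs_eq t, vs_eq c]
    ring

lemma qsm_le : ∀ p : PB, ‖qsm p‖ ≤ BB p
  | .vx _ _ _ => by simp [qsm, BB]
  | .br t c => by
    simp only [qsm, BB]
    refine (norm_add_le _ _).trans (add_le_add ((norm_add_le _ _).trans
      (add_le_add (qsm_le t) (qsm_le c))) (le_of_eq ?_))
    rw [norm_mul, norm_pow]

/-- the sum of the sixth powers -/
noncomputable def e6 (x y : ℂ × ℂ) : ℝ := ‖x.2‖ ^ 6 + ‖y.2‖ ^ 6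

/-- the second order approximation of the value -/
noncomputable def appr (p : PB) : ℂ :=
  (ci p.bl + cs p) - π * (cusp p.bl p.nc p.wt + wsm p) + xs ga (cusp p.bl p.nc p.wt) p

theorem val_bd {p : PB} (hC : CE p) (hV : VE p.bl p.wt p.rz (p.gs sg)) (hn : 1 ≤ p.nc) :
    2 * π * ‖vt p.bl p.wt p.rz + p.vl sg - appr p‖ ≤
      4600 * xs e6 (cusp p.bl p.nc p.wt) p := by
  obtain ⟨hA, hR⟩ := allq hC hV hn
  have hpi := Real.pi_pos
  set ω := cusp p.bl p.nc p.wt with hω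
  obtain ⟨r1, r2⟩ := root_le hn hV
  have hv := vl_eq p ω hC
  have hr := vertex_val hn hV
  have e0 : vt p.bl p.wt p.rz + p.vl sg - appr p =
      -(π * (ω * Qr p ^ 2 + qsm p)) + (xs gt ω p - xs ga ω p) := by
    have e1 : vt p.bl p.wt p.rz = ci p.bl - π * ω - π * ω * Qr p ^ 2 +
        p.nc * p.rz ^ 2 / (4 * π) := by
      have : Qr p = p.gs sg + (p.nc : ℂ) * p.rz / (2 * π) := rfl
      rw [this]
      linear_combination hr
    unfold appr
    rw [← hω, e1, hv, vs_eq]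
    ring
  have h1 : ‖ω * Qr p ^ 2 + qsm p‖ ≤ BB p + RB p := by
    refine (norm_add_le _ _).trans ?_
    rw [norm_mul, norm_pow]
    linarith [qsm_le p]
  have h2 : ‖xs gt ω p - xs ga ω p‖ ≤ xs (fun x y => ‖gt x y - ga x y‖) ω p := by
    have e2 : xs gt ω p - xs ga ω p = xs (fun x y => gt x y - ga x y) ω p := by
      have := xs_add (fun x y => gt x y - ga x y) ga p ω
      have e3 : (fun x y => gt x y - ga x y + ga x y) = gt := by
        funext x y
        ring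
      rw [e3] at this
      rw [this]
      ring
    rw [e2]
    exact xs_norm _ p ω
  have h3 := xs_le (P := PV) (fun x y hx hy => edge_bd hx hy) p ω hA hR
  rw [xs_add, xs_mul] at h3
  have e4 : xs (fun x y : ℂ × ℂ => (31 / 6400 / π + 64 / 45 / (192 * π)) * (40 * π / 19) ^ 6 *
      (‖x.2‖ ^ 6 + ‖y.2‖ ^ 6)) ω p =
      (31 / 6400 / π + 64 / 45 / (192 * π)) * (40 * π / 19) ^ 6 * xs e6 ω p :=
    xs_mul _ e6 p ω
  rw [e4] at h3
  have h4 : xs (fun x y => dl x ^ 2 + dl y ^ 2) ω p ≤ 4 * π ^ 2 * (BB p + RB p) := by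
    have := dl_le p ω hC
    rw [mul_add]
    linarith
  have h5 := bb_le p ω
  have h6 : xs (fun x y : ℂ × ℂ => ‖q1 x.1 y.1‖ ^ 2 + ‖q1 y.1 x.1‖ ^ 2) ω p ≤
      31 / 1000 / (4 * π ^ 2) * (40 * π / 19) ^ 6 * xs e6 ω p := by
    rw [← xs_mul]
    refine xs_le (P := PV) (fun x y hx hy => ?_) p ω hA hR
    have g1 := q1_sq hx.1 hy.1
    have g3 : ‖x.1‖ ^ 6 ≤ (40 * π / 19) ^ 6 * ‖x.2‖ ^ 6 := by
      rw [← mul_pow]
      exact pow_le_pow_left₀ (norm_nonneg _) hx.2 6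
    have g4 : ‖y.1‖ ^ 6 ≤ (40 * π / 19) ^ 6 * ‖y.2‖ ^ 6 := by
      rw [← mul_pow]
      exact pow_le_pow_left₀ (norm_nonneg _) hy.2 6
    have g5 : 31 / 1000 / (4 * π ^ 2) * (‖x.1‖ ^ 6 + ‖y.1‖ ^ 6) ≤ 31 / 1000 / (4 * π ^ 2) *
        ((40 * π / 19) ^ 6 * ‖x.2‖ ^ 6 + (40 * π / 19) ^ 6 * ‖y.2‖ ^ 6) :=
      mul_le_mul_of_nonneg_left (add_le_add g3 g4) (by positivity)
    unfold q1 e6
    refine (g1.trans g5).trans (le_of_eq ?_)
    ring
  set E := xs e6 ω p with hE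
  have hE0 : 0 ≤ E := by
    have : xs (fun _ _ => (0 : ℝ)) ω p ≤ E :=
      xs_le (P := PV) (fun x y _ _ => by unfold e6; positivity) p ω hA hR
    have e7 : xs (fun _ _ : ℂ × ℂ => (0 : ℝ)) ω p = 0 := by
      have := xs_mul 0 (fun _ _ => (0 : ℝ)) p ω
      simpa using this
    linarith
  have h7 : BB p + RB p ≤ 31 / 1000 / (4 * π ^ 2) * (40 * π / 19) ^ 6 * E := h5.trans h6
  rw [e0]
  have h8 : ‖-(π * (ω * Qr p ^ 2 + qsm p)) + (xs gt ω p - xs ga ω p)‖ ≤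
      π * (BB p + RB p) + (45 / (192 * π) * (4 * π ^ 2 * (BB p + RB p)) +
        (31 / 6400 / π + 64 / 45 / (192 * π)) * (40 * π / 19) ^ 6 * E) := by
    refine (norm_add_le _ _).trans (add_le_add ?_ ?_)
    · rw [norm_neg, norm_mul, Complex.norm_real, Real.norm_of_nonneg hpi.le]
      exact mul_le_mul_of_nonneg_left h1 hpi.le
    · refine h2.trans (h3.trans (add_le_add ?_ le_rfl))
      exact mul_le_mul_of_nonneg_left h4 (by positivity)
  have h9 : π * (BB p + RB p) ≤ π * (31 / 1000 / (4 * π ^ 2) * (40 * π / 19) ^ 6 * E) :=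
    mul_le_mul_of_nonneg_left h7 hpi.le
  have h10 : 45 / (192 * π) * (4 * π ^ 2 * (BB p + RB p)) ≤
      45 / (192 * π) * (4 * π ^ 2 * (31 / 1000 / (4 * π ^ 2) * (40 * π / 19) ^ 6 * E)) :=
    mul_le_mul_of_nonneg_left (mul_le_mul_of_nonneg_left h7 (by positivity)) (by positivity)
  have h11 : 2 * π * ‖-(π * (ω * Qr p ^ 2 + qsm p)) + (xs gt ω p - xs ga ω p)‖ ≤
      2 * π * (π * (31 / 1000 / (4 * π ^ 2) * (40 * π / 19) ^ 6 * E) +
        (45 / (192 * π) * (4 * π ^ 2 * (31 / 1000 / (4 * π ^ 2) * (40 * π / 19) ^ 6 * E)) +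
        (31 / 6400 / π + 64 / 45 / (192 * π)) * (40 * π / 19) ^ 6 * E)) := by
    apply mul_le_mul_of_nonneg_left _ (by positivity)
    linarith
  refine h11.trans ?_
  have e8 : 2 * π * (π * (31 / 1000 / (4 * π ^ 2) * (40 * π / 19) ^ 6 * E) +
        (45 / (192 * π) * (4 * π ^ 2 * (31 / 1000 / (4 * π ^ 2) * (40 * π / 19) ^ 6 * E)) +
        (31 / 6400 / π + 64 / 45 / (192 * π)) * (40 * π / 19) ^ 6 * E)) =
      2 * (31 / 4000 + 45 * 31 / 1000 / 192 + 31 / 6400 + 64 / 45 / 192) * (40 / 19) ^ 6 *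
        π ^ 6 * E := by
    field_simp
    ring
  rw [e8]
  apply mul_le_mul_of_nonneg_right _ hE0
  have hp6 : π ^ 6 ≤ 3.1416 ^ 6 := pow_le_pow_left₀ hpi.le (by linarith [Real.pi_lt_d4]) 6
  have : 2 * (31 / 4000 + 45 * 31 / 1000 / 192 + 31 / 6400 + 64 / 45 / 192) * (40 / 19) ^ 6 *
      π ^ 6 ≤ 2 * (31 / 4000 + 45 * 31 / 1000 / 192 + 31 / 6400 + 64 / 45 / 192) * (40 / 19) ^ 6 *
      (3.1416 : ℝ) ^ 6 := mul_le_mul_of_nonneg_left hp6 (by norm_num)
  refine this.trans ?_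
  norm_num

end Pool.Agent.U21.TL
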