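import Pool.Agent.U21.TL.NZG
import Pool.Agent.U21.TL.SecF

/-!
# Two critical configurations: the change of the value under filling
-/

set_option autoImplicit false
set_option linter.unusedVariables false

namespace Pool.Agent.U21.TL

open Finset Filter Topology
open Pool.Agent.TH563.UV
open Pool.Agent.TH563.V
open Pool.Agent.N561
open Pool.Agent.N561.EK
open Pool.Agent.N277.EK (mem_D1)
open Pool.Agent.W711.HT (bet)
open scoped Real

/-- the labels of a vertex: nothing is changed, or a circle is filled -/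
def FV (b : Bool) (a : ℤ) (b' : Bool) (a' : ℤ) : Prop :=
  (b = b' ∧ (b = false → a = a')) ∨ (b = true ∧ b' = false)

/-- the labels of all vertices other than the root -/
def FilP : PB → PB → Prop
  | .vx _ _ _, .vx _ _ _ => True
  | .br t c, .br t' c' => FilP t t' ∧ FilP c c' ∧ FV c.bl c.wt c'.bl c'.wt
  | _, _ => False

/-- the data of the root -/
noncomputable def dat (c c' : PB) : DT := (c.rz, c'.rz, c.bl && !c'.bl)

/-- sums over the edges -/
noncomputable def ys {M : Type} [AddCommMonoid M] (g : DT → DT → M) : PB → PB → M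
  | .br t c, .br t' c' => ys g t t' + ys g c c' + g (dat t t') (dat c c')
  | _, _ => 0

/-- the gradient at a child -/
noncomputable def GG (t c : PB) : ℂ := c.gs sg + deriv (fun w => sg w t.rz) c.rz

lemma gs_br (t c : PB) : (PB.br t c).gs sg = t.gs sg + s1 t.rz c.rz := by
  have e1 : (fun w => sg c.rz w) = fun w => sg w c.rz := by
    funext w
    exact f_all.pot.sym _ _
  simp only [PB.gs, s1, e1]

lemma dat_br (t c t' c' : PB) : dat (.br t c) (.br t' c') = dat t t' := rfl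

/-- the conditions on both configurations, with the roots in `D1` -/
def Ok2 (p p' : PB) : Prop := CE p ∧ CE p' ∧ p.rz ∈ D1 ∧ p'.rz ∈ D1 ∧ FilP p p' ∧
  (p.bl = true → p'.bl = false → p.rz = 0)

lemma okd {p p' : PB} (h : Ok2 p p') : OKD (dat p p') := by
  refine ⟨h.2.2.1, h.2.2.2.1, fun hb => ?_⟩
  have hb' : (p.bl && !p'.bl) = true := hb
  rw [Bool.and_eq_true, Bool.not_eq_true'] at hb'
  exact h.2.2.2.2.2 hb'.1 hb'.2

lemma ok2_br {t c t' c' : PB} (h : Ok2 (.br t c) (.br t' c')) : Ok2 t t' ∧ Ok2 c c' ∧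
    VE c.bl c.wt c.rz (GG t c) ∧ VE c'.bl c'.wt c'.rz (GG t' c') ∧
    FV c.bl c.wt c'.bl c'.wt := by
  obtain ⟨⟨a1, a2, a3⟩, ⟨b1, b2, b3⟩, h3, h4, ⟨h5, h6, h7⟩, h8⟩ := h
  exact ⟨⟨a1, b1, h3, h4, h5, h8⟩, ⟨a2, b2, mem_D1 a3, mem_D1 b3, h6, fun hb _ => a3.1 hb⟩, a3, b3, h7⟩

lemma ys_le {g g' : DT → DT → ℝ} (h : ∀ X Y, OKD X → OKD Y → g X Y ≤ g' X Y) :
    ∀ p p' : PB, Ok2 p p' → ys g p p' ≤ ys g' p p'
  | .vx _ _ _, .vx _ _ _, _ => le_rfl
  | .vx _ _ _, .br _ _, h0 => h0.2.2.2.2.1.elim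
  | .br _ _, .vx _ _ _, h0 => h0.2.2.2.2.1.elim
  | .br t c, .br t' c', h0 => by
    obtain ⟨h1, h2, -, -, -⟩ := ok2_br h0
    have g1 := ys_le h t t' h1
    have g2 := ys_le h c c' h2
    have g3 := h _ _ (okd h1) (okd h2)
    simp only [ys]
    linarith

lemma ys_norm (g : DT → DT → ℂ) : ∀ p p' : PB, ‖ys g p p'‖ ≤ ys (fun X Y => ‖g X Y‖) p p'
  | .vx _ _ _, .vx _ _ _ => by simp [ys]
  | .vx _ _ _, .br _ _ => by simp [ys]
  | .br _ _, .vx _ _ _ => by simp [ys]
  | .br t c, .br t' c' => by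
    simp only [ys]
    exact (norm_add_le _ _).trans (add_le_add ((norm_add_le _ _).trans
      (add_le_add (ys_norm g t t') (ys_norm g c c'))) le_rfl)

lemma ys_re (g : DT → DT → ℂ) : ∀ p p' : PB, (ys g p p').re = ys (fun X Y => (g X Y).re) p p'
  | .vx _ _ _, .vx _ _ _ => by simp [ys]
  | .vx _ _ _, .br _ _ => by simp [ys]
  | .br _ _, .vx _ _ _ => by simp [ys]
  | .br t c, .br t' c' => by
    simp only [ys, Complex.add_re]
    rw [ys_re g t t', ys_re g c c']

lemma ys_lin (k l : ℝ) (g h : DT → DT → ℝ) : ∀ p p' : PB,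
    ys (fun X Y => k * g X Y + l * h X Y) p p' = k * ys g p p' + l * ys h p p'
  | .vx _ _ _, .vx _ _ _ => by simp [ys]
  | .vx _ _ _, .br _ _ => by simp [ys]
  | .br _ _, .vx _ _ _ => by simp [ys]
  | .br t c, .br t' c' => by
    simp only [ys]
    rw [ys_lin k l g h t t', ys_lin k l g h c c']
    ring

/-! ### Coercivity -/

lemma vert0 {b b' : Bool} {a a' : ℤ} {z z' G G' : ℂ} (hF : FV b a b' a') (h : VE b a z G)
    (h' : VE b' a' z' G') : (kk (z, z', b && !b') * (G' - G)).re = 0 := by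
  unfold kk
  rcases hF with ⟨rfl, hF⟩ | ⟨rfl, rfl⟩
  · cases b with
    | true =>
      rw [h.1 rfl, h'.1 rfl]
      simp
    | false =>
      obtain rfl := hF rfl
      obtain ⟨-, -, h3⟩ := h.2 rfl
      obtain ⟨-, -, h3'⟩ := h'.2 rfl
      have e : G' - G = -(Complex.I * a * (z' - z) / (2 * π)) := by
        linear_combination h3' - h3
      rw [e]
      have e2 : (if (false && !false) = true then (0 : ℂ) else (starRingEnd ℂ) (z' - z)) =
          (starRingEnd ℂ) (z' - z) := by simp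
      simp only []
      rw [e2]
      have e3 : (starRingEnd ℂ) (z' - z) * -(Complex.I * a * (z' - z) / (2 * π)) =
          ((-(a * ‖z' - z‖ ^ 2 / (2 * π)) : ℝ) : ℂ) * Complex.I := by
        have : (z' - z) * (starRingEnd ℂ) (z' - z) = ((‖z' - z‖ ^ 2 : ℝ) : ℂ) := by
          rw [Complex.mul_conj, Complex.normSq_eq_norm_sq]
        push_cast at this ⊢
        linear_combination (-(Complex.I * a / (2 * π))) * this
      rw [e3, Complex.re_ofReal_mul, Complex.I_re, mul_zero]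
  · simp

lemma coer : ∀ p p' : PB, Ok2 p p' →
    (ys g1 p p').re = (kk (dat p p') * (p'.gs sg - p.gs sg)).re
  | .vx _ _ _, .vx _ _ _, _ => by simp [ys, PB.gs]
  | .vx _ _ _, .br _ _, h0 => h0.2.2.2.2.1.elim
  | .br _ _, .vx _ _ _, h0 => h0.2.2.2.2.1.elim
  | .br t c, .br t' c', h0 => by
    obtain ⟨h1, h2, h3, h4, h5⟩ := ok2_br h0
    have g1' := coer t t' h1
    have g2' := coer c c' h2
    have g3 : (kk (dat c c') * (GG t' c' - GG t c)).re = 0 := vert0 h5 h3 h4
    have e : kk (dat c c') * (GG t' c' - GG t c) = kk (dat c c') * (c'.gs sg - c.gs sg) +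
        kk (dat c c') * (s1 c'.rz t'.rz - s1 c.rz t.rz) := by
      unfold GG s1
      ring
    rw [e, Complex.add_re] at g3
    have e2 : g1 (dat t t') (dat c c') = kk (dat t t') * (s1 t'.rz c'.rz - s1 t.rz c.rz) +
        kk (dat c c') * (s1 c'.rz t'.rz - s1 c.rz t.rz) := rfl
    have e3 : kk (dat t t') * ((PB.br t' c').gs sg - (PB.br t c).gs sg) =
        kk (dat t t') * (t'.gs sg - t.gs sg) +
          kk (dat t t') * (s1 t'.rz c'.rz - s1 t.rz c.rz) := by
      rw [gs_br, gs_br]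
      ring
    rw [dat_br, e3]
    simp only [ys, Complex.add_re]
    rw [g1', g2', e2, Complex.add_re]
    linarith

/-- the differences at the other vertices are of second order -/
theorem dd_le {p p' : PB} (h : Ok2 p p') (hV : VE p.bl p.wt p.rz (p.gs sg))
    (hV' : VE p'.bl p'.wt p'.rz (p'.gs sg)) (hF : FV p.bl p.wt p'.bl p'.wt) :
    ys (fun X Y => dd X ^ 2 + dd Y ^ 2) p p' ≤
      1 / 150 * ys (fun X Y => ee X ^ 4 + ee Y ^ 4) p p' := by
  have hpi := Real.pi_pos
  have h1 := coer p p' h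
  rw [show (kk (dat p p') * (p'.gs sg - p.gs sg)).re = 0 from vert0 hF hV hV', ys_re] at h1
  have h2 := ys_le (g := fun X Y => 1 / (2 * π) * (3 / 5) * (dd X ^ 2 + dd Y ^ 2) +
      -(1 / (2 * π) * (1 / 250)) * (ee X ^ 4 + ee Y ^ 4))
    (g' := fun X Y => -1 * (g1 X Y).re + 0 * (g1 X Y).re) (fun X Y hX hY => by
      have := g1_bd hX hY
      rw [Complex.neg_re] at this
      refine le_trans (le_of_eq ?_) (this.trans (le_of_eq ?_))
      · ring
      · ring) p p' h
  rw [ys_lin, ys_lin, h1] at h2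
  have h3 : 1 / (2 * π) * (3 / 5 * ys (fun X Y => dd X ^ 2 + dd Y ^ 2) p p' -
      1 / 250 * ys (fun X Y => ee X ^ 4 + ee Y ^ 4) p p') ≤ 0 := by
    linarith
  have h4 : 3 / 5 * ys (fun X Y => dd X ^ 2 + dd Y ^ 2) p p' -
      1 / 250 * ys (fun X Y => ee X ^ 4 + ee Y ^ 4) p p' ≤ 0 := by
    by_contra hc
    have := mul_pos (show (0 : ℝ) < 1 / (2 * π) by positivity) (not_le.1 hc)
    linarith
  linarith

/-! ### The value -/

/-- the term of a vertex -/
noncomputable def vf (b b' : Bool) (z' : ℂ) : ℂ :=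
  if (b && !b') = true then Complex.I * z' / 2 - π * Complex.I else 0

lemma vert_val {b b' : Bool} {a a' : ℤ} {z z' G G' : ℂ} (hF : FV b a b' a') (h : VE b a z G)
    (h' : VE b' a' z' G') (hG : z = 0 → G = 0) :
    vt b' a' z' - vt b a z + (G + G') / 2 * (z' - z) = vf b b' z' := by
  have hpi : (π : ℂ) ≠ 0 := by exact_mod_cast Real.pi_ne_zero
  unfold vf
  rcases hF with ⟨rfl, hF⟩ | ⟨rfl, rfl⟩
  · cases b with
    | true =>
      rw [h.1 rfl, h'.1 rfl]
      simp [vt]
    | false =>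
      obtain rfl := hF rfl
      obtain ⟨-, -, h3⟩ := h.2 rfl
      obtain ⟨-, -, h3'⟩ := h'.2 rfl
      have e1 : G = -(Complex.I * a * z / (2 * π) + Complex.I) := by linear_combination h3
      have e2 : G' = -(Complex.I * a * z' / (2 * π) + Complex.I) := by linear_combination h3'
      rw [e1, e2]
      simp only [vt, Bool.not_false, Bool.and_true, if_neg (show ¬ (false = true) by simp)]
      field_simp
      ring
  · obtain ⟨-, -, h3'⟩ := h'.2 rfl
    have e2 : G' = -(Complex.I * a' * z' / (2 * π) + Complex.I) := by linear_combination h3'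
    rw [h.1 rfl, hG (h.1 rfl), e2]
    simp only [vt, Bool.not_false, Bool.and_true, Bool.false_eq_true, if_false, if_true]
    field_simp
    ring

lemma gs_zero : ∀ p : PB, CE p → p.rz = 0 → p.gs sg = 0
  | .vx _ _ _, _, _ => rfl
  | .br t c, h, h0 => by
    have h1 : t.rz = 0 := h0
    rw [gs_br, gs_zero t h.1 h1, h1, Pool.Agent.N999.EK.s1_zero f_all.pot
      (Pool.Agent.N999.EK.D1_sub (mem_D1 h.2.2)), add_zero]

lemma GG_zero {t c : PB} (hc : CE c) (ht : t.rz ∈ D1) (h0 : c.rz = 0) : GG t c = 0 := by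
  have e : GG t c = c.gs sg + s1 c.rz t.rz := rfl
  rw [e, gs_zero c hc h0, h0, Pool.Agent.N999.EK.s1_zero f_all.pot
    (Pool.Agent.N999.EK.D1_sub ht), add_zero]

/-- the terms of the filled vertices other than the root -/
noncomputable def vfs : PB → PB → ℂ
  | .br t c, .br t' c' => vfs t t' + vfs c c' + vf c.bl c'.bl c'.rz
  | _, _ => 0

theorem vl_dif : ∀ p p' : PB, Ok2 p p' → p'.vl sg - p.vl sg =
    vfs p p' + ys TR p p' + (p.gs sg + p'.gs sg) / 2 * (p'.rz - p.rz)
  | .vx _ _ _, .vx _ _ _, _ => by simp [ys, PB.gs, PB.vl, vfs]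
  | .vx _ _ _, .br _ _, h0 => h0.2.2.2.2.1.elim
  | .br _ _, .vx _ _ _, h0 => h0.2.2.2.2.1.elim
  | .br t c, .br t' c', h0 => by
    obtain ⟨h1, h2, h3, h4, h5⟩ := ok2_br h0
    have e1 := vl_dif t t' h1
    have e2 := vl_dif c c' h2
    have e3 := vert_val h5 h3 h4 (GG_zero h2.1 h1.2.2.1)
    have e4 : (PB.br t c).vl sg = t.vl sg + (vt c.bl c.wt c.rz + c.vl sg + sg c.rz t.rz) := rfl
    have e5 : (PB.br t' c').vl sg =
        t'.vl sg + (vt c'.bl c'.wt c'.rz + c'.vl sg + sg c'.rz t'.rz) := rfl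
    have e6 : TR (dat t t') (dat c c') = sg t'.rz c'.rz - sg t.rz c.rz -
        ((s1 t.rz c.rz + s1 t'.rz c'.rz) * (t'.rz - t.rz) +
        (s1 c.rz t.rz + s1 c'.rz t'.rz) * (c'.rz - c.rz)) / 2 := rfl
    have e7 : GG t c = c.gs sg + s1 c.rz t.rz := rfl
    have e8 : GG t' c' = c'.gs sg + s1 c'.rz t'.rz := rfl
    have e9 : (PB.br t c).rz = t.rz := rfl
    have e10 : (PB.br t' c').rz = t'.rz := rfl
    have s2 : sg c.rz t.rz = sg t.rz c.rz := f_all.pot.sym _ _
    have s3 : sg c'.rz t'.rz = sg t'.rz c'.rz := f_all.pot.sym _ _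
    rw [e7, e8] at e3
    rw [e4, e5, gs_br, gs_br, e9, e10, s2, s3]
    simp only [ys, vfs]
    rw [e6, ← e3]
    linear_combination e1 + e2

/-! ### The filled vertices -/

/-- the sum of `cos (z / 2)` over the children -/
noncomputable def cr : PB → ℂ
  | .vx _ _ _ => 0
  | .br t c => cr t + Complex.cos (c.rz / 2)

lemma cr_near : ∀ p : PB, CE p → ‖cr p - p.nc‖ ≤ 23 / 1000 * p.nc
  | .vx _ _ _, _ => by simp [cr, PB.nc]
  | .br t c, h => by
    have h1 := cr_near t h.1
    have h2 := (cos_half (mem_D1 h.2.2)).2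
    have e : cr (.br t c) - ((PB.br t c).nc : ℂ) = (cr t - t.nc) +
        (Complex.cos (c.rz / 2) - 1) := by
      have : (PB.br t c).nc = t.nc + 1 := rfl
      rw [this]
      simp only [cr]
      push_cast
      ring
    have e2 : ((PB.br t c).nc : ℝ) = t.nc + 1 := by
      have : (PB.br t c).nc = t.nc + 1 := rfl
      rw [this]
      push_cast
      ring
    rw [e, e2]
    refine (norm_add_le _ _).trans ?_
    linarith

/-- the remainder of the equation at the root -/
noncomputable def RR (p p' : PB) : ℂ := p'.gs sg + p'.rz / (2 * π) * cr p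

/-- the remainder of the equation at a child -/
noncomputable def RC (t c t' c' : PB) : ℂ := RR c c' + rX (dat c c') (dat t t')

/-- its bound -/
noncomputable def R1 : PB → PB → ℝ
  | .br t c, .br t' c' => R1 t t' + ‖rX (dat t t') (dat c c')‖
  | _, _ => 0

lemma RR_le : ∀ p p' : PB, Ok2 p p' → ‖RR p p'‖ ≤ R1 p p'
  | .vx _ _ _, .vx _ _ _, _ => by simp [RR, R1, PB.gs, cr]
  | .vx _ _ _, .br _ _, h0 => h0.2.2.2.2.1.elim
  | .br _ _, .vx _ _ _, h0 => h0.2.2.2.2.1.elim
  | .br t c, .br t' c', h0 => by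
    obtain ⟨h1, -, -, -, -⟩ := ok2_br h0
    have e : RR (.br t c) (.br t' c') = RR t t' + rX (dat t t') (dat c c') := by
      unfold RR rX dat
      rw [gs_br]
      simp only [cr, PB.rz]
      ring
    rw [e]
    exact (norm_add_le _ _).trans (add_le_add (RR_le t t' h1) le_rfl)

/-- the sum over the filled vertices other than the root -/
noncomputable def V3 : PB → PB → ℝ
  | .br t c, .br t' c' => V3 t t' + V3 c c' + ee (dat c c') * ‖RC t c t' c'‖
  | _, _ => 0

theorem V3_le : ∀ p p' : PB, Ok2 p p' → V3 p p' + ee (dat p p') * R1 p p' ≤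
    ys (fun X Y => ee X * ‖rX X Y‖ + ee Y * ‖rX Y X‖) p p'
  | .vx _ _ _, .vx _ _ _, _ => by simp [V3, R1, ys]
  | .vx _ _ _, .br _ _, h0 => h0.2.2.2.2.1.elim
  | .br _ _, .vx _ _ _, h0 => h0.2.2.2.2.1.elim
  | .br t c, .br t' c', h0 => by
    obtain ⟨h1, h2, -, -, -⟩ := ok2_br h0
    have g1 := V3_le t t' h1
    have g2 := V3_le c c' h2
    have g3 : ‖RC t c t' c'‖ ≤ R1 c c' + ‖rX (dat c c') (dat t t')‖ :=
      (norm_add_le _ _).trans (add_le_add (RR_le c c' h2) le_rfl)
    have g4 := mul_le_mul_of_nonneg_left g3 (ee_nonneg (dat c c'))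
    rw [dat_br]
    simp only [V3, R1, ys]
    nlinarith

end Pool.Agent.U21.TL
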