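import Pool.Agent.U21.TL.Mono

/-!
# From one tree to a more twisted one
-/

set_option autoImplicit false
set_option linter.unusedVariables false

namespace Pool.Agent.U21.TL

open Finset Filter Topology
open Pool.Agent.TH563.UV
open Pool.Agent.N561
open Pool.Agent.N561.EK
open scoped Real

/-! ### Relations between labels -/

/-- one more half twist, or no change -/
def RS (A : ℕ) (lam : ℝ) (n : ℕ) (b : Bool) (a : ℤ) (b' : Bool) (a' : ℤ) : Prop :=
  (b = b' ∧ (b = false → a = a')) ∨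
    (b = false ∧ b' = false ∧ (A : ℤ) ≤ |a| ∧ (n : ℝ) ≤ lam * |(a : ℝ)| ∧
      ((0 < a ∧ a' = a + 1) ∨ (a < 0 ∧ a' = a - 1)))

/-- a new crossing circle, or no change -/
def RF (n : ℕ) (b : Bool) (a : ℤ) (b' : Bool) (a' : ℤ) : Prop :=
  (b = b' ∧ (b = false → a = a')) ∨ (b = false ∧ b' = true)

/-- more twists -/
def RM (A : ℕ) (lam : ℝ) (n : ℕ) (b : Bool) (a : ℤ) (b' : Bool) (a' : ℤ) : Prop :=
  (b = b' ∧ (b = false → a = a')) ∨
    (b = false ∧ (A : ℤ) ≤ |a| ∧ (n : ℝ) ≤ lam * |(a : ℝ)| ∧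
      (b' = true ∨ (b' = false ∧ ((0 < a ∧ a < a') ∨ (a < 0 ∧ a' < a)))))

lemma same_low {n : ℕ} {b : Bool} {a : ℤ} {b' : Bool} {a' : ℤ} (h : b = b' ∧ (b = false → a = a'))
    (z z' : ℂ) : dv b n a = dv b' n a' ∧ dl2 b' a' z' b a z = 0 ∧ dl2 b a z b' a' z' = 0 := by
  obtain ⟨rfl, h2⟩ := h
  cases b with
  | true => exact ⟨by simp [dv], by simp [dl2], by simp [dl2]⟩
  | false =>
    obtain rfl := h2 rfl
    exact ⟨rfl, by simp [dl2], by simp [dl2]⟩

/-- the error -/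
lemma kap {A : ℕ} (hA : 16 ≤ A) : 0 ≤ 12 / (A : ℝ) ^ 2 ∧ 12 / (A : ℝ) ^ 2 < 1 ∧
    0 ≤ 12 / (A : ℝ) ^ 2 / (1 - 12 / (A : ℝ) ^ 2) ∧
    12 / (A : ℝ) ^ 2 / (1 - 12 / (A : ℝ) ^ 2) * (A : ℝ) ^ 2 ≤ 12.6 := by
  have hA' : (16 : ℝ) ≤ A := by exact_mod_cast hA
  have hA2 : (256 : ℝ) ≤ (A : ℝ) ^ 2 := by nlinarith
  have h1 : 12 / (A : ℝ) ^ 2 ≤ 12 / 256 := div_le_div_of_nonneg_left (by norm_num) (by norm_num) hA2
  have h0 : 0 ≤ 12 / (A : ℝ) ^ 2 := by positivity
  have h2 : 0 < 1 - 12 / (A : ℝ) ^ 2 := by linarith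
  refine ⟨h0, by linarith, div_nonneg h0 h2.le, ?_⟩
  rw [div_mul_eq_mul_div, div_le_iff₀ h2, div_mul_cancel₀ _ (by positivity)]
  linarith

lemma rs_low {A : ℕ} (hA : 16 ≤ A) {lam : ℝ} (h0 : 0 ≤ lam) (h1 : lam ≤ A) :
    ∀ n b a b' a' z z', 1 ≤ n → RS A lam n b a b' a' → VB (12 / (A : ℝ) ^ 2) b a n z →
      VB (12 / (A : ℝ) ^ 2) b' a' n z' →
      (π ^ 2 - 13.5 * (1 + lam) / A) * (dv b n a - dv b' n a') ≤ dl2 b' a' z' b a z := by
  intro n b a b' a' z z' hn h hz hz'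
  rcases h with h | ⟨rfl, rfl, h16, hnl, hs⟩
  · obtain ⟨e1, e2, -⟩ := same_low (n := n) h z z'
    rw [e1, e2]
    simp
  · have hn' : (1 : ℝ) ≤ n := by exact_mod_cast hn
    have hA' : (16 : ℝ) ≤ A := by exact_mod_cast hA
    obtain ⟨k1, k2, k3, k4⟩ := kap hA
    have hAa : (A : ℝ) ≤ |(a : ℝ)| := by
      rw [← Int.cast_abs]
      exact_mod_cast h16
    obtain ⟨p1, p2⟩ := vb_est k1 k2 hn hz
    obtain ⟨q1, q2⟩ := vb_est k1 k2 hn hz'
    set k := 12 / (A : ℝ) ^ 2 / (1 - 12 / (A : ℝ) ^ 2) with hk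
    have e1 : dv false n a = n / ((a : ℝ) ^ 2 + n ^ 2) := by simp [dv]
    have e2 : dv false n a' = n / ((a' : ℝ) ^ 2 + n ^ 2) := by simp [dv]
    have e3 : dl2 false a' z' false a z = z'.im / 2 * ((a - a') * z.re) := by simp [dl2]
    rw [e1, e2, e3]
    rcases hs with ⟨ha, rfl⟩ | ⟨ha, rfl⟩
    · have ha' : (0 : ℝ) < a := by exact_mod_cast ha
      rw [abs_of_pos ha'] at hAa hnl
      push_cast at q1 q2 ⊢
      have := num_low (y := z'.im) (X := -z.re) hA' hAa hn' h0 h1 hnl k3 k4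
        (by linarith [(abs_le.1 q1).1]) (by linarith [(abs_le.1 p2).2])
      refine this.trans (le_of_eq ?_)
      ring
    · have ha' : (a : ℝ) < 0 := by exact_mod_cast ha
      rw [abs_of_neg ha'] at hAa hnl
      push_cast at q1 q2 ⊢
      have e4 : ((a : ℝ) - 1) ^ 2 = (-(a : ℝ) + 1) ^ 2 := by ring
      have e5 : (a : ℝ) ^ 2 = (-(a : ℝ)) ^ 2 := by ring
      rw [e4] at q1 q2 ⊢
      rw [e5] at p1 p2 ⊢
      have := num_low (y := z'.im) (X := z.re) hA' hAa hn' h0 h1 hnl k3 k4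
        (by linarith [(abs_le.1 q1).1]) (by
          have h3 := (abs_le.1 p2).1
          have h4 : 2 * π * -(a : ℝ) / ((-(a : ℝ)) ^ 2 + n ^ 2) =
            -(2 * π * a / ((-(a : ℝ)) ^ 2 + n ^ 2)) := by ring
          rw [h4]
          linarith)
      refine this.trans (le_of_eq ?_)
      ring

lemma rs_upp {A : ℕ} (hA : 16 ≤ A) {lam : ℝ} (h0 : 0 ≤ lam) (h1 : lam ≤ A) :
    ∀ n b a b' a' z z', 1 ≤ n → RS A lam n b a b' a' → VB (12 / (A : ℝ) ^ 2) b a n z →
      VB (12 / (A : ℝ) ^ 2) b' a' n z' →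
      -dl2 b a z b' a' z' ≤ (π ^ 2 + 13.5 * (1 + lam) / A) * (dv b n a - dv b' n a') := by
  intro n b a b' a' z z' hn h hz hz'
  rcases h with h | ⟨rfl, rfl, h16, hnl, hs⟩
  · obtain ⟨e1, -, e2⟩ := same_low (n := n) h z z'
    rw [e1, e2]
    simp
  · have hn' : (1 : ℝ) ≤ n := by exact_mod_cast hn
    have hA' : (16 : ℝ) ≤ A := by exact_mod_cast hA
    obtain ⟨k1, k2, k3, k4⟩ := kap hA
    have hAa : (A : ℝ) ≤ |(a : ℝ)| := by
      rw [← Int.cast_abs]
      exact_mod_cast h16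
    obtain ⟨p1, p2⟩ := vb_est k1 k2 hn hz
    obtain ⟨q1, q2⟩ := vb_est k1 k2 hn hz'
    set k := 12 / (A : ℝ) ^ 2 / (1 - 12 / (A : ℝ) ^ 2) with hk
    have hy0 := (hz rfl).1.le
    have e1 : dv false n a = n / ((a : ℝ) ^ 2 + n ^ 2) := by simp [dv]
    have e2 : dv false n a' = n / ((a' : ℝ) ^ 2 + n ^ 2) := by simp [dv]
    have e3 : dl2 false a z false a' z' = z.im / 2 * ((a' - a) * z'.re) := by simp [dl2]
    rw [e1, e2, e3]
    rcases hs with ⟨ha, rfl⟩ | ⟨ha, rfl⟩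
    · have ha' : (0 : ℝ) < a := by exact_mod_cast ha
      rw [abs_of_pos ha'] at hAa hnl
      push_cast at q1 q2 ⊢
      have := num_upp (y := z.im) (X := -z'.re) hA' hAa hn' h0 h1 hnl k3 k4 hy0
        (by linarith [(abs_le.1 p1).2]) (by linarith [(abs_le.1 q2).1])
      refine le_trans (le_of_eq ?_) this
      ring
    · have ha' : (a : ℝ) < 0 := by exact_mod_cast ha
      rw [abs_of_neg ha'] at hAa hnl
      push_cast at q1 q2 ⊢
      have e4 : ((a : ℝ) - 1) ^ 2 = (-(a : ℝ) + 1) ^ 2 := by ring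
      have e5 : (a : ℝ) ^ 2 = (-(a : ℝ)) ^ 2 := by ring
      rw [e4] at q1 q2 ⊢
      rw [e5] at p1 p2 ⊢
      have := num_upp (y := z.im) (X := z'.re) hA' hAa hn' h0 h1 hnl k3 k4 hy0
        (by linarith [(abs_le.1 p1).2]) (by
          have h3 := (abs_le.1 q2).2
          have h4 : 2 * π * (-(a : ℝ) + 1) / ((-(a : ℝ) + 1) ^ 2 + n ^ 2) =
            -(2 * π * (a - 1) / ((-(a : ℝ) + 1) ^ 2 + n ^ 2)) := by ring
          rw [h4]
          linarith)
      refine le_trans (le_of_eq ?_) this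
      ring

lemma rf_low {κ : ℝ} : ∀ n b a b' a' z z', 1 ≤ n → RF n b a b' a' → VB κ b a n z →
    VB κ b' a' n z' → (0 : ℝ) * (dv b n a - dv b' n a') ≤ dl2 b' a' z' b a z := by
  intro n b a b' a' z z' hn h hz hz'
  rw [zero_mul]
  rcases h with h | ⟨rfl, rfl⟩
  · obtain ⟨-, e2, -⟩ := same_low (n := n) h z z'
    rw [e2]
  · simp [dl2]

lemma rf_upp {A : ℕ} (hA : 16 ≤ A) : ∀ n b a b' a' z z', 1 ≤ n → RF n b a b' a' →
    VB (12 / (A : ℝ) ^ 2) b a n z → VB (12 / (A : ℝ) ^ 2) b' a' n z' →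
      -dl2 b a z b' a' z' ≤ 21 * (dv b n a - dv b' n a') := by
  intro n b a b' a' z z' hn h hz hz'
  rcases h with h | ⟨rfl, rfl⟩
  · obtain ⟨e1, -, e2⟩ := same_low (n := n) h z z'
    rw [e1, e2]
    simp
  · obtain ⟨k1, k2, k3, k4⟩ := kap hA
    obtain ⟨p1, p2⟩ := vb_est k1 k2 hn hz
    have hA' : (16 : ℝ) ≤ A := by exact_mod_cast hA
    set k := 12 / (A : ℝ) ^ 2 / (1 - 12 / (A : ℝ) ^ 2) with hk
    have hk5 : k ≤ 0.05 := by nlinarith
    have hn' : (1 : ℝ) ≤ n := by exact_mod_cast hn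
    have hpi := Real.pi_gt_d2
    have hpi2 := Real.pi_lt_d2
    have hm : 0 < (a : ℝ) ^ 2 + (n : ℝ) ^ 2 := by positivity
    have e1 : dv false n a - dv true n a' = n / ((a : ℝ) ^ 2 + n ^ 2) := by simp [dv]
    have e2 : -dl2 false a z true a' z' = π * z.im := by simp [dl2]
    rw [e1, e2]
    have h1 := (abs_le.1 p1).2
    have hq : 0 ≤ n / ((a : ℝ) ^ 2 + n ^ 2) := by positivity
    have h2 : z.im ≤ 2.1 * π * (n / ((a : ℝ) ^ 2 + n ^ 2)) := by
      have e3 : 2 * π * n / ((a : ℝ) ^ 2 + n ^ 2) + 2 * π * n * k / ((a : ℝ) ^ 2 + n ^ 2) =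
        (2 + 2 * k) * (π * (n / ((a : ℝ) ^ 2 + n ^ 2))) := by ring
      have e4 : (2 + 2 * k) * (π * (n / ((a : ℝ) ^ 2 + n ^ 2))) ≤
          2.1 * (π * (n / ((a : ℝ) ^ 2 + n ^ 2))) :=
        mul_le_mul_of_nonneg_right (by linarith) (by positivity)
      linarith
    have h3 : π * z.im ≤ π * (2.1 * π * (n / ((a : ℝ) ^ 2 + n ^ 2))) :=
      mul_le_mul_of_nonneg_left h2 (by linarith)
    refine h3.trans ?_
    have h4 : π * (2.1 * π * (n / ((a : ℝ) ^ 2 + n ^ 2))) =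
      2.1 * π ^ 2 * (n / ((a : ℝ) ^ 2 + n ^ 2)) := by ring
    rw [h4]
    apply mul_le_mul_of_nonneg_right _ hq
    nlinarith

/-! ### The path -/

/-- the sign -/
def sg1 (a : ℤ) : ℤ := if 0 < a then 1 else -1

/-- the weight after `k` steps -/
def upv (k : ℕ) (b : Bool) (a : ℤ) (b' : Bool) (a' : ℤ) : ℤ :=
  if b = true then a else if b' = true then a + k * sg1 a else
    a + (min k (a' - a).natAbs : ℕ) * sg1 a

/-- the tree after `k` steps -/
def up (k : ℕ) : Tb → Tb → Tb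
  | .vx b a, .vx b' a' => .vx b (upv k b a b' a')
  | .br t c, .br t' c' => .br (up k t t') (up k c c')
  | t, _ => t

lemma upv_zero (b : Bool) (a : ℤ) (b' : Bool) (a' : ℤ) : upv 0 b a b' a' = a := by
  unfold upv
  split_ifs <;> simp

lemma sg1_abs (a : ℤ) (k : ℕ) (ha : a ≠ 0) : |a + k * sg1 a| = |a| + k := by
  unfold sg1
  rcases lt_or_gt_of_ne ha with h | h
  · rw [if_neg (by omega), abs_of_neg h, abs_of_neg (by omega)]
    ring
  · rw [if_pos h, abs_of_pos h, abs_of_pos (by omega)]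
    ring

lemma upv_form {A : ℕ} {lam : ℝ} {n : ℕ} {a : ℤ} {b' : Bool} {a' : ℤ} (k : ℕ)
    (h : RM A lam n false a b' a') : ∃ j : ℕ, upv k false a b' a' = a + j * sg1 a := by
  unfold upv
  rw [if_neg (by simp)]
  split_ifs
  · exact ⟨k, rfl⟩
  · exact ⟨_, rfl⟩

lemma rs_succ {A : ℕ} (hA : 16 ≤ A) {lam : ℝ} (h0 : 0 ≤ lam) {n : ℕ} {a : ℤ} {j : ℕ}
    (h16 : (A : ℤ) ≤ |a|)
    (hn : (n : ℝ) ≤ lam * |(a : ℝ)|) :
    RS A lam n false (a + j * sg1 a) false (a + (j + 1 : ℕ) * sg1 a) := by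
  have ha : a ≠ 0 := by
    rintro rfl
    rw [abs_zero] at h16
    omega
  refine Or.inr ⟨rfl, rfl, ?_, ?_, ?_⟩
  · rw [sg1_abs a j ha]
    omega
  · refine hn.trans (mul_le_mul_of_nonneg_left ?_ h0)
    rw [← Int.cast_abs, ← Int.cast_abs, sg1_abs a j ha]
    push_cast
    linarith [(Nat.cast_nonneg j : (0 : ℝ) ≤ j)]
  · unfold sg1
    rcases lt_or_gt_of_ne ha with h | h
    · rw [if_neg (by omega)]
      right
      constructor
      · omega
      · push_cast; ring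
    · rw [if_pos h]
      left
      constructor
      · omega
      · push_cast; ring

lemma rm_step {A : ℕ} (hA : 16 ≤ A) {lam : ℝ} (h0 : 0 ≤ lam) {n : ℕ} {b : Bool} {a : ℤ} {b' : Bool} {a' : ℤ} (k : ℕ)
    (h : RM A lam n b a b' a') : RS A lam n b (upv k b a b' a') b (upv (k + 1) b a b' a') := by
  rcases h with ⟨rfl, h⟩ | ⟨rfl, h16, hn, h⟩
  · refine Or.inl ⟨rfl, fun hb => ?_⟩
    obtain rfl := h hb
    simp [upv, hb]
  · rcases h with rfl | ⟨rfl, h⟩
    · have := rs_succ hA h0 (j := k) h16 hn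
      simpa [upv] using this
    · simp only [upv]
      rw [if_neg (by simp), if_neg (by simp), if_neg (by simp), if_neg (by simp)]
      by_cases hk : k < (a' - a).natAbs
      · rw [min_eq_left hk.le, min_eq_left (by omega)]
        exact rs_succ hA h0 h16 hn
      · rw [min_eq_right (by omega), min_eq_right (by omega)]
        exact Or.inl ⟨rfl, fun _ => rfl⟩

lemma rm_fin {A : ℕ} {lam : ℝ} {n : ℕ} {b : Bool} {a : ℤ} {b' : Bool} {a' : ℤ}
    (h : RM A lam n b a b' a') : ∃ K : ℕ, ∀ k : ℕ, K ≤ k → RF n b (upv k b a b' a') b' a' := by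
  rcases h with ⟨rfl, h⟩ | ⟨rfl, h16, hn, h⟩
  · refine ⟨0, fun k _ => Or.inl ⟨rfl, fun hb => ?_⟩⟩
    obtain rfl := h hb
    simp [upv, hb]
  · rcases h with rfl | ⟨rfl, h⟩
    · exact ⟨0, fun k _ => Or.inr ⟨rfl, rfl⟩⟩
    · refine ⟨(a' - a).natAbs, fun k hk => Or.inl ⟨rfl, fun _ => ?_⟩⟩
      simp only [upv]
      rw [if_neg (by simp), if_neg (by simp), min_eq_right hk]
      unfold sg1
      rcases h with ⟨h1, h2⟩ | ⟨h1, h2⟩
      · rw [if_pos h1]
        omega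
      · rw [if_neg (by omega)]
        omega

lemma rm_lim {A : ℕ} (hA : 16 ≤ A) {lam : ℝ} {n : ℕ} {b : Bool} {a : ℤ} {b' : Bool} {a' : ℤ} (hn1 : 1 ≤ n)
    (h : RM A lam n b a b' a') :
    Tendsto (fun k => dv b n (upv k b a b' a')) atTop (𝓝 (dv b' n a')) := by
  obtain ⟨K, hK⟩ := rm_fin h
  rcases h with ⟨rfl, h⟩ | ⟨rfl, h16, hn, h⟩
  · apply tendsto_const_nhds.congr'
    filter_upwards [eventually_ge_atTop K] with k hk
    cases b with
    | true => simp [dv]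
    | false =>
      rcases hK k hk with ⟨-, h2⟩ | ⟨-, h2⟩
      · rw [h2 rfl]
      · exact absurd h2 (by simp)
  · rcases h with rfl | ⟨rfl, h⟩
    · have ha : a ≠ 0 := by
        rintro rfl
        rw [abs_zero] at h16
        omega
      have e0 : dv true n a' = 0 := by simp [dv]
      rw [e0]
      have h1 : Tendsto (fun k : ℕ => (n : ℝ) / (k : ℝ)) atTop (𝓝 0) :=
        tendsto_const_div_atTop_nhds_zero_nat _
      refine squeeze_zero' (Eventually.of_forall fun k => ?_) ?_ h1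
      · simp only [dv]
        rw [if_neg (by simp)]
        positivity
      · filter_upwards [eventually_ge_atTop 1] with k hk
        have hk' : (1 : ℝ) ≤ k := by exact_mod_cast hk
        have e1 : upv k false a true a' = a + k * sg1 a := by simp [upv]
        have e2 : dv false n (upv k false a true a') =
            n / (((a + k * sg1 a : ℤ) : ℝ) ^ 2 + n ^ 2) := by
          rw [e1]
          simp [dv]
        rw [e2]
        apply div_le_div_of_nonneg_left (by positivity) (by positivity)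
        have e3 : (((a + k * sg1 a : ℤ) : ℝ)) ^ 2 = (|(a : ℝ)| + k) ^ 2 := by
          rw [← sq_abs, ← Int.cast_abs, sg1_abs a k ha]
          push_cast
          rfl
        rw [e3]
        nlinarith [abs_nonneg (a : ℝ), sq_nonneg (n : ℝ)]
    · apply tendsto_const_nhds.congr'
      filter_upwards [eventually_ge_atTop K] with k hk
      rcases hK k hk with ⟨-, h2⟩ | ⟨-, h2⟩
      · rw [h2 rfl]
      · exact absurd h2 (by simp)

/-! ### Trees -/

lemma up_root (k : ℕ) {R : ℕ → Bool → ℤ → Bool → ℤ → Prop} : ∀ t t' : Tb, RelB R t t' →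
    (up k t t').bl = t.bl ∧ (up k t t').wt = upv k t.bl t.wt t'.bl t'.wt ∧
    (up k t t').nc = t.nc
  | .vx _ _, .vx _ _, _ => ⟨rfl, rfl, rfl⟩
  | .vx _ _, .br _ _, h => h.elim
  | .br _ _, .vx _ _, h => h.elim
  | .br t c, .br t' c', h => by
    obtain ⟨h1, h2, h3⟩ := up_root k t t' h.1
    refine ⟨h1, h2, ?_⟩
    show (up k t t').nc + 1 = t.nc + 1
    rw [h3]

lemma up_zero {R : ℕ → Bool → ℤ → Bool → ℤ → Prop} : ∀ t t' : Tb, RelB R t t' → up 0 t t' = t
  | .vx _ _, .vx _ _, _ => by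
    simp only [up]
    rw [upv_zero]
  | .vx _ _, .br _ _, h => h.elim
  | .br _ _, .vx _ _, h => h.elim
  | .br t c, .br t' c', h => by
    simp only [up]
    rw [up_zero t t' h.1, up_zero c c' h.2.1]

lemma up_step {A : ℕ} (hA : 16 ≤ A) {lam : ℝ} (h0 : 0 ≤ lam) (k : ℕ) :
    ∀ t t' : Tb, RelB (RM A lam) t t' →
    RelB (RS A lam) (up k t t') (up (k + 1) t t')
  | .vx _ _, .vx _ _, _ => trivial
  | .vx _ _, .br _ _, h => h.elim
  | .br _ _, .vx _ _, h => h.elim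
  | .br t c, .br t' c', h => by
    obtain ⟨a1, a2, a3⟩ := up_root k c c' h.2.1
    obtain ⟨b1, b2, b3⟩ := up_root (k + 1) c c' h.2.1
    refine ⟨up_step hA h0 k t t' h.1, up_step hA h0 k c c' h.2.1, ?_⟩
    rw [a1, a2, a3, b1, b2]
    exact rm_step hA h0 k h.2.2

lemma up_fin {A : ℕ} {lam : ℝ} : ∀ t t' : Tb, RelB (RM A lam) t t' → ∃ K : ℕ, ∀ k : ℕ, K ≤ k →
    RelB RF (up k t t') t'
  | .vx _ _, .vx _ _, _ => ⟨0, fun _ _ => trivial⟩
  | .vx _ _, .br _ _, h => h.elim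
  | .br _ _, .vx _ _, h => h.elim
  | .br t c, .br t' c', h => by
    obtain ⟨K1, k1⟩ := up_fin t t' h.1
    obtain ⟨K2, k2⟩ := up_fin c c' h.2.1
    obtain ⟨K3, k3⟩ := rm_fin h.2.2
    refine ⟨max K1 (max K2 K3), fun k hk => ?_⟩
    obtain ⟨a1, a2, a3⟩ := up_root k c c' h.2.1
    refine ⟨k1 k ((le_max_left _ _).trans hk),
      k2 k (((le_max_left _ _).trans (le_max_right _ _)).trans hk), ?_⟩
    rw [a1, a2, a3]
    exact k3 k (((le_max_right _ _).trans (le_max_right _ _)).trans hk)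

lemma up_lim {A : ℕ} (hA : 16 ≤ A) {lam : ℝ} : ∀ t t' : Tb, RelB (RM A lam) t t' →
    Tendsto (fun k => dfB (up k t t')) atTop (𝓝 (dfB t'))
  | .vx _ _, .vx _ _, _ => by
    simp only [up, dfB]
    exact tendsto_const_nhds
  | .vx _ _, .br _ _, h => h.elim
  | .br _ _, .vx _ _, h => h.elim
  | .br t c, .br t' c', h => by
    have e1 := up_lim hA t t' h.1
    have e2 := up_lim hA c c' h.2.1
    have e3 := rm_lim hA (Nat.succ_le_succ (Nat.zero_le _)) h.2.2
    have en := relB_nc _ _ h.2.1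
    simp only [up, dfB]
    rw [← en]
    refine (e1.add e2).add (e3.congr fun k => ?_)
    obtain ⟨a1, a2, a3⟩ := up_root k c c' h.2.1
    rw [a1, a2, a3]

lemma okA_of {A : ℕ} {R : ℕ → Bool → ℤ → Bool → ℤ → Prop}
    (h : ∀ n b a b' a', R n b a b' a' → (b = false → LA A n a) → (b' = false → LA A n a')) :
    ∀ t t' : Tb, RelB R t t' → OkA A t → OkA A t'
  | .vx _ _, .vx _ _, _, _ => trivial
  | .vx _ _, .br _ _, h, _ => h.elim
  | .br _ _, .vx _ _, h, _ => h.elim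
  | .br t c, .br t' c', hR, hO => by
    refine ⟨okA_of h t t' hR.1 hO.1, okA_of h c c' hR.2.1 hO.2.1, ?_⟩
    rw [← relB_nc _ _ hR.2.1]
    exact h _ _ _ _ _ hR.2.2 hO.2.2

lemma cls_of {A : ℕ} {R : ℕ → Bool → ℤ → Bool → ℤ → Prop}
    (h : ∀ n b a b' a', R n b a b' a' → (b = false → LA A n a) → (b' = false → LA A n a'))
    {t t' : Tb} (hR : RelT R t t') (ht : Cls A t) : Cls A t' := by
  refine ⟨okA_of h t t' hR.1 ht.1, ?_⟩
  rw [← relB_nc _ _ hR.1]
  exact h _ _ _ _ _ hR.2 ht.2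

lemma rs_lg {A : ℕ} {lam : ℝ} : ∀ n b a b' a', RS A lam n b a b' a' → (b = false → LA A n a) →
    (b' = false → LA A n a') := by
  intro n b a b' a' h hl hb'
  rcases h with ⟨rfl, h⟩ | ⟨rfl, rfl, h16, -, h⟩
  · rw [← h hb']
    exact hl hb'
  · left
    rcases h with ⟨h1, rfl⟩ | ⟨h1, rfl⟩
    · rw [abs_of_pos h1] at h16
      rw [abs_of_pos (by omega)]
      omega
    · rw [abs_of_neg h1] at h16
      rw [abs_of_neg (by omega)]
      omega

lemma rm_lg {A : ℕ} {lam : ℝ} : ∀ n b a b' a', RM A lam n b a b' a' → (b = false → LA A n a) →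
    (b' = false → LA A n a') := by
  intro n b a b' a' h hl hb'
  rcases h with ⟨rfl, h⟩ | ⟨rfl, h16, -, h⟩
  · rw [← h hb']
    exact hl hb'
  · left
    rcases h with rfl | ⟨rfl, h⟩
    · exact absurd hb' (by simp)
    · rcases h with ⟨h1, h2⟩ | ⟨h1, h2⟩
      · rw [abs_of_pos h1] at h16
        rw [abs_of_pos (by omega)]
        omega
      · rw [abs_of_neg h1] at h16
        rw [abs_of_neg (by omega)]
        omega

/-- **the estimate** -/
theorem main_law {A : ℕ} (hA : 16 ≤ A) {lam : ℝ} (h0 : 0 ≤ lam) (h1 : lam ≤ A) {t t' : Tb}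
    (ht : Cls A t) (hn : 1 ≤ t.nc) (hR : RelT (RM A lam) t t') :
    (2 * π ^ 2 - 27 * (1 + lam) / A) * (dfT t - dfT t') ≤ VT t' - VT t ∧
      VT t' - VT t ≤ (2 * π ^ 2 + 27 * (1 + lam) / A) * (dfT t - dfT t') := by
  have hstep : ∀ k : ℕ, RelT (RS A lam) (up k t t') (up (k + 1) t t') := by
    intro k
    obtain ⟨a1, a2, a3⟩ := up_root k t t' hR.1
    obtain ⟨b1, b2, b3⟩ := up_root (k + 1) t t' hR.1
    refine ⟨up_step hA h0 k t t' hR.1, ?_⟩
    rw [a1, a2, a3, b1, b2]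
    exact rm_step hA h0 k hR.2
  have hz := up_zero t t' hR.1
  have hcls : ∀ k : ℕ, Cls A (up k t t') := by
    intro k
    induction k with
    | zero => rw [hz]; exact ht
    | succ k ih => exact cls_of rs_lg (hstep k) ih
  have hnk : ∀ k : ℕ, 1 ≤ (up k t t').nc := by
    intro k
    rw [(up_root k t t' hR.1).2.2]
    exact hn
  have htel : ∀ k : ℕ, (2 * π ^ 2 - 27 * (1 + lam) / A) * (dfT t - dfT (up k t t')) ≤
      VT (up k t t') - VT t ∧
      VT (up k t t') - VT t ≤ (2 * π ^ 2 + 27 * (1 + lam) / A) * (dfT t - dfT (up k t t')) := by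
    intro k
    induction k with
    | zero => rw [hz]; simp
    | succ k ih =>
      obtain ⟨e1, e2⟩ := two hA (rs_low hA h0 h1) (rs_upp hA h0 h1) (hcls k) (hcls (k + 1)) (hnk k) (hstep k)
      have e3 : 2 * (π ^ 2 - 13.5 * (1 + lam) / A) = 2 * π ^ 2 - 27 * (1 + lam) / A := by ring
      have e4 : 2 * (π ^ 2 + 13.5 * (1 + lam) / A) = 2 * π ^ 2 + 27 * (1 + lam) / A := by ring
      rw [e3] at e1
      rw [e4] at e2
      constructor
      · linarith [ih.1]
      · linarith [ih.2]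
  have hcls' : Cls A t' := cls_of rm_lg hR ht
  have hdlim : Tendsto (fun k => dfT (up k t t')) atTop (𝓝 (dfT t')) := by
    have e1 := up_lim hA t t' hR.1
    have en := relB_nc _ _ hR.1
    have e2 := rm_lim hA hn hR.2
    unfold dfT
    rw [← en]
    refine e1.add (e2.congr fun k => ?_)
    obtain ⟨a1, a2, a3⟩ := up_root k t t' hR.1
    rw [a1, a2, a3]
  obtain ⟨K1, k1⟩ := up_fin t t' hR.1
  obtain ⟨K2, k2⟩ := rm_fin hR.2
  have hfin : ∀ k : ℕ, max K1 K2 ≤ k → 0 ≤ VT t' - VT (up k t t') ∧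
      VT t' - VT (up k t t') ≤ 42 * (dfT (up k t t') - dfT t') := by
    intro k hk
    obtain ⟨a1, a2, a3⟩ := up_root k t t' hR.1
    have hr : RelT RF (up k t t') t' := by
      refine ⟨k1 k ((le_max_left _ _).trans hk), ?_⟩
      rw [a1, a2, a3]
      exact k2 k ((le_max_right _ _).trans hk)
    obtain ⟨e1, e2⟩ := two hA rf_low (rf_upp hA) (hcls k) hcls' (hnk k) hr
    constructor
    · linarith
    · linarith
  have hvlim : Tendsto (fun k => VT (up k t t')) atTop (𝓝 (VT t')) := by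
    have e1 : Tendsto (fun k => VT t' - 42 * (dfT (up k t t') - dfT t')) atTop (𝓝 (VT t')) := by
      have := (hdlim.sub_const (dfT t')).const_mul 42
      rw [sub_self, mul_zero] at this
      simpa using this.const_sub (VT t')
    refine tendsto_of_tendsto_of_tendsto_of_le_of_le' e1 tendsto_const_nhds ?_ ?_
    · filter_upwards [eventually_ge_atTop (max K1 K2)] with k hk
      linarith [(hfin k hk).2]
    · filter_upwards [eventually_ge_atTop (max K1 K2)] with k hk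
      linarith [(hfin k hk).1]
  constructor
  · exact le_of_tendsto_of_tendsto' ((hdlim.const_sub (dfT t)).const_mul _)
      (hvlim.sub_const (VT t)) fun k => (htel k).1
  · exact le_of_tendsto_of_tendsto' (hvlim.sub_const (VT t))
      ((hdlim.const_sub (dfT t)).const_mul _) fun k => (htel k).2

end Pool.Agent.U21.TL
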