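import Pool.Agent.U21.TL.Est

/-!
# Second order estimates of the potential of an edge
-/

set_option autoImplicit false
set_option linter.unusedVariables false

namespace Pool.Agent.U21.TL

open Finset Filter Topology
open Pool.Agent.N561
open Pool.Agent.N561.EK
open Pool.Agent.W711.HT (bet)
open scoped Real

/-! ### Elementary functions -/

lemma cexp_tay {x : ℂ} (h : ‖x‖ ≤ 1) :
    ‖Complex.exp x - (1 + x + x ^ 2 / 2 + x ^ 3 / 6)‖ ≤ 5 / 96 * ‖x‖ ^ 4 := by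
  have h1 := Complex.exp_bound h (n := 4) (by norm_num)
  have e1 : ∑ m ∈ range 4, x ^ m / (m.factorial : ℂ) = 1 + x + x ^ 2 / 2 + x ^ 3 / 6 := by
    simp [Finset.sum_range_succ, Nat.factorial]
  rw [e1] at h1
  refine h1.trans (le_of_eq ?_)
  simp [Nat.factorial]
  ring

lemma ccos_tay {x : ℂ} (h : ‖x‖ ≤ 1) :
    ‖Complex.cos x - (1 - x ^ 2 / 2)‖ ≤ 5 / 96 * ‖x‖ ^ 4 := by
  have h1 : ‖x * Complex.I‖ ≤ 1 := by rwa [norm_mul, Complex.norm_I, mul_one]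
  have h2 : ‖-x * Complex.I‖ ≤ 1 := by rwa [norm_mul, Complex.norm_I, mul_one, norm_neg]
  have g1 := cexp_tay h1
  have g2 := cexp_tay h2
  rw [norm_mul, Complex.norm_I, mul_one] at g1 g2
  rw [norm_neg] at g2
  have e : Complex.cos x - (1 - x ^ 2 / 2) =
      ((Complex.exp (x * Complex.I) - (1 + x * Complex.I + (x * Complex.I) ^ 2 / 2 +
        (x * Complex.I) ^ 3 / 6)) + (Complex.exp (-x * Complex.I) -
        (1 + -x * Complex.I + (-x * Complex.I) ^ 2 / 2 + (-x * Complex.I) ^ 3 / 6))) / 2 := by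
    rw [Complex.cos]
    have hI : (Complex.I : ℂ) ^ 2 = -1 := Complex.I_sq
    linear_combination (x ^ 2 / 2) * hI
  rw [e, norm_div, Complex.norm_two]
  have := norm_add_le (Complex.exp (x * Complex.I) - (1 + x * Complex.I + (x * Complex.I) ^ 2 / 2 +
        (x * Complex.I) ^ 3 / 6)) (Complex.exp (-x * Complex.I) -
        (1 + -x * Complex.I + (-x * Complex.I) ^ 2 / 2 + (-x * Complex.I) ^ 3 / 6))
  linarith

/-- the quotient near `0`, second order -/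
lemma q_sec {a b : ℂ} (ha : ‖a‖ ≤ 21 / 100) (hb : ‖b‖ ≤ 21 / 100) :
    ‖Complex.cos b / (Complex.cos a * Pool.Agent.N999.EK.sr a b) - (1 + a ^ 2 / 2 - b ^ 2 / 2)‖ ≤
      7 / 20 * (‖a‖ ^ 2 + ‖b‖ ^ 2) ^ 2 := by
  set A : ℝ := ‖a‖ ^ 2 with hA
  set B : ℝ := ‖b‖ ^ 2 with hB
  have hA0 : 0 ≤ A := sq_nonneg _
  have hB0 : 0 ≤ B := sq_nonneg _
  have hA1 : A ≤ 441 / 10000 := by
    rw [hA]
    nlinarith [norm_nonneg a]
  have hB1 : B ≤ 441 / 10000 := by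
    rw [hB]
    nlinarith [norm_nonneg b]
  have hA4 : ‖a‖ ^ 4 = A ^ 2 := by rw [hA]; ring
  have hB4 : ‖b‖ ^ 4 = B ^ 2 := by rw [hB]; ring
  have ca := ccos_tay (x := a) (by linarith)
  have cb := ccos_tay (x := b) (by linarith)
  rw [hA4] at ca
  rw [hB4] at cb
  have hsin : ∀ {c : ℂ} {T : ℝ}, T = ‖c‖ ^ 2 → T ≤ 441 / 10000 →
      ‖Complex.sin c‖ ^ 2 ≤ 105 / 100 * T := by
    intro c T hT hT1
    have hT0 : 0 ≤ T := by rw [hT]; exact sq_nonneg _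
    have him : c.im ^ 2 ≤ T := by
      rw [hT, Complex.sq_norm, Complex.normSq_apply]
      nlinarith [sq_nonneg c.re]
    refine (Pool.Agent.N999.EK.sin_disc (R := T) (le_of_eq hT.symm) him (by linarith)).trans ?_
    have : T ^ 2 / (1 - T) ≤ 5 / 100 * T := by
      rw [div_le_iff₀ (by linarith)]
      nlinarith
    linarith
  have hr : ‖1 - Pool.Agent.N999.EK.sr a b‖ ≤ 552 / 1000 * (A * B) := by
    refine Pool.Agent.N999.EK.r_bd (hsin hA hA1) (hsin hB hB1) ?_ ?_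
    · nlinarith
    · have h1 : 0 ≤ A * B := mul_nonneg hA0 hB0
      have h2 : A * B ≤ 441 / 10000 * (441 / 10000) := mul_le_mul hA1 hB1 hB0 (by norm_num)
      nlinarith [mul_nonneg h1 h1]
  set α : ℂ := Complex.cos a - (1 - a ^ 2 / 2) with hα
  set β : ℂ := Complex.cos b - (1 - b ^ 2 / 2) with hβ
  set r : ℂ := Pool.Agent.N999.EK.sr a b with hrd
  have na : ‖a ^ 2‖ = A := by rw [norm_pow]
  have nb : ‖b ^ 2‖ = B := by rw [norm_pow]
  have hcos : ‖Complex.cos a - 1‖ ≤ 52 / 100 * A := by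
    have e : Complex.cos a - 1 = α - a ^ 2 / 2 := by rw [hα]; ring
    rw [e]
    refine (norm_sub_le _ _).trans ?_
    rw [norm_div, Complex.norm_two, na]
    nlinarith
  have n1 : 977 / 1000 ≤ ‖Complex.cos a‖ := by
    have h1 : ‖1 - Complex.cos a‖ ≤ 23 / 1000 := by
      rw [norm_sub_rev]
      linarith
    linarith [Pool.Agent.N999.EK.norm_ge_of_sub h1]
  have n2 : ‖Complex.cos a‖ ≤ 1023 / 1000 := by
    have e : Complex.cos a = (Complex.cos a - 1) + 1 := by ring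
    rw [e]
    refine (norm_add_le _ _).trans ?_
    rw [norm_one]
    linarith
  have hAB : A * B ≤ 441 / 10000 * (441 / 10000) := mul_le_mul hA1 hB1 hB0 (by norm_num)
  have n3 : 998 / 1000 ≤ ‖r‖ := by
    have h1 : ‖1 - r‖ ≤ 2 / 1000 := by
      refine hr.trans ?_
      nlinarith
    linarith [Pool.Agent.N999.EK.norm_ge_of_sub h1]
  have c0 : Complex.cos a ≠ 0 := by
    intro h
    rw [h, norm_zero] at n1
    norm_num at n1
  have r0 : r ≠ 0 := by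
    intro h
    rw [h, norm_zero] at n3
    norm_num at n3
  set s : ℂ := 1 + (a ^ 2 - b ^ 2) / 2 with hs
  have ns : ‖s‖ ≤ 10441 / 10000 := by
    rw [hs]
    refine (norm_add_le _ _).trans ?_
    rw [norm_one, norm_div, Complex.norm_two]
    have := norm_sub_le (a ^ 2) (b ^ 2)
    rw [na, nb] at this
    linarith
  have e1 : Complex.cos b / (Complex.cos a * r) - (1 + a ^ 2 / 2 - b ^ 2 / 2) =
      (β + (a ^ 4 / 4 - a ^ 2 * b ^ 2 / 4) - α * s + (1 - r) * Complex.cos a * s) /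
        (Complex.cos a * r) := by
    have e2 : β + (a ^ 4 / 4 - a ^ 2 * b ^ 2 / 4) - α * s + (1 - r) * Complex.cos a * s =
        Complex.cos b - Complex.cos a * r * (1 + a ^ 2 / 2 - b ^ 2 / 2) := by
      rw [hα, hβ, hs]
      ring
    rw [e2]
    field_simp
  rw [e1, norm_div, norm_mul]
  have hden : 975 / 1000 ≤ ‖Complex.cos a‖ * ‖r‖ := by
    have := mul_le_mul n1 n3 (by norm_num) (norm_nonneg (Complex.cos a))
    linarith
  rw [div_le_iff₀ (by linarith)]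
  have hnum : ‖β + (a ^ 4 / 4 - a ^ 2 * b ^ 2 / 4) - α * s + (1 - r) * Complex.cos a * s‖ ≤
      5 / 96 * B ^ 2 + (A ^ 2 / 4 + A * B / 4) + 5 / 96 * A ^ 2 * (10441 / 10000) +
        552 / 1000 * (A * B) * (1023 / 1000) * (10441 / 10000) := by
    refine (norm_add_le _ _).trans (add_le_add ((norm_sub_le _ _).trans (add_le_add
      ((norm_add_le _ _).trans (add_le_add cb ?_)) ?_)) ?_)
    · refine (norm_sub_le _ _).trans (le_of_eq ?_)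
      rw [norm_div, norm_div, norm_mul, na, nb]
      have : ‖a ^ 4‖ = A ^ 2 := by rw [norm_pow, hA]; ring
      rw [this]
      norm_num
    · rw [norm_mul]
      exact mul_le_mul ca ns (norm_nonneg _) (by positivity)
    · rw [norm_mul, norm_mul]
      exact mul_le_mul (mul_le_mul hr n2 (norm_nonneg _) (by positivity)) ns (norm_nonneg _)
        (by positivity)
  refine hnum.trans ?_
  have h7 : 7 / 20 * (A + B) ^ 2 * (975 / 1000) ≤ 7 / 20 * (A + B) ^ 2 * (‖Complex.cos a‖ * ‖r‖) :=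
    mul_le_mul_of_nonneg_left hden (by positivity)
  refine le_trans ?_ h7
  nlinarith [sq_nonneg (A - 3 * B), mul_nonneg hA0 hB0, sq_nonneg A, sq_nonneg B,
    sq_nonneg (A - 3.3 * B)]

/-! ### Integration along a segment -/

lemma radial {f f' : ℂ → ℂ} {ψ : ℂ} (h : ∀ t ∈ Set.Icc (0 : ℝ) 1, HasDerivAt f (f' (t * ψ)) (t * ψ))
    {B B' : ℝ → ℝ} (hB : ∀ t, HasDerivAt B (B' t) t) (h0 : ‖f 0‖ ≤ B 0)
    (hb : ∀ t ∈ Set.Icc (0 : ℝ) 1, ‖f' (t * ψ)‖ * ‖ψ‖ ≤ B' t) : ‖f ψ‖ ≤ B 1 := by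
  have hd : ∀ t ∈ Set.Icc (0 : ℝ) 1, HasDerivAt (fun t : ℝ => f (t * ψ)) (f' (t * ψ) * ψ) t := by
    intro t ht
    have h1 : HasDerivAt (fun t : ℝ => (t : ℂ) * ψ) ψ t := by
      have := (Complex.ofRealCLM.hasDerivAt (x := t)).mul_const ψ
      simpa using this
    exact (h t ht).comp t h1
  have key := image_norm_le_of_norm_deriv_right_le_deriv_boundary (a := (0 : ℝ)) (b := 1)
    (f := fun t : ℝ => f (t * ψ)) (f' := fun t => f' (t * ψ) * ψ)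
    (fun t ht => (hd t ht).continuousAt.continuousWithinAt)
    (fun t ht => (hd t ⟨ht.1, ht.2.le⟩).hasDerivWithinAt) (B := B) (B' := B')
    (by simpa using h0) hB (fun t ht => by
      rw [norm_mul]
      exact hb t ⟨ht.1, ht.2.le⟩)
  have := key (x := 1) (Set.right_mem_Icc.2 zero_le_one)
  simpa using this

lemma seg_D1 {ψ : ℂ} (h : ψ ∈ D1) {t : ℝ} (ht : t ∈ Set.Icc (0 : ℝ) 1) : (t : ℂ) * ψ ∈ D1 := by
  obtain ⟨h1, h2⟩ := h
  refine ⟨?_, ?_⟩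
  · rw [norm_mul, Complex.norm_real, Real.norm_of_nonneg ht.1]
    nlinarith [norm_nonneg ψ, ht.2, ht.1]
  · rw [Complex.im_ofReal_mul, abs_mul, abs_of_nonneg ht.1]
    nlinarith [abs_nonneg ψ.im, ht.2, ht.1]

/-- the remainder of the derivative of `sg` after the third order terms -/
noncomputable def f3 (φ ψ : ℂ) : ℂ :=
  s1 ψ φ + ψ / (2 * π) + ψ ^ 3 / (48 * π) - ψ * φ ^ 2 / (16 * π)

lemma f3_der {ψ φ : ℂ} (hψ : ψ ∈ D1) (hφ : φ ∈ D1) :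
    HasDerivAt (f3 φ) (-(1 / (2 * π)) * (Complex.cos (φ / 2) / (Complex.cos (ψ / 2) *
      Pool.Agent.N999.EK.sr (ψ / 2) (φ / 2)) - (1 + (ψ / 2) ^ 2 / 2 - (φ / 2) ^ 2 / 2))) ψ := by
  have hpi : (π : ℂ) ≠ 0 := by exact_mod_cast Real.pi_ne_zero
  have h0 := f_all.pot.d11 ψ (Pool.Agent.N999.EK.D1_sub hψ) φ (Pool.Agent.N999.EK.D1_sub hφ)
  rw [Pool.Agent.N999.EK.rr_eq] at h0
  have h1 := ((h0.add ((hasDerivAt_id ψ).div_const ((2 : ℂ) * π))).add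
    (((hasDerivAt_id ψ).pow 3).div_const ((48 : ℂ) * π))).sub
    (((hasDerivAt_id ψ).mul_const (φ ^ 2)).div_const ((16 : ℂ) * π))
  refine h1.congr_deriv ?_
  simp only [id]
  field_simp
  ring

lemma f3_zero {φ : ℂ} (hφ : φ ∈ D1) : f3 φ 0 = 0 := by
  unfold f3
  rw [Pool.Agent.N999.EK.s1_zero f_all.pot (Pool.Agent.N999.EK.D1_sub hφ)]
  simp

lemma f3_bd {ψ φ : ℂ} (hψ : ψ ∈ D1) (hφ : φ ∈ D1) :
    ‖f3 φ ψ‖ ≤ 7 / 320 / (2 * π) * ‖ψ‖ *
      ((‖ψ‖ ^ 2) ^ 2 / 5 + 2 * ‖ψ‖ ^ 2 * ‖φ‖ ^ 2 / 3 + (‖φ‖ ^ 2) ^ 2) := by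
  have hpi := Real.pi_pos
  set p : ℝ := ‖ψ‖ ^ 2 with hp
  set q : ℝ := ‖φ‖ ^ 2 with hq
  have key := radial (f := f3 φ) (ψ := ψ)
    (f' := fun z => -(1 / (2 * π)) * (Complex.cos (φ / 2) / (Complex.cos (z / 2) *
      Pool.Agent.N999.EK.sr (z / 2) (φ / 2)) - (1 + (z / 2) ^ 2 / 2 - (φ / 2) ^ 2 / 2)))
    (fun t ht => f3_der (seg_D1 hψ ht) hφ)
    (B := fun t => 7 / 320 / (2 * π) * ‖ψ‖ * (p ^ 2 * t ^ 5 / 5 + 2 * p * q * t ^ 3 / 3 + q ^ 2 * t))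
    (B' := fun t => 7 / 320 / (2 * π) * ‖ψ‖ * (t ^ 2 * p + q) ^ 2)
    (fun t => by
      have h1 : HasDerivAt (fun t : ℝ => 7 / 320 / (2 * π) * ‖ψ‖ *
          (p ^ 2 * t ^ 5 / 5 + 2 * p * q * t ^ 3 / 3 + q ^ 2 * t))
          (7 / 320 / (2 * π) * ‖ψ‖ * (p ^ 2 * (5 * t ^ 4 * 1) / 5 +
            2 * p * q * (3 * t ^ 2 * 1) / 3 + q ^ 2 * 1)) t := by
        apply HasDerivAt.const_mul
        apply HasDerivAt.add
        · apply HasDerivAt.add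
          · exact (((hasDerivAt_id t).pow 5).const_mul (p ^ 2)).div_const 5
          · exact (((hasDerivAt_id t).pow 3).const_mul (2 * p * q)).div_const 3
        · exact (hasDerivAt_id t).const_mul (q ^ 2)
      refine h1.congr_deriv ?_
      ring)
    (by
      rw [f3_zero hφ, norm_zero]
      simp)
    (fun t ht => by
      have hz := seg_D1 hψ ht
      have a1 : ‖(t : ℂ) * ψ / 2‖ ≤ 21 / 100 := (Pool.Agent.N999.EK.in1 hz).1
      have a2 : ‖φ / 2‖ ≤ 21 / 100 := (Pool.Agent.N999.EK.in1 hφ).1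
      have h1 := q_sec a1 a2
      have n1 : ‖(t : ℂ) * ψ / 2‖ ^ 2 = t ^ 2 * p / 4 := by
        rw [norm_div, norm_mul, Complex.norm_real, Complex.norm_two, Real.norm_of_nonneg ht.1, hp]
        ring
      have n2 : ‖φ / 2‖ ^ 2 = q / 4 := by
        rw [norm_div, Complex.norm_two, hq]
        ring
      rw [n1, n2] at h1
      have h2 := Pool.Agent.N999.EK.norm_der h1
      calc ‖-(1 / (2 * (π : ℂ))) * (Complex.cos (φ / 2) / (Complex.cos ((t : ℂ) * ψ / 2) *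
              Pool.Agent.N999.EK.sr ((t : ℂ) * ψ / 2) (φ / 2)) -
              (1 + ((t : ℂ) * ψ / 2) ^ 2 / 2 - (φ / 2) ^ 2 / 2))‖ * ‖ψ‖
          ≤ 7 / 20 * (t ^ 2 * p / 4 + q / 4) ^ 2 / (2 * π) * ‖ψ‖ :=
            mul_le_mul_of_nonneg_right h2 (norm_nonneg _)
        _ = 7 / 320 / (2 * π) * ‖ψ‖ * (t ^ 2 * p + q) ^ 2 := by ring)
  refine key.trans (le_of_eq ?_)
  ring

/-- the derivative of `sg` -/
lemma q1_bd {ψ φ : ℂ} (hψ : ψ ∈ D1) (hφ : φ ∈ D1) :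
    ‖s1 ψ φ + ψ / (2 * π)‖ ≤ ‖ψ‖ * (23 / 500 * ‖ψ‖ ^ 2 + 13 / 100 * ‖φ‖ ^ 2) / (2 * π) := by
  have hpi := Real.pi_pos
  have h1 := f3_bd hψ hφ
  set p : ℝ := ‖ψ‖ ^ 2 with hp
  set q : ℝ := ‖φ‖ ^ 2 with hq
  have hp0 : 0 ≤ p := sq_nonneg _
  have hq0 : 0 ≤ q := sq_nonneg _
  have hp1 : p ≤ 441 / 2500 := by
    rw [hp]
    nlinarith [norm_nonneg ψ, hψ.1]
  have hq1 : q ≤ 441 / 2500 := by
    rw [hq]
    nlinarith [norm_nonneg φ, hφ.1]
  have e : s1 ψ φ + ψ / (2 * π) = f3 φ ψ + ψ * (-(ψ ^ 2) / 24 + φ ^ 2 / 8) / (2 * π) := by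
    unfold f3
    have hpc : (π : ℂ) ≠ 0 := by exact_mod_cast hpi.ne'
    field_simp
    ring
  rw [e]
  refine (norm_add_le _ _).trans ?_
  have h2 : ‖ψ * (-(ψ ^ 2) / 24 + φ ^ 2 / 8) / (2 * π)‖ ≤ ‖ψ‖ * (p / 24 + q / 8) / (2 * π) := by
    rw [norm_div, norm_mul, norm_mul, Complex.norm_two, Complex.norm_real,
      Real.norm_of_nonneg hpi.le]
    apply div_le_div_of_nonneg_right _ (by positivity)
    apply mul_le_mul_of_nonneg_left _ (norm_nonneg _)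
    refine (norm_add_le _ _).trans (le_of_eq ?_)
    rw [norm_div, norm_div, norm_neg, norm_pow, norm_pow, hp, hq]
    norm_num
  have h3 : p ^ 2 / 5 + 2 * p * q / 3 + q ^ 2 ≤ 154 / 1000 * p + 177 / 1000 * q := by
    nlinarith [mul_nonneg hp0 hq0]
  have h4 : 7 / 320 / (2 * π) * ‖ψ‖ * (p ^ 2 / 5 + 2 * p * q / 3 + q ^ 2) ≤
      7 / 320 / (2 * π) * ‖ψ‖ * (154 / 1000 * p + 177 / 1000 * q) :=
    mul_le_mul_of_nonneg_left h3 (by positivity)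
  have h5 : 7 / 320 / (2 * π) * ‖ψ‖ * (154 / 1000 * p + 177 / 1000 * q) +
      ‖ψ‖ * (p / 24 + q / 8) / (2 * π) ≤ ‖ψ‖ * (23 / 500 * p + 13 / 100 * q) / (2 * π) := by
    rw [← sub_nonneg]
    have : ‖ψ‖ * (23 / 500 * p + 13 / 100 * q) / (2 * π) -
        (7 / 320 / (2 * π) * ‖ψ‖ * (154 / 1000 * p + 177 / 1000 * q) +
        ‖ψ‖ * (p / 24 + q / 8) / (2 * π)) = ‖ψ‖ / (2 * π) *
          ((23 / 500 - 7 / 320 * (154 / 1000) - 1 / 24) * p +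
            (13 / 100 - 7 / 320 * (177 / 1000) - 1 / 8) * q) := by
      ring
    rw [this]
    apply mul_nonneg (by positivity)
    norm_num
    nlinarith
  linarith

/-- the squares of both derivatives -/
lemma q1_sq {ψ φ : ℂ} (hψ : ψ ∈ D1) (hφ : φ ∈ D1) :
    ‖s1 ψ φ + ψ / (2 * π)‖ ^ 2 + ‖s1 φ ψ + φ / (2 * π)‖ ^ 2 ≤
      31 / 1000 / (4 * π ^ 2) * (‖ψ‖ ^ 6 + ‖φ‖ ^ 6) := by
  have hpi := Real.pi_pos
  have h1 := pow_le_pow_left₀ (norm_nonneg _) (q1_bd hψ hφ) 2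
  have h2 := pow_le_pow_left₀ (norm_nonneg _) (q1_bd hφ hψ) 2
  have e6 : ∀ x : ℝ, x ^ 6 = (x ^ 2) ^ 3 := fun x => by ring
  rw [e6 ‖ψ‖, e6 ‖φ‖]
  rw [div_pow, mul_pow] at h1 h2
  set p : ℝ := ‖ψ‖ ^ 2 with hp
  set q : ℝ := ‖φ‖ ^ 2 with hq
  have hp0 : 0 ≤ p := sq_nonneg _
  have hq0 : 0 ≤ q := sq_nonneg _
  have h3 : p * (23 / 500 * p + 13 / 100 * q) ^ 2 + q * (23 / 500 * q + 13 / 100 * p) ^ 2 ≤
      31 / 1000 * (p ^ 3 + q ^ 3) := by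
    nlinarith [mul_nonneg (add_nonneg hp0 hq0) (sq_nonneg (p - q))]
  have h4 : p * (23 / 500 * p + 13 / 100 * q) ^ 2 / (2 * π) ^ 2 +
      q * (23 / 500 * q + 13 / 100 * p) ^ 2 / (2 * π) ^ 2 ≤
      31 / 1000 / (4 * π ^ 2) * (p ^ 3 + q ^ 3) := by
    rw [← add_div]
    have : 31 / 1000 / (4 * π ^ 2) * (p ^ 3 + q ^ 3) =
        31 / 1000 * (p ^ 3 + q ^ 3) / (2 * π) ^ 2 := by
      ring
    rw [this]
    exact div_le_div_of_nonneg_right h3 (by positivity)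
  linarith

/-! ### The potential -/

/-- the terms of fourth order -/
noncomputable def q4 (x y : ℂ) : ℂ := -(x ^ 4 - 6 * x ^ 2 * y ^ 2 + y ^ 4) / (192 * π)

/-- the remainder of `sg` after the fourth order terms -/
noncomputable def rho (φ ψ : ℂ) : ℂ :=
  sg ψ φ - ((2 * bet : ℝ) : ℂ) + (ψ ^ 2 + φ ^ 2) / (4 * π) - q4 ψ φ

lemma rho_der {ψ φ : ℂ} (hψ : ψ ∈ D1) (hφ : φ ∈ D1) : HasDerivAt (rho φ) (f3 φ ψ) ψ := by
  have hpi : (π : ℂ) ≠ 0 := by exact_mod_cast Real.pi_ne_zero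
  have h0 := f_all.pot.d1 ψ (Pool.Agent.N999.EK.D1_sub hψ) φ (Pool.Agent.N999.EK.D1_sub hφ)
  have h0' : HasDerivAt (fun z => sg z φ) (s1 ψ φ) ψ := h0.differentiableAt.hasDerivAt
  have h1 := ((h0'.sub_const ((2 * bet : ℝ) : ℂ)).add
    ((((hasDerivAt_id ψ).pow 2).add_const (φ ^ 2)).div_const ((4 : ℂ) * π))).sub
    (((((hasDerivAt_id ψ).pow 4).sub ((((hasDerivAt_id ψ).pow 2).const_mul 6).mul_const
      (φ ^ 2))).add_const (φ ^ 4)).neg.div_const ((192 : ℂ) * π))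
  refine h1.congr_deriv ?_
  unfold f3
  simp only [id]
  field_simp
  ring

lemma rho_zero : rho 0 0 = 0 := by
  unfold rho q4
  rw [f_all.pot.zero]
  simp

lemma rho_bd {ψ φ : ℂ} (hψ : ψ ∈ D1) (hφ : φ ∈ D1) :
    ‖rho φ ψ‖ ≤ 31 / 6400 / π * (‖ψ‖ ^ 6 + ‖φ‖ ^ 6) := by
  have hpi := Real.pi_pos
  have gen : ∀ {ψ φ : ℂ}, ψ ∈ D1 → φ ∈ D1 → ‖rho φ ψ - rho φ 0‖ ≤ 7 / 320 / (2 * π) * ‖ψ‖ ^ 2 *
      ((‖ψ‖ ^ 2) ^ 2 / 30 + ‖ψ‖ ^ 2 * ‖φ‖ ^ 2 / 6 + (‖φ‖ ^ 2) ^ 2 / 2) := by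
    intro ψ φ hψ hφ
    set p : ℝ := ‖ψ‖ ^ 2 with hp
    set q : ℝ := ‖φ‖ ^ 2 with hq
    have key := radial (f := fun z => rho φ z - rho φ 0) (ψ := ψ) (f' := fun z => f3 φ z)
      (fun t ht => (rho_der (seg_D1 hψ ht) hφ).sub_const _)
      (B := fun t => 7 / 320 / (2 * π) * p *
        (p ^ 2 * t ^ 6 / 30 + p * q * t ^ 4 / 6 + q ^ 2 * t ^ 2 / 2))
      (B' := fun t => 7 / 320 / (2 * π) * p *
        (p ^ 2 * t ^ 5 / 5 + 2 * p * q * t ^ 3 / 3 + q ^ 2 * t))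
      (fun t => by
        have h1 : HasDerivAt (fun t : ℝ => 7 / 320 / (2 * π) * p *
            (p ^ 2 * t ^ 6 / 30 + p * q * t ^ 4 / 6 + q ^ 2 * t ^ 2 / 2))
            (7 / 320 / (2 * π) * p * (p ^ 2 * (6 * t ^ 5 * 1) / 30 +
              p * q * (4 * t ^ 3 * 1) / 6 + q ^ 2 * (2 * t ^ 1 * 1) / 2)) t := by
          apply HasDerivAt.const_mul
          apply HasDerivAt.add
          · apply HasDerivAt.add
            · exact (((hasDerivAt_id t).pow 6).const_mul (p ^ 2)).div_const 30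
            · exact (((hasDerivAt_id t).pow 4).const_mul (p * q)).div_const 6
          · exact (((hasDerivAt_id t).pow 2).const_mul (q ^ 2)).div_const 2
        refine h1.congr_deriv ?_
        ring)
      (by simp)
      (fun t ht => by
        have h1 := f3_bd (seg_D1 hψ ht) hφ
        have n1 : ‖(t : ℂ) * ψ‖ = t * ‖ψ‖ := by
          rw [norm_mul, Complex.norm_real, Real.norm_of_nonneg ht.1]
        have n2 : (t * ‖ψ‖) ^ 2 = t ^ 2 * p := by rw [hp]; ring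
        rw [n1, n2] at h1
        refine (mul_le_mul_of_nonneg_right h1 (norm_nonneg ψ)).trans (le_of_eq ?_)
        rw [hp]
        ring)
    refine key.trans (le_of_eq ?_)
    ring
  have hz : (0 : ℂ) ∈ D1 := by
    refine ⟨?_, ?_⟩
    · rw [norm_zero]; norm_num
    · rw [Complex.zero_im, abs_zero]; norm_num
  have h1 := gen hψ hφ
  have h2 := gen hφ hz
  have e1 : rho φ 0 = rho 0 φ := by
    unfold rho q4
    rw [f_all.pot.sym]
    ring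
  rw [rho_zero, sub_zero, norm_zero] at h2
  have h3 : ‖rho φ ψ‖ ≤ ‖rho φ ψ - rho φ 0‖ + ‖rho 0 φ‖ := by
    rw [← e1]
    have := norm_add_le (rho φ ψ - rho φ 0) (rho φ 0)
    rwa [sub_add_cancel] at this
  have e6 : ∀ x : ℝ, x ^ 6 = (x ^ 2) ^ 3 := fun x => by ring
  rw [e6 ‖ψ‖, e6 ‖φ‖]
  set p : ℝ := ‖ψ‖ ^ 2 with hp
  set q : ℝ := ‖φ‖ ^ 2 with hq
  have hp0 : 0 ≤ p := sq_nonneg _
  have hq0 : 0 ≤ q := sq_nonneg _
  have h4 : p * (p ^ 2 / 30 + p * q / 6 + q ^ 2 / 2) + q * (q ^ 2 / 30) ≤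
      31 / 70 * (p ^ 3 + q ^ 3) := by
    nlinarith [mul_nonneg (add_nonneg hp0 hq0) (sq_nonneg (p - q)), mul_nonneg hp0 (sq_nonneg (p - q)),
      mul_nonneg hq0 (sq_nonneg (p - q)), pow_nonneg hp0 3, pow_nonneg hq0 3]
  have h5 : 7 / 320 / (2 * π) * (p * (p ^ 2 / 30 + p * q / 6 + q ^ 2 / 2) + q * (q ^ 2 / 30)) ≤
      7 / 320 / (2 * π) * (31 / 70 * (p ^ 3 + q ^ 3)) :=
    mul_le_mul_of_nonneg_left h4 (by positivity)
  have e7 : 31 / 6400 / π * (p ^ 3 + q ^ 3) = 7 / 320 / (2 * π) * (31 / 70 * (p ^ 3 + q ^ 3)) := by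
    ring
  rw [e7]
  have h6 : (7 : ℝ) / 320 / (2 * π) * q * (q ^ 2 / 30 + q * (0 ^ 2) / 6 + (0 ^ 2) ^ 2 / 2) =
      7 / 320 / (2 * π) * (q * (q ^ 2 / 30)) := by
    ring
  rw [h6] at h2
  linarith

end Pool.Agent.U21.TL
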