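import Pool.Agent.U21.TL.Sec

/-!
# The value at the critical configuration to second order
-/

set_option autoImplicit false
set_option linter.unusedVariables false

namespace Pool.Agent.U21.TL

open Finset Filter Topology
open Pool.Agent.TH563.UV
open Pool.Agent.TH563.V
open Pool.Agent.N561
open Pool.Agent.N561.EK
open Pool.Agent.N277.EK (mem_D1)
open Pool.Agent.W711.HT (bet)
open scoped Real

/-- The number `1 / (n - i a)` of a vertex with `n` neighbours, weight `a` and no crossing circle;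
it is `0` if there is a crossing circle. -/
noncomputable def cusp (b : Bool) (n : ℕ) (a : ℤ) : ℂ :=
  if b = true then 0 else 1 / ((n : ℂ) - Complex.I * a)

lemma cusp_ne {n : ℕ} (hn : 1 ≤ n) (a : ℤ) : (n : ℂ) - Complex.I * a ≠ 0 := by
  intro h
  have := congrArg Complex.re h
  simp at this
  omega

lemma cusp_norm {b : Bool} {n : ℕ} (hn : 1 ≤ n) (a : ℤ) : ‖cusp b n a‖ * n ≤ 1 := by
  unfold cusp
  cases b with
  | true => simp
  | false =>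
    rw [if_neg (by simp), norm_div, norm_one, div_mul_eq_mul_div, one_mul]
    have h0 : 0 < ‖(n : ℂ) - Complex.I * a‖ := norm_pos_iff.2 (cusp_ne hn a)
    rw [div_le_one h0]
    have := Complex.re_le_norm ((n : ℂ) - Complex.I * a)
    simpa using this

/-- the gradient minus its linear part -/
noncomputable def q1 (ψ φ : ℂ) : ℂ := s1 ψ φ + ψ / (2 * π)

/-- `Q` at a vertex other than the root -/
noncomputable def Qc (t c : PB) : ℂ :=
  c.gs sg + deriv (fun w => sg w t.rz) c.rz + ((c.nc + 1 : ℕ) : ℂ) * c.rz / (2 * π)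

/-- `Q` at the root -/
noncomputable def Qr (p : PB) : ℂ := p.gs sg + (p.nc : ℂ) * p.rz / (2 * π)

/-- the number of a child -/
noncomputable def cw (c : PB) : ℂ := cusp c.bl (c.nc + 1) c.wt

/-- sums over the edges -/
noncomputable def xs {M : Type} [AddCommMonoid M] (g : ℂ × ℂ → ℂ × ℂ → M) : ℂ → PB → M
  | _, .vx _ _ _ => 0
  | ω, .br t c => xs g ω t + xs g (cw c) c + g (t.rz, ω) (c.rz, cw c)

/-- a property of all vertices other than the root -/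
def AllQ (P : ℂ × ℂ → Prop) : PB → Prop
  | .vx _ _ _ => True
  | .br t c => AllQ P t ∧ AllQ P c ∧ P (c.rz, cw c)

lemma xs_le {g g' : ℂ × ℂ → ℂ × ℂ → ℝ} {P : ℂ × ℂ → Prop}
    (h : ∀ x y, P x → P y → g x y ≤ g' x y) : ∀ (p : PB) (ω : ℂ), AllQ P p → P (p.rz, ω) →
      xs g ω p ≤ xs g' ω p
  | .vx _ _ _, _, _, _ => le_rfl
  | .br t c, ω, hp, hr => by
    have h1 := xs_le h t ω hp.1 hr
    have h2 := xs_le h c (cw c) hp.2.1 hp.2.2
    have h3 := h (t.rz, ω) (c.rz, cw c) hr hp.2.2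
    simp only [xs]
    linarith

lemma xs_norm (g : ℂ × ℂ → ℂ × ℂ → ℂ) : ∀ (p : PB) (ω : ℂ),
    ‖xs g ω p‖ ≤ xs (fun x y => ‖g x y‖) ω p
  | .vx _ _ _, _ => by simp [xs]
  | .br t c, ω => by
    have h1 := xs_norm g t ω
    have h2 := xs_norm g c (cw c)
    simp only [xs]
    refine (norm_add_le _ _).trans (add_le_add ((norm_add_le _ _).trans (add_le_add h1 h2)) le_rfl)

lemma xs_add {M : Type} [AddCommMonoid M] (g g' : ℂ × ℂ → ℂ × ℂ → M) : ∀ (p : PB) (ω : ℂ),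
    xs (fun x y => g x y + g' x y) ω p = xs g ω p + xs g' ω p
  | .vx _ _ _, _ => by simp [xs]
  | .br t c, ω => by
    simp only [xs]
    rw [xs_add g g' t ω, xs_add g g' c (cw c)]
    abel

lemma xs_mul (k : ℝ) (g : ℂ × ℂ → ℂ × ℂ → ℝ) : ∀ (p : PB) (ω : ℂ),
    xs (fun x y => k * g x y) ω p = k * xs g ω p
  | .vx _ _ _, _ => by simp [xs]
  | .br t c, ω => by
    simp only [xs]
    rw [xs_mul k g t ω, xs_mul k g c (cw c)]
    ring

lemma xs_ne (z : ℂ) : ∀ (p : PB) (ω : ℂ), xs (fun _ _ => z) ω p = (p.shape.ne : ℂ) * z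
  | .vx _ _ _, _ => by simp [xs, PB.shape, Tb.ne]
  | .br t c, ω => by
    have e4 : ((PB.br t c).shape.ne : ℂ) = t.shape.ne + c.shape.ne + 1 := by
      have : (PB.br t c).shape.ne = t.shape.ne + c.shape.ne + 1 := rfl
      rw [this]
      push_cast
      ring
    simp only [xs]
    rw [xs_ne z t ω, xs_ne z c (cw c), e4]
    ring

/-! ### The value -/

/-- the term of a circle -/
noncomputable def ci (b : Bool) : ℂ := if b = true then π * Complex.I else 0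

lemma vertex_val {b : Bool} {a : ℤ} {n : ℕ} {z G : ℂ} (hn : 1 ≤ n) (h : VE b a z G) :
    vt b a z - n * z ^ 2 / (4 * π) = ci b - π * cusp b n a -
      π * cusp b n a * (G + n * z / (2 * π)) ^ 2 := by
  have hpi : (π : ℂ) ≠ 0 := by exact_mod_cast Real.pi_ne_zero
  cases b with
  | true =>
    rw [h.1 rfl]
    simp [vt, cusp, ci]
  | false =>
    obtain ⟨-, -, h3⟩ := h.2 rfl
    have hm := cusp_ne hn a
    have e1 : vt false a z = Complex.I * a * z ^ 2 / (4 * π) + Complex.I * z := by simp [vt]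
    have e2 : cusp false n a = 1 / ((n : ℂ) - Complex.I * a) := by simp [cusp]
    have e3 : ci false = 0 := by simp [ci]
    have e4 : G + n * z / (2 * π) = ((n : ℂ) - Complex.I * a) * z / (2 * π) - Complex.I := by
      linear_combination h3
    rw [e1, e2, e3, e4]
    have hI : (Complex.I : ℂ) ^ 2 = -1 := Complex.I_sq
    have e5 : -((π : ℂ) * (1 / ((n : ℂ) - Complex.I * a))) -
        π * (1 / ((n : ℂ) - Complex.I * a)) * (((n : ℂ) - Complex.I * a) * z / (2 * π) -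
          Complex.I) ^ 2 = -(((n : ℂ) - Complex.I * a) * z ^ 2) / (4 * π) + Complex.I * z := by
      generalize (n : ℂ) - Complex.I * a = m at hm ⊢
      field_simp
      linear_combination (-16 * (π : ℂ) ^ 2) * hI
    rw [zero_sub, e5]
    field_simp
    ring

lemma vertex_dl {b : Bool} {a : ℤ} {n : ℕ} {z G : ℂ} (hn : 1 ≤ n) (h : VE b a z G) :
    z - 2 * π * Complex.I * cusp b n a = 2 * π * cusp b n a * (G + n * z / (2 * π)) := by
  have hpi : (π : ℂ) ≠ 0 := by exact_mod_cast Real.pi_ne_zero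
  cases b with
  | true =>
    rw [h.1 rfl]
    simp [cusp]
  | false =>
    obtain ⟨-, -, h3⟩ := h.2 rfl
    have hm := cusp_ne hn a
    have e2 : cusp false n a = 1 / ((n : ℂ) - Complex.I * a) := by simp [cusp]
    have e4 : G + n * z / (2 * π) = ((n : ℂ) - Complex.I * a) * z / (2 * π) - Complex.I := by
      linear_combination h3
    rw [e2, e4]
    generalize (n : ℂ) - Complex.I * a = m at hm ⊢
    field_simp

/-- the sum of the terms of the vertices other than the root -/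
noncomputable def vs : PB → ℂ
  | .vx _ _ _ => 0
  | .br t c => vs t + vs c + (ci c.bl - π * cw c - π * cw c * Qc t c ^ 2)

/-- the term of an edge -/
noncomputable def gt (x y : ℂ × ℂ) : ℂ := sg x.1 y.1 + (x.1 ^ 2 + y.1 ^ 2) / (4 * π)

theorem vl_eq : ∀ (p : PB) (ω : ℂ), CE p →
    p.vl sg = vs p + xs gt ω p - p.nc * p.rz ^ 2 / (4 * π)
  | .vx _ _ _, _, _ => by simp [PB.vl, vs, xs, PB.nc]
  | .br t c, ω, h => by
    obtain ⟨h1, h2, h3⟩ := h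
    have e1 := vl_eq t ω h1
    have e2 := vl_eq c (cw c) h2
    have e3 := vertex_val (n := c.nc + 1) (by omega) h3
    have e4 : ci c.bl - π * cw c - π * cw c * Qc t c ^ 2 =
        vt c.bl c.wt c.rz - ((c.nc + 1 : ℕ) : ℂ) * c.rz ^ 2 / (4 * π) := e3.symm
    have e5 : (PB.br t c).vl sg = t.vl sg + (vt c.bl c.wt c.rz + c.vl sg + sg c.rz t.rz) := rfl
    have e6 : (PB.br t c).rz = t.rz := rfl
    have e7 : ((PB.br t c).nc : ℂ) = t.nc + 1 := by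
      have : (PB.br t c).nc = t.nc + 1 := rfl
      rw [this]
      push_cast
      ring
    have e8 : sg c.rz t.rz = sg t.rz c.rz := f_all.pot.sym _ _
    rw [e5, e6, e7, e1, e2, e8]
    simp only [vs, xs, gt]
    rw [e4]
    push_cast
    ring

/-! ### The sums of squares -/

/-- the edges at the root -/
noncomputable def RB : PB → ℝ
  | .vx _ _ _ => 0
  | .br t c => RB t + ‖q1 t.rz c.rz‖ ^ 2

/-- the vertices other than the root -/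
noncomputable def BB : PB → ℝ
  | .vx _ _ _ => 0
  | .br t c => BB t + BB c + ‖cw c‖ * ‖Qc t c‖ ^ 2

lemma RB_nonneg : ∀ p : PB, 0 ≤ RB p
  | .vx _ _ _ => le_rfl
  | .br t c => add_nonneg (RB_nonneg t) (sq_nonneg _)

lemma BB_nonneg : ∀ p : PB, 0 ≤ BB p
  | .vx _ _ _ => le_rfl
  | .br t c => add_nonneg (add_nonneg (BB_nonneg t) (BB_nonneg c)) (by positivity)

lemma sq_step {x y : ℂ} {n R : ℝ} (hn : 0 ≤ n) (hR : 0 ≤ R) (h : ‖x‖ ^ 2 ≤ n * R) :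
    ‖x + y‖ ^ 2 ≤ (n + 1) * (R + ‖y‖ ^ 2) := by
  have h1 : ‖x + y‖ ^ 2 ≤ (‖x‖ + ‖y‖) ^ 2 :=
    pow_le_pow_left₀ (norm_nonneg _) (norm_add_le _ _) 2
  have h2 : 2 * ‖x‖ * ‖y‖ ≤ R + n * ‖y‖ ^ 2 := by
    apply le_of_sq_le_sq _ (by positivity)
    have h3 : (2 * ‖x‖ * ‖y‖) ^ 2 = 4 * ‖x‖ ^ 2 * ‖y‖ ^ 2 := by ring
    have h4 : ‖x‖ ^ 2 * ‖y‖ ^ 2 ≤ n * R * ‖y‖ ^ 2 := mul_le_mul_of_nonneg_right h (sq_nonneg _)
    nlinarith [sq_nonneg (R - n * ‖y‖ ^ 2)]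
  nlinarith

lemma gs_sq : ∀ p : PB, ‖Qr p‖ ^ 2 ≤ p.nc * RB p
  | .vx _ _ _ => by simp [Qr, PB.gs, PB.nc, RB]
  | .br t c => by
    have h1 := gs_sq t
    have e : Qr (.br t c) = Qr t + q1 t.rz c.rz := by
      have e1 : (fun w => sg c.rz w) = fun w => sg w c.rz := by
        funext w
        exact f_all.pot.sym _ _
      simp only [Qr, PB.gs, PB.nc, PB.rz, q1, s1, e1]
      push_cast
      ring
    have e2 : (((PB.br t c).nc : ℕ) : ℝ) = t.nc + 1 := by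
      have : (PB.br t c).nc = t.nc + 1 := rfl
      rw [this]
      push_cast
      ring
    rw [e, e2]
    exact sq_step (Nat.cast_nonneg _) (RB_nonneg t) h1

lemma Qc_eq (t c : PB) : Qc t c = Qr c + q1 c.rz t.rz := by
  simp only [Qc, Qr, q1, s1]
  push_cast
  ring

lemma Qc_sq (t c : PB) : ‖Qc t c‖ ^ 2 ≤ (c.nc + 1) * (RB c + ‖q1 c.rz t.rz‖ ^ 2) := by
  rw [Qc_eq]
  exact sq_step (Nat.cast_nonneg _) (RB_nonneg c) (gs_sq c)

lemma cw_norm (c : PB) : ‖cw c‖ * (c.nc + 1) ≤ 1 := by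
  have := cusp_norm (b := c.bl) (n := c.nc + 1) (by omega) c.wt
  push_cast at this
  exact this

theorem bb_le : ∀ (p : PB) (ω : ℂ), BB p + RB p ≤
    xs (fun x y => ‖q1 x.1 y.1‖ ^ 2 + ‖q1 y.1 x.1‖ ^ 2) ω p
  | .vx _ _ _, _ => by simp [BB, RB, xs]
  | .br t c, ω => by
    have h1 := bb_le t ω
    have h2 := bb_le c (cw c)
    have h3 : ‖cw c‖ * ‖Qc t c‖ ^ 2 ≤ RB c + ‖q1 c.rz t.rz‖ ^ 2 := by
      have h4 := mul_le_mul_of_nonneg_left (Qc_sq t c) (norm_nonneg (cw c))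
      have h5 : 0 ≤ RB c + ‖q1 c.rz t.rz‖ ^ 2 := add_nonneg (RB_nonneg c) (sq_nonneg _)
      have h6 := mul_le_mul_of_nonneg_right (cw_norm c) h5
      calc ‖cw c‖ * ‖Qc t c‖ ^ 2 ≤ ‖cw c‖ * ((c.nc + 1) * (RB c + ‖q1 c.rz t.rz‖ ^ 2)) := h4
        _ = ‖cw c‖ * (c.nc + 1) * (RB c + ‖q1 c.rz t.rz‖ ^ 2) := by ring
        _ ≤ _ := by linarith
    simp only [BB, RB, xs]
    linarith

/-- the distance of the critical point from its approximation -/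
noncomputable def dl (x : ℂ × ℂ) : ℝ := ‖x.1 - 2 * π * Complex.I * x.2‖

theorem dl_le : ∀ (p : PB) (ω : ℂ), CE p →
    xs (fun x y => dl x ^ 2 + dl y ^ 2) ω p ≤ 4 * π ^ 2 * BB p + p.nc * dl (p.rz, ω) ^ 2
  | .vx _ _ _, _, _ => by simp [BB, xs, PB.nc]
  | .br t c, ω, h => by
    obtain ⟨h1, h2, h3⟩ := h
    have g1 := dl_le t ω h1
    have g2 := dl_le c (cw c) h2
    have e1 : dl (c.rz, cw c) = 2 * π * ‖cw c‖ * ‖Qc t c‖ := by
      have := vertex_dl (n := c.nc + 1) (by omega) h3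
      have e2 : c.rz - 2 * π * Complex.I * cw c = 2 * π * cw c * Qc t c := this
      unfold dl
      rw [e2, norm_mul, norm_mul, norm_mul, Complex.norm_two, Complex.norm_real,
        Real.norm_of_nonneg Real.pi_pos.le]
    have e3 : ((c.nc : ℝ) + 1) * dl (c.rz, cw c) ^ 2 ≤ 4 * π ^ 2 * (‖cw c‖ * ‖Qc t c‖ ^ 2) := by
      rw [e1]
      have h4 := mul_le_mul_of_nonneg_right (cw_norm c)
        (show (0 : ℝ) ≤ 4 * π ^ 2 * (‖cw c‖ * ‖Qc t c‖ ^ 2) by positivity)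
      calc ((c.nc : ℝ) + 1) * (2 * π * ‖cw c‖ * ‖Qc t c‖) ^ 2 =
            ‖cw c‖ * (c.nc + 1) * (4 * π ^ 2 * (‖cw c‖ * ‖Qc t c‖ ^ 2)) := by ring
        _ ≤ _ := by linarith
    have e4 : (((PB.br t c).nc : ℕ) : ℝ) = t.nc + 1 := by
      have : (PB.br t c).nc = t.nc + 1 := rfl
      rw [this]
      push_cast
      ring
    have e5 : (PB.br t c).rz = t.rz := rfl
    rw [e4, e5]
    simp only [BB, xs]
    nlinarith

/-- at the root -/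
lemma root_le {p : PB} (hn : 1 ≤ p.nc) (hV : VE p.bl p.wt p.rz (p.gs sg)) :
    p.nc * dl (p.rz, cusp p.bl p.nc p.wt) ^ 2 ≤ 4 * π ^ 2 * RB p ∧
      ‖cusp p.bl p.nc p.wt‖ * ‖Qr p‖ ^ 2 ≤ RB p := by
  have h1 := cusp_norm (b := p.bl) hn p.wt
  set ω := cusp p.bl p.nc p.wt with hω
  have h2 := gs_sq p
  have h3 : ‖ω‖ * ‖Qr p‖ ^ 2 ≤ RB p := by
    calc ‖ω‖ * ‖Qr p‖ ^ 2 ≤ ‖ω‖ * (p.nc * RB p) := mul_le_mul_of_nonneg_left h2 (norm_nonneg _)
      _ = ‖ω‖ * p.nc * RB p := by ring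
      _ ≤ 1 * RB p := mul_le_mul_of_nonneg_right h1 (RB_nonneg p)
      _ = RB p := one_mul _
  refine ⟨?_, h3⟩
  have e1 : dl (p.rz, ω) = 2 * π * ‖ω‖ * ‖Qr p‖ := by
    have e2 : p.rz - 2 * π * Complex.I * ω = 2 * π * ω * Qr p := vertex_dl hn hV
    unfold dl
    rw [e2, norm_mul, norm_mul, norm_mul, Complex.norm_two, Complex.norm_real,
      Real.norm_of_nonneg Real.pi_pos.le]
  rw [e1]
  calc (p.nc : ℝ) * (2 * π * ‖ω‖ * ‖Qr p‖) ^ 2 =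
        4 * π ^ 2 * (‖ω‖ * p.nc * (‖ω‖ * ‖Qr p‖ ^ 2)) := by ring
    _ ≤ 4 * π ^ 2 * (1 * (‖ω‖ * ‖Qr p‖ ^ 2)) := by
        apply mul_le_mul_of_nonneg_left _ (by positivity)
        exact mul_le_mul_of_nonneg_right h1 (by positivity)
    _ ≤ 4 * π ^ 2 * RB p := by
        rw [one_mul]
        exact mul_le_mul_of_nonneg_left h3 (by positivity)

/-! ### One edge -/

/-- the property of the vertices -/
def PV (x : ℂ × ℂ) : Prop := x.1 ∈ D1 ∧ ‖x.1‖ ≤ 40 * π / 19 * ‖x.2‖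

lemma q4_le {x y ξ η : ℂ} {X Y : ℝ} (hx : ‖x‖ ≤ X) (hξ : ‖ξ‖ ≤ X) (hy : ‖y‖ ≤ Y) (hη : ‖η‖ ≤ Y) :
    ‖q4 x y - q4 ξ η‖ ≤
      (45 * (‖x - ξ‖ ^ 2 + ‖y - η‖ ^ 2) + 64 / 45 * (X ^ 6 + Y ^ 6)) / (192 * π) := by
  have hpi := Real.pi_pos
  have hX : 0 ≤ X := (norm_nonneg x).trans hx
  have hY : 0 ≤ Y := (norm_nonneg y).trans hy
  set d := ‖x - ξ‖ with hd
  set e := ‖y - η‖ with he
  have hd0 : 0 ≤ d := norm_nonneg _
  have he0 : 0 ≤ e := norm_nonneg _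
  have s2 : ∀ {u v : ℂ} {U : ℝ}, ‖u‖ ≤ U → ‖v‖ ≤ U → ‖u ^ 2 - v ^ 2‖ ≤ 2 * U * ‖u - v‖ := by
    intro u v U hu hv
    have e1 : u ^ 2 - v ^ 2 = (u + v) * (u - v) := by ring
    rw [e1, norm_mul]
    exact mul_le_mul_of_nonneg_right ((norm_add_le _ _).trans (by linarith)) (norm_nonneg _)
  have p2 : ∀ {u : ℂ} {U : ℝ}, ‖u‖ ≤ U → ‖u ^ 2‖ ≤ U ^ 2 := by
    intro u U hu
    rw [norm_pow]
    exact pow_le_pow_left₀ (norm_nonneg _) hu 2
  have s4 : ∀ {u v : ℂ} {U : ℝ}, ‖u‖ ≤ U → ‖v‖ ≤ U → ‖u ^ 4 - v ^ 4‖ ≤ 4 * U ^ 3 * ‖u - v‖ := by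
    intro u v U hu hv
    have e1 : u ^ 4 - v ^ 4 = (u ^ 2 + v ^ 2) * (u ^ 2 - v ^ 2) := by ring
    rw [e1, norm_mul]
    have h1 : ‖u ^ 2 + v ^ 2‖ ≤ 2 * U ^ 2 := (norm_add_le _ _).trans (by linarith [p2 hu, p2 hv])
    have h2 := mul_le_mul h1 (s2 hu hv) (norm_nonneg _) (by positivity)
    refine h2.trans (le_of_eq ?_)
    ring
  have h1 : ‖x ^ 2 * y ^ 2 - ξ ^ 2 * η ^ 2‖ ≤ 2 * X * d * Y ^ 2 + X ^ 2 * (2 * Y * e) := by
    have e1 : x ^ 2 * y ^ 2 - ξ ^ 2 * η ^ 2 = (x ^ 2 - ξ ^ 2) * y ^ 2 + ξ ^ 2 * (y ^ 2 - η ^ 2) := by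
      ring
    rw [e1]
    refine (norm_add_le _ _).trans (add_le_add ?_ ?_)
    · rw [norm_mul]
      exact mul_le_mul (s2 hx hξ) (p2 hy) (norm_nonneg _) (by positivity)
    · rw [norm_mul]
      exact mul_le_mul (p2 hξ) (s2 hy hη) (norm_nonneg _) (by positivity)
  have e0 : q4 x y - q4 ξ η =
      -((x ^ 4 - ξ ^ 4) - 6 * (x ^ 2 * y ^ 2 - ξ ^ 2 * η ^ 2) + (y ^ 4 - η ^ 4)) / (192 * π) := by
    unfold q4
    ring
  rw [e0, norm_div, norm_neg]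
  have e3 : ‖(192 : ℂ) * π‖ = 192 * π := by
    rw [norm_mul, Complex.norm_real, Real.norm_of_nonneg hpi.le]
    norm_num
  rw [e3]
  apply div_le_div_of_nonneg_right _ (by positivity)
  have h3 : ‖(x ^ 4 - ξ ^ 4) - 6 * (x ^ 2 * y ^ 2 - ξ ^ 2 * η ^ 2) + (y ^ 4 - η ^ 4)‖ ≤
      4 * X ^ 3 * d + 6 * (2 * X * d * Y ^ 2 + X ^ 2 * (2 * Y * e)) + 4 * Y ^ 3 * e := by
    refine (norm_add_le _ _).trans (add_le_add ((norm_sub_le _ _).trans (add_le_add (s4 hx hξ) ?_))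
      (s4 hy hη))
    rw [norm_mul]
    have : ‖(6 : ℂ)‖ = 6 := by norm_num
    rw [this]
    linarith
  refine h3.trans ?_
  -- Young
  set m : ℝ := 4 * X ^ 3 + 12 * X * Y ^ 2 with hm
  set k : ℝ := 4 * Y ^ 3 + 12 * X ^ 2 * Y with hk
  have y1 : m * d ≤ 45 * d ^ 2 + m ^ 2 / 180 := by
    nlinarith [sq_nonneg (90 * d - m)]
  have y2 : k * e ≤ 45 * e ^ 2 + k ^ 2 / 180 := by
    nlinarith [sq_nonneg (90 * e - k)]
  have y3 : m ^ 2 + k ^ 2 ≤ 256 * (X ^ 6 + Y ^ 6) := by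
    have e1 : 256 * (X ^ 6 + Y ^ 6) - (m ^ 2 + k ^ 2) =
        240 * ((X ^ 2 + Y ^ 2) * (X ^ 2 - Y ^ 2) ^ 2) := by
      rw [hm, hk]
      ring
    have : 0 ≤ 240 * ((X ^ 2 + Y ^ 2) * (X ^ 2 - Y ^ 2) ^ 2) := by positivity
    linarith
  have e4 : 4 * X ^ 3 * d + 6 * (2 * X * d * Y ^ 2 + X ^ 2 * (2 * Y * e)) + 4 * Y ^ 3 * e =
      m * d + k * e := by
    rw [hm, hk]
    ring
  rw [e4]
  linarith

/-- the approximation of the term of an edge -/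
noncomputable def ga (x y : ℂ × ℂ) : ℂ := ((2 * bet : ℝ) : ℂ) -
  π ^ 3 / 12 * (x.2 ^ 4 - 6 * x.2 ^ 2 * y.2 ^ 2 + y.2 ^ 4)

lemma edge_bd {x y : ℂ × ℂ} (hx : PV x) (hy : PV y) : ‖gt x y - ga x y‖ ≤
    45 / (192 * π) * (dl x ^ 2 + dl y ^ 2) +
      (31 / 6400 / π + 64 / 45 / (192 * π)) * (40 * π / 19) ^ 6 * (‖x.2‖ ^ 6 + ‖y.2‖ ^ 6) := by
  have hpi := Real.pi_pos
  have hpc : (π : ℂ) ≠ 0 := by exact_mod_cast hpi.ne'
  obtain ⟨x1, x2⟩ := hx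
  obtain ⟨y1, y2⟩ := hy
  have hI2 : (Complex.I : ℂ) ^ 2 = -1 := Complex.I_sq
  have hI4 : (Complex.I : ℂ) ^ 4 = 1 := Complex.I_pow_four
  have hq : q4 (2 * π * Complex.I * x.2) (2 * π * Complex.I * y.2) =
      -(π ^ 3 / 12 * (x.2 ^ 4 - 6 * x.2 ^ 2 * y.2 ^ 2 + y.2 ^ 4)) := by
    unfold q4
    have e1 : (2 * π * Complex.I * x.2) ^ 4 = 16 * π ^ 4 * x.2 ^ 4 := by
      linear_combination (16 * (π : ℂ) ^ 4 * x.2 ^ 4) * hI4
    have e2 : (2 * π * Complex.I * y.2) ^ 4 = 16 * π ^ 4 * y.2 ^ 4 := by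
      linear_combination (16 * (π : ℂ) ^ 4 * y.2 ^ 4) * hI4
    have e3 : 6 * (2 * π * Complex.I * x.2) ^ 2 * (2 * π * Complex.I * y.2) ^ 2 =
        16 * π ^ 4 * (6 * x.2 ^ 2 * y.2 ^ 2) := by
      linear_combination (96 * (π : ℂ) ^ 4 * x.2 ^ 2 * y.2 ^ 2) * hI4
    rw [e1, e2, e3]
    field_simp
    ring
  have e0 : gt x y - ga x y = rho y.1 x.1 +
      (q4 x.1 y.1 - q4 (2 * π * Complex.I * x.2) (2 * π * Complex.I * y.2)) := by
    rw [hq]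
    unfold gt ga rho
    ring
  rw [e0]
  have h1 := rho_bd x1 y1
  have nz : ∀ w : ℂ, ‖2 * π * Complex.I * w‖ ≤ 40 * π / 19 * ‖w‖ := by
    intro w
    rw [norm_mul, norm_mul, norm_mul, Complex.norm_two, Complex.norm_real, Complex.norm_I,
      Real.norm_of_nonneg hpi.le, mul_one]
    apply mul_le_mul_of_nonneg_right _ (norm_nonneg _)
    linarith
  have h2 := q4_le x2 (nz x.2) y2 (nz y.2)
  have h3 : ‖x.1‖ ^ 6 ≤ (40 * π / 19) ^ 6 * ‖x.2‖ ^ 6 := by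
    rw [← mul_pow]
    exact pow_le_pow_left₀ (norm_nonneg _) x2 6
  have h4 : ‖y.1‖ ^ 6 ≤ (40 * π / 19) ^ 6 * ‖y.2‖ ^ 6 := by
    rw [← mul_pow]
    exact pow_le_pow_left₀ (norm_nonneg _) y2 6
  refine (norm_add_le _ _).trans ?_
  have h5 : 31 / 6400 / π * (‖x.1‖ ^ 6 + ‖y.1‖ ^ 6) ≤ 31 / 6400 / π *
      ((40 * π / 19) ^ 6 * ‖x.2‖ ^ 6 + (40 * π / 19) ^ 6 * ‖y.2‖ ^ 6) :=
    mul_le_mul_of_nonneg_left (add_le_add h3 h4) (by positivity)
  have e5 : (45 * (‖x.1 - 2 * π * Complex.I * x.2‖ ^ 2 + ‖y.1 - 2 * π * Complex.I * y.2‖ ^ 2) +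
      64 / 45 * ((40 * π / 19 * ‖x.2‖) ^ 6 + (40 * π / 19 * ‖y.2‖) ^ 6)) / (192 * π) =
      45 / (192 * π) * (dl x ^ 2 + dl y ^ 2) +
        64 / 45 / (192 * π) * (40 * π / 19) ^ 6 * (‖x.2‖ ^ 6 + ‖y.2‖ ^ 6) := by
    unfold dl
    ring
  rw [e5] at h2
  have e6 : (31 / 6400 / π + 64 / 45 / (192 * π)) * (40 * π / 19) ^ 6 * (‖x.2‖ ^ 6 + ‖y.2‖ ^ 6) =
      31 / 6400 / π * ((40 * π / 19) ^ 6 * ‖x.2‖ ^ 6 + (40 * π / 19) ^ 6 * ‖y.2‖ ^ 6) +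
        64 / 45 / (192 * π) * (40 * π / 19) ^ 6 * (‖x.2‖ ^ 6 + ‖y.2‖ ^ 6) := by
    ring
  rw [e6]
  linarith

end Pool.Agent.U21.TL
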