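import Pool.Agent.TH563.CU.TetS

/-!
# The volume of an ideal tetrahedron: quadratic bounds
-/

set_option autoImplicit false

namespace Pool.Agent.U21.TL

open Real Set Filter MeasureTheory Pool.Agent.W709.VC Pool.Agent.W120.VC
open Pool.Agent.W719.AR (Fl)

open scoped Topology

/-- a lower bound for the Hessian form -/
theorem form_ge {a b X Y Z σ : ℝ} (hsum : X + Y + Z = π) (hσ : 0 < σ) (hX : σ ≤ sin X)
    (hY : σ ≤ sin Y) (hZ : σ ≤ sin Z) :
    σ ^ 4 / 2 * (a ^ 2 + b ^ 2) ≤ a ^ 2 * (cos X * sin Y * sin Z) + b ^ 2 * (cos Y * sin X * sin Z)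
      + (a + b) ^ 2 * (cos Z * sin X * sin Y) := by
  have hZ' : Z = π - (X + Y) := by linarith
  have e1 : a ^ 2 * (cos X * sin Y * sin Z) + b ^ 2 * (cos Y * sin X * sin Z)
      + (a + b) ^ 2 * (cos Z * sin X * sin Y)
      = (a * sin Y + cos Z * (b * sin X)) ^ 2 + sin Z ^ 2 * (b * sin X) ^ 2 := by
    have hX := sin_sq_add_cos_sq X
    have hY := sin_sq_add_cos_sq Y
    have hZ2 : sin Z ^ 2 = 1 - cos Z ^ 2 := by
      have := sin_sq_add_cos_sq Z
      linarith
    rw [hZ2, hZ', sin_pi_sub, cos_pi_sub, sin_add, cos_add]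
    linear_combination (a ^ 2 * sin Y ^ 2) * hX + (b ^ 2 * sin X ^ 2) * hY
  have e2 : (a * sin Y + cos Z * (b * sin X)) ^ 2 + sin Z ^ 2 * (b * sin X) ^ 2
      = (b * sin X + cos Z * (a * sin Y)) ^ 2 + sin Z ^ 2 * (a * sin Y) ^ 2 := by
    have hZ2 : sin Z ^ 2 = 1 - cos Z ^ 2 := by
      have := sin_sq_add_cos_sq Z
      linarith
    rw [hZ2]
    ring
  have s1 : σ ^ 2 ≤ sin X ^ 2 := pow_le_pow_left₀ hσ.le hX 2
  have s2 : σ ^ 2 ≤ sin Y ^ 2 := pow_le_pow_left₀ hσ.le hY 2
  have s3 : σ ^ 2 ≤ sin Z ^ 2 := pow_le_pow_left₀ hσ.le hZ 2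
  have k1 : σ ^ 2 * (σ ^ 2 * b ^ 2) ≤ sin Z ^ 2 * (b * sin X) ^ 2 := by
    have : (b * sin X) ^ 2 = sin X ^ 2 * b ^ 2 := by ring
    rw [this]
    exact mul_le_mul s3 (mul_le_mul_of_nonneg_right s1 (sq_nonneg _)) (by positivity)
      (by positivity)
  have k2 : σ ^ 2 * (σ ^ 2 * a ^ 2) ≤ sin Z ^ 2 * (a * sin Y) ^ 2 := by
    have : (a * sin Y) ^ 2 = sin Y ^ 2 * a ^ 2 := by ring
    rw [this]
    exact mul_le_mul s3 (mul_le_mul_of_nonneg_right s2 (sq_nonneg _)) (by positivity)
      (by positivity)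
  have q1 := sq_nonneg (a * sin Y + cos Z * (b * sin X))
  have q2 := sq_nonneg (b * sin X + cos Z * (a * sin Y))
  nlinarith

lemma sin_ge {m u : ℝ} (hm : 0 < m) (h1 : m ≤ u) (h2 : u ≤ π - m) : sin m ≤ sin u := by
  rcases le_total u (π / 2) with h | h
  · exact sin_le_sin_of_le_of_le_pi_div_two (by linarith [pi_pos]) h h1
  · rw [← sin_pi_sub u]
    exact sin_le_sin_of_le_of_le_pi_div_two (by linarith [pi_pos]) (by linarith) (by linarith)

/-- the tangent inequality with a quadratic term, all angles bounded below -/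
theorem tet_loc {x y z x' y' z' m : ℝ} (hm : 0 < m) (hx : m ≤ x) (hy : m ≤ y) (hz : m ≤ z)
    (hsum : x + y + z = π) (hx' : m ≤ x') (hy' : m ≤ y') (hz' : m ≤ z')
    (hsum' : x' + y' + z' = π) :
    GapVol.lob x' + GapVol.lob y' + GapVol.lob z' ≤ GapVol.lob x + GapVol.lob y + GapVol.lob z -
    (x' - x) * Real.log (2 * Real.sin x) - (y' - y) * Real.log (2 * Real.sin y) -
    (z' - z) * Real.log (2 * Real.sin z) -
    sin m ^ 4 / 4 * ((x' - x) ^ 2 + (y' - y) ^ 2) := by
  set a := x' - x with ha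
  set b := y' - y with hb
  set c := z' - z with hc
  have hm3 : m ≤ π / 3 := by linarith
  have hσ : 0 < sin m := sin_pos_of_pos_of_lt_pi hm (by linarith [pi_pos])
  have habc : a + b + c = 0 := by rw [ha, hb, hc]; linarith
  have hpos : ∀ t ∈ Icc (0:ℝ) 1, (m ≤ x + t * a ∧ m ≤ y + t * b ∧ m ≤ z + t * c) ∧
      (x + t * a ≤ π - m ∧ y + t * b ≤ π - m ∧ z + t * c ≤ π - m) ∧
      (x + t * a) + (y + t * b) + (z + t * c) = π := by
    intro t ht
    have h0 := ht.1
    have h0' := sub_nonneg.2 ht.2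
    have h1 : m ≤ x + t * a := by
      have : x + t * a = (1 - t) * x + t * x' := by rw [ha]; ring
      rw [this]
      have := mul_le_mul_of_nonneg_left hx h0'
      have := mul_le_mul_of_nonneg_left hx' h0
      linarith
    have h2 : m ≤ y + t * b := by
      have : y + t * b = (1 - t) * y + t * y' := by rw [hb]; ring
      rw [this]
      have := mul_le_mul_of_nonneg_left hy h0'
      have := mul_le_mul_of_nonneg_left hy' h0
      linarith
    have h3 : m ≤ z + t * c := by
      have : z + t * c = (1 - t) * z + t * z' := by rw [hc]; ring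
      rw [this]
      have := mul_le_mul_of_nonneg_left hz h0'
      have := mul_le_mul_of_nonneg_left hz' h0
      linarith
    have h4 : (x + t * a) + (y + t * b) + (z + t * c) = π := by
      have : (x + t * a) + (y + t * b) + (z + t * c) = (x + y + z) + t * (a + b + c) := by ring
      rw [this, habc, hsum]; ring
    exact ⟨⟨h1, h2, h3⟩, ⟨by linarith, by linarith, by linarith⟩, h4⟩
  set κ : ℝ := sin m ^ 4 / 2 * (a ^ 2 + b ^ 2) with hκ
  set h : ℝ → ℝ := fun t => a * Real.log (2 * sin (x + t * a)) + b * Real.log (2 * sin (y + t * b))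
    + c * Real.log (2 * sin (z + t * c)) with hh
  have hderiv : ∀ t ∈ Icc (0:ℝ) 1, HasDerivAt h
      (a ^ 2 * (cos (x + t * a) / sin (x + t * a)) + b ^ 2 * (cos (y + t * b) / sin (y + t * b))
        + c ^ 2 * (cos (z + t * c) / sin (z + t * c))) t := by
    intro t ht
    obtain ⟨⟨p1, p2, p3⟩, ⟨q1, q2, q3⟩, hs⟩ := hpos t ht
    exact ((log_sin_deriv (hm.trans_le p1) (by linarith)).add
      (log_sin_deriv (hm.trans_le p2) (by linarith))).add
      (log_sin_deriv (hm.trans_le p3) (by linarith))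
  have hderiv2 : ∀ t ∈ Icc (0:ℝ) 1, HasDerivAt (fun t => h t - κ * t)
      (a ^ 2 * (cos (x + t * a) / sin (x + t * a)) + b ^ 2 * (cos (y + t * b) / sin (y + t * b))
        + c ^ 2 * (cos (z + t * c) / sin (z + t * c)) - κ) t := by
    intro t ht
    have h1 : HasDerivAt (fun t : ℝ => κ * t) κ t := by
      simpa using (hasDerivAt_id t).const_mul κ
    exact (hderiv t ht).sub h1
  have hmono : MonotoneOn (fun t => h t - κ * t) (Icc 0 1) := by
    apply monotoneOn_of_deriv_nonneg (convex_Icc 0 1)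
    · exact fun t ht => (hderiv2 t ht).continuousAt.continuousWithinAt
    · exact fun t ht => (hderiv2 t (interior_subset ht)).differentiableAt.differentiableWithinAt
    · intro t ht
      have ht' : t ∈ Icc (0:ℝ) 1 := interior_subset ht
      rw [(hderiv2 t ht').deriv]
      obtain ⟨⟨p1, p2, p3⟩, ⟨q1, q2, q3⟩, hs⟩ := hpos t ht'
      have s1 := sin_ge hm p1 q1
      have s2 := sin_ge hm p2 q2
      have s3 := sin_ge hm p3 q3
      have t1 := hσ.trans_le s1
      have t2 := hσ.trans_le s2
      have t3 := hσ.trans_le s3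
      have hf := form_ge (a := a) (b := b) hs hσ s1 s2 s3
      have u1 := sin_le_one (x + t * a)
      have u2 := sin_le_one (y + t * b)
      have u3 := sin_le_one (z + t * c)
      have hc2 : c ^ 2 = (a + b) ^ 2 := by
        have : c = -(a + b) := by linarith
        rw [this]; ring
      have e : a ^ 2 * (cos (x + t * a) / sin (x + t * a))
          + b ^ 2 * (cos (y + t * b) / sin (y + t * b))
          + c ^ 2 * (cos (z + t * c) / sin (z + t * c))
          = (a ^ 2 * (cos (x + t * a) * sin (y + t * b) * sin (z + t * c))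
            + b ^ 2 * (cos (y + t * b) * sin (x + t * a) * sin (z + t * c))
            + (a + b) ^ 2 * (cos (z + t * c) * sin (x + t * a) * sin (y + t * b)))
            / (sin (x + t * a) * sin (y + t * b) * sin (z + t * c)) := by
        rw [hc2]
        clear hf hs
        generalize sin (x + t * a) = S1 at *
        generalize sin (y + t * b) = S2 at *
        generalize sin (z + t * c) = S3 at *
        generalize cos (x + t * a) = C1 at *
        generalize cos (y + t * b) = C2 at *
        generalize cos (z + t * c) = C3 at *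
        field_simp
      rw [e, sub_nonneg, le_div_iff₀ (by positivity)]
      refine le_trans ?_ hf
      have hP : sin (x + t * a) * sin (y + t * b) * sin (z + t * c) ≤ 1 := by
        have : sin (x + t * a) * sin (y + t * b) ≤ 1 := mul_le_one₀ u1 t2.le u2
        exact mul_le_one₀ this t3.le u3
      have hκ0 : 0 ≤ κ := by positivity
      calc κ * (sin (x + t * a) * sin (y + t * b) * sin (z + t * c)) ≤ κ * 1 :=
            mul_le_mul_of_nonneg_left hP hκ0
        _ = sin m ^ 4 / 2 * (a ^ 2 + b ^ 2) := by rw [mul_one]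
  set f : ℝ → ℝ := fun t => GapVol.lob (x + t * a) + GapVol.lob (y + t * b)
    + GapVol.lob (z + t * c) + t * h 0 + κ / 2 * t ^ 2 with hf
  have hlin : ∀ (x a t : ℝ), HasDerivAt (fun t : ℝ => x + t * a) a t := fun x a t => by
    simpa using ((hasDerivAt_id t).mul_const a).const_add x
  have hfderiv : ∀ t ∈ Icc (0:ℝ) 1, HasDerivAt f (-h t + h 0 + κ * t) t := by
    intro t ht
    obtain ⟨⟨p1, p2, p3⟩, ⟨q1, q2, q3⟩, hs⟩ := hpos t ht
    have d1 := (lob_deriv (hm.trans_le p1) (by linarith)).comp t (hlin x a t)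
    have d2 := (lob_deriv (hm.trans_le p2) (by linarith)).comp t (hlin y b t)
    have d3 := (lob_deriv (hm.trans_le p3) (by linarith)).comp t (hlin z c t)
    have d4 : HasDerivAt (fun t : ℝ => t * h 0) (h 0) t := by
      simpa using (hasDerivAt_id t).mul_const (h 0)
    have d6 : HasDerivAt (fun t : ℝ => κ / 2 * t ^ 2) (κ * t) t := by
      have := (hasDerivAt_pow 2 t).const_mul (κ / 2)
      refine this.congr_deriv ?_
      simp
      ring
    have d5 := (((d1.add d2).add d3).add d4).add d6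
    refine d5.congr_deriv ?_
    simp only [hh]
    ring
  have hcont : Continuous f := by
    have := GapVol.lob_cont
    simp only [hf]
    fun_prop
  have hanti : AntitoneOn f (Icc 0 1) := by
    apply antitoneOn_of_deriv_nonpos (convex_Icc 0 1) hcont.continuousOn
    · intro t ht
      exact (hfderiv t (interior_subset ht)).differentiableAt.differentiableWithinAt
    · intro t ht
      have ht' : t ∈ Icc (0:ℝ) 1 := interior_subset ht
      rw [(hfderiv t ht').deriv]
      have := hmono (left_mem_Icc.2 zero_le_one) ht' ht'.1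
      simp only [mul_zero, sub_zero] at this
      linarith
  have hfin := hanti (left_mem_Icc.2 zero_le_one) (right_mem_Icc.2 zero_le_one) zero_le_one
  simp only [hf, hh, zero_mul, add_zero, one_mul] at hfin
  have e1 : x + a = x' := by rw [ha]; ring
  have e2 : y + b = y' := by rw [hb]; ring
  have e3 : z + c = z' := by rw [hc]; ring
  rw [e1, e2, e3] at hfin
  have e4 : κ / 2 = sin m ^ 4 / 4 * (a ^ 2 + b ^ 2) := by rw [hκ]; ring
  have e5 : κ / 2 * (1:ℝ) ^ 2 = sin m ^ 4 / 4 * (a ^ 2 + b ^ 2) := by rw [one_pow, mul_one, e4]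
  have e6 : κ / 2 * (0:ℝ) ^ 2 = 0 := by simp
  rw [e5, e6] at hfin
  linarith

/-- the tangent inequality with a quadratic term -/
theorem tet_q {x y z : ℝ} (hx : 0 < x) (hy : 0 < y) (hz : 0 < z) (hsum : x + y + z = π) :
    ∃ c : ℝ, 0 < c ∧ ∀ x' y' z' : ℝ, 0 ≤ x' → 0 ≤ y' → 0 ≤ z' → x' + y' + z' = π →
    GapVol.lob x' + GapVol.lob y' + GapVol.lob z' ≤ GapVol.lob x + GapVol.lob y + GapVol.lob z -
    (x' - x) * Real.log (2 * Real.sin x) - (y' - y) * Real.log (2 * Real.sin y) -
    (z' - z) * Real.log (2 * Real.sin z) -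
    c * ((x' - x) ^ 2 + (y' - y) ^ 2 + (z' - z) ^ 2) := by
  obtain ⟨m, hm, m1, m2, m3⟩ : ∃ m : ℝ, 0 < m ∧ 2 * m ≤ x ∧ 2 * m ≤ y ∧ 2 * m ≤ z := by
    refine ⟨min x (min y z) / 2, by positivity, ?_, ?_, ?_⟩
    · have := min_le_left x (min y z)
      linarith
    · have := (min_le_right x (min y z)).trans (min_le_left _ _)
      linarith
    · have := (min_le_right x (min y z)).trans (min_le_right _ _)
      linarith
  have hσ : 0 < sin m := sin_pos_of_pos_of_lt_pi hm (by linarith [pi_pos])
  refine ⟨sin m ^ 4 / 24, by positivity, fun x' y' z' hx' hy' hz' hsum' => ?_⟩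
  have h1 := tet_loc (x' := (x + x') / 2) (y' := (y + y') / 2) (z' := (z + z') / 2) hm
    (by linarith) (by linarith) (by linarith) hsum (by linarith) (by linarith) (by linarith)
    (by linarith)
  have h2 := Pool.Agent.W120.VC.tet ((x + x') / 2) ((y + y') / 2) ((z + z') / 2) x' y' z'
    (by linarith) (by linarith) (by linarith) (by linarith) hx' hy' hz' hsum'
  have h3 := Pool.Agent.W120.VC.tet ((x + x') / 2) ((y + y') / 2) ((z + z') / 2) x y z
    (by linarith) (by linarith) (by linarith) (by linarith) hx.le hy.le hz.le hsum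
  have e3 : (z' - z) ^ 2 ≤ 2 * ((x' - x) ^ 2 + (y' - y) ^ 2) := by
    have : z' - z = -((x' - x) + (y' - y)) := by linarith
    rw [this]
    nlinarith [sq_nonneg ((x' - x) - (y' - y))]
  have e4 : sin m ^ 4 / 24 * ((x' - x) ^ 2 + (y' - y) ^ 2 + (z' - z) ^ 2) ≤
      sin m ^ 4 / 24 * (3 * ((x' - x) ^ 2 + (y' - y) ^ 2)) := by
    apply mul_le_mul_of_nonneg_left _ (by positivity)
    linarith
  have e5 : sin m ^ 4 / 4 * (((x + x') / 2 - x) ^ 2 + ((y + y') / 2 - y) ^ 2) =
      sin m ^ 4 / 16 * ((x' - x) ^ 2 + (y' - y) ^ 2) := by ring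
  rw [e5] at h1
  have e6 : ((x + x') / 2 - x) = (x' - x) / 2 := by ring
  have e7 : ((y + y') / 2 - y) = (y' - y) / 2 := by ring
  have e8 : ((z + z') / 2 - z) = (z' - z) / 2 := by ring
  have e9 : (x' - (x + x') / 2) = (x' - x) / 2 := by ring
  have e10 : (y' - (y + y') / 2) = (y' - y) / 2 := by ring
  have e11 : (z' - (z + z') / 2) = (z' - z) / 2 := by ring
  have e12 : (x - (x + x') / 2) = -((x' - x) / 2) := by ring
  have e13 : (y - (y + y') / 2) = -((y' - y) / 2) := by ring
  have e14 : (z - (z + z') / 2) = -((z' - z) / 2) := by ring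
  rw [e6, e7, e8] at h1
  rw [e9, e10, e11] at h2
  rw [e12, e13, e14] at h3
  nlinarith

/-- a quadratic lower bound for Lobachevsky's function -/
theorem lob_low {x : ℝ} (hx : 0 < x) (hx' : x < π) : ∃ ε C : ℝ, 0 < ε ∧ 0 < C ∧ ∀ δ : ℝ, |δ| ≤ ε →
    0 < x + δ ∧ x + δ < π ∧
    GapVol.lob x - δ * Real.log (2 * Real.sin x) - C * δ ^ 2 ≤ GapVol.lob (x + δ) := by
  have hd := (Real.hasDerivAt_log (ne_of_gt (by
    have := sin_pos_of_pos_of_lt_pi hx hx'
    positivity : 0 < 2 * sin x))).comp x ((hasDerivAt_sin x).const_mul 2)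
  have hd1 := hd.hasFDerivAt.isBigO_sub
  obtain ⟨K, hK⟩ := hd1.bound
  rw [Metric.eventually_nhds_iff] at hK
  obtain ⟨ε₀, hε₀, hK⟩ := hK
  obtain ⟨ε, hε, h1, h2, h3⟩ : ∃ ε : ℝ, 0 < ε ∧ ε < ε₀ ∧ ε < x ∧ ε < π - x := by
    refine ⟨min ε₀ (min x (π - x)) / 2, ?_, ?_, ?_, ?_⟩
    · have : 0 < π - x := by linarith
      positivity
    · have := min_le_left ε₀ (min x (π - x))
      linarith
    · have := (min_le_right ε₀ (min x (π - x))).trans (min_le_left _ _)
      linarith
    · have := (min_le_right ε₀ (min x (π - x))).trans (min_le_right _ _)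
      linarith
  set C : ℝ := max K 1 with hC
  have hC1 : 0 < C := lt_max_of_lt_right one_pos
  have hb : ∀ δ : ℝ, |δ| ≤ ε → |Real.log (2 * sin (x + δ)) - Real.log (2 * sin x)| ≤ C * |δ| := by
    intro δ hδ
    have h4 := hK (y := x + δ) (by
      rw [Real.dist_eq, add_sub_cancel_left]
      exact hδ.trans_lt h1)
    simp only [Function.comp, Real.norm_eq_abs, add_sub_cancel_left] at h4
    exact h4.trans (mul_le_mul_of_nonneg_right (le_max_left _ _) (abs_nonneg _))
  refine ⟨ε, C, hε, hC1, fun δ hδ => ?_⟩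
  obtain ⟨k1, k2⟩ := abs_le.1 hδ
  refine ⟨by linarith, by linarith, ?_⟩
  set g : ℝ → ℝ := fun δ => GapVol.lob (x + δ) + δ * Real.log (2 * sin x) + C * δ ^ 2 with hg
  have hgd : ∀ δ : ℝ, |δ| ≤ ε → HasDerivAt g (-Real.log (2 * sin (x + δ)) +
      Real.log (2 * sin x) + 2 * C * δ) δ := by
    intro δ hδ
    obtain ⟨k1, k2⟩ := abs_le.1 hδ
    have d0 : HasDerivAt (fun δ : ℝ => x + δ) 1 δ := by
      simpa using (hasDerivAt_id δ).const_add x
    have d1 := (lob_deriv (by linarith : 0 < x + δ) (by linarith)).comp δ d0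
    have d2 : HasDerivAt (fun δ : ℝ => δ * Real.log (2 * sin x)) (Real.log (2 * sin x)) δ := by
      simpa using (hasDerivAt_id δ).mul_const (Real.log (2 * sin x))
    have d3 : HasDerivAt (fun t : ℝ => C * t ^ 2) (2 * C * δ) δ := by
      have := (hasDerivAt_pow 2 δ).const_mul C
      refine this.congr_deriv ?_
      simp
      ring
    have d5 := (d1.add d2).add d3
    refine d5.congr_deriv ?_
    ring
  have hcont : Continuous g := by
    have := GapVol.lob_cont
    simp only [hg]
    fun_prop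
  have key : g 0 ≤ g δ := by
    rcases le_total 0 δ with h0 | h0
    · have hmo : MonotoneOn g (Icc 0 ε) := by
        apply monotoneOn_of_deriv_nonneg (convex_Icc 0 ε) hcont.continuousOn
        · intro t ht
          have ht' := interior_subset ht
          exact (hgd t (abs_le.2 ⟨by linarith [ht'.1], ht'.2⟩)).differentiableAt.differentiableWithinAt
        · intro t ht
          have ht' := interior_subset ht
          have ha : |t| ≤ ε := abs_le.2 ⟨by linarith [ht'.1], ht'.2⟩
          rw [(hgd t ha).deriv]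
          have h5 := (abs_le.1 (hb t ha)).2
          rw [abs_of_nonneg ht'.1] at h5
          nlinarith [ht'.1]
      exact hmo (left_mem_Icc.2 hε.le) ⟨h0, k2⟩ h0
    · have hmo : AntitoneOn g (Icc (-ε) 0) := by
        apply antitoneOn_of_deriv_nonpos (convex_Icc (-ε) 0) hcont.continuousOn
        · intro t ht
          have ht' := interior_subset ht
          exact (hgd t (abs_le.2 ⟨ht'.1, by linarith [ht'.2]⟩)).differentiableAt.differentiableWithinAt
        · intro t ht
          have ht' := interior_subset ht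
          have ha : |t| ≤ ε := abs_le.2 ⟨ht'.1, by linarith [ht'.2]⟩
          rw [(hgd t ha).deriv]
          have h5 := (abs_le.1 (hb t ha)).1
          rw [abs_of_nonpos ht'.2] at h5
          nlinarith [ht'.2]
      exact hmo ⟨k1, h0⟩ (right_mem_Icc.2 (by linarith)) h0
  simp only [hg, add_zero, zero_mul] at key
  have e0 : C * (0:ℝ) ^ 2 = 0 := by simp
  rw [e0] at key
  linarith

end Pool.Agent.U21.TL
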