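import Pool.Agent.U21.TL.Ex
import Pool.Agent.TH563.UB.Vol
import Pool.Agent.H776R3.EvenVol.TaskL

/-!
# Positivity of the volume, and the number of edges
-/

set_option autoImplicit false

namespace Pool.Agent.U21.TL

open Finset Filter Topology
open Pool.Agent.TH563.UV
open Pool.Agent.W719.AR (Fl Gap)
open Pool.Agent.W737.AR (Lf)
open Pool.Agent.TH563.UB (Hv AS hv FF ev ev_cont hv_abs hv_root FF_pos as_ang as_shape)
open scoped Real

theorem tet_pos {x y z : ℝ} (hx : 0 < x) (hy : 0 < y) (hz : 0 < z) (hsum : x + y + z = π) :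
    0 < GapVol.lob x + GapVol.lob y + GapVol.lob z := by
  have hpi : GapVol.lob π = 0 := EvenVol.LobIneq.lob_pi
  have h0 : GapVol.lob 0 = 0 := GapVol.lob_zero
  have k1 := Pool.Agent.TH563.CU.tet_lt hx hy hz hsum (x' := π) (y' := 0) (z' := 0)
    Real.pi_pos.le le_rfl le_rfl (by ring) (Or.inr hy.ne)
  have k2 := Pool.Agent.TH563.CU.tet_lt hx hy hz hsum (x' := 0) (y' := π) (z' := 0)
    le_rfl Real.pi_pos.le le_rfl (by ring) (Or.inl hx.ne)
  have k3 := Pool.Agent.TH563.CU.tet_lt hx hy hz hsum (x' := 0) (y' := 0) (z' := π)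
    le_rfl le_rfl Real.pi_pos.le (by ring) (Or.inl hx.ne)
  rw [hpi, h0] at k1 k2 k3
  set G := GapVol.lob x + GapVol.lob y + GapVol.lob z
  set A := Real.log (2 * Real.sin x)
  set B := Real.log (2 * Real.sin y)
  set C := Real.log (2 * Real.sin z)
  have e1 := mul_pos hx (sub_pos.2 k1)
  have e2 := mul_pos hy (sub_pos.2 k2)
  have e3 := mul_pos hz (sub_pos.2 k3)
  have e4 := add_pos (add_pos e1 e2) e3
  have e5 : 0 < π * G := by
    have hz' : z = π - x - y := by linarith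
    calc (0 : ℝ) < _ := e4
      _ = π * G := by
        rw [hz']
        ring
  exact (mul_pos_iff_of_pos_left Real.pi_pos).1 e5

lemma fl_vol_pos {f : Fl} (hf : f.Pos) : 0 < f.vol := by
  obtain ⟨h1, h2, h3, h4, h5, h6, h7, h8⟩ := hf
  have := tet_pos h1 h2 h3 h4
  have := tet_pos h5 h6 h7 h8
  unfold Fl.vol
  linarith

lemma vol_nonneg (y : AB) (hy : PA y) : 0 ≤ y.vol := by
  induction y with
  | vx b a => exact le_rfl
  | br t c f g iht ihc =>
    obtain ⟨h1, h2, h3, h4⟩ := hy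
    have := iht h1
    have := ihc h2
    have := fl_vol_pos h3
    have := fl_vol_pos h4
    simp only [AB.vol]
    linarith

theorem vol_edges : ∃ c : ℝ, 0 < c ∧ ∀ t : Tb, Hv 16 t → c * t.ne ≤ (AS t).vol := by
  have hK : IsCompact (Set.Icc (-(1 / 2) : ℝ) (1 / 2) ×ˢ Set.Icc (-(1 / 2) : ℝ) (1 / 2)) :=
    isCompact_Icc.prod isCompact_Icc
  have hne : (Set.Icc (-(1 / 2) : ℝ) (1 / 2) ×ˢ Set.Icc (-(1 / 2) : ℝ) (1 / 2)).Nonempty :=
    ⟨(0, 0), by constructor <;> constructor <;> norm_num⟩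
  obtain ⟨p, hp, hmin⟩ := hK.exists_isMinOn hne ev_cont.continuousOn
  have hpos : ∀ q : ℝ × ℝ, q ∈ Set.Icc (-(1 / 2) : ℝ) (1 / 2) ×ˢ Set.Icc (-(1 / 2) : ℝ) (1 / 2) →
      0 < ev q := by
    intro q hq
    have h1 : |q.1| ≤ 1 / 2 := abs_le.2 hq.1
    have h2 : |q.2| ≤ 1 / 2 := abs_le.2 hq.2
    have := fl_vol_pos (FF_pos h1 h2)
    have := fl_vol_pos (FF_pos h2 h1)
    unfold ev
    linarith
  refine ⟨ev p, hpos p hp, ?_⟩
  have hsm : 2 * π / (16 : ℕ) ≤ 1 / 2 := by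
    push_cast
    linarith [Real.pi_lt_four]
  intro t
  induction t with
  | vx b a =>
    intro _
    show ev p * ((0 : ℕ) : ℝ) ≤ 0
    simp
  | br t c ht hc =>
    rintro ⟨k1, k2⟩
    have r1 := (hv_abs (by norm_num : 0 < 16) (hv_root t k1)).trans hsm
    have r2 := (hv_abs (by norm_num : 0 < 16) (hv_root c k2)).trans hsm
    have h3 : ev p ≤ ev (hv t.bl t.wt, hv c.bl c.wt) := hmin ⟨abs_le.1 r1, abs_le.1 r2⟩
    have e1 : (AS (.br t c)).vol = (AS t).vol + (AS c).vol + ev (hv t.bl t.wt, hv c.bl c.wt) := rfl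
    have e2 : (((Tb.br t c).ne : ℕ) : ℝ) = t.ne + c.ne + 1 := by
      show ((t.ne + c.ne + 1 : ℕ) : ℝ) = _
      push_cast
      ring
    rw [e1, e2]
    have := ht k1
    have := hc k2
    linarith

end Pool.Agent.U21.TL
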